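import Pool.Agent.Work.MP_39033f_nt.Full

set_option autoImplicit false

open MvPolynomial
open scoped MonoidAlgebra TensorProduct

namespace Pool.Agent.Work.MP_39033f_nt

section ring

variable {R k : Type} [CommRing R] [IsLocalRing R] [Field k]

omit [IsLocalRing R] in
lemma map_apply' (π : R →+* k) (g : GL (Fin 2) R) (i j : Fin 2) :
    (Matrix.GeneralLinearGroup.map π g : GL (Fin 2) k) i j = π (g i j) := rfl

lemma ker_eq_max (π : R →+* k) (hπ : Function.Surjective π) :
    RingHom.ker π = IsLocalRing.maximalIdeal R :=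
  IsLocalRing.eq_maximalIdeal (RingHom.ker_isMaximal_of_surjective π hπ)

/-- `GL₂(R) → GL₂(k)` is surjective. -/
lemma gl_surjective (π : R →+* k) (hπ : Function.Surjective π) :
    Function.Surjective (Matrix.GeneralLinearGroup.map (n := Fin 2) π) := by
  intro h
  choose s hs using hπ
  let A : Matrix (Fin 2) (Fin 2) R := fun i j => s (h i j)
  have hA : A.map π = (h : Matrix (Fin 2) (Fin 2) k) := by
    ext i j
    simp [A, hs]
  have hdet : π A.det = (h : Matrix (Fin 2) (Fin 2) k).det := by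
    rw [← hA, RingHom.map_det]
    rfl
  have hne : (h : Matrix (Fin 2) (Fin 2) k).det ≠ 0 := h.det.ne_zero
  have hu : IsUnit A.det := by
    by_contra hcon
    have h1 : A.det ∈ IsLocalRing.maximalIdeal R := (IsLocalRing.mem_maximalIdeal _).2 hcon
    rw [← ker_eq_max π (fun x => ⟨s x, hs x⟩), RingHom.mem_ker, hdet] at h1
    exact hne h1
  refine ⟨Matrix.GeneralLinearGroup.mk'' A hu, ?_⟩
  ext i j
  rw [map_apply']
  exact hs _

/-- all entries in an ideal -/
def EntIn (J : Ideal R) (X : Matrix (Fin 2) (Fin 2) R) : Prop := ∀ i j, X i j ∈ J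

omit [IsLocalRing R] in
lemma EntIn.mul_right {J : Ideal R} {X : Matrix (Fin 2) (Fin 2) R} (h : EntIn J X)
    (Y : Matrix (Fin 2) (Fin 2) R) : EntIn J (X * Y) := by
  intro i j
  rw [Matrix.mul_apply]
  exact J.sum_mem fun l _ => J.mul_mem_right _ (h i l)

omit [IsLocalRing R] in
lemma EntIn.mul {J J' : Ideal R} {X Y : Matrix (Fin 2) (Fin 2) R} (h : EntIn J X)
    (h' : EntIn J' Y) : EntIn (J * J') (X * Y) := by
  intro i j
  rw [Matrix.mul_apply]
  exact Ideal.sum_mem _ fun l _ => Ideal.mul_mem_mul (h i l) (h' l j)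

omit [IsLocalRing R] in
lemma EntIn.pow_step {p : ℕ} (hp : p.Prime) {m J : Ideal R} (hJ : J ≤ m)
    (hpm : (p : R) ∈ m) {A : Matrix (Fin 2) (Fin 2) R} (h : EntIn J (A - 1)) :
    EntIn (m * J) (A ^ p - 1) := by
  set X := A - 1 with hX
  have hA : A = 1 + X := by rw [hX]; abel
  obtain ⟨r, hr⟩ := (Commute.one_left X).exists_add_pow_prime_eq hp
  rw [hA, hr]
  have h1 : (1 : Matrix (Fin 2) (Fin 2) R) ^ p + X ^ p + (p : Matrix (Fin 2) (Fin 2) R) * 1 * X * r - 1
      = X * X * X ^ (p - 2) + (p : Matrix (Fin 2) (Fin 2) R) * (X * r) := by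
    have h2 : X ^ p = X * X * X ^ (p - 2) := by
      rw [← pow_two, ← pow_add]
      congr 1
      have := hp.two_le
      omega
    rw [one_pow, h2, mul_one, mul_assoc _ X r]
    abel
  rw [h1]
  have hXm : EntIn m X := fun i j => hJ (h i j)
  intro i j
  rw [Matrix.add_apply]
  refine Ideal.add_mem _ ((hXm.mul h).mul_right _ i j) ?_
  have h3 : ((p : Matrix (Fin 2) (Fin 2) R) * (X * r)) i j = (p : R) * (X * r) i j := by
    rw [← nsmul_eq_mul, Matrix.smul_apply, nsmul_eq_mul]
  rw [h3]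
  exact Ideal.mul_mem_mul hpm (h.mul_right r i j)

omit [IsLocalRing R] in
lemma EntIn.pow_iter {p : ℕ} (hp : p.Prime) {m : Ideal R}
    (hpm : (p : R) ∈ m) {A : Matrix (Fin 2) (Fin 2) R} (h : EntIn m (A - 1)) (n : ℕ) :
    EntIn (m ^ (n + 1)) (A ^ p ^ n - 1) := by
  induction n with
  | zero => simpa using h
  | succ n ih =>
    rw [pow_succ p n, pow_mul]
    have := ih.pow_step hp (Ideal.pow_le_self (by omega)) hpm
    rw [pow_succ' m (n + 1)]
    exact this

/-- some power of the maximal ideal lies in `I` -/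
lemma exists_pow_le (I : Ideal R) [Finite (R ⧸ I)] :
    ∃ n, IsLocalRing.maximalIdeal R ^ n ≤ I := by
  have : IsArtinianRing (R ⧸ I) := inferInstance
  obtain ⟨n, hn⟩ := IsArtinianRing.isNilpotent_jacobson_bot (R := R ⧸ I)
  refine ⟨n, ?_⟩
  have h1 : (IsLocalRing.maximalIdeal R).map (Ideal.Quotient.mk I) ≤ Ideal.jacobson ⊥ := by
    rw [Ideal.map_le_iff_le_comap]
    intro x hx
    rw [Ideal.mem_comap, Ideal.mem_jacobson_bot]
    intro y
    obtain ⟨y, rfl⟩ := Ideal.Quotient.mk_surjective y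
    rw [← map_mul, ← map_one (Ideal.Quotient.mk I), ← map_add]
    apply IsUnit.map
    by_contra hcon
    have h2 : x * y + 1 ∈ IsLocalRing.maximalIdeal R := (IsLocalRing.mem_maximalIdeal _).2 hcon
    have h3 : (1 : R) ∈ IsLocalRing.maximalIdeal R := by
      have := Ideal.sub_mem _ h2 (Ideal.mul_mem_right y _ hx)
      simpa using this
    exact (Ideal.ne_top_iff_one _).1 (IsLocalRing.maximalIdeal.isMaximal R).ne_top h3
  have h4 : ((IsLocalRing.maximalIdeal R) ^ n).map (Ideal.Quotient.mk I) = ⊥ := by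
    rw [Ideal.map_pow, eq_bot_iff]
    refine (Ideal.pow_right_mono h1 n).trans ?_
    rw [hn]
    exact le_rfl
  have h5 := (Ideal.map_eq_bot_iff_le_ker _).1 h4
  rwa [Ideal.mk_ker] at h5

/-- A representation of `GL₂(R)` which is trivial on a congruence subgroup: the kernel of
reduction acts through a finite `p`-group. -/
theorem pact_of_congruence {p : ℕ} [Fact p.Prime] [CharP k p] (π : R →+* k)
    (hπ : Function.Surjective π) {F V : Type} [Field F] [AddCommGroup V] [Module F V]
    (ρ : Representation F (GL (Fin 2) R) V) (I : Ideal R) [Finite (R ⧸ I)]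
    (hI : ∀ g : GL (Fin 2) R, (∀ i j, g i j - (1 : Matrix (Fin 2) (Fin 2) R) i j ∈ I) → ρ g = 1) :
    PAct p ρ (Matrix.GeneralLinearGroup.map (n := Fin 2) π).ker := by
  have hcong : ∀ g h : GL (Fin 2) R, (∀ i j, g i j - h i j ∈ I) → ρ g = ρ h := by
    intro g h hgh
    have h1 : ρ (h⁻¹ * g) = 1 := by
      apply hI
      have h2 : EntIn I ((g : Matrix (Fin 2) (Fin 2) R) - (h : Matrix (Fin 2) (Fin 2) R)) :=
        fun i j => hgh i j
      intro i j
      have h3 : ((h⁻¹ * g : GL (Fin 2) R) : Matrix (Fin 2) (Fin 2) R) - 1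
          = ((h⁻¹ : GL (Fin 2) R) : Matrix (Fin 2) (Fin 2) R) *
            ((g : Matrix (Fin 2) (Fin 2) R) - (h : Matrix (Fin 2) (Fin 2) R)) := by
        rw [mul_sub, ← Units.val_mul, ← Units.val_mul, inv_mul_cancel, Units.val_one]
      have h4 : ((h⁻¹ * g : GL (Fin 2) R) i j - (1 : Matrix (Fin 2) (Fin 2) R) i j)
          = (((h⁻¹ * g : GL (Fin 2) R) : Matrix (Fin 2) (Fin 2) R) - 1) i j := rfl
      rw [h4, h3, Matrix.mul_apply]
      exact Ideal.sum_mem _ fun l _ => Ideal.mul_mem_left _ _ (h2 l j)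
    have h5 : g = h * (h⁻¹ * g) := by group
    rw [h5, map_mul, h1, mul_one]
  refine ⟨?_, fun g hg => ?_⟩
  · let c : GL (Fin 2) R → (Fin 2 → Fin 2 → R ⧸ I) := fun g i j => Ideal.Quotient.mk I (g i j)
    have hfac : ∀ g h, c g = c h → ρ g = ρ h := by
      intro g h hgh
      apply hcong
      intro i j
      exact Ideal.Quotient.eq.1 (congrFun (congrFun hgh i) j)
    have hfin : (Set.range c).Finite := Set.toFinite _
    refine Set.Finite.subset (hfin.image (Function.extend c ρ (fun _ => 0))) ?_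
    rintro _ ⟨g, _, rfl⟩
    refine ⟨c g, ⟨g, rfl⟩, ?_⟩
    exact Function.FactorsThrough.extend_apply (fun a b hab => hfac a b hab) _ g
  · obtain ⟨n, hn⟩ := exists_pow_le I
    refine ⟨n, ?_⟩
    rw [← map_pow]
    apply hI
    have hpm : (p : R) ∈ IsLocalRing.maximalIdeal R := by
      rw [← ker_eq_max π hπ, RingHom.mem_ker, map_natCast, CharP.cast_eq_zero]
    have hg1 : EntIn (IsLocalRing.maximalIdeal R) ((g : Matrix (Fin 2) (Fin 2) R) - 1) := by
      intro i j
      rw [← ker_eq_max π hπ, RingHom.mem_ker, Matrix.sub_apply, map_sub]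
      have h1 : (Matrix.GeneralLinearGroup.map π g : GL (Fin 2) k) = 1 := hg
      have h2 : π (g i j) = (1 : GL (Fin 2) k) i j := by
        rw [← h1]; rfl
      rw [h2]
      rw [Units.val_one, Matrix.one_apply, Matrix.one_apply]
      split_ifs <;> simp
    have h3 := hg1.pow_iter (Fact.out : p.Prime) hpm n
    intro i j
    have h4 := h3 i j
    have h5 : (((g ^ p ^ n : GL (Fin 2) R) : Matrix (Fin 2) (Fin 2) R) - 1) i j ∈
        IsLocalRing.maximalIdeal R ^ (n + 1) := by
      rw [Units.val_pow_eq_pow_val]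
      exact h4
    exact hn (Ideal.pow_le_pow_right (by omega) h5)

end ring

section finite

variable {Emb : Type} [Fintype Emb] [DecidableEq Emb]

lemma restricted_finite (p q : ℕ) (S : Finset Emb) (x₀ : Emb) :
    {ν : Emb → ℤ × ℤ | Restricted p q S x₀ ν}.Finite := by
  refine Set.Finite.subset (Fintype.piFinset (fun _ : Emb =>
    (Finset.Icc (0 : ℤ) (p + q) ×ˢ Finset.Icc (0 : ℤ) q))).finite_toSet ?_
  intro ν hν
  rw [Finset.mem_coe, Fintype.mem_piFinset]
  intro x
  have h1 := hν.1 x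
  rw [Finset.mem_product, Finset.mem_Icc, Finset.mem_Icc]
  have h2 := hν.2.2.2
  by_cases hx : x = x₀
  · subst hx
    omega
  · have h3 := hν.2.2.1 x hx
    omega

end finite

end Pool.Agent.Work.MP_39033f_nt
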