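import Pool.Agent.Work.MP_39033f_nt.Determine

set_option autoImplicit false

open MvPolynomial
open scoped MonoidAlgebra TensorProduct

namespace Pool.Agent.Work.MP_39033f_nt

section periodic

variable {p : ℕ} [Fact p.Prime] {k F Emb : Type} [Field k] [CharP k p] [Field F]
  [Fintype Emb] [DecidableEq Emb]

lemma prod_det_shift (κ : Emb → k →+* F) (lam : Emb → ℤ × ℤ) (x : Emb) (m : ℤ) (d : k)
    (hd : d ≠ 0) :
    (∏ z, (κ z d) ^ ((lam + Pi.single x (m, m) : Emb → ℤ × ℤ) z).2)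
      = (∏ z, (κ z d) ^ (lam z).2) * (κ x d) ^ m := by
  have h1 : ∀ z, (κ z d) ^ ((lam + Pi.single x (m, m) : Emb → ℤ × ℤ) z).2
      = (κ z d) ^ (lam z).2 * (if z = x then (κ x d) ^ m else 1) := by
    intro z
    by_cases hz : z = x
    · subst hz
      have hne : κ z d ≠ 0 := (map_ne_zero _).2 hd
      rw [Pi.add_apply, Pi.single_eq_same, Prod.snd_add, zpow_add₀ hne, if_pos rfl]
    · rw [Pi.add_apply, Pi.single_eq_of_ne hz, add_zero, if_neg hz, mul_one]
  rw [Finset.prod_congr rfl (fun z _ => h1 z), Finset.prod_mul_distrib, Finset.prod_ite_eq']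
  simp

omit [Fact p.Prime] [CharP k p] in
lemma AddFn.wval_congr (Φ : AddFn F (GL (Fin 2) k)) (κ : Emb → k →+* F)
    (lamA lamB : Emb → ℤ × ℤ) (hgap : gap lamA = gap lamB)
    (hdet : ∀ d : k, d ≠ 0 → (∏ z, (κ z d) ^ (lamA z).2) = ∏ z, (κ z d) ^ (lamB z).2) :
    Φ.wval κ lamA = Φ.wval κ lamB := by
  have hH : Homog F (gap lamA) = Homog F (gap lamB) := by rw [hgap]
  refine Φ.iso (W κ lamA) (W κ lamB) (LinearEquiv.ofEq _ _ hH) ?_
  intro g u
  apply Subtype.ext
  rw [LinearEquiv.coe_ofEq_apply, W_coe, W_coe, LinearEquiv.coe_ofEq_apply,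
    hdet _ (Units.ne_zero _)]

/-- The values of an additive function on the `W_λ` are Frobenius periodic. -/
theorem AddFn.frobeniusPeriodic (Φ : AddFn F (GL (Fin 2) k)) (κ : Emb → k →+* F) :
    FrobeniusPeriodic p κ (Φ.wval κ) := by
  intro x y hxy lam hlam
  have : CharP F p := charP_of_injective_ringHom (κ x).injective p
  refine ⟨?_, ?_⟩
  · have h1 := AddFn.wval_pair κ x 1 (fun a b => by simp) (κ x) (fun a => by simp)
      0 (gap lam x) (by omega) Φ lam hlam rfl
    have h2 := AddFn.wval_pair κ y p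
      (fun a b => add_pow_char (R := MvPolynomial (Emb × Fin 2) F) a b p) (κ x) hxy
      p (gap lam y) (by omega) Φ lam hlam rfl
    rw [h1] at h2
    unfold powOp at h2
    exact_mod_cast h2
  · apply Φ.wval_congr
    · rw [gap_add_same, gap_add_same]
    · intro d hd
      rw [prod_det_shift κ lam x 1 _ hd, prod_det_shift κ lam y p _ hd,
        zpow_one, hxy, zpow_natCast]

omit [Fact p.Prime] [CharP k p] in
/-- Frobenius periodicity only depends on the values on dominant weights. -/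
lemma FrobeniusPeriodic.congr {κ : Emb → k →+* F} {e e' : (Emb → ℤ × ℤ) → ℤ}
    (he : FrobeniusPeriodic p κ e) (h : ∀ ν, Dominant ν → e ν = e' ν) :
    FrobeniusPeriodic p κ e' := by
  intro x y hxy lam hlam
  obtain ⟨h1, h2⟩ := he x y hxy lam hlam
  refine ⟨?_, ?_⟩
  · rw [← hat_congr h, ← hat_congr h, ← hat_congr h, ← hat_congr h]
    exact h1
  · rw [← h _ (dominant_add lam hlam x _ _ le_rfl), ← h _ (dominant_add lam hlam y _ _ le_rfl)]
    exact h2

omit [DecidableEq Emb] in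
lemma hat_sub (e e' : (Emb → ℤ × ℤ) → ℤ) (ν : Emb → ℤ × ℤ) :
    hat (fun l => e l - e' l) ν = hat e ν - hat e' ν := by
  unfold hat; ring

omit [Fact p.Prime] [CharP k p] in
lemma FrobeniusPeriodic.sub {κ : Emb → k →+* F} {e e' : (Emb → ℤ × ℤ) → ℤ}
    (he : FrobeniusPeriodic p κ e) (he' : FrobeniusPeriodic p κ e') :
    FrobeniusPeriodic p κ (fun l => e l - e' l) := by
  intro x y hxy lam hlam
  obtain ⟨h1, h2⟩ := he x y hxy lam hlam
  obtain ⟨h3, h4⟩ := he' x y hxy lam hlam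
  refine ⟨?_, ?_⟩
  · simp only [hat_sub]
    linarith
  · simp only
    rw [h2, h4]

end periodic

section system

variable {p : ℕ} [Fact p.Prime] {k F Emb : Type} [Field k] [Fintype k] [CharP k p] [Field F]
  [Fintype Emb] [DecidableEq Emb]

/-- The Breuil–Mézard system of one type is equivalent to Frobenius periodicity together with
its restricted part. -/
theorem system_iff (κ : Emb → k →+* F) (hκ : ∀ j : k →+* F, ∃ x, κ x = j) (S : Finset Emb)
    (x₀ : Emb) (hS : ∀ x, ∃ x' ∈ S, κ x' = κ x) {Γ : Type} [Group Γ]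
    (φ : Γ →* GL (Fin 2) k) {N : Type} [AddCommGroup N] [Module F N] [FiniteDimensional F N]
    (M : Representation F Γ N) (μ : WeightFn F[Γ]) (e : (Emb → ℤ × ℤ) → ℕ) :
    (∀ lam, Dominant lam →
      RepJHSum μ (twist φ M (W κ lam)) (e lam)) ↔
    (FrobeniusPeriodic p κ (fun lam => (e lam : ℤ)) ∧
      ∀ lam, Restricted p (Fintype.card k) S x₀ lam →
        RepJHSum μ (twist φ M (W κ lam)) (e lam)) := by
  set Φ := AddFn.ofWeight φ μ M with hΦ
  have hval : ∀ lam, Φ.wval κ lam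
      = (jh μ (twist φ M (W κ lam)) : ℤ) := fun lam => rfl
  constructor
  · intro h
    refine ⟨?_, fun lam hlam => h lam (fun x => (hlam.1 x).1)⟩
    refine (Φ.frobeniusPeriodic κ).congr (fun ν hν => ?_)
    rw [hval, jh_eq (h ν hν)]
  · rintro ⟨h1, h2⟩ lam hlam
    have h3 := ((Φ.frobeniusPeriodic κ).sub h1).eq_zero hκ S x₀ hS (fun l hl => by
      rw [hval, jh_eq (h2 l hl), sub_self]) lam hlam
    rw [hval] at h3
    have h4 : jh μ (twist φ M (W κ lam)) = e lam := by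
      have := sub_eq_zero.1 h3
      exact_mod_cast this
    rw [← h4]
    exact jhSum_jh μ _

/-- The Breuil–Mézard system of a family of types. -/
theorem family_iff (κ : Emb → k →+* F) (hκ : ∀ j : k →+* F, ∃ x, κ x = j) (S : Finset Emb)
    (x₀ : Emb) (hS : ∀ x, ∃ x' ∈ S, κ x' = κ x) {Γ : Type} [Group Γ]
    (φ : Γ →* GL (Fin 2) k) {T : Type} (N : T → Type) [∀ τ, AddCommGroup (N τ)]
    [∀ τ, Module F (N τ)] [∀ τ, FiniteDimensional F (N τ)]
    (M : ∀ τ, Representation F Γ (N τ)) (e : T → (Emb → ℤ × ℤ) → ℕ) :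
    (∃ μ : WeightFn F[Γ], ∀ τ lam, Dominant lam →
      RepJHSum μ (twist φ (M τ) (W κ lam)) (e τ lam)) ↔
    ((∀ τ, FrobeniusPeriodic p κ (fun lam => (e τ lam : ℤ))) ∧
      ∃ μ : WeightFn F[Γ], ∀ τ lam, Restricted p (Fintype.card k) S x₀ lam →
        RepJHSum μ (twist φ (M τ) (W κ lam)) (e τ lam)) := by
  constructor
  · rintro ⟨μ, h⟩
    have h1 := fun τ => (system_iff (p := p) κ hκ S x₀ hS φ (M τ) μ (e τ)).1 (h τ)
    exact ⟨fun τ => (h1 τ).1, μ, fun τ => (h1 τ).2⟩
  · rintro ⟨h1, μ, h2⟩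
    exact ⟨μ, fun τ => (system_iff (p := p) κ hκ S x₀ hS φ (M τ) μ (e τ)).2 ⟨h1 τ, h2 τ⟩⟩

end system

end Pool.Agent.Work.MP_39033f_nt
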