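import Pool.Agent.Work.MP_39033f_nt.Simple

set_option autoImplicit false

open MvPolynomial
open scoped MonoidAlgebra TensorProduct

namespace Pool.Agent.Work.MP_39033f_nt

/-- The multiplicity of the irreducible representation `σ`, as a weight function: `1` on modules
isomorphic to `σ`, `0` otherwise. -/
noncomputable def multFn {F Γ N : Type} [Field F] [Group Γ] [AddCommGroup N] [Module F N]
    (σ : Representation F Γ N) : WeightFn F[Γ] := by
  classical
  exact
  { val := fun M _ _ => if Nonempty (M ≃ₗ[F[Γ]] σ.asModule) then 1 else 0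
    iso := by
      intro M M' _ _ _ _ e
      have : Nonempty (M ≃ₗ[F[Γ]] σ.asModule) ↔ Nonempty (M' ≃ₗ[F[Γ]] σ.asModule) :=
        ⟨fun ⟨h⟩ => ⟨e.symm.trans h⟩, fun ⟨h⟩ => ⟨e.trans h⟩⟩
      simp only [this] }

section mult

variable {F Γ : Type} [Field F] [Group Γ]

lemma multFn_pos {N : Type} [AddCommGroup N] [Module F N] (σ : Representation F Γ N)
    (M : Type) [AddCommGroup M] [Module F[Γ] M] (h : IsoTo M σ) : (multFn σ).val M = 1 := by
  unfold multFn
  exact if_pos h

lemma multFn_zero {N : Type} [AddCommGroup N] [Module F N] (σ : Representation F Γ N)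
    (M : Type) [AddCommGroup M] [Module F[Γ] M] (h : ¬ IsoTo M σ) : (multFn σ).val M = 0 := by
  unfold multFn
  exact if_neg h

lemma exists_jhSum_module (μ : WeightFn F[Γ]) (M : Type) [AddCommGroup M] [Module F[Γ] M]
    [IsNoetherian F[Γ] M] [IsArtinian F[Γ] M] : ∃ n, JHSum μ M n := by
  obtain ⟨s, h1, h2⟩ := exists_compositionSeries_of_isNoetherian_isArtinian F[Γ] M
  exact ⟨μ.sum s, s, h1, h2, rfl⟩

lemma noeth {V : Type} [AddCommGroup V] [Module F V] [FiniteDimensional F V]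
    (ρ : Representation F Γ V) : IsNoetherian F[Γ] ρ.asModule := by
  have : IsNoetherian F ρ.asModule := inferInstanceAs (IsNoetherian F V)
  exact isNoetherian_of_tower F inferInstance

lemma artin {V : Type} [AddCommGroup V] [Module F V] [FiniteDimensional F V]
    (ρ : Representation F Γ V) : IsArtinian F[Γ] ρ.asModule := by
  have : IsArtinian F ρ.asModule := inferInstanceAs (IsArtinian F V)
  exact isArtinian_of_tower F inferInstance

/-- An irreducible quotient contributes to the Jordan–Hölder sum. -/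
lemma val_le_jh (μ : WeightFn F[Γ]) {V N : Type} [AddCommGroup V] [Module F V]
    [FiniteDimensional F V] [AddCommGroup N] [Module F N] (ρ : Representation F Γ V)
    (σ : Representation F Γ N) (hs : IsSimpleModule F[Γ] σ.asModule)
    (f : V →ₗ[F] N) (hf : ∀ g u, f (ρ g u) = σ g (f u)) (h0 : f ≠ 0) :
    μ.val σ.asModule ≤ jh μ ρ := by
  have := noeth ρ
  have := artin ρ
  let f' := toMod ρ σ f hf
  have hf' : Function.Surjective f' := by
    rcases LinearMap.surjective_or_eq_zero f' with h | h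
    · exact h
    · exfalso
      apply h0
      ext u
      exact LinearMap.congr_fun h u
  obtain ⟨a, ha⟩ := exists_jhSum_module μ (LinearMap.ker f')
  have h1 := JHSum.of_exact (LinearMap.ker f').subtype f' (Submodule.subtype_injective _) hf'
    (Submodule.range_subtype _) ha (JHSum.of_simple μ σ.asModule)
  rw [jh_eq h1]
  omega

end mult

section setup

variable {k F Emb : Type} [Field k] [Field F] [Fintype k]

/-- Auxiliary data. -/
structure Setup (p : ℕ) (κ : Emb → k →+* F) (S : Finset Emb) (x₀ : Emb) (t : Emb → ℕ)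
    (f : ℕ) : Prop where
  ht : ∀ x a, κ x a = κ x₀ a ^ p ^ t x
  hq : Fintype.card k = p ^ f
  hf : ∀ x ∈ S, t x < f
  hinj : Set.InjOn t S
  hκ : ∀ j : k →+* F, ∃ x, κ x = j
  hS : ∀ x, ∃ x' ∈ S, κ x' = κ x

lemma exists_setup {p : ℕ} [Fact p.Prime] [CharP k p] (κ : Emb → k →+* F) (S : Finset Emb)
    (x₀ : Emb) (h : ∀ j : k →+* F, ∃! x, x ∈ S ∧ κ x = j) : ∃ t f, Setup p κ S x₀ t f := by
  choose t ht htq using fun x => exists_frob_pow p (κ x₀) (κ x)
  obtain ⟨f, hf0, hq⟩ := card_eq_pow (k := k) p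
  refine ⟨t, f, ht, hq, ?_, ?_, ?_, ?_⟩
  · intro x _
    have h1 := htq x
    rw [hq] at h1
    exact (Nat.pow_lt_pow_iff_right (Fact.out : p.Prime).one_lt).1 h1
  · intro x hx y hy hxy
    have h1 : κ x = κ y := by
      ext a
      rw [ht x a, ht y a, hxy]
    exact (h (κ y)).unique ⟨hx, h1⟩ ⟨hy, rfl⟩
  · intro j
    obtain ⟨x, ⟨_, hx⟩, _⟩ := h j
    exact ⟨x, hx⟩
  · intro x
    obtain ⟨x', ⟨hx', hx⟩, _⟩ := h (κ x)
    exact ⟨x', hx', hx⟩

variable [Fintype Emb] [DecidableEq Emb] {p : ℕ} [Fact p.Prime] [CharP k p]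
  {κ : Emb → k →+* F} {S : Finset Emb} {x₀ : Emb} {t : Emb → ℕ} {f : ℕ}

lemma Setup.simple (h : Setup p κ S x₀ t f) {lam : Emb → ℤ × ℤ}
    (hl : Restricted p (Fintype.card k) S x₀ lam) :
    IsSimpleModule F[GL (Fin 2) k] (W κ lam).asModule := by
  refine W_simple κ h.ht h.hq h.hf h.hinj lam (fun x => ?_) (fun x hx => ?_)
  · have := hl.1 x
    unfold gap
    omega
  · have := hl.2.1 x hx
    unfold gap
    omega

omit [Fintype Emb] [DecidableEq Emb] in
lemma gsum_zero [Fintype Emb] [DecidableEq Emb] {e : (Emb → ℤ × ℤ) → ℤ}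
    (he : ∀ ν, Dominant ν → e ν = 0) (ν lam : Emb → ℤ × ℤ) : gsum (hat e) ν lam = 0 := by
  unfold gsum
  apply Finset.sum_eq_zero
  intro i _
  rw [hat_congr (e' := fun _ => 0) he]
  simp [hat]

lemma val_ofMu_tens (μ : WeightFn F[GL (Fin 2) k]) (lam ν : Emb → ℤ × ℤ) :
    ((AddFn.ofMu μ).tens (W κ ν)).wval κ lam
    = (jh (V := Homog F (gap lam) ⊗[F] Homog F (gap ν)) μ
      (Representation.tprod (W κ lam) (W κ ν)) : ℤ) := rfl

theorem Setup.classify (h : Setup p κ S x₀ t f) {V : Type} [AddCommGroup V] [Module F V]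
    (ρ : Representation F (GL (Fin 2) k) V) (hs : IsSimpleModule F[GL (Fin 2) k] ρ.asModule) :
    ∃ ν, Restricted p (Fintype.card k) S x₀ ν ∧ IsoTo (W κ ν).asModule ρ := by
  by_contra hcon
  push Not at hcon
  obtain ⟨v, hv⟩ : ∃ v : V, v ≠ 0 := by
    have := IsSimpleModule.nontrivial F[GL (Fin 2) k] ρ.asModule
    exact exists_ne (0 : ρ.asModule)
  obtain ⟨lam, ν, hlam, hν, g, hg, hg0⟩ := exists_map κ x₀ ρ v hv
  have h1 : ∀ l, Dominant l → (AddFn.ofMu (multFn ρ)).wval κ l = 0 := by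
    refine ((AddFn.ofMu (multFn ρ)).frobeniusPeriodic κ).eq_zero h.hκ S x₀ h.hS (fun l hl => ?_)
    have hsl := h.simple hl
    have h2 : (AddFn.ofMu (multFn ρ)).wval κ l = (jh (multFn ρ) (W κ l) : ℤ) := rfl
    rw [h2, jh_eq (JHSum.of_simple (multFn ρ) (W κ l).asModule),
      multFn_zero ρ _ (hcon l hl)]
    rfl
  have h3 := (AddFn.ofMu (multFn ρ)).tens_wval κ _ lam ν hlam hν rfl
  rw [gsum_zero h1, val_ofMu_tens] at h3
  have h5 := val_le_jh (V := Homog F (gap lam) ⊗[F] Homog F (gap ν)) (multFn ρ) _ ρ hs g hg hg0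
  rw [multFn_pos ρ _ ⟨LinearEquiv.refl _ _⟩] at h5
  omega

end setup

end Pool.Agent.Work.MP_39033f_nt
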