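import Pool.Agent.Work.MP_39033f_nt.Irred3

set_option autoImplicit false

open MvPolynomial
open scoped MonoidAlgebra TensorProduct

namespace Pool.Agent.Work.MP_39033f_nt

section generic

variable {F Γ : Type} [Field F] [Group Γ]

/-- The additive function attached to a weight function. -/
noncomputable def AddFn.ofMu (μ : WeightFn F[Γ]) : AddFn F Γ where
  val V _ _ ρ := (jh μ ρ : ℤ)
  exact' := by
    intro U V W _ _ _ _ _ _ _ _ _ ρU ρV ρW i π hi hπ hinj hsurj hex
    rw [← Nat.cast_add, Nat.cast_inj]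
    exact jh_exact μ _ _ _ i π hi hπ hinj hsurj hex

/-- `M` is isomorphic to the module of `ρ`. -/
def IsoTo {V : Type} [AddCommGroup V] [Module F V] (M : Type) [AddCommGroup M] [Module F[Γ] M]
    (ρ : Representation F Γ V) : Prop := Nonempty (M ≃ₗ[F[Γ]] ρ.asModule)

lemma IsoTo.trans' {V V' : Type} [AddCommGroup V] [Module F V] [AddCommGroup V'] [Module F V']
    {M : Type} [AddCommGroup M] [Module F[Γ] M] {ρ : Representation F Γ V}
    {ρ' : Representation F Γ V'} (h : IsoTo M ρ) (h' : IsoTo M ρ') :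
    ∃ φ : V →ₗ[F] V', ∃ φ' : V' →ₗ[F] V, (Function.Injective φ ∧ ∀ g v, φ (ρ g v) = ρ' g (φ v)) ∧
      (Function.Injective φ' ∧ ∀ g v, φ' (ρ' g v) = ρ g (φ' v)) := by
  obtain ⟨e⟩ := h
  obtain ⟨e'⟩ := h'
  let ψ : ρ.asModule ≃ₗ[F[Γ]] ρ'.asModule := e.symm.trans e'
  let f := (Representation.IntertwiningMap.equivLinearMapAsModule ρ ρ').symm ψ.toLinearMap
  let f' := (Representation.IntertwiningMap.equivLinearMapAsModule ρ' ρ).symm ψ.symm.toLinearMap
  refine ⟨f.toLinearMap, f'.toLinearMap, ⟨?_, ?_⟩, ⟨?_, ?_⟩⟩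
  · exact ψ.injective
  · exact fun g v => f.isIntertwining ρ ρ' g v
  · exact ψ.symm.injective
  · exact fun g v => f'.isIntertwining ρ' ρ g v

lemma isoTo_congr {V : Type} [AddCommGroup V] [Module F V] {M N : Type} [AddCommGroup M]
    [Module F[Γ] M] [AddCommGroup N] [Module F[Γ] N] (e : M ≃ₗ[F[Γ]] N)
    (ρ : Representation F Γ V) : IsoTo M ρ ↔ IsoTo N ρ :=
  ⟨fun ⟨h⟩ => ⟨e.symm.trans h⟩, fun ⟨h⟩ => ⟨e.trans h⟩⟩

lemma repJHSum_of_simple (μ : WeightFn F[Γ]) {V : Type} [AddCommGroup V] [Module F V]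
    (ρ : Representation F Γ V) (hs : IsSimpleModule F[Γ] ρ.asModule) (n : ℕ)
    (hn : ∀ (M : Type) [AddCommGroup M] [Module F[Γ] M], IsoTo M ρ → μ.val M = n) :
    RepJHSum μ ρ n := by
  have h1 := JHSum.of_simple μ ρ.asModule
  rwa [hn ρ.asModule ⟨LinearEquiv.refl _ _⟩] at h1

end generic

section crys

variable {k F Emb : Type} [Field k] [Field F] [Fintype Emb] [DecidableEq Emb]
variable {p : ℕ} [Fact p.Prime] [CharP k p] [Fintype k]

/-- Restricted weights with isomorphic representations are equal. -/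
theorem restricted_unique {t : Emb → ℕ} {f : ℕ} {S : Finset Emb} (κ : Emb → k →+* F) (x₀ : Emb)
    (ht : ∀ x a, κ x a = κ x₀ a ^ p ^ t x)
    (hq : Fintype.card k = p ^ f) (hf : ∀ x ∈ S, t x < f) (hinj : Set.InjOn t S)
    {lam lam' : Emb → ℤ × ℤ} (h : Restricted p (Fintype.card k) S x₀ lam)
    (h' : Restricted p (Fintype.card k) S x₀ lam')
    {φ : Homog F (gap lam) →ₗ[F] Homog F (gap lam')}
    {φ' : Homog F (gap lam') →ₗ[F] Homog F (gap lam)}
    (hφ : Intw κ lam lam' φ) (hφ' : Intw κ lam' lam φ') : lam = lam' := by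
  classical
  have hp : 0 < p := (Fact.out : p.Prime).pos
  have key : ∀ {l : Emb → ℤ × ℤ}, Restricted p (Fintype.card k) S x₀ l →
      (∀ x, gap l x < p) ∧ (∀ x, x ∉ S → gap l x = 0) ∧ (∀ x, x ≠ x₀ → (l x).2 = 0) := by
    intro l hl
    refine ⟨fun x => ?_, fun x hx => ?_, hl.2.2.1⟩
    · have := hl.1 x
      unfold gap
      omega
    · have := hl.2.1 x hx
      unfold gap
      omega
  obtain ⟨hn, hnS, h0⟩ := key h
  obtain ⟨hn', hnS', h0'⟩ := key h'
  obtain ⟨g, hg⟩ := IsCyclic.exists_generator (α := kˣ)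
  have hord : orderOf g = Fintype.card k - 1 := by
    rw [orderOf_eq_card_of_forall_mem_zpowers hg, Nat.card_eq_fintype_card, Fintype.card_units]
  have hchar := fun a d => hφ.char_eq κ ht hq hf hinj x₀ hn' hnS' h0 h0' a d
  have hκinj := (κ x₀).injective
  have hcard : 2 ≤ Fintype.card k := by
    rw [hq]
    have h1 : 1 < Fintype.card k := Fintype.one_lt_card
    rw [hq] at h1
    omega
  -- the determinant twist
  have hb : (lam x₀).2 = (lam' x₀).2 := by
    have h1 := hchar 1 g
    simp only [Units.val_one, one_mul, map_one, one_pow, mul_one] at h1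
    rw [← map_zpow₀, ← map_zpow₀] at h1
    have h2 : g ^ (lam x₀).2 = g ^ (lam' x₀).2 := by
      apply Units.ext
      rw [Units.val_zpow_eq_zpow_val, Units.val_zpow_eq_zpow_val]
      exact hκinj h1
    rw [zpow_eq_zpow_iff_modEq, hord] at h2
    have h3 := h.2.2.2
    have h4 := h'.2.2.2
    have h5 : ((Fintype.card k - 1 : ℕ) : ℤ) = (Fintype.card k : ℤ) - 1 := by omega
    rw [h5, Int.ModEq, Int.emod_eq_of_lt h3.1 h3.2, Int.emod_eq_of_lt h4.1 h4.2] at h2
    exact h2
  -- the torus weight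
  have hE : EE p t (gap lam) ≡ EE p t (gap lam') [MOD (Fintype.card k - 1)] := by
    have h1 := hchar g 1
    rw [hb] at h1
    have h2 : κ x₀ (g * (1 : kˣ)) ^ (lam' x₀).2 ≠ 0 := by
      apply zpow_ne_zero
      rw [Units.val_one, mul_one]
      exact (map_ne_zero _).2 g.ne_zero
    have h3 := mul_left_cancel₀ h2 h1
    rw [← map_pow, ← map_pow] at h3
    have h4 : g ^ EE p t (gap lam) = g ^ EE p t (gap lam') := by
      apply Units.ext
      rw [Units.val_pow_eq_pow_val, Units.val_pow_eq_pow_val]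
      exact hκinj h3
    rwa [pow_eq_pow_iff_modEq, hord] at h4
  have hlt := EE_lt p f t S hp hf hinj _ hn hnS
  have hlt' := EE_lt p f t S hp hf hinj _ hn' hnS'
  rw [← hq] at hlt hlt'
  have hzero : ∀ {l l' : Emb → ℤ × ℤ} {φ : Homog F (gap l) →ₗ[F] Homog F (gap l')},
      Intw κ l l' φ → (∀ x, gap l' x < p) → (∀ x, x ∉ S → gap l' x = 0) →
      EE p t (gap l) = 0 → EE p t (gap l') = 0 := by
    intro l l' φ hφ hn' hnS' h1
    have h2 : ∀ x, gap l x = 0 := by
      intro x
      unfold EE at h1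
      have h3 := (Finset.sum_eq_zero_iff.1 h1) x (Finset.mem_univ x)
      rcases Nat.mul_eq_zero.1 h3 with h4 | h4
      · exact h4
      · exact absurd h4 (pow_ne_zero _ hp.ne')
    have h3 := hφ.gap_zero κ ht hq hf hinj hn' hnS' h2
    unfold EE
    apply Finset.sum_eq_zero
    intro x _
    rw [h3 x, zero_mul]
  have hEE : EE p t (gap lam) = EE p t (gap lam') := by
    have hz1 := hzero hφ hn' hnS'
    have hz2 := hzero hφ' hn hnS
    rcases lt_trichotomy (EE p t (gap lam)) (EE p t (gap lam')) with h1 | h1 | h1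
    · exfalso
      have h2 := (Nat.modEq_iff_dvd' h1.le).1 hE
      have h3 := Nat.le_of_dvd (by omega) h2
      have h4 := hz1 (by omega)
      omega
    · exact h1
    · exfalso
      have h2 := (Nat.modEq_iff_dvd' h1.le).1 hE.symm
      have h3 := Nat.le_of_dvd (by omega) h2
      have h4 := hz2 (by omega)
      omega
  have hgap := EE_inj p f t S hp hf hinj _ _ hn hn' hnS hnS' hEE
  ext1 x
  have h1 : (lam x).2 = (lam' x).2 := by
    by_cases hx : x = x₀
    · rw [hx]; exact hb
    · rw [h0 x hx, h0' x hx]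
  have h2 := congrFun hgap x
  unfold gap at h2
  have h3 := (h.1 x).1
  have h4 := (h'.1 x).1
  ext
  · omega
  · exact h1

/-- The weight function with prescribed values on the restricted `W_λ`. -/
noncomputable def muOf (κ : Emb → k →+* F) (S : Finset Emb) (x₀ : Emb) (p : ℕ)
    (e : (Emb → ℤ × ℤ) → ℕ)
    (huniq : ∀ (M : Type) [AddCommGroup M] [Module F[GL (Fin 2) k] M] (lam lam' : Emb → ℤ × ℤ),
      Restricted p (Fintype.card k) S x₀ lam → Restricted p (Fintype.card k) S x₀ lam' →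
      IsoTo M (W κ lam) → IsoTo M (W κ lam') → lam = lam') : WeightFn F[GL (Fin 2) k] := by
  classical
  exact
  { val := fun M _ _ =>
      if h : ∃ lam, Restricted p (Fintype.card k) S x₀ lam ∧ IsoTo M (W κ lam)
      then e h.choose else 0
    iso := by
      intro M N _ _ _ _ eMN
      have hiff : (∃ lam, Restricted p (Fintype.card k) S x₀ lam ∧ IsoTo M (W κ lam)) ↔
          (∃ lam, Restricted p (Fintype.card k) S x₀ lam ∧ IsoTo N (W κ lam)) := by
        simp only [isoTo_congr eMN]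
      by_cases h : ∃ lam, Restricted p (Fintype.card k) S x₀ lam ∧ IsoTo M (W κ lam)
      · have h' := hiff.1 h
        rw [dif_pos h, dif_pos h']
        congr 1
        exact huniq M _ _ h.choose_spec.1 h'.choose_spec.1 h.choose_spec.2
          ((isoTo_congr eMN _).2 h'.choose_spec.2)
      · rw [dif_neg h, dif_neg (fun h' => h (hiff.2 h'))] }

lemma muOf_val (κ : Emb → k →+* F) (S : Finset Emb) (x₀ : Emb) (p : ℕ)
    (e : (Emb → ℤ × ℤ) → ℕ)
    (huniq : ∀ (M : Type) [AddCommGroup M] [Module F[GL (Fin 2) k] M] (lam lam' : Emb → ℤ × ℤ),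
      Restricted p (Fintype.card k) S x₀ lam → Restricted p (Fintype.card k) S x₀ lam' →
      IsoTo M (W κ lam) → IsoTo M (W κ lam') → lam = lam')
    (M : Type) [AddCommGroup M] [Module F[GL (Fin 2) k] M] (lam : Emb → ℤ × ℤ)
    (h : Restricted p (Fintype.card k) S x₀ lam) (hM : IsoTo M (W κ lam)) :
    (muOf κ S x₀ p e huniq).val M = e lam := by
  have hex : ∃ lam, Restricted p (Fintype.card k) S x₀ lam ∧ IsoTo M (W κ lam) := ⟨lam, h, hM⟩
  unfold muOf
  dsimp only
  rw [dif_pos hex]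
  congr 1
  exact huniq M _ _ hex.choose_spec.1 h hex.choose_spec.2 hM

/-- The crystalline Breuil–Mézard system is solvable exactly for Frobenius periodic functions. -/
theorem crys_iff [Nonempty Emb] (κ : Emb → k →+* F) (hκ : ∀ j : k →+* F, ∃ x, κ x = j)
    (e : (Emb → ℤ × ℤ) → ℕ) :
    (∃ μ : WeightFn F[GL (Fin 2) k], ∀ lam, Dominant lam → RepJHSum μ (W κ lam) (e lam)) ↔
      FrobeniusPeriodic p κ (fun lam => (e lam : ℤ)) := by
  constructor
  · rintro ⟨μ, h⟩
    refine ((AddFn.ofMu μ).frobeniusPeriodic κ).congr (fun ν hν => ?_)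
    have h1 : (AddFn.ofMu μ).wval κ ν = (jh μ (W κ ν) : ℤ) := rfl
    rw [h1, jh_eq (h ν hν)]
  · intro hper
    obtain ⟨x₀⟩ := ‹Nonempty Emb›
    choose t ht htq using fun x => exists_frob_pow p (κ x₀) (κ x)
    obtain ⟨f, hf0, hq⟩ := card_eq_pow (k := k) p
    choose s hs using hκ
    set S : Finset Emb := Finset.univ.image (fun x => s (κ x)) with hSdef
    have hSs : ∀ x ∈ S, s (κ x) = x := by
      intro x hx
      rw [hSdef, Finset.mem_image] at hx
      obtain ⟨y, _, rfl⟩ := hx
      rw [hs]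
    have hS : ∀ x, ∃ x' ∈ S, κ x' = κ x := fun x =>
      ⟨s (κ x), Finset.mem_image.2 ⟨x, Finset.mem_univ x, rfl⟩, hs _⟩
    have hf : ∀ x ∈ S, t x < f := by
      intro x _
      have h1 := htq x
      rw [hq] at h1
      exact (Nat.pow_lt_pow_iff_right (Fact.out : p.Prime).one_lt).1 h1
    have hinj : Set.InjOn t S := by
      intro x hx y hy hxy
      have h1 : κ x = κ y := by
        ext a
        rw [ht x a, ht y a, hxy]
      rw [← hSs x hx, ← hSs y hy, h1]
    have huniq : ∀ (M : Type) [AddCommGroup M] [Module F[GL (Fin 2) k] M]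
        (lam lam' : Emb → ℤ × ℤ), Restricted p (Fintype.card k) S x₀ lam →
        Restricted p (Fintype.card k) S x₀ lam' → IsoTo M (W κ lam) → IsoTo M (W κ lam') →
        lam = lam' := by
      intro M _ _ lam lam' h h' hM hM'
      obtain ⟨φ, φ', h1, h2⟩ := hM.trans' hM'
      exact restricted_unique κ x₀ ht hq hf hinj h h' h1 h2
    set μ := muOf κ S x₀ p e huniq with hμ
    have hres : ∀ lam, Restricted p (Fintype.card k) S x₀ lam → RepJHSum μ (W κ lam) (e lam) := by
      intro lam h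
      refine repJHSum_of_simple μ _ ?_ _ (fun M _ _ hM => muOf_val κ S x₀ p e huniq M lam h hM)
      refine W_simple κ ht hq hf hinj lam (fun x => ?_) (fun x hx => ?_)
      · have := h.1 x
        unfold gap
        omega
      · have := h.2.1 x hx
        unfold gap
        omega
    refine ⟨μ, fun lam hlam => ?_⟩
    have h1 : ∀ l, (AddFn.ofMu μ).wval κ l = (jh μ (W κ l) : ℤ) := fun _ => rfl
    have h3 := (((AddFn.ofMu μ).frobeniusPeriodic κ).sub hper).eq_zero
      (fun j => ⟨s j, hs j⟩) S x₀ hS (fun l hl => by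
        rw [h1, jh_eq (hres l hl), sub_self]) lam hlam
    rw [h1] at h3
    have h4 : jh μ (W κ lam) = e lam := by
      have := sub_eq_zero.1 h3
      exact_mod_cast this
    rw [← h4]
    exact jhSum_jh μ _

end crys

end Pool.Agent.Work.MP_39033f_nt
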