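import Mathlib

set_option autoImplicit false

open MvPolynomial
open scoped MonoidAlgebra TensorProduct

namespace Pool.Agent.Work.MP_39033f_nt

/-- An isomorphism-invariant assignment of a natural number to the modules over `A`
(only the values on simple modules matter below). -/
structure WeightFn (A : Type) [Ring A] where
  val : (M : Type) → [AddCommGroup M] → [Module A M] → ℕ
  iso : ∀ (M N : Type) [AddCommGroup M] [Module A M] [AddCommGroup N] [Module A N],
    (M ≃ₗ[A] N) → val M = val N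

/-- The sum of `μ` over the successive quotients of a composition series. -/
noncomputable def WeightFn.sum {A : Type} [Ring A] (μ : WeightFn A) {M : Type} [AddCommGroup M]
    [Module A M] (s : CompositionSeries (Submodule A M)) : ℕ :=
  ∑ i : Fin s.length, μ.val (↥(s i.succ) ⧸ (s i.castSucc).comap (s i.succ).subtype)

/-- `JHSum μ M n` says that `n = ∑_σ [M : σ] μ(σ)`, the sum over the Jordan–Hölder factors `σ`
of `M` counted with multiplicity. -/
def JHSum {A : Type} [Ring A] (μ : WeightFn A) (M : Type) [AddCommGroup M] [Module A M]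
    (n : ℕ) : Prop :=
  ∃ s : CompositionSeries (Submodule A M), s.head = ⊥ ∧ s.last = ⊤ ∧ μ.sum s = n

section weights

variable {Emb : Type}

/-- Dominant weights `λ : Emb → ℤ × ℤ`, `λ_{x,1} ≥ λ_{x,2}` for every `x`. -/
def Dominant (lam : Emb → ℤ × ℤ) : Prop := ∀ x, (lam x).2 ≤ (lam x).1

/-- The differences `λ_{x,1} - λ_{x,2}`. -/
def gap (lam : Emb → ℤ × ℤ) (x : Emb) : ℕ := ((lam x).1 - (lam x).2).toNat

/-- The sign of the reflection making `(a, b)` dominant: `1` if `b ≤ a`, `0` if `b = a + 1`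
(the wall of the dot action), `-1` if `b > a + 1`. -/
def sgn (v : ℤ × ℤ) : ℤ := if v.2 ≤ v.1 then 1 else if v.2 = v.1 + 1 then 0 else -1

/-- `(a, b)` itself if `b ≤ a`, otherwise its image `(b - 1, a + 1)` under the dot action of the
non-trivial element of the Weyl group. -/
def dom (v : ℤ × ℤ) : ℤ × ℤ := if v.2 ≤ v.1 then v else (v.2 - 1, v.1 + 1)

/-- The extension `ê` of a function `e` on dominant weights to all weights which is antisymmetric
for the dot action of the Weyl groups: `ê(ν) = ± e(ν')` with `ν'` dominant in the orbit of `ν`,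
and `ê(ν) = 0` if there is no such `ν'`. -/
def hat [Fintype Emb] (e : (Emb → ℤ × ℤ) → ℤ) (ν : Emb → ℤ × ℤ) : ℤ :=
  (∏ x, sgn (ν x)) * e (fun x => dom (ν x))

/-- Frobenius periodicity of a function `e` on dominant weights: whenever `κ_x` is the Frobenius
twist of `κ_y`, for every dominant weight `λ`
`ê(λ + (1,0)_x) + ê(λ + (0,1)_x) = ê(λ + (p,0)_y) + ê(λ + (0,p)_y)` and
`e(λ + (1,1)_x) = e(λ + (p,p)_y)`. -/
def FrobeniusPeriodic {k F : Type} [Field k] [Field F] [Fintype Emb] [DecidableEq Emb] (p : ℕ)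
    (κ : Emb → k →+* F) (e : (Emb → ℤ × ℤ) → ℤ) : Prop :=
  ∀ x y : Emb, (∀ a, κ x a = κ y a ^ p) → ∀ lam : Emb → ℤ × ℤ, Dominant lam →
    hat e (lam + Pi.single x (1, 0)) + hat e (lam + Pi.single x (0, 1))
      = hat e (lam + Pi.single y ((p : ℤ), 0)) + hat e (lam + Pi.single y (0, (p : ℤ))) ∧
    e (lam + Pi.single x (1, 1)) = e (lam + Pi.single y ((p : ℤ), (p : ℤ)))

/-- The restricted weights relative to a set `S` of indices and `x₀ ∈ S`:
`λ_{x,1} - λ_{x,2} ≤ p - 1` for `x ∈ S` and `λ_x = (0,0)` for `x ∉ S`; moreover `λ_{x,2} = 0` for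
`x ≠ x₀` and `0 ≤ λ_{x₀,2} < q - 1`. -/
def Restricted [DecidableEq Emb] (p q : ℕ) (S : Finset Emb) (x₀ : Emb)
    (lam : Emb → ℤ × ℤ) : Prop :=
  (∀ x, (lam x).2 ≤ (lam x).1 ∧ (lam x).1 - (lam x).2 < p) ∧
  (∀ x, x ∉ S → (lam x).1 = (lam x).2) ∧ (∀ x, x ≠ x₀ → (lam x).2 = 0) ∧
  0 ≤ (lam x₀).2 ∧ (lam x₀).2 < (q : ℤ) - 1

end weights

section rep

variable {k F Emb : Type} [Field k] [Field F]

/-- Polynomials over `F` in the variables `(x, 0), (x, 1)`, `x ∈ Emb`, homogeneous of degree `n x`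
in the pair of variables attached to `x`. -/
abbrev Homog (F : Type) [Field F] {Emb : Type} [DecidableEq Emb] (n : Emb → ℕ) :
    Submodule F (MvPolynomial (Emb × Fin 2) F) :=
  weightedHomogeneousSubmodule F (fun v : Emb × Fin 2 => (Pi.single v.1 1 : Emb → ℕ)) n

/-- The substitution action of `g ∈ GL₂(k)`: the variable `(x, j)` goes to
`∑ i, κ_x(g i j) (x, i)`. -/
noncomputable def subst (κ : Emb → k →+* F) (g : GL (Fin 2) k) :
    MvPolynomial (Emb × Fin 2) F →ₐ[F] MvPolynomial (Emb × Fin 2) F :=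
  aeval (fun v => ∑ i : Fin 2, C (κ v.1 (g i v.2)) * X (v.1, i))

lemma subst_X (κ : Emb → k →+* F) (g : GL (Fin 2) k) (v : Emb × Fin 2) :
    subst κ g (X v) = ∑ i : Fin 2, C (κ v.1 (g i v.2)) * X (v.1, i) := by
  simp [subst]

lemma subst_one (κ : Emb → k →+* F) : subst κ (1 : GL (Fin 2) k) = AlgHom.id F _ := by
  apply MvPolynomial.algHom_ext
  rintro ⟨x, j⟩
  rw [subst_X]
  fin_cases j <;> simp [Fin.sum_univ_two]

lemma subst_mul (κ : Emb → k →+* F) (g h : GL (Fin 2) k) :
    subst κ (g * h) = (subst κ g).comp (subst κ h) := by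
  apply MvPolynomial.algHom_ext
  rintro ⟨x, j⟩
  rw [AlgHom.comp_apply, subst_X, subst_X, map_sum]
  simp only [map_mul, subst_X, algHom_C, Fin.sum_univ_two, Units.val_mul, Matrix.mul_apply,
    map_add, algebraMap_eq]
  ring

lemma subst_X_mem [DecidableEq Emb] (κ : Emb → k →+* F) (g : GL (Fin 2) k) (v : Emb × Fin 2) :
    IsWeightedHomogeneous (fun v : Emb × Fin 2 => (Pi.single v.1 1 : Emb → ℕ))
      (subst κ g (X v)) (Pi.single v.1 1) := by
  rw [subst_X]
  apply IsWeightedHomogeneous.sum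
  intro i _
  exact (isWeightedHomogeneous_X F (fun v : Emb × Fin 2 => (Pi.single v.1 1 : Emb → ℕ))
    (v.1, i)).C_mul _

lemma subst_mem [DecidableEq Emb] (κ : Emb → k →+* F) (g : GL (Fin 2) k) (n : Emb → ℕ)
    (f : MvPolynomial (Emb × Fin 2) F) (hf : f ∈ Homog F n) : subst κ g f ∈ Homog F n := by
  rw [mem_weightedHomogeneousSubmodule] at hf
  induction hf using IsWeightedHomogeneous.induction_on with
  | zero => rw [map_zero]; exact Submodule.zero_mem _
  | add f g hf hg h1 h2 => rw [map_add]; exact Submodule.add_mem _ h1 h2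
  | monomial d r hr =>
    rw [monomial_eq, map_mul, algHom_C, algebraMap_eq, Finsupp.prod, map_prod]
    simp only [map_pow]
    rw [mem_weightedHomogeneousSubmodule]
    apply IsWeightedHomogeneous.C_mul
    have := IsWeightedHomogeneous.prod (w := fun v : Emb × Fin 2 => (Pi.single v.1 1 : Emb → ℕ))
      d.support (fun v => subst κ g (X v) ^ d v) (fun v => d v • (Pi.single v.1 1 : Emb → ℕ))
      (fun v _ => (subst_X_mem κ g v).pow (d v))
    convert this using 1
    rw [← hr, Finsupp.weight_apply, Finsupp.sum]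

/-- The action of `g` on `W_λ ⊗ F`: the substitution by `g`, times `∏ x, κ_x(det g)^{λ_{x,2}}`. -/
noncomputable def wact [Fintype Emb] [DecidableEq Emb] (κ : Emb → k →+* F) (lam : Emb → ℤ × ℤ)
    (g : GL (Fin 2) k) : Homog F (gap lam) →ₗ[F] Homog F (gap lam) :=
  (∏ x, (κ x (g.det : k)) ^ (lam x).2) •
    ((subst κ g).toLinearMap.restrict (subst_mem κ g (gap lam)))

lemma wact_one [Fintype Emb] [DecidableEq Emb] (κ : Emb → k →+* F) (lam : Emb → ℤ × ℤ) :
    wact κ lam 1 = 1 := by
  apply LinearMap.ext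
  intro f
  apply Subtype.ext
  simp [wact, subst_one, LinearMap.restrict_apply]

lemma wact_mul [Fintype Emb] [DecidableEq Emb] (κ : Emb → k →+* F) (lam : Emb → ℤ × ℤ)
    (g h : GL (Fin 2) k) : wact κ lam (g * h) = wact κ lam g * wact κ lam h := by
  apply LinearMap.ext
  intro f
  apply Subtype.ext
  simp only [wact, map_mul, Units.val_mul, mul_zpow, Finset.prod_mul_distrib, subst_mul,
    LinearMap.smul_apply, Submodule.coe_smul, LinearMap.restrict_apply, AlgHom.toLinearMap_apply,
    AlgHom.comp_apply, Module.End.mul_apply, map_smul, smul_smul]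
  rw [mul_comm]

/-- The reduction `W_λ ⊗ F = ⊗_x det^{λ_{x,2}} ⊗ Sym^{λ_{x,1}-λ_{x,2}} (k² ⊗_{κ_x} F)` of the
representation `W_λ`, realised on multihomogeneous polynomials. -/
noncomputable def W [Fintype Emb] [DecidableEq Emb] (κ : Emb → k →+* F) (lam : Emb → ℤ × ℤ) :
    Representation F (GL (Fin 2) k) (Homog F (gap lam)) where
  toFun := wact κ lam
  map_one' := wact_one κ lam
  map_mul' := wact_mul κ lam

/-- `n` is the sum of `μ` over the Jordan–Hölder factors of the representation `ρ`. -/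
def RepJHSum {Γ V : Type} [Group Γ] [AddCommGroup V] [Module F V] (μ : WeightFn F[Γ])
    (ρ : Representation F Γ V) (n : ℕ) : Prop := JHSum μ ρ.asModule n

/-- The representation `(ρ ∘ φ) ⊗ M` of `Γ`. -/
noncomputable def twist {G Γ V N : Type} [Group G] [Group Γ] [AddCommGroup V] [Module F V]
    [AddCommGroup N] [Module F N] (φ : Γ →* G) (M : Representation F Γ N)
    (ρ : Representation F G V) : Representation F Γ (V ⊗[F] N) :=
  Representation.tprod (ρ.comp φ) M

end rep

end Pool.Agent.Work.MP_39033f_nt
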