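import Mathlib

set_option autoImplicit false

namespace Pool.Agent.Work.MP_39033f_nt

open Polynomial

section emb

variable {k F : Type} [Field k] [Fintype k] [Field F]

lemma range_eq_of_pow (κ0 : k →+* F) (z : F) (hz : z ^ Fintype.card k = z) : ∃ a, κ0 a = z := by
  classical
  by_contra hne
  push Not at hne
  let P : F[X] := X ^ Fintype.card k - X
  have hq : 1 < Fintype.card k := Fintype.one_lt_card
  have hP : P ≠ 0 := FiniteField.X_pow_card_sub_X_ne_zero F hq
  have hsub : insert z (Finset.univ.image κ0) ⊆ P.roots.toFinset := by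
    intro w hw
    rw [Multiset.mem_toFinset, mem_roots hP, IsRoot.def]
    simp only [P, eval_sub, eval_pow, eval_X]
    rcases Finset.mem_insert.mp hw with rfl | hw
    · rw [hz, sub_self]
    · obtain ⟨a, -, rfl⟩ := Finset.mem_image.mp hw
      rw [← map_pow, FiniteField.pow_card, sub_self]
  have hcard := Finset.card_le_card hsub
  rw [Finset.card_insert_of_notMem, Finset.card_image_of_injective _ κ0.injective,
    Finset.card_univ] at hcard
  · have h1 : P.roots.toFinset.card ≤ P.natDegree :=
      (Multiset.toFinset_card_le _).trans (card_roots' P)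
    have h2 : P.natDegree = Fintype.card k := FiniteField.X_pow_card_sub_X_natDegree_eq F hq
    omega
  · intro h
    obtain ⟨a, -, ha⟩ := Finset.mem_image.mp h
    exact hne a ha

/-- Every embedding `k → F` is a Frobenius twist of a given one. -/
lemma exists_frob_pow (p : ℕ) [Fact p.Prime] [CharP k p] (κ0 j : k →+* F) :
    ∃ t, (∀ a, j a = κ0 a ^ p ^ t) ∧ p ^ t < Fintype.card k := by
  classical
  have hsurj : ∀ a, ∃ b, κ0 b = j a := fun a =>
    range_eq_of_pow κ0 (j a) (by rw [← map_pow, FiniteField.pow_card])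
  choose s hs using hsurj
  let σ : k →+* k :=
    { toFun := s
      map_one' := κ0.injective (by rw [hs, map_one, map_one])
      map_mul' := fun a b => κ0.injective (by rw [hs, map_mul, map_mul, hs, hs])
      map_zero' := κ0.injective (by rw [hs, map_zero, map_zero])
      map_add' := fun a b => κ0.injective (by rw [hs, map_add, map_add, hs, hs]) }
  letI : Algebra (ZMod p) k := ZMod.algebra k p
  let σ' : k →ₐ[ZMod p] k :=
    { σ with
      commutes' := fun r => by
        have : σ.comp (algebraMap (ZMod p) k) = algebraMap (ZMod p) k := RingHom.ext_zmod _ _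
        exact RingHom.congr_fun this r }
  obtain ⟨n, hn⟩ := (FiniteField.bijective_frobeniusAlgHom_pow (ZMod p) k).2 σ'
  refine ⟨n.1, ?_, ?_⟩
  · intro a
    have h1 : σ' a = a ^ p ^ n.1 := by
      rw [← hn]
      simp only [AlgHom.coe_pow, FiniteField.coe_frobeniusAlgHom, pow_iterate, ZMod.card]
    have h2 : σ' a = s a := rfl
    rw [← hs a, ← h2, h1, map_pow]
  · have h3 : Fintype.card k = p ^ Module.finrank (ZMod p) k := by
      rw [Module.card_eq_pow_finrank (K := ZMod p), ZMod.card]
    rw [h3]
    exact Nat.pow_lt_pow_right (Fact.out : p.Prime).one_lt n.2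

/-- The Frobenius twist of an embedding. -/
def frobTwist (p : ℕ) [Fact p.Prime] [CharP k p] (κ0 : k →+* F) (t : ℕ) : k →+* F :=
  κ0.comp (iterateFrobenius k p t)

lemma frobTwist_apply (p : ℕ) [Fact p.Prime] [CharP k p] (κ0 : k →+* F) (t : ℕ) (a : k) :
    frobTwist p κ0 t a = κ0 a ^ p ^ t := by
  simp [frobTwist, iterateFrobenius_def]

/-- There is an embedding whose Frobenius twist is a given one. -/
lemma exists_frob_root (p : ℕ) [Fact p.Prime] [CharP k p] (κ0 : k →+* F) :
    ∃ j : k →+* F, ∀ a, κ0 a = j a ^ p := by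
  have hb : Function.Bijective (frobenius k p) :=
    Finite.injective_iff_bijective.mp (frobenius_inj k p)
  let e := RingEquiv.ofBijective (frobenius k p) hb
  refine ⟨κ0.comp (e.symm : k →+* k), fun a => ?_⟩
  rw [RingHom.comp_apply, ← map_pow]
  congr 1
  exact (e.apply_symm_apply a).symm

lemma card_eq_pow (p : ℕ) [Fact p.Prime] [CharP k p] :
    ∃ f, 0 < f ∧ Fintype.card k = p ^ f := by
  obtain ⟨n, _, h⟩ := FiniteField.card k p
  exact ⟨n, n.pos, h⟩

end emb

end Pool.Agent.Work.MP_39033f_nt
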