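import Pool.Agent.Work.MP_39033f_nt.Recur
import Pool.Agent.Work.MP_39033f_nt.FieldEmb

set_option autoImplicit false

namespace Pool.Agent.Work.MP_39033f_nt

section shift

variable {p : ℕ} [Fact p.Prime] {k F Emb : Type} [Field k] [Fintype k] [CharP k p] [Field F]
  [Fintype Emb] [DecidableEq Emb] {κ : Emb → k →+* F}

lemma shift_comm (lam : Emb → ℤ × ℤ) (x y : Emb) (v w : ℤ × ℤ) :
    lam + Pi.single x v + Pi.single y w = lam + Pi.single y w + Pi.single x v := by
  exact add_right_comm _ _ _

omit [Fintype Emb] in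
lemma single_zero_pair (x : Emb) :
    (Pi.single x ((0 : ℤ), (0 : ℤ)) : Emb → ℤ × ℤ) = 0 := by
  rw [Prod.mk_zero_zero, Pi.single_zero]

omit [Fintype k] [CharP k p] [Fact p.Prime] in
lemma FrobeniusPeriodic.shift {e : (Emb → ℤ × ℤ) → ℤ} (he : FrobeniusPeriodic p κ e) (x y : Emb)
    (hxy : ∀ a, κ x a = κ y a ^ p) (m : ℤ) : ∀ lam : Emb → ℤ × ℤ, Dominant lam →
    e (lam + Pi.single x (m, m)) = e (lam + Pi.single y (p * m, p * m)) := by
  induction m using Int.induction_on with
  | zero => intro lam _; simp [single_zero_pair]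
  | succ m ih =>
    intro lam hlam
    have h1 : lam + Pi.single x ((m : ℤ) + 1, (m : ℤ) + 1)
        = (lam + Pi.single x ((m : ℤ), (m : ℤ))) + Pi.single x (1, 1) := by
      rw [shift_add]; rfl
    have h2 : lam + Pi.single y ((p : ℤ) * ((m : ℤ) + 1), (p : ℤ) * ((m : ℤ) + 1))
        = (lam + Pi.single y ((p : ℤ), (p : ℤ)))
          + Pi.single y ((p : ℤ) * (m : ℤ), (p : ℤ) * (m : ℤ)) := by
      rw [shift_add]
      congr 2
      simp only [Prod.mk_add_mk, Prod.mk.injEq]
      constructor <;> ring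
    rw [h1, (he x y hxy _ (dominant_add lam hlam x _ _ le_rfl)).2, shift_comm,
      ih _ (dominant_add lam hlam y _ _ le_rfl), h2]
  | pred m ih =>
    intro lam hlam
    have hd1 : Dominant (lam + Pi.single y (-(p : ℤ), -(p : ℤ))) :=
      dominant_add lam hlam y _ _ le_rfl
    have hd2 := dominant_add _ hd1 x (-(m : ℤ) - 1) (-(m : ℤ) - 1) le_rfl
    have h1 := (he x y hxy _ hd2).2
    have h3 : lam + Pi.single y (-(p : ℤ), -(p : ℤ)) + Pi.single x (-(m : ℤ) - 1, -(m : ℤ) - 1)
        + Pi.single x (1, 1)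
        = lam + Pi.single y (-(p : ℤ), -(p : ℤ)) + Pi.single x (-(m : ℤ), -(m : ℤ)) := by
      rw [shift_add]
      congr 2
      simp only [Prod.mk_add_mk, Prod.mk.injEq]
      constructor <;> ring
    have h4 : lam + Pi.single y (-(p : ℤ), -(p : ℤ)) + Pi.single x (-(m : ℤ) - 1, -(m : ℤ) - 1)
        + Pi.single y ((p : ℤ), (p : ℤ))
        = lam + Pi.single x (-(m : ℤ) - 1, -(m : ℤ) - 1) := by
      rw [shift_comm, shift_add]
      simp
    have h5 : lam + Pi.single y (-(p : ℤ), -(p : ℤ))
        + Pi.single y ((p : ℤ) * (-(m : ℤ)), (p : ℤ) * (-(m : ℤ)))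
        = lam + Pi.single y ((p : ℤ) * (-(m : ℤ) - 1), (p : ℤ) * (-(m : ℤ) - 1)) := by
      rw [shift_add]
      congr 2
      simp only [Prod.mk_add_mk, Prod.mk.injEq]
      constructor <;> ring
    rw [h3, h4, ih _ hd1, h5] at h1
    exact h1.symm

lemma FrobeniusPeriodic.shift_pow {e : (Emb → ℤ × ℤ) → ℤ} (he : FrobeniusPeriodic p κ e)
    (hκ : ∀ j : k →+* F, ∃ x, κ x = j) (x₀ : Emb) (t : ℕ) : ∀ (x : Emb)
    (_ : ∀ a, κ x a = κ x₀ a ^ p ^ t) (m : ℤ) (lam : Emb → ℤ × ℤ), Dominant lam →
    e (lam + Pi.single x (m, m)) = e (lam + Pi.single x₀ (m * p ^ t, m * p ^ t)) := by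
  induction t with
  | zero =>
    intro x hx m lam hlam
    obtain ⟨j, hj⟩ := exists_frob_root p (κ x₀)
    obtain ⟨y, rfl⟩ := hκ j
    have h1 : ∀ a, κ x a = κ y a ^ p := fun a => by rw [hx a, pow_zero, pow_one, hj a]
    rw [he.shift x y h1 m lam hlam, pow_zero, mul_one, he.shift x₀ y hj m lam hlam]
  | succ t ih =>
    intro x hx m lam hlam
    obtain ⟨y, hy⟩ := hκ (frobTwist p (κ x₀) t)
    have hy' : ∀ a, κ y a = κ x₀ a ^ p ^ t := fun a => by rw [hy, frobTwist_apply]
    have h1 : ∀ a, κ x a = κ y a ^ p := fun a => by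
      rw [hx a, hy' a, ← pow_mul, pow_succ]
    rw [he.shift x y h1 m lam hlam, ih y hy' _ lam hlam]
    congr 3
    · simp only [Prod.mk.injEq]
      constructor <;> ring

lemma FrobeniusPeriodic.period {e : (Emb → ℤ × ℤ) → ℤ} (he : FrobeniusPeriodic p κ e)
    (hκ : ∀ j : k →+* F, ∃ x, κ x = j) (x₀ : Emb) (m : ℤ) (lam : Emb → ℤ × ℤ)
    (hlam : Dominant lam) :
    e (lam + Pi.single x₀ (m * ((Fintype.card k : ℤ) - 1), m * ((Fintype.card k : ℤ) - 1)))
      = e lam := by
  obtain ⟨f, _, hf⟩ := card_eq_pow (k := k) p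
  have h1 : ∀ a, κ x₀ a = κ x₀ a ^ p ^ f := fun a => by
    rw [← hf, ← map_pow, FiniteField.pow_card]
  have hd : Dominant (lam + Pi.single x₀ (-m, -m)) := dominant_add lam hlam x₀ _ _ le_rfl
  have h2 := he.shift_pow hκ x₀ f x₀ h1 m _ hd
  rw [shift_add, shift_add] at h2
  have h3 : lam + Pi.single x₀ ((-m, -m) + (m, m)) = lam := by simp
  rw [h3] at h2
  rw [h2]
  congr 3
  simp only [Prod.mk_add_mk, Prod.mk.injEq]
  constructor <;> rw [hf] <;> push_cast <;> ring

lemma FrobeniusPeriodic.normalize {e : (Emb → ℤ × ℤ) → ℤ} (he : FrobeniusPeriodic p κ e)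
    (hκ : ∀ j : k →+* F, ∃ x, κ x = j) (x₀ : Emb) (lam : Emb → ℤ × ℤ) (hlam : Dominant lam) :
    ∃ lam' : Emb → ℤ × ℤ, Dominant lam' ∧ gap lam' = gap lam ∧ e lam' = e lam ∧
      (∀ x, x ≠ x₀ → (lam' x).2 = 0) ∧ 0 ≤ (lam' x₀).2 ∧
      (lam' x₀).2 < (Fintype.card k : ℤ) - 1 := by
  have key : ∀ T : Finset Emb, x₀ ∉ T → ∃ lam' : Emb → ℤ × ℤ, Dominant lam' ∧
      gap lam' = gap lam ∧ e lam' = e lam ∧ (∀ x ∈ T, (lam' x).2 = 0) := by
    intro T
    induction T using Finset.induction_on with
    | empty => intro _; exact ⟨lam, hlam, rfl, rfl, by simp⟩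
    | insert x T hx ih =>
      intro hx₀
      rw [Finset.mem_insert, not_or] at hx₀
      obtain ⟨l, hl1, hl2, hl3, hl4⟩ := ih hx₀.2
      obtain ⟨t, ht, _⟩ := exists_frob_pow p (κ x₀) (κ x)
      set m := (l x).2 with hm
      have hd : Dominant (l + Pi.single x (-m, -m)) := dominant_add l hl1 x _ _ le_rfl
      refine ⟨l + Pi.single x (-m, -m) + Pi.single x₀ (m * p ^ t, m * p ^ t), ?_, ?_, ?_, ?_⟩
      · exact dominant_add _ hd x₀ _ _ le_rfl
      · rw [gap_add_same, gap_add_same, hl2]
      · rw [← he.shift_pow hκ x₀ t x ht m _ hd, shift_add]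
        simp [hl3, single_zero_pair]
      · intro z hz
        by_cases hzx : z = x
        · subst hzx
          simp [Pi.single_eq_of_ne (Ne.symm hx₀.1), ← hm]
        · have hzT : z ∈ T := by
            rcases Finset.mem_insert.mp hz with h | h
            · exact absurd h hzx
            · exact h
          have hzx₀ : z ≠ x₀ := fun h => hx₀.2 (h ▸ hzT)
          simp [Pi.single_eq_of_ne hzx, Pi.single_eq_of_ne hzx₀, hl4 z hzT]
  obtain ⟨l, hl1, hl2, hl3, hl4⟩ := key (Finset.univ.erase x₀) (by simp)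
  set Q : ℤ := (Fintype.card k : ℤ) - 1 with hQ
  have hQpos : 0 < Q := by
    have : 1 < Fintype.card k := Fintype.one_lt_card
    omega
  refine ⟨l + Pi.single x₀ (-((l x₀).2 / Q) * Q, -((l x₀).2 / Q) * Q), ?_, ?_, ?_, ?_, ?_, ?_⟩
  · exact dominant_add _ hl1 x₀ _ _ le_rfl
  · rw [gap_add_same, hl2]
  · rw [he.period hκ x₀ _ l hl1, hl3]
  · intro x hx
    simp [Pi.single_eq_of_ne hx, hl4 x (by simp [hx])]
  · simp only [Pi.add_apply, Pi.single_eq_same, Prod.snd_add]
    have := Int.emod_nonneg (l x₀).2 hQpos.ne'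
    rw [Int.emod_def] at this
    linarith [mul_comm Q ((l x₀).2 / Q)]
  · simp only [Pi.add_apply, Pi.single_eq_same, Prod.snd_add]
    have := Int.emod_lt_of_pos (l x₀).2 hQpos
    rw [Int.emod_def] at this
    linarith [mul_comm Q ((l x₀).2 / Q)]

end shift

section det

variable {Emb : Type} [Fintype Emb] [DecidableEq Emb]

/-- the total size of a weight (sum of the gaps of its dominant representative) -/
def tot (ν : Emb → ℤ × ℤ) : ℕ := ∑ x, gap (fun z => dom (ν z)) x

lemma tot_of_dominant {ν : Emb → ℤ × ℤ} (h : Dominant ν) : tot ν = ∑ x, gap ν x := by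
  unfold tot
  have h2 : (fun x => dom (ν x)) = ν := by
    ext1 x
    simp [dom, h x]
  rw [h2]

lemma tot_add (ν : Emb → ℤ × ℤ) (hν : Dominant ν) (y : Emb) (v : ℤ × ℤ) :
    tot (ν + Pi.single y v) + gap ν y
      = (∑ x, gap ν x) + gap (fun _ : Emb => dom (ν y + v)) y := by
  rw [← tot_of_dominant hν]
  unfold tot
  rw [← Finset.add_sum_erase Finset.univ _ (Finset.mem_univ y),
    ← Finset.add_sum_erase Finset.univ (fun x => gap (fun z => dom (ν z)) x) (Finset.mem_univ y)]
  have h1 : ∀ x ∈ Finset.univ.erase y, gap (fun z => dom ((ν + Pi.single y v : Emb → ℤ × ℤ) z)) x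
      = gap (fun z => dom (ν z)) x := by
    intro x hx
    have : x ≠ y := Finset.ne_of_mem_erase hx
    simp [gap, Pi.single_eq_of_ne this]
  rw [Finset.sum_congr rfl h1]
  have h2 : gap (fun z => dom ((ν + Pi.single y v : Emb → ℤ × ℤ) z)) y
      = gap (fun _ : Emb => dom (ν y + v)) y := by
    simp [gap]
  have h3 : gap (fun z => dom (ν z)) y = gap ν y := by
    have := hν y
    simp [gap, dom, this]
  rw [h2, h3]
  ring

lemma hat_eq_zero_of_tot {e : (Emb → ℤ × ℤ) → ℤ} {N : ℕ}
    (h : ∀ lam, Dominant lam → (∑ x, gap lam x) < N → e lam = 0) (ν : Emb → ℤ × ℤ)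
    (hν : tot ν < N) : hat e ν = 0 := by
  by_cases hw : ∃ x, (ν x).2 = (ν x).1 + 1
  · obtain ⟨x, hx⟩ := hw
    exact hat_of_wall e x hx
  · push Not at hw
    unfold hat
    rw [h, mul_zero]
    · intro x
      have := hw x
      unfold dom
      dsimp only
      split_ifs with h1
      · exact h1
      · dsimp only
        omega
    · exact hν

variable {p : ℕ} [Fact p.Prime] {k F : Type} [Field k] [Fintype k] [CharP k p] [Field F]
  {κ : Emb → k →+* F}

/-- A Frobenius periodic function vanishing on restricted weights vanishes on dominant weights. -/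
theorem FrobeniusPeriodic.eq_zero {e : (Emb → ℤ × ℤ) → ℤ} (he : FrobeniusPeriodic p κ e)
    (hκ : ∀ j : k →+* F, ∃ x, κ x = j) (S : Finset Emb) (x₀ : Emb)
    (hS : ∀ x, ∃ x' ∈ S, κ x' = κ x)
    (hres : ∀ lam, Restricted p (Fintype.card k) S x₀ lam → e lam = 0) :
    ∀ lam, Dominant lam → e lam = 0 := by
  have hp2 : 2 ≤ p := (Fact.out : p.Prime).two_le
  suffices H : ∀ N : ℕ, ∀ lam, Dominant lam → (∑ x, gap lam x) = N → e lam = 0 from
    fun lam hlam => H _ lam hlam rfl
  intro N
  induction N using Nat.strong_induction_on with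
  | _ N ihN =>
  have hsmall : ∀ lam, Dominant lam → (∑ x, gap lam x) < N → e lam = 0 :=
    fun lam hlam h => ihN _ h lam hlam rfl
  have hzero := fun ν => hat_eq_zero_of_tot hsmall ν
  suffices H : ∀ M : ℕ, ∀ lam, Dominant lam → (∑ x, gap lam x) = N →
      (∑ x ∈ Finset.univ.filter (fun x => x ∉ S), gap lam x) = M → e lam = 0 from
    fun lam hlam h => H _ lam hlam h rfl
  intro M
  induction M using Nat.strong_induction_on with
  | _ M ihM =>
  intro lam hlam hN hM
  by_cases hbig : ∃ y, p ≤ gap lam y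
  · -- Case 1
    obtain ⟨y, hy⟩ := hbig
    obtain ⟨x, hx⟩ := hκ (frobTwist p (κ y) 1)
    have hx' : ∀ a, κ x a = κ y a ^ p := fun a => by rw [hx, frobTwist_apply, pow_one]
    set mu : Emb → ℤ × ℤ := lam + Pi.single y (-(p : ℤ), (0 : ℤ)) with hmu
    have hmuy : mu y = ((lam y).1 - p, (lam y).2) := by
      simp [hmu, sub_eq_add_neg]
      ext <;> simp
    have hlamy := hlam y
    have hgy : (p : ℤ) ≤ (lam y).1 - (lam y).2 := by
      unfold gap at hy
      omega
    have hmu_dom : Dominant mu := by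
      intro z
      by_cases hz : z = y
      · subst hz
        rw [hmuy]
        dsimp only
        omega
      · simp only [hmu, Pi.add_apply, Pi.single_eq_of_ne hz, add_zero]
        exact hlam z
    have hback : mu + Pi.single y ((p : ℤ), (0 : ℤ)) = lam := by
      rw [hmu, shift_add]
      simp [single_zero_pair]
    have hmuN : (∑ x, gap mu x) + p = N := by
      have h1 := gap_add_fst mu hmu_dom y p
      rw [hback] at h1
      rw [← hN, h1]
      simp [Finset.sum_add_distrib]
    have hmugap : gap mu y = ((lam y).1 - p - (lam y).2).toNat := by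
      unfold gap
      rw [hmuy]
    have hA := (he x y hx' mu hmu_dom).1
    rw [hback, hat_of_dominant e hlam] at hA
    have h1 : hat e (mu + Pi.single x (1, 0)) = 0 := by
      apply hzero
      have := tot_add mu hmu_dom x (1, 0)
      have h2 : gap (fun _ : Emb => dom (mu x + (1, 0))) x ≤ gap mu x + 1 := by
        have := hmu_dom x
        simp only [gap, dom, Prod.fst_add, Prod.snd_add]
        split_ifs <;> simp <;> omega
      omega
    have h2 : hat e (mu + Pi.single x (0, 1)) = 0 := by
      apply hzero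
      have := tot_add mu hmu_dom x (0, 1)
      have h2 : gap (fun _ : Emb => dom (mu x + (0, 1))) x ≤ gap mu x := by
        have := hmu_dom x
        simp only [gap, dom, Prod.fst_add, Prod.snd_add]
        split_ifs <;> simp <;> omega
      omega
    have h3 : hat e (mu + Pi.single y (0, (p : ℤ))) = 0 := by
      apply hzero
      have := tot_add mu hmu_dom y (0, (p : ℤ))
      have h2 : gap (fun _ : Emb => dom (mu y + (0, (p : ℤ)))) y + 2 ≤ gap mu y + p := by
        have := hmu_dom y
        simp only [gap, dom, Prod.fst_add, Prod.snd_add]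
        split_ifs <;> simp <;> omega
      omega
    omega
  · push Not at hbig
    by_cases hout : ∃ x, x ∉ S ∧ 0 < gap lam x
    · -- Case 2
      obtain ⟨x, hxS, hgx⟩ := hout
      obtain ⟨x', hx'S, hx'⟩ := hS x
      obtain ⟨j, hj⟩ := exists_frob_root p (κ x)
      obtain ⟨y, rfl⟩ := hκ j
      have hxx' : x' ≠ x := fun h => hxS (h ▸ hx'S)
      set mu : Emb → ℤ × ℤ := lam + Pi.single x (-(1 : ℤ), (0 : ℤ)) with hmu
      have hlamx := hlam x
      have hmux : mu x = ((lam x).1 - 1, (lam x).2) := by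
        simp [hmu, sub_eq_add_neg]
        ext <;> simp
      have hmu_dom : Dominant mu := by
        intro z
        by_cases hz : z = x
        · subst hz
          rw [hmux]
          unfold gap at hgx
          dsimp only
          omega
        · simp only [hmu, Pi.add_apply, Pi.single_eq_of_ne hz, add_zero]
          exact hlam z
      have hback : mu + Pi.single x ((1 : ℤ), (0 : ℤ)) = lam := by
        rw [hmu, shift_add]
        simp [single_zero_pair]
      have hgapx : gap lam = gap mu + Pi.single x 1 := by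
        have h1 := gap_add_fst mu hmu_dom x 1
        rw [Nat.cast_one, hback] at h1
        exact h1
      have hmuN : (∑ x, gap mu x) + 1 = N := by
        rw [← hN, hgapx]
        simp [Finset.sum_add_distrib]
      have hA := (he x y hj mu hmu_dom).1
      have hA' := (he x' y (fun a => by rw [hx', hj]) mu hmu_dom).1
      rw [← hA'] at hA
      rw [hback, hat_of_dominant e hlam] at hA
      have h01 : ∀ z : Emb, hat e (mu + Pi.single z (0, 1)) = 0 := by
        intro z
        apply hzero
        have := tot_add mu hmu_dom z (0, 1)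
        have h2 : gap (fun _ : Emb => dom (mu z + (0, 1))) z ≤ gap mu z := by
          have := hmu_dom z
          simp only [gap, dom, Prod.fst_add, Prod.snd_add]
          split_ifs <;> simp <;> omega
        omega
      have hd' : Dominant (mu + Pi.single x' ((1 : ℤ), (0 : ℤ))) :=
        dominant_add mu hmu_dom x' _ _ (by norm_num)
      have hgap' : gap (mu + Pi.single x' ((1 : ℤ), (0 : ℤ))) = gap mu + Pi.single x' 1 := by
        have h1 := gap_add_fst mu hmu_dom x' 1
        rw [Nat.cast_one] at h1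
        exact h1
      have hM' : (∑ z ∈ Finset.univ.filter (fun z => z ∉ S),
          gap (mu + Pi.single x' ((1 : ℤ), (0 : ℤ))) z) + 1 = M := by
        have e1 : ∑ z ∈ Finset.univ.filter (fun z => z ∉ S),
            gap (mu + Pi.single x' ((1 : ℤ), (0 : ℤ))) z
            = ∑ z ∈ Finset.univ.filter (fun z => z ∉ S), gap mu z := by
          apply Finset.sum_congr rfl
          intro z hz
          rw [Finset.mem_filter] at hz
          have : z ≠ x' := fun h => hz.2 (h ▸ hx'S)
          rw [hgap', Pi.add_apply, Pi.single_eq_of_ne this, add_zero]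
        rw [e1, ← hM, hgapx]
        simp only [Pi.add_apply, Finset.sum_add_distrib]
        congr 1
        rw [Finset.sum_pi_single']
        simp [hxS]
      have h4 : e (mu + Pi.single x' ((1 : ℤ), (0 : ℤ))) = 0 := by
        refine ihM _ (by omega) _ hd' ?_ rfl
        rw [hgap']
        simp only [Pi.add_apply, Finset.sum_add_distrib]
        rw [Finset.sum_pi_single']
        simp [hmuN]
      rw [h01 x, h01 x', hat_of_dominant e hd', h4] at hA
      omega
    · -- Case 3
      push Not at hout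
      obtain ⟨l, hl1, hl2, hl3, hl4, hl5, hl6⟩ := he.normalize hκ x₀ lam hlam
      rw [← hl3]
      apply hres
      refine ⟨fun x => ⟨hl1 x, ?_⟩, ?_, hl4, hl5, hl6⟩
      · have h1 := hbig x
        rw [← hl2] at h1
        unfold gap at h1
        have := hl1 x
        omega
      · intro x hx
        have h1 := hout x hx
        rw [← hl2] at h1
        unfold gap at h1
        have := hl1 x
        omega

end det

end Pool.Agent.Work.MP_39033f_nt
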