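import Pool.Agent.Work.MP_39033f_nt.Periodic

set_option autoImplicit false

open MvPolynomial
open scoped MonoidAlgebra TensorProduct

namespace Pool.Agent.Work.MP_39033f_nt

section digits

lemma digits_unique (p : ℕ) (hp : 0 < p) : ∀ (f : ℕ) (d d' : ℕ → ℕ), (∀ i < f, d i < p) →
    (∀ i < f, d' i < p) → ∑ i ∈ Finset.range f, d i * p ^ i = ∑ i ∈ Finset.range f, d' i * p ^ i →
    ∀ i < f, d i = d' i := by
  intro f
  induction f with
  | zero => intro d d' _ _ _ i hi; omega
  | succ f ih =>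
    intro d d' h1 h2 h3
    rw [Finset.sum_range_succ', Finset.sum_range_succ'] at h3
    have e1 : ∀ g : ℕ → ℕ, ∑ i ∈ Finset.range f, g (i + 1) * p ^ (i + 1)
        = p * ∑ i ∈ Finset.range f, g (i + 1) * p ^ i := by
      intro g
      rw [Finset.mul_sum]
      refine Finset.sum_congr rfl fun i _ => ?_
      rw [pow_succ]; ring
    rw [e1, e1, pow_zero, mul_one, mul_one] at h3
    have h4 : d 0 = d' 0 := by
      have h5 := congrArg (· % p) h3
      simp only [Nat.mul_add_mod] at h5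
      rwa [Nat.mod_eq_of_lt (h1 0 (by omega)), Nat.mod_eq_of_lt (h2 0 (by omega))] at h5
    have h5 : ∑ i ∈ Finset.range f, d (i + 1) * p ^ i
        = ∑ i ∈ Finset.range f, d' (i + 1) * p ^ i := by
      rw [h4] at h3
      exact Nat.eq_of_mul_eq_mul_left hp (by omega)
    intro i hi
    rcases i with _ | i
    · exact h4
    · exact ih (fun i => d (i + 1)) (fun i => d' (i + 1)) (fun i hi => h1 _ (by omega))
        (fun i hi => h2 _ (by omega)) h5 i (by omega)

lemma digits_lt (p : ℕ) : ∀ (f : ℕ) (d : ℕ → ℕ), (∀ i < f, d i < p) →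
    ∑ i ∈ Finset.range f, d i * p ^ i < p ^ f := by
  intro f
  induction f with
  | zero => intro d _; simp
  | succ f ih =>
    intro d h1
    rw [Finset.sum_range_succ]
    have h2 := ih d (fun i hi => h1 i (by omega))
    have h3 := h1 f (by omega)
    calc _ < p ^ f + d f * p ^ f := by omega
      _ = (d f + 1) * p ^ f := by ring
      _ ≤ p * p ^ f := Nat.mul_le_mul_right _ h3
      _ = p ^ (f + 1) := by rw [pow_succ]; ring

variable {Emb : Type} [Fintype Emb]

/-- The number with digits `j`. -/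
def EE (p : ℕ) (t : Emb → ℕ) (j : Emb → ℕ) : ℕ := ∑ x, j x * p ^ t x

variable (p f : ℕ) (t : Emb → ℕ) (S : Finset Emb)

lemma EE_eq (hf : ∀ x ∈ S, t x < f) (j : Emb → ℕ) (hj : ∀ x, x ∉ S → j x = 0) :
    EE p t j = ∑ i ∈ Finset.range f, (∑ x ∈ S.filter (fun x => t x = i), j x) * p ^ i := by
  have h1 : EE p t j = ∑ x ∈ S, j x * p ^ t x := by
    unfold EE
    symm
    apply Finset.sum_subset (Finset.subset_univ _)
    intro x _ hx
    rw [hj x hx, zero_mul]
  rw [h1, ← Finset.sum_fiberwise_of_maps_to (t := Finset.range f) (g := t)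
    (fun x hx => Finset.mem_range.2 (hf x hx))]
  refine Finset.sum_congr rfl fun i _ => ?_
  rw [Finset.sum_mul]
  refine Finset.sum_congr rfl fun x hx => ?_
  rw [(Finset.mem_filter.1 hx).2]

lemma digit_eq (hinj : Set.InjOn t S) (j : Emb → ℕ) (x : Emb) (hx : x ∈ S) :
    ∑ y ∈ S.filter (fun y => t y = t x), j y = j x := by
  have h1 : S.filter (fun y => t y = t x) = {x} := by
    ext y
    rw [Finset.mem_filter, Finset.mem_singleton]
    constructor
    · rintro ⟨h1, h2⟩
      exact hinj h1 hx h2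
    · rintro rfl
      exact ⟨hx, rfl⟩
  rw [h1, Finset.sum_singleton]

lemma digit_lt (hp : 0 < p) (hinj : Set.InjOn t S) (j : Emb → ℕ) (hj : ∀ x, j x < p) (i : ℕ) :
    ∑ y ∈ S.filter (fun y => t y = i), j y < p := by
  by_cases h : ∃ x ∈ S, t x = i
  · obtain ⟨x, hx, rfl⟩ := h
    rw [digit_eq t S hinj j x hx]
    exact hj x
  · rw [Finset.filter_eq_empty_iff.2, Finset.sum_empty]
    · exact hp
    · intro x hx hxi
      exact h ⟨x, hx, hxi⟩

lemma EE_inj (hp : 0 < p) (hf : ∀ x ∈ S, t x < f) (hinj : Set.InjOn t S) (j j' : Emb → ℕ)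
    (hj : ∀ x, j x < p) (hj' : ∀ x, j' x < p) (hjS : ∀ x, x ∉ S → j x = 0)
    (hjS' : ∀ x, x ∉ S → j' x = 0) (h : EE p t j = EE p t j') : j = j' := by
  rw [EE_eq p f t S hf j hjS, EE_eq p f t S hf j' hjS'] at h
  ext x
  by_cases hx : x ∈ S
  · have h1 := digits_unique p hp f _ _ (fun i _ => digit_lt p t S hp hinj j hj i)
      (fun i _ => digit_lt p t S hp hinj j' hj' i) h (t x) (hf x hx)
    rwa [digit_eq t S hinj j x hx, digit_eq t S hinj j' x hx] at h1
  · rw [hjS x hx, hjS' x hx]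

lemma EE_lt (hp : 0 < p) (hf : ∀ x ∈ S, t x < f) (hinj : Set.InjOn t S) (j : Emb → ℕ)
    (hj : ∀ x, j x < p) (hjS : ∀ x, x ∉ S → j x = 0) : EE p t j < p ^ f := by
  rw [EE_eq p f t S hf j hjS]
  exact digits_lt p f _ (fun i _ => digit_lt p t S hp hinj j hj i)

end digits

section dmap

variable {F Emb : Type} [Field F] [Fintype Emb] [DecidableEq Emb]

/-- The specialisation `X_(x,0) ↦ 1`, `X_(x,1) ↦ Y^{p^{t x}}`. -/
noncomputable def Dm (p : ℕ) (t : Emb → ℕ) : MvPolynomial (Emb × Fin 2) F →ₐ[F] Polynomial F :=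
  aeval (fun v => if v.2 = 0 then 1 else Polynomial.X ^ p ^ t v.1)

omit [DecidableEq Emb] in
lemma Dm_monomial (p : ℕ) (t : Emb → ℕ) (m : (Emb × Fin 2) →₀ ℕ) (c : F) :
    Dm p t (monomial m c) = Polynomial.C c * Polynomial.X ^ EE p t (fun x => m (x, 1)) := by
  unfold Dm
  rw [aeval_monomial, Finsupp.prod_fintype _ _ (fun i => pow_zero _), Fintype.prod_prod_type]
  congr 1
  unfold EE
  rw [← Finset.prod_pow_eq_pow_sum]
  refine Finset.prod_congr rfl fun x _ => ?_
  rw [Fin.prod_univ_two]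
  simp only [if_true, one_pow, one_mul, one_ne_zero, if_false]
  rw [← pow_mul, mul_comm]

lemma mem_support_props {n : Emb → ℕ} {f : MvPolynomial (Emb × Fin 2) F} (hf : f ∈ Homog F n)
    {m : (Emb × Fin 2) →₀ ℕ} (hm : m ∈ f.support) (x : Emb) : m (x, 0) + m (x, 1) = n x :=
  (mem_Homog_iff n f).1 hf m (mem_support_iff.1 hm) x

variable {p f : ℕ} {t : Emb → ℕ} {S : Finset Emb}

lemma exp_unique (hp : 0 < p) (hf : ∀ x ∈ S, t x < f) (hinj : Set.InjOn t S) {n : Emb → ℕ}
    (hn : ∀ x, n x < p) (hnS : ∀ x, x ∉ S → n x = 0) {m m' : (Emb × Fin 2) →₀ ℕ}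
    (hm : ∀ x, m (x, 0) + m (x, 1) = n x) (hm' : ∀ x, m' (x, 0) + m' (x, 1) = n x)
    (h : EE p t (fun x => m (x, 1)) = EE p t (fun x => m' (x, 1))) : m = m' := by
  have h1 := EE_inj p f t S hp hf hinj _ _ (fun x => by have := hm x; have := hn x; omega)
    (fun x => by have := hm' x; have := hn x; omega)
    (fun x hx => by have := hm x; have := hnS x hx; omega)
    (fun x hx => by have := hm' x; have := hnS x hx; omega) h
  ext ⟨x, i⟩
  have h2 : m (x, 1) = m' (x, 1) := congrFun h1 x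
  have h3 := hm x
  have h4 := hm' x
  fin_cases i
  · change m (x, 0) = m' (x, 0)
    omega
  · exact h2

lemma coeff_Dm (hp : 0 < p) (hf : ∀ x ∈ S, t x < f) (hinj : Set.InjOn t S) {n : Emb → ℕ}
    (hn : ∀ x, n x < p) (hnS : ∀ x, x ∉ S → n x = 0) {g : MvPolynomial (Emb × Fin 2) F}
    (hg : g ∈ Homog F n) {m : (Emb × Fin 2) →₀ ℕ} (hm : ∀ x, m (x, 0) + m (x, 1) = n x) :
    (Dm p t g).coeff (EE p t (fun x => m (x, 1))) = coeff m g := by
  conv_lhs => rw [g.as_sum, map_sum]
  rw [Polynomial.finsetSum_coeff]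
  simp only [Dm_monomial, Polynomial.coeff_C_mul, Polynomial.coeff_X_pow]
  by_cases hmg : m ∈ g.support
  · rw [Finset.sum_eq_single m]
    · simp
    · intro m' hm' hne
      rw [if_neg, mul_zero]
      intro h
      exact hne (exp_unique hp hf hinj hn hnS (fun x => mem_support_props hg hm' x) hm h.symm)
    · intro h; exact absurd hmg h
  · rw [notMem_support_iff.1 hmg]
    apply Finset.sum_eq_zero
    intro m' hm'
    rw [if_neg, mul_zero]
    intro h
    have := exp_unique hp hf hinj hn hnS (fun x => mem_support_props hg hm' x) hm h.symm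
    exact hmg (this ▸ hm')

lemma Dm_injective (hp : 0 < p) (hf : ∀ x ∈ S, t x < f) (hinj : Set.InjOn t S) {n : Emb → ℕ}
    (hn : ∀ x, n x < p) (hnS : ∀ x, x ∉ S → n x = 0) {g : MvPolynomial (Emb × Fin 2) F}
    (hg : g ∈ Homog F n) (h : Dm p t g = 0) : g = 0 := by
  ext m
  rw [coeff_zero]
  by_contra hne
  have hm := (mem_Homog_iff n g).1 hg m hne
  have := coeff_Dm hp hf hinj hn hnS hg (m := m) (fun x => hm x)
  rw [h, Polynomial.coeff_zero] at this
  exact hne this.symm

lemma Dm_natDegree (hp : 0 < p) (hf : ∀ x ∈ S, t x < f) (hinj : Set.InjOn t S) {n : Emb → ℕ}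
    (hn : ∀ x, n x < p) (hnS : ∀ x, x ∉ S → n x = 0) {g : MvPolynomial (Emb × Fin 2) F}
    (hg : g ∈ Homog F n) : (Dm p t g).degree < ((p ^ f : ℕ) : WithBot ℕ) := by
  rw [← Polynomial.mem_degreeLT]
  rw [g.as_sum, map_sum]
  apply Submodule.sum_mem
  intro m hm
  rw [Dm_monomial, ← Polynomial.smul_eq_C_mul]
  apply Submodule.smul_mem
  rw [Polynomial.mem_degreeLT]
  refine lt_of_le_of_lt (Polynomial.degree_X_pow_le _) ?_
  have h1 := EE_lt p f t S hp hf hinj (fun x => m (x, 1))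
    (fun x => by have := mem_support_props hg hm x; have := hn x; omega)
    (fun x hx => by have := mem_support_props hg hm x; have := hnS x hx; omega)
  exact_mod_cast h1

end dmap

end Pool.Agent.Work.MP_39033f_nt
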