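import Pool.Agent.Work.MP_39033f_nt.SmRep

set_option autoImplicit false

open MvPolynomial
open scoped MonoidAlgebra TensorProduct

namespace Pool.Agent.Work.MP_39033f_nt

section full

variable {k F Emb : Type} [Field k] [Field F] [Fintype k] [Fintype Emb] [DecidableEq Emb]
  {Γ : Type} [Group Γ]

/-- The inflation of `W_λ` to `Γ`. -/
noncomputable def Wi (φ : Γ →* GL (Fin 2) k) (κ : Emb → k →+* F) (lam : Emb → ℤ × ℤ) :
    Representation F Γ (Homog F (gap lam)) := (W κ lam).comp φ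

/-- The additive function `ρ ↦ jh μ (ρ ∘ φ)`. -/
noncomputable def AddFn.infl {G : Type} [Group G] (φ : Γ →* G) (Φ : AddFn F Γ) : AddFn F G where
  val V _ _ ρ := Φ.val V (ρ.comp φ)
  exact' := by
    intro U V W _ _ _ _ _ _ _ _ _ ρU ρV ρW i π hi hπ hinj hsurj hex
    exact Φ.exact' U V W (ρU.comp φ) (ρV.comp φ) (ρW.comp φ) i π (fun g u => hi (φ g) u)
      (fun g u => hπ (φ g) u) hinj hsurj hex

omit [Fintype k] in
lemma infl_wval (φ : Γ →* GL (Fin 2) k) (κ : Emb → k →+* F) (μ : WeightFn F[Γ])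
    (lam : Emb → ℤ × ℤ) :
    ((AddFn.ofMu μ).infl φ).wval κ lam = (jh μ (Wi φ κ lam) : ℤ) := rfl

variable {p : ℕ} [Fact p.Prime] [CharP k p]
  {κ : Emb → k →+* F} {S : Finset Emb} {x₀ : Emb} {t : Emb → ℕ} {f : ℕ}

lemma Setup.unique (h : Setup p κ S x₀ t f) (φ : Γ →* GL (Fin 2) k)
    (hφ : Function.Surjective φ) (M : Type) [AddCommGroup M] [Module F[Γ] M]
    {lam lam' : Emb → ℤ × ℤ} (hl : Restricted p (Fintype.card k) S x₀ lam)
    (hl' : Restricted p (Fintype.card k) S x₀ lam')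
    (hM : IsoTo M (Wi φ κ lam)) (hM' : IsoTo M (Wi φ κ lam')) : lam = lam' := by
  obtain ⟨a, a', h1, h2⟩ := hM.trans' hM'
  refine restricted_unique κ x₀ h.ht h.hq h.hf h.hinj hl hl' (φ := a) (φ' := a')
    ⟨h1.1, fun g v => ?_⟩ ⟨h2.1, fun g v => ?_⟩
  · obtain ⟨γ, rfl⟩ := hφ g
    exact h1.2 γ v
  · obtain ⟨γ, rfl⟩ := hφ g
    exact h2.2 γ v

lemma Setup.simple_infl (h : Setup p κ S x₀ t f) (φ : Γ →* GL (Fin 2) k)
    (hφ : Function.Surjective φ) {lam : Emb → ℤ × ℤ}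
    (hl : Restricted p (Fintype.card k) S x₀ lam) :
    IsSimpleModule F[Γ] (Wi φ κ lam).asModule :=
  (irr_comp φ hφ (W κ lam)).2 (h.simple hl)

lemma Setup.mult_delta (h : Setup p κ S x₀ t f) (φ : Γ →* GL (Fin 2) k)
    (hφ : Function.Surjective φ) {lam lam' : Emb → ℤ × ℤ}
    (hl : Restricted p (Fintype.card k) S x₀ lam)
    (hl' : Restricted p (Fintype.card k) S x₀ lam') :
    jh (multFn (Wi φ κ lam')) (Wi φ κ lam) = if lam = lam' then 1 else 0 := by
  refine jh_eq (repJHSum_of_simple _ _ (h.simple_infl φ hφ hl) _ (fun M _ _ hM => ?_))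
  split_ifs with hll
  · subst hll
    exact multFn_pos _ M hM
  · apply multFn_zero
    intro hiso
    exact hll (h.unique φ hφ M hl hl' hM hiso)

/-- **Expansion**: an additive function on representations on which `ker φ` acts through a finite
`p`-group is determined by its values on the restricted `W_ν`. -/
theorem Setup.expand [CharP F p] (h : Setup p κ S x₀ t f) (φ : Γ →* GL (Fin 2) k)
    (hφ : Function.Surjective φ) (Ψ : AddFn F Γ) (R : Finset (Emb → ℤ × ℤ))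
    (hR : ∀ ν, ν ∈ R ↔ Restricted p (Fintype.card k) S x₀ ν) {V : Type} [AddCommGroup V]
    [Module F V] [FiniteDimensional F V] (ρ : Representation F Γ V) (hρ : PAct p ρ φ.ker) :
    Ψ.val V ρ = ∑ ν ∈ R, (jh (multFn (Wi φ κ ν)) ρ : ℤ) * Ψ.val _ (Wi φ κ ν) := by
  classical
  let Ψ' : AddFn F Γ :=
    { val := fun V _ _ ρ => Ψ.val V ρ - ∑ ν ∈ R, (jh (multFn (Wi φ κ ν)) ρ : ℤ)
        * Ψ.val _ (Wi φ κ ν)
      exact' := by
        intro U V W _ _ _ _ _ _ _ _ _ ρU ρV ρW i π hi hπ hinj hsurj hex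
        rw [Ψ.exact' U V W ρU ρV ρW i π hi hπ hinj hsurj hex]
        have h1 : ∀ ν, (jh (multFn (Wi φ κ ν)) ρV : ℤ) = jh (multFn (Wi φ κ ν)) ρU
            + jh (multFn (Wi φ κ ν)) ρW := by
          intro ν
          rw [jh_exact (multFn (Wi φ κ ν)) ρU ρV ρW i π hi hπ hinj hsurj hex]
          push_cast
          rfl
        simp only [h1, add_mul, Finset.sum_add_distrib]
        ring }
  have hΨ' : Ψ'.val V ρ = 0 := by
    refine Ψ'.vanish φ hφ ?_ (Module.finrank F V) V ρ hρ rfl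
    intro V _ _ _ σ hσ
    obtain ⟨ν, hν, ⟨e⟩⟩ := h.classify σ hσ
    -- the linear equivalence
    have he : ∃ e' : Homog F (gap ν) ≃ₗ[F] V, ∀ g u, e' (W κ ν g u) = σ g (e' u) := by
      let g1 := (Representation.IntertwiningMap.equivLinearMapAsModule (W κ ν) σ).symm
        e.toLinearMap
      refine ⟨LinearEquiv.ofBijective g1.toLinearMap e.bijective, fun g u => ?_⟩
      exact g1.isIntertwining (W κ ν) σ g u
    obtain ⟨e', he'⟩ := he
    have h2 : Ψ'.val (Homog F (gap ν)) (Wi φ κ ν) = Ψ'.val V (σ.comp φ) :=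
      Ψ'.iso (Wi φ κ ν) (σ.comp φ) e' (fun g u => he' (φ g) u)
    rw [← h2]
    change Ψ.val _ (Wi φ κ ν) - ∑ ν' ∈ R, (jh (multFn (Wi φ κ ν')) (Wi φ κ ν) : ℤ)
        * Ψ.val _ (Wi φ κ ν') = 0
    rw [Finset.sum_eq_single ν]
    · rw [h.mult_delta φ hφ hν hν, if_pos rfl]
      simp
    · intro ν' hν' hne
      rw [h.mult_delta φ hφ hν ((hR ν').1 hν'), if_neg hne.symm]
      simp
    · intro hν'
      exact absurd ((hR ν).2 hν) hν'
  have h3 : Ψ'.val V ρ = Ψ.val V ρ - ∑ ν ∈ R, (jh (multFn (Wi φ κ ν)) ρ : ℤ)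
        * Ψ.val _ (Wi φ κ ν) := rfl
  rw [h3] at hΨ'
  linarith

/-- The weight function with prescribed values on the inflated restricted `W_λ`. -/
noncomputable def muG (φ : Γ →* GL (Fin 2) k) (κ : Emb → k →+* F) (S : Finset Emb) (x₀ : Emb)
    (p : ℕ) (e : (Emb → ℤ × ℤ) → ℕ)
    (huniq : ∀ (M : Type) [AddCommGroup M] [Module F[Γ] M] (lam lam' : Emb → ℤ × ℤ),
      Restricted p (Fintype.card k) S x₀ lam → Restricted p (Fintype.card k) S x₀ lam' →
      IsoTo M (Wi φ κ lam) → IsoTo M (Wi φ κ lam') → lam = lam') : WeightFn F[Γ] := by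
  classical
  exact
  { val := fun M _ _ =>
      if h : ∃ lam, Restricted p (Fintype.card k) S x₀ lam ∧ IsoTo M (Wi φ κ lam)
      then e h.choose else 0
    iso := by
      intro M N _ _ _ _ eMN
      have hiff : (∃ lam, Restricted p (Fintype.card k) S x₀ lam ∧ IsoTo M (Wi φ κ lam)) ↔
          (∃ lam, Restricted p (Fintype.card k) S x₀ lam ∧ IsoTo N (Wi φ κ lam)) := by
        simp only [isoTo_congr eMN]
      by_cases h : ∃ lam, Restricted p (Fintype.card k) S x₀ lam ∧ IsoTo M (Wi φ κ lam)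
      · have h' := hiff.1 h
        rw [dif_pos h, dif_pos h']
        congr 1
        exact huniq M _ _ h.choose_spec.1 h'.choose_spec.1 h.choose_spec.2
          ((isoTo_congr eMN _).2 h'.choose_spec.2)
      · rw [dif_neg h, dif_neg (fun h' => h (hiff.2 h'))] }

/-- The crystalline system for `Γ`. -/
theorem Setup.crys (h : Setup p κ S x₀ t f) (φ : Γ →* GL (Fin 2) k)
    (hφ : Function.Surjective φ) (e : (Emb → ℤ × ℤ) → ℕ)
    (hper : FrobeniusPeriodic p κ (fun lam => (e lam : ℤ))) :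
    ∃ μ : WeightFn F[Γ], ∀ lam, Dominant lam → RepJHSum μ (Wi φ κ lam) (e lam) := by
  have huniq : ∀ (M : Type) [AddCommGroup M] [Module F[Γ] M] (lam lam' : Emb → ℤ × ℤ),
      Restricted p (Fintype.card k) S x₀ lam → Restricted p (Fintype.card k) S x₀ lam' →
      IsoTo M (Wi φ κ lam) → IsoTo M (Wi φ κ lam') → lam = lam' :=
    fun M _ _ lam lam' hl hl' hM hM' => h.unique φ hφ M hl hl' hM hM'
  set μ := muG φ κ S x₀ p e huniq with hμ
  have hval : ∀ (M : Type) [AddCommGroup M] [Module F[Γ] M] (lam : Emb → ℤ × ℤ),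
      Restricted p (Fintype.card k) S x₀ lam → IsoTo M (Wi φ κ lam) → μ.val M = e lam := by
    intro M _ _ lam hl hM
    have hex : ∃ lam, Restricted p (Fintype.card k) S x₀ lam ∧ IsoTo M (Wi φ κ lam) :=
      ⟨lam, hl, hM⟩
    rw [hμ]
    unfold muG
    dsimp only
    rw [dif_pos hex]
    congr 1
    exact huniq M _ _ hex.choose_spec.1 hl hex.choose_spec.2 hM
  have hres : ∀ lam, Restricted p (Fintype.card k) S x₀ lam →
      RepJHSum μ (Wi φ κ lam) (e lam) := by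
    intro lam hl
    exact repJHSum_of_simple μ _ (h.simple_infl φ hφ hl) _ (fun M _ _ hM => hval M lam hl hM)
  refine ⟨μ, fun lam hlam => ?_⟩
  have h3 := ((((AddFn.ofMu μ).infl φ).frobeniusPeriodic κ).sub hper).eq_zero
    h.hκ S x₀ h.hS (fun l hl => by
      rw [infl_wval, jh_eq (hres l hl), sub_self]) lam hlam
  rw [infl_wval] at h3
  have h4 : jh μ (Wi φ κ lam) = e lam := by
    have := sub_eq_zero.1 h3
    exact_mod_cast this
  rw [← h4]
  exact jhSum_jh μ _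

/-- The formula for the values of a weight function on `W_λ ⊗ M`. -/
theorem Setup.formula [CharP F p] (h : Setup p κ S x₀ t f) (φ : Γ →* GL (Fin 2) k)
    (hφ : Function.Surjective φ) (R : Finset (Emb → ℤ × ℤ))
    (hR : ∀ ν, ν ∈ R ↔ Restricted p (Fintype.card k) S x₀ ν) (μ : WeightFn F[Γ])
    (e : (Emb → ℤ × ℤ) → ℕ) (he : ∀ lam, Dominant lam → RepJHSum μ (Wi φ κ lam) (e lam))
    {N : Type} [AddCommGroup N] [Module F N] [FiniteDimensional F N]
    (M : Representation F Γ N) (hM : PAct p M φ.ker) (n : (Emb → ℤ × ℤ) → ℕ)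
    (hn : ∀ ν, Restricted p (Fintype.card k) S x₀ ν → RepJHSum (multFn (Wi φ κ ν)) M (n ν))
    (lam : Emb → ℤ × ℤ) (hlam : Dominant lam) :
    (jh μ (twist φ M (W κ lam)) : ℤ)
      = ∑ ν ∈ R, (n ν : ℤ) * gsum (hat (fun l => (e l : ℤ))) ν lam := by
  set Φ := AddFn.ofMu μ with hΦ
  have h1 : (jh μ (twist φ M (W κ lam)) : ℤ) = (Φ.tens M).val _ (Wi φ κ lam) := rfl
  rw [h1, Φ.tens_comm M (Wi φ κ lam), h.expand φ hφ (Φ.tens (Wi φ κ lam)) R hR M hM]
  refine Finset.sum_congr rfl fun ν hν => ?_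
  have hν' := (hR ν).1 hν
  have hνd : Dominant ν := fun x => (hν'.1 x).1
  rw [jh_eq (hn ν hν'), Φ.tens_comm (Wi φ κ lam) (Wi φ κ ν)]
  congr 1
  have h2 : (Φ.tens (Wi φ κ ν)).val _ (Wi φ κ lam)
      = ((Φ.infl φ).tens (W κ ν)).wval κ lam := rfl
  rw [h2, (Φ.infl φ).tens_wval κ _ lam ν hlam hνd rfl]
  unfold gsum
  refine Finset.sum_congr rfl fun i _ => ?_
  apply hat_congr
  intro l hl
  rw [hΦ, infl_wval, jh_eq (he l hl)]

/-- The full criterion. -/
theorem Setup.full_iff [CharP F p] (h : Setup p κ S x₀ t f) (φ : Γ →* GL (Fin 2) k)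
    (hφ : Function.Surjective φ) (R : Finset (Emb → ℤ × ℤ))
    (hR : ∀ ν, ν ∈ R ↔ Restricted p (Fintype.card k) S x₀ ν)
    {T : Type} (N : T → Type) [∀ τ, AddCommGroup (N τ)] [∀ τ, Module F (N τ)]
    [∀ τ, FiniteDimensional F (N τ)] (M : ∀ τ, Representation F Γ (N τ))
    (hM : ∀ τ, PAct p (M τ) φ.ker) (n : T → (Emb → ℤ × ℤ) → ℕ)
    (hn : ∀ τ ν, Restricted p (Fintype.card k) S x₀ ν →
      RepJHSum (multFn (Wi φ κ ν)) (M τ) (n τ ν))
    (e : (Emb → ℤ × ℤ) → ℕ) (e' : T → (Emb → ℤ × ℤ) → ℕ) :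
    (∃ μ : WeightFn F[Γ], (∀ lam, Dominant lam → RepJHSum μ (Wi φ κ lam) (e lam)) ∧
      ∀ τ lam, Dominant lam → RepJHSum μ (twist φ (M τ) (W κ lam)) (e' τ lam)) ↔
    (FrobeniusPeriodic p κ (fun lam => (e lam : ℤ)) ∧
      ∀ τ lam, Dominant lam → (e' τ lam : ℤ)
        = ∑ ν ∈ R, (n τ ν : ℤ) * gsum (hat (fun l => (e l : ℤ))) ν lam) := by
  constructor
  · rintro ⟨μ, h1, h2⟩
    refine ⟨?_, fun τ lam hlam => ?_⟩
    · refine (((AddFn.ofMu μ).infl φ).frobeniusPeriodic κ).congr (fun ν hν => ?_)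
      rw [infl_wval, jh_eq (h1 ν hν)]
    · rw [← h.formula φ hφ R hR μ e h1 (M τ) (hM τ) (n τ) (hn τ) lam hlam, jh_eq (h2 τ lam hlam)]
  · rintro ⟨h1, h2⟩
    obtain ⟨μ, hμ⟩ := h.crys φ hφ e h1
    refine ⟨μ, hμ, fun τ lam hlam => ?_⟩
    have h3 := h.formula φ hφ R hR μ e hμ (M τ) (hM τ) (n τ) (hn τ) lam hlam
    rw [← h2 τ lam hlam] at h3
    have h4 : jh μ (twist φ (M τ) (W κ lam)) = e' τ lam := by exact_mod_cast h3
    rw [← h4]
    exact jhSum_jh μ _

end full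

end Pool.Agent.Work.MP_39033f_nt
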