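import Pool.Agent.Work.MP_39033f_nt.Dmap

set_option autoImplicit false

open MvPolynomial
open scoped MonoidAlgebra TensorProduct

namespace Pool.Agent.Work.MP_39033f_nt

section elements

variable {k : Type} [Field k]

/-- Upper unipotent elements. -/
def uu (c : k) : GL (Fin 2) k :=
  ⟨!![1, c; 0, 1], !![1, -c; 0, 1], by ext i j; fin_cases i <;> fin_cases j <;> simp,
    by ext i j; fin_cases i <;> fin_cases j <;> simp⟩

/-- Lower unipotent elements. -/
def ll (c : k) : GL (Fin 2) k :=
  ⟨!![1, 0; c, 1], !![1, 0; -c, 1], by ext i j; fin_cases i <;> fin_cases j <;> simp,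
    by ext i j; fin_cases i <;> fin_cases j <;> simp⟩

/-- Diagonal elements. -/
def hd (a d : kˣ) : GL (Fin 2) k :=
  ⟨!![(a : k), 0; 0, (d : k)], !![((a⁻¹ : kˣ) : k), 0; 0, ((d⁻¹ : kˣ) : k)],
    by ext i j; fin_cases i <;> fin_cases j <;> simp,
    by ext i j; fin_cases i <;> fin_cases j <;> simp⟩

lemma det_uu (c : k) : ((uu c).det : k) = 1 := by
  rw [Matrix.GeneralLinearGroup.val_det_apply]
  simp [uu, Matrix.det_fin_two]

lemma det_ll (c : k) : ((ll c).det : k) = 1 := by
  rw [Matrix.GeneralLinearGroup.val_det_apply]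
  simp [ll, Matrix.det_fin_two]

lemma det_hd (a d : kˣ) : ((hd a d).det : k) = a * d := by
  rw [Matrix.GeneralLinearGroup.val_det_apply]
  simp [hd, Matrix.det_fin_two]

end elements

section act

variable {k F Emb : Type} [Field k] [Field F] [Fintype Emb] [DecidableEq Emb]

lemma W_uu (κ : Emb → k →+* F) (lam : Emb → ℤ × ℤ) (c : k) (g : Homog F (gap lam)) :
    (W κ lam (uu c) g : MvPolynomial (Emb × Fin 2) F) = subst κ (uu c) g := by
  rw [W_coe, det_uu]
  simp

lemma W_ll (κ : Emb → k →+* F) (lam : Emb → ℤ × ℤ) (c : k) (g : Homog F (gap lam)) :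
    (W κ lam (ll c) g : MvPolynomial (Emb × Fin 2) F) = subst κ (ll c) g := by
  rw [W_coe, det_ll]
  simp

variable {p : ℕ} [Fact p.Prime] [CharP k p] {t : Emb → ℕ} {κ0 : k →+* F}

omit [DecidableEq Emb] [Fintype Emb] in
lemma Dm_subst_uu (κ : Emb → k →+* F) (ht : ∀ x a, κ x a = κ0 a ^ p ^ t x) (c : k)
    (g : MvPolynomial (Emb × Fin 2) F) :
    Dm p t (subst κ (uu c) g) = Polynomial.taylor (κ0 c) (Dm p t g) := by
  have : CharP F p := charP_of_injective_ringHom κ0.injective p
  have h : ((Dm p t).comp (subst κ (uu c)))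
      = (Polynomial.taylorAlgHom (κ0 c)).comp (Dm (F := F) p t) := by
    apply MvPolynomial.algHom_ext
    rintro ⟨x, i⟩
    simp only [AlgHom.comp_apply, subst_X, Fin.sum_univ_two, map_add, map_mul, algHom_C,
      Polynomial.coe_taylorAlgHom]
    unfold Dm
    simp only [aeval_X]
    fin_cases i
    · simp [uu]
    · simp only [uu, Fin.mk_one, Fin.isValue, if_true, one_ne_zero, if_false]
      simp [ht, add_pow_char_pow, add_comm]
  exact DFunLike.congr_fun h g

lemma zero_of_vanish [Fintype k] (P : Polynomial F)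
    (hP : P.degree < (Fintype.card k : WithBot ℕ)) (h : ∀ c : k, P.eval (κ0 c) = 0) : P = 0 := by
  apply Polynomial.eq_zero_of_degree_lt_of_eval_index_eq_zero (s := Finset.univ) (v := κ0)
    (κ0.injective.injOn)
  · rw [Finset.card_univ]; exact hP
  · intro c _; exact h c

/-- A polynomial of small degree invariant under the translations is constant. -/
lemma const_of_taylor [Fintype k] (P : Polynomial F) (hP : P.degree < (Fintype.card k : WithBot ℕ))
    (h : ∀ c : k, Polynomial.taylor (κ0 c) P = P) : P = Polynomial.C (P.eval 0) := by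
  rw [← sub_eq_zero]
  apply zero_of_vanish (κ0 := κ0)
  · refine lt_of_le_of_lt (Polynomial.degree_sub_le _ _) (max_lt hP ?_)
    refine lt_of_le_of_lt Polynomial.degree_C_le ?_
    exact_mod_cast Fintype.card_pos
  · intro c
    rw [Polynomial.eval_sub, Polynomial.eval_C]
    have h1 := congrArg (Polynomial.eval 0) (h c)
    rw [Polynomial.taylor_eval, zero_add] at h1
    rw [h1, sub_self]

/-- The exponent of the monomial `∏ X_(x,0)^{n x - j x} X_(x,1)^{j x}`. -/
noncomputable def mexp (n j : Emb → ℕ) : (Emb × Fin 2) →₀ ℕ :=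
  Finsupp.equivFunOnFinite.symm (fun v => if v.2 = 0 then n v.1 - j v.1 else j v.1)

omit [DecidableEq Emb] in
lemma mexp_zero (n j : Emb → ℕ) (x : Emb) : mexp n j (x, 0) = n x - j x := by
  simp [mexp]

omit [DecidableEq Emb] in
lemma mexp_one (n j : Emb → ℕ) (x : Emb) : mexp n j (x, 1) = j x := by
  simp [mexp]

lemma mexp_mem {n j : Emb → ℕ} (hj : ∀ x, j x ≤ n x) (c : F) :
    monomial (mexp n j) c ∈ Homog F n := by
  rw [mem_Homog_iff]
  intro m hm x
  rw [coeff_monomial] at hm
  split_ifs at hm with h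
  · rw [← h, mexp_zero, mexp_one]
    have := hj x
    omega
  · exact absurd rfl hm

/-- The highest weight vector. -/
noncomputable def vtop (F : Type) [Field F] (n : Emb → ℕ) : Homog F n :=
  ⟨monomial (mexp n 0) 1, mexp_mem (fun _ => Nat.zero_le _) 1⟩

lemma Dm_vtop (n : Emb → ℕ) : Dm p t (vtop F n : MvPolynomial (Emb × Fin 2) F) = 1 := by
  rw [vtop, Dm_monomial]
  have : EE p t (fun x => mexp n 0 (x, 1)) = 0 := by
    unfold EE
    apply Finset.sum_eq_zero
    intro x _
    simp only [mexp_one]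
    simp
  rw [this]
  simp

variable {f : ℕ} {S : Finset Emb} [Fintype k]

/-- A vector fixed by the upper unipotent group is a multiple of the highest weight vector. -/
lemma fixed_eq (κ : Emb → k →+* F) (ht : ∀ x a, κ x a = κ0 a ^ p ^ t x)
    (hq : Fintype.card k = p ^ f) (hf : ∀ x ∈ S, t x < f) (hinj : Set.InjOn t S)
    (lam : Emb → ℤ × ℤ) (hn : ∀ x, gap lam x < p) (hnS : ∀ x, x ∉ S → gap lam x = 0)
    (g : Homog F (gap lam)) (hg : ∀ c : k, W κ lam (uu c) g = g) :
    ∃ a : F, g = a • vtop F (gap lam) := by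
  have hp : 0 < p := (Fact.out : p.Prime).pos
  have h1 : Dm p t (g : MvPolynomial (Emb × Fin 2) F)
      = Polynomial.C ((Dm p t (g : MvPolynomial (Emb × Fin 2) F)).eval 0) := by
    apply const_of_taylor (κ0 := κ0)
    · rw [hq]
      exact Dm_natDegree hp hf hinj hn hnS g.2
    · intro c
      rw [← Dm_subst_uu κ ht, ← W_uu, hg c]
  set a := (Dm p t (g : MvPolynomial (Emb × Fin 2) F)).eval 0
  refine ⟨a, ?_⟩
  rw [← sub_eq_zero]
  apply Subtype.ext
  apply Dm_injective hp hf hinj hn hnS (g - a • vtop F (gap lam)).2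
  rw [Submodule.coe_sub, Submodule.coe_smul, map_sub, map_smul, Dm_vtop, h1,
    Polynomial.smul_eq_C_mul, mul_one, sub_self]

/-- A nonzero stable subspace contains the highest weight vector. -/
lemma vtop_mem (κ : Emb → k →+* F) (ht : ∀ x a, κ x a = κ0 a ^ p ^ t x)
    (hq : Fintype.card k = p ^ f) (hf : ∀ x ∈ S, t x < f) (hinj : Set.InjOn t S)
    (lam : Emb → ℤ × ℤ) (hn : ∀ x, gap lam x < p) (hnS : ∀ x, x ∉ S → gap lam x = 0)
    (N : Submodule F (Homog F (gap lam))) (hN : ∀ g, ∀ v ∈ N, W κ lam g v ∈ N)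
    (hN0 : ∃ v ∈ N, v ≠ 0) : vtop F (gap lam) ∈ N := by
  have hp : 0 < p := (Fact.out : p.Prime).pos
  obtain ⟨g, ⟨hgN, hg0⟩, hmin⟩ := (InvImage.wf (fun v : Homog F (gap lam) =>
    (Dm p t (v : MvPolynomial (Emb × Fin 2) F)).natDegree) Nat.lt_wfRel.wf).has_min
    {v | v ∈ N ∧ v ≠ 0} hN0
  have hDg0 : Dm p t (g : MvPolynomial (Emb × Fin 2) F) ≠ 0 := by
    intro h
    apply hg0
    apply Subtype.ext
    exact Dm_injective hp hf hinj hn hnS g.2 h
  have hfix : ∀ c : k, W κ lam (uu c) g = g := by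
    intro c
    by_contra hne
    have h0 : W κ lam (uu c) g - g ≠ 0 := sub_ne_zero.2 hne
    have hmem : W κ lam (uu c) g - g ∈ N := N.sub_mem (hN _ _ hgN) hgN
    have h1 := hmin _ ⟨hmem, h0⟩
    apply h1
    change (Dm p t ((W κ lam (uu c) g - g : Homog F (gap lam)) :
      MvPolynomial (Emb × Fin 2) F)).natDegree < _
    have h2 : Dm p t ((W κ lam (uu c) g - g : Homog F (gap lam)) : MvPolynomial (Emb × Fin 2) F)
        = Polynomial.taylor (κ0 c) (Dm p t (g : MvPolynomial (Emb × Fin 2) F))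
          - Dm p t (g : MvPolynomial (Emb × Fin 2) F) := by
      rw [Submodule.coe_sub, map_sub, W_uu, Dm_subst_uu κ ht]
    have h3 : Dm p t ((W κ lam (uu c) g - g : Homog F (gap lam)) :
        MvPolynomial (Emb × Fin 2) F) ≠ 0 := by
      intro h
      apply h0
      apply Subtype.ext
      exact Dm_injective hp hf hinj hn hnS (W κ lam (uu c) g - g).2 h
    apply Polynomial.natDegree_lt_natDegree h3
    rw [h2]
    have h4 := Polynomial.degree_sub_lt_left
      (p := Polynomial.taylor (κ0 c) (Dm p t (g : MvPolynomial (Emb × Fin 2) F)))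
      (q := Dm p t (g : MvPolynomial (Emb × Fin 2) F)) (Polynomial.degree_taylor _ _)
      (by rw [Ne, Polynomial.taylor_eq_zero]; exact hDg0) (Polynomial.leadingCoeff_taylor _ _)
    rwa [Polynomial.degree_taylor] at h4
  obtain ⟨a, ha⟩ := fixed_eq κ ht hq hf hinj lam hn hnS g hfix
  have ha0 : a ≠ 0 := by
    rintro rfl
    rw [zero_smul] at ha
    exact hg0 ha
  have : vtop F (gap lam) = a⁻¹ • g := by
    rw [ha, smul_smul, inv_mul_cancel₀ ha0, one_smul]
  rw [this]
  exact N.smul_mem _ hgN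

end act

end Pool.Agent.Work.MP_39033f_nt
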