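import Pool.Agent.Work.MP_39033f_nt.Irred

set_option autoImplicit false

open MvPolynomial
open scoped MonoidAlgebra TensorProduct

namespace Pool.Agent.Work.MP_39033f_nt

section gen

variable {k F Emb : Type} [Field k] [Field F] [Fintype Emb] [DecidableEq Emb]
variable {p : ℕ} [Fact p.Prime] [CharP k p] {t : Emb → ℕ} {κ0 : k →+* F}
variable {f : ℕ} {S : Finset Emb} [Fintype k]

lemma subst_ll_X (κ : Emb → k →+* F) (c : k) (x : Emb) :
    subst κ (ll c) (X (x, 0)) = C (κ x c) * X (x, 1) + X (x, 0) := by
  rw [subst_X, Fin.sum_univ_two]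
  simp [ll, add_comm]

/-- The expansion of the lower unipotent translate of the highest weight vector. -/
lemma subst_ll_vtop (κ : Emb → k →+* F) (ht : ∀ x a, κ x a = κ0 a ^ p ^ t x) (n : Emb → ℕ)
    (c : k) : subst κ (ll c) (vtop F n : MvPolynomial (Emb × Fin 2) F)
      = ∑ j ∈ Fintype.piFinset (fun x => Finset.range (n x + 1)),
        (κ0 c ^ EE p t j * ∏ x, ((n x).choose (j x) : F)) • monomial (mexp n j) (1 : F) := by
  have h1 : (vtop F n : MvPolynomial (Emb × Fin 2) F) = ∏ x, X (x, 0) ^ n x := by
    rw [vtop]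
    simp only
    rw [monomial_eq, C_1, one_mul, Finsupp.prod_fintype _ _ (fun i => pow_zero _),
      Fintype.prod_prod_type]
    refine Finset.prod_congr rfl fun x _ => ?_
    rw [Fin.prod_univ_two, mexp_zero, mexp_one]
    simp
  rw [h1, map_prod]
  have h2 : ∀ x : Emb, subst κ (ll c) (X (x, 0) ^ n x)
      = ∑ j ∈ Finset.range (n x + 1), (C (κ x c) * X (x, 1)) ^ j * X (x, 0) ^ (n x - j)
        * ((n x).choose j : MvPolynomial (Emb × Fin 2) F) := by
    intro x
    rw [map_pow, subst_ll_X, add_pow]
  rw [Finset.prod_congr rfl (fun x _ => h2 x), Finset.prod_univ_sum]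
  refine Finset.sum_congr rfl fun j hj => ?_
  have h3 : monomial (mexp n j) (1 : F)
      = ∏ x, (X (x, 0) ^ (n x - j x) * X (x, 1) ^ j x : MvPolynomial (Emb × Fin 2) F) := by
    rw [monomial_eq, C_1, one_mul, Finsupp.prod_fintype _ _ (fun i => pow_zero _),
      Fintype.prod_prod_type]
    refine Finset.prod_congr rfl fun x _ => ?_
    rw [Fin.prod_univ_two, mexp_zero, mexp_one]
  rw [h3, smul_eq_C_mul, EE, ← Finset.prod_pow_eq_pow_sum, ← Finset.prod_mul_distrib, map_prod,
    ← Finset.prod_mul_distrib]
  refine Finset.prod_congr rfl fun x _ => ?_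
  rw [ht, mul_pow, ← map_pow, ← pow_mul, mul_comm (p ^ t x) (j x), map_mul, map_natCast]
  ring

/-- A stable subspace containing the highest weight vector is everything. -/
lemma eq_top_of_vtop_mem (κ : Emb → k →+* F) (ht : ∀ x a, κ x a = κ0 a ^ p ^ t x)
    (hq : Fintype.card k = p ^ f) (hf : ∀ x ∈ S, t x < f) (hinj : Set.InjOn t S)
    (lam : Emb → ℤ × ℤ) (hn : ∀ x, gap lam x < p) (hnS : ∀ x, x ∉ S → gap lam x = 0)
    (N : Submodule F (Homog F (gap lam))) (hN : ∀ g, ∀ v ∈ N, W κ lam g v ∈ N)
    (hv : vtop F (gap lam) ∈ N) : N = ⊤ := by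
  have hp : 0 < p := (Fact.out : p.Prime).pos
  have : CharP F p := charP_of_injective_ringHom κ0.injective p
  by_contra hne
  obtain ⟨ψ, hψ0, hψ⟩ := Submodule.exists_le_ker_of_lt_top N (lt_top_iff_ne_top.2 hne)
  obtain ⟨ψ', hψ'⟩ := LinearMap.exists_extend ψ
  set I := Fintype.piFinset (fun x => Finset.range (gap lam x + 1)) with hI
  have hjle : ∀ j ∈ I, ∀ x, j x ≤ gap lam x := by
    intro j hj x
    have := Fintype.mem_piFinset.1 hj x
    rw [Finset.mem_range] at this
    omega
  set P : Polynomial F := ∑ j ∈ I,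
    Polynomial.C ((∏ x, ((gap lam x).choose (j x) : F)) * ψ' (monomial (mexp (gap lam) j) 1)) *
      Polynomial.X ^ EE p t j with hP
  have hP0 : P = 0 := by
    apply zero_of_vanish (κ0 := κ0)
    · rw [← Polynomial.mem_degreeLT]
      apply Submodule.sum_mem
      intro j hj
      rw [← Polynomial.smul_eq_C_mul]
      apply Submodule.smul_mem
      rw [Polynomial.mem_degreeLT]
      refine lt_of_le_of_lt (Polynomial.degree_X_pow_le _) ?_
      have h1 := EE_lt p f t S hp hf hinj j
        (fun x => lt_of_le_of_lt (hjle j hj x) (hn x))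
        (fun x hx => by have := hjle j hj x; have := hnS x hx; omega)
      rw [hq]
      exact_mod_cast h1
    · intro c
      have h1 : ψ (W κ lam (ll c) (vtop F (gap lam))) = 0 := hψ (hN _ _ hv)
      have h2 : ψ (W κ lam (ll c) (vtop F (gap lam)))
          = ψ' (W κ lam (ll c) (vtop F (gap lam)) : MvPolynomial (Emb × Fin 2) F) := by
        rw [← hψ']; rfl
      rw [h2, W_ll, subst_ll_vtop κ ht, map_sum] at h1
      rw [hP, Polynomial.eval_finsetSum, ← h1]
      refine Finset.sum_congr rfl fun j _ => ?_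
      rw [Polynomial.eval_mul, Polynomial.eval_C, Polynomial.eval_pow, Polynomial.eval_X, map_smul,
        smul_eq_mul]
      ring
  have hcoef : ∀ j ∈ I, ψ' (monomial (mexp (gap lam) j) 1) = 0 := by
    intro j hj
    have h1 : P.coeff (EE p t j)
        = (∏ x, ((gap lam x).choose (j x) : F)) * ψ' (monomial (mexp (gap lam) j) 1) := by
      rw [hP, Polynomial.finsetSum_coeff]
      simp only [Polynomial.coeff_C_mul, Polynomial.coeff_X_pow]
      rw [Finset.sum_eq_single j]
      · simp
      · intro j' hj' hne'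
        rw [if_neg, mul_zero]
        intro h
        apply hne'
        exact (EE_inj p f t S hp hf hinj j j' (fun x => lt_of_le_of_lt (hjle j hj x) (hn x))
          (fun x => lt_of_le_of_lt (hjle j' hj' x) (hn x))
          (fun x hx => by have := hjle j hj x; have := hnS x hx; omega)
          (fun x hx => by have := hjle j' hj' x; have := hnS x hx; omega) h).symm
      · intro h; exact absurd hj h
    rw [hP0, Polynomial.coeff_zero] at h1
    rcases mul_eq_zero.1 h1.symm with h2 | h2
    · exfalso
      rw [Finset.prod_eq_zero_iff] at h2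
      obtain ⟨x, _, hx⟩ := h2
      rw [CharP.cast_eq_zero_iff F p] at hx
      have h3 := Nat.choose_mul_factorial_mul_factorial (hjle j hj x)
      have h4 : p ∣ (gap lam x).factorial := by
        rw [← h3, mul_assoc]
        exact Dvd.dvd.mul_right hx _
      have h5 := ((Fact.out : p.Prime).dvd_factorial).1 h4
      have h6 := hn x
      omega
    · exact h2
  apply hψ0
  apply LinearMap.ext
  intro g
  have h1 : ψ g = ψ' (g : MvPolynomial (Emb × Fin 2) F) := by rw [← hψ']; rfl
  rw [h1, (g : MvPolynomial (Emb × Fin 2) F).as_sum, map_sum, LinearMap.zero_apply]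
  apply Finset.sum_eq_zero
  intro m hm
  have hm' := mem_support_props g.2 hm
  have h2 : m = mexp (gap lam) (fun x => m (x, 1)) := by
    ext ⟨x, i⟩
    fin_cases i
    · change m (x, 0) = mexp (gap lam) _ (x, 0)
      rw [mexp_zero]
      have := hm' x
      omega
    · change m (x, 1) = mexp (gap lam) _ (x, 1)
      rw [mexp_one]
  have h3 : monomial m (coeff m (g : MvPolynomial (Emb × Fin 2) F))
      = (coeff m (g : MvPolynomial (Emb × Fin 2) F)) • monomial m (1 : F) := by
    rw [smul_monomial, smul_eq_mul, mul_one]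
  rw [h3, map_smul, h2, hcoef, smul_zero]
  rw [hI, Fintype.mem_piFinset]
  intro x
  rw [Finset.mem_range]
  have := hm' x
  omega

end gen

end Pool.Agent.Work.MP_39033f_nt
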