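import Pool.Agent.Work.MP_39033f_nt.Irred2

set_option autoImplicit false

open MvPolynomial
open scoped MonoidAlgebra TensorProduct

namespace Pool.Agent.Work.MP_39033f_nt

section simple

variable {k F Emb : Type} [Field k] [Field F] [Fintype Emb] [DecidableEq Emb]
variable {p : ℕ} [Fact p.Prime] [CharP k p] {t : Emb → ℕ} {κ0 : k →+* F}
variable {f : ℕ} {S : Finset Emb} [Fintype k]

lemma vtop_ne (n : Emb → ℕ) : vtop F n ≠ 0 := by
  intro h
  have h1 : monomial (mexp n 0) (1 : F) = 0 := congrArg Subtype.val h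
  rw [monomial_eq_zero] at h1
  exact one_ne_zero h1

/-- The restricted `W_λ` are irreducible. -/
theorem W_simple (κ : Emb → k →+* F) (ht : ∀ x a, κ x a = κ0 a ^ p ^ t x)
    (hq : Fintype.card k = p ^ f) (hf : ∀ x ∈ S, t x < f) (hinj : Set.InjOn t S)
    (lam : Emb → ℤ × ℤ) (hn : ∀ x, gap lam x < p) (hnS : ∀ x, x ∉ S → gap lam x = 0) :
    IsSimpleModule F[GL (Fin 2) k] (W κ lam).asModule := by
  rw [← Representation.irreducible_iff_isSimpleModule_asModule]
  have hnt : Nontrivial (Subrepresentation (W κ lam)) := by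
    refine ⟨⟨⊥, ⊤, ?_⟩⟩
    intro h
    have h1 : vtop F (gap lam) ∈ (⊥ : Subrepresentation (W κ lam)).toSubmodule := by
      rw [h]; exact Submodule.mem_top
    exact vtop_ne (gap lam) ((Submodule.mem_bot F).1 h1)
  refine @IsSimpleOrder.mk _ _ _ hnt ?_
  intro σ
  by_cases h : ∃ v ∈ σ.toSubmodule, v ≠ 0
  · right
    have h1 := vtop_mem κ ht hq hf hinj lam hn hnS σ.toSubmodule
      (fun g v hv => σ.apply_mem_toSubmodule g hv) h
    have h2 := eq_top_of_vtop_mem κ ht hq hf hinj lam hn hnS σ.toSubmodule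
      (fun g v hv => σ.apply_mem_toSubmodule g hv) h1
    exact Subrepresentation.toSubmodule_injective h2
  · left
    push Not at h
    apply Subrepresentation.toSubmodule_injective
    exact (Submodule.eq_bot_iff _).2 h

omit [CharP k p] [Fact p.Prime] [Fintype k] in
lemma W_hd_vtop (κ : Emb → k →+* F) (ht : ∀ x a, κ x a = κ0 a ^ p ^ t x) (lam : Emb → ℤ × ℤ)
    (x₀ : Emb) (h0 : ∀ x, x ≠ x₀ → (lam x).2 = 0) (a d : kˣ) :
    W κ lam (hd a d) (vtop F (gap lam))
      = (κ x₀ (a * d) ^ (lam x₀).2 * κ0 a ^ EE p t (gap lam)) • vtop F (gap lam) := by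
  apply Subtype.ext
  rw [W_coe, det_hd, Submodule.coe_smul, mul_smul]
  congr 1
  · rw [Finset.prod_eq_single x₀]
    · intro x _ hx
      rw [h0 x hx, zpow_zero]
    · intro h; exact absurd (Finset.mem_univ _) h
  · have h1 : (vtop F (gap lam) : MvPolynomial (Emb × Fin 2) F)
        = ∏ x, X (x, 0) ^ gap lam x := by
      rw [vtop]
      simp only
      rw [monomial_eq, C_1, one_mul, Finsupp.prod_fintype _ _ (fun i => pow_zero _),
        Fintype.prod_prod_type]
      refine Finset.prod_congr rfl fun x _ => ?_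
      rw [Fin.prod_univ_two, mexp_zero, mexp_one]
      simp
    rw [h1, map_prod, EE, ← Finset.prod_pow_eq_pow_sum, smul_eq_C_mul, map_prod,
      ← Finset.prod_mul_distrib]
    refine Finset.prod_congr rfl fun x _ => ?_
    have h2 : subst κ (hd a d) (X (x, 0)) = C (κ0 a ^ p ^ t x) * X (x, 0) := by
      rw [subst_X, Fin.sum_univ_two, ← ht]
      simp [hd]
    rw [map_pow, h2, mul_pow, ← map_pow, ← pow_mul, mul_comm (p ^ t x)]

/-- An injective equivariant map. -/
def Intw (κ : Emb → k →+* F) (lam lam' : Emb → ℤ × ℤ)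
    (φ : Homog F (gap lam) →ₗ[F] Homog F (gap lam')) : Prop :=
  Function.Injective φ ∧ ∀ g v, φ (W κ lam g v) = W κ lam' g (φ v)

lemma Intw.vtop (κ : Emb → k →+* F) (ht : ∀ x a, κ x a = κ0 a ^ p ^ t x)
    (hq : Fintype.card k = p ^ f) (hf : ∀ x ∈ S, t x < f) (hinj : Set.InjOn t S)
    {lam lam' : Emb → ℤ × ℤ} (hn' : ∀ x, gap lam' x < p) (hnS' : ∀ x, x ∉ S → gap lam' x = 0)
    {φ : Homog F (gap lam) →ₗ[F] Homog F (gap lam')} (h : Intw κ lam lam' φ) :
    ∃ c : F, c ≠ 0 ∧ φ (MP_39033f_nt.vtop F (gap lam)) = c • MP_39033f_nt.vtop F (gap lam') := by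
  have hfix : ∀ c : k, W κ lam' (uu c) (φ (MP_39033f_nt.vtop F (gap lam)))
      = φ (MP_39033f_nt.vtop F (gap lam)) := by
    intro c
    rw [← h.2]
    congr 1
    apply Subtype.ext
    rw [W_uu]
    have h1 : (MP_39033f_nt.vtop F (gap lam) : MvPolynomial (Emb × Fin 2) F)
        = ∏ x, X (x, 0) ^ gap lam x := by
      rw [MP_39033f_nt.vtop]
      simp only
      rw [monomial_eq, C_1, one_mul, Finsupp.prod_fintype _ _ (fun i => pow_zero _),
        Fintype.prod_prod_type]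
      refine Finset.prod_congr rfl fun x _ => ?_
      rw [Fin.prod_univ_two, mexp_zero, mexp_one]
      simp
    rw [h1, map_prod]
    refine Finset.prod_congr rfl fun x _ => ?_
    rw [map_pow, subst_X, Fin.sum_univ_two]
    simp [uu]
  obtain ⟨c, hc⟩ := fixed_eq κ ht hq hf hinj lam' hn' hnS' _ hfix
  refine ⟨c, ?_, hc⟩
  rintro rfl
  rw [zero_smul] at hc
  exact vtop_ne (gap lam) (h.1 (hc.trans (map_zero φ).symm))

/-- The characters of the torus agree. -/
lemma Intw.char_eq (κ : Emb → k →+* F) (ht : ∀ x a, κ x a = κ0 a ^ p ^ t x)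
    (hq : Fintype.card k = p ^ f) (hf : ∀ x ∈ S, t x < f) (hinj : Set.InjOn t S) (x₀ : Emb)
    {lam lam' : Emb → ℤ × ℤ} (hn' : ∀ x, gap lam' x < p) (hnS' : ∀ x, x ∉ S → gap lam' x = 0)
    (h0 : ∀ x, x ≠ x₀ → (lam x).2 = 0) (h0' : ∀ x, x ≠ x₀ → (lam' x).2 = 0)
    {φ : Homog F (gap lam) →ₗ[F] Homog F (gap lam')} (h : Intw κ lam lam' φ) (a d : kˣ) :
    κ x₀ (a * d) ^ (lam x₀).2 * κ0 a ^ EE p t (gap lam)
      = κ x₀ (a * d) ^ (lam' x₀).2 * κ0 a ^ EE p t (gap lam') := by
  obtain ⟨c, hc0, hc⟩ := h.vtop κ ht hq hf hinj hn' hnS'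
  have h1 := h.2 (hd a d) (MP_39033f_nt.vtop F (gap lam))
  rw [W_hd_vtop κ ht lam x₀ h0, map_smul, hc, map_smul, W_hd_vtop κ ht lam' x₀ h0', smul_smul,
    smul_smul, mul_comm c] at h1
  have h2 := smul_left_injective F (vtop_ne (F := F) (gap lam')) h1
  exact mul_right_cancel₀ hc0 h2

/-- If the source has all gaps zero then so has the target. -/
lemma Intw.gap_zero (κ : Emb → k →+* F) (ht : ∀ x a, κ x a = κ0 a ^ p ^ t x)
    (hq : Fintype.card k = p ^ f) (hf : ∀ x ∈ S, t x < f) (hinj : Set.InjOn t S)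
    {lam lam' : Emb → ℤ × ℤ} (hn' : ∀ x, gap lam' x < p) (hnS' : ∀ x, x ∉ S → gap lam' x = 0)
    {φ : Homog F (gap lam) →ₗ[F] Homog F (gap lam')} (h : Intw κ lam lam' φ)
    (hz : ∀ x, gap lam x = 0) : ∀ x, gap lam' x = 0 := by
  obtain ⟨c, hc0, hc⟩ := h.vtop κ ht hq hf hinj hn' hnS'
  by_contra hne
  push Not at hne
  obtain ⟨x, hx⟩ := hne
  have hfix : W κ lam (ll 1) (MP_39033f_nt.vtop F (gap lam)) = MP_39033f_nt.vtop F (gap lam) := by
    apply Subtype.ext
    rw [W_ll]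
    have h1 : (MP_39033f_nt.vtop F (gap lam) : MvPolynomial (Emb × Fin 2) F) = C 1 := by
      rw [MP_39033f_nt.vtop]
      simp only
      have h2 : mexp (gap lam) 0 = 0 := by
        ext ⟨y, i⟩
        fin_cases i
        · change mexp (gap lam) 0 (y, 0) = 0
          rw [mexp_zero, hz]
          rfl
        · change mexp (gap lam) 0 (y, 1) = 0
          rw [mexp_one]
          rfl
      rw [h2]
      rfl
    rw [h1]
    exact algHom_C _ _
  have h1 := h.2 (ll 1) (MP_39033f_nt.vtop F (gap lam))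
  rw [hfix, hc, map_smul] at h1
  have h2 : MP_39033f_nt.vtop F (gap lam') = W κ lam' (ll 1) (MP_39033f_nt.vtop F (gap lam')) :=
    smul_right_injective _ hc0 h1
  have h3 := congrArg (fun g : Homog F (gap lam') =>
    aeval (fun v : Emb × Fin 2 => if v.2 = 0 then (0 : F) else 1)
      (g : MvPolynomial (Emb × Fin 2) F)) h2
  have h4 : (MP_39033f_nt.vtop F (gap lam') : MvPolynomial (Emb × Fin 2) F)
      = ∏ x, X (x, 0) ^ gap lam' x := by
    rw [MP_39033f_nt.vtop]
    simp only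
    rw [monomial_eq, C_1, one_mul, Finsupp.prod_fintype _ _ (fun i => pow_zero _),
      Fintype.prod_prod_type]
    refine Finset.prod_congr rfl fun x _ => ?_
    rw [Fin.prod_univ_two, mexp_zero, mexp_one]
    simp
  rw [W_ll, h4, map_prod, map_prod, map_prod] at h3
  have h5 : (∏ y, aeval (fun v : Emb × Fin 2 => if v.2 = 0 then (0 : F) else 1)
      (X (y, 0) ^ gap lam' y : MvPolynomial (Emb × Fin 2) F)) = 0 := by
    apply Finset.prod_eq_zero (Finset.mem_univ x)
    rw [map_pow, aeval_X]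
    simp [hx]
  have h6 : (∏ y, aeval (fun v : Emb × Fin 2 => if v.2 = 0 then (0 : F) else 1)
      (subst κ (ll 1) (X (y, 0) ^ gap lam' y) : MvPolynomial (Emb × Fin 2) F)) = 1 := by
    apply Finset.prod_eq_one
    intro y _
    rw [map_pow, map_pow, subst_ll_X]
    simp
  rw [h5, h6] at h3
  exact zero_ne_one h3

end simple

end Pool.Agent.Work.MP_39033f_nt
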