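import Pool.Agent.Work.MP_39033f_nt.Defs

set_option autoImplicit false

namespace Pool.Agent.Work.MP_39033f_nt

variable {A : Type} [Ring A]

lemma WeightFn.sum_eq (μ : WeightFn A) {M : Type} [AddCommGroup M] [Module A M]
    (s t : CompositionSeries (Submodule A M)) (h1 : s.head = t.head) (h2 : s.last = t.last) :
    μ.sum s = μ.sum t := by
  obtain ⟨f, hf⟩ := CompositionSeries.jordan_holder s t h1 h2
  unfold WeightFn.sum
  exact Fintype.sum_equiv f _ _ (fun i => μ.iso _ _ (hf i).linearEquiv)

lemma JHSum.unique {μ : WeightFn A} {M : Type} [AddCommGroup M] [Module A M] {a b : ℕ}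
    (ha : JHSum μ M a) (hb : JHSum μ M b) : a = b := by
  obtain ⟨s, hs1, hs2, rfl⟩ := ha
  obtain ⟨t, ht1, ht2, rfl⟩ := hb
  exact μ.sum_eq s t (hs1.trans ht1.symm) (hs2.trans ht2.symm)

lemma WeightFn.sum_smash (μ : WeightFn A) {M : Type} [AddCommGroup M] [Module A M]
    (s t : CompositionSeries (Submodule A M)) (h : s.last = t.head) :
    μ.sum (s.smash t h) = μ.sum s + μ.sum t := by
  unfold WeightFn.sum
  have h0 := Fin.sum_univ_add (fun i : Fin (s.length + t.length) => μ.val
    (↥((s.smash t h) i.succ) ⧸ ((s.smash t h) i.castSucc).comap ((s.smash t h) i.succ).subtype))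
  refine Eq.trans h0 ?_
  congr 1
  · apply Finset.sum_congr rfl
    intro i _
    rw [RelSeries.smash_castAdd h i, RelSeries.smash_succ_castAdd h i]
  · apply Finset.sum_congr rfl
    intro i _
    rw [RelSeries.smash_natAdd h i, RelSeries.smash_succ_natAdd h i]

section transport

variable {U V W : Type} [AddCommGroup U] [Module A U] [AddCommGroup V] [Module A V]
  [AddCommGroup W] [Module A W]

lemma covBy_map (i : U →ₗ[A] V) (hi : Function.Injective i) {P Q : Submodule A U} (h : P ⋖ Q) :
    P.map i ⋖ Q.map i := by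
  have key : ∀ R S : Submodule A U, R.map i < S.map i ↔ R < S := by
    intro R S
    simp only [lt_iff_le_not_ge, Submodule.map_le_map_iff_of_injective hi]
  refine ⟨(key P Q).mpr h.1, ?_⟩
  intro R hPR hRQ
  have hR : (R.comap i).map i = R := by
    rw [Submodule.map_comap_eq, inf_eq_right]
    exact hRQ.le.trans (LinearMap.map_le_range)
  rw [← hR] at hPR hRQ
  exact h.2 ((key _ _).mp hPR) ((key _ _).mp hRQ)

lemma covBy_comap (π : V →ₗ[A] W) (hπ : Function.Surjective π) {P Q : Submodule A W}
    (h : P ⋖ Q) : P.comap π ⋖ Q.comap π := by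
  have key : ∀ R S : Submodule A W, R.comap π < S.comap π ↔ R < S := by
    intro R S
    simp only [lt_iff_le_not_ge, Submodule.comap_le_comap_iff_of_surjective hπ]
  refine ⟨(key P Q).mpr h.1, ?_⟩
  intro R hPR hRQ
  have hR : (R.map π).comap π = R := by
    rw [Submodule.comap_map_eq, sup_eq_left]
    refine le_trans ?_ hPR.le
    intro x hx
    rw [LinearMap.mem_ker] at hx
    rw [Submodule.mem_comap, hx]
    exact P.zero_mem
  rw [← hR] at hPR hRQ
  exact h.2 ((key _ _).mp hPR) ((key _ _).mp hRQ)

/-- The composition series obtained by taking images under an injective map. -/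
def mapSeries (i : U →ₗ[A] V) (hi : Function.Injective i) (s : CompositionSeries (Submodule A U)) :
    CompositionSeries (Submodule A V) where
  length := s.length
  toFun j := (s j).map i
  step j := covBy_map i hi (s.step j)

/-- The composition series obtained by taking preimages under a surjective map. -/
def comapSeries (π : V →ₗ[A] W) (hπ : Function.Surjective π)
    (s : CompositionSeries (Submodule A W)) : CompositionSeries (Submodule A V) where
  length := s.length
  toFun j := (s j).comap π
  step j := covBy_comap π hπ (s.step j)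

/-- quotients of images -/
noncomputable def mapQuot (i : U →ₗ[A] V) (hi : Function.Injective i) (P Q : Submodule A U) :
    (↥Q ⧸ P.comap Q.subtype) ≃ₗ[A] (↥(Q.map i) ⧸ (P.map i).comap (Q.map i).subtype) := by
  refine Submodule.Quotient.equiv _ _ (Submodule.equivMapOfInjective i hi Q) ?_
  ext ⟨y, hy⟩
  obtain ⟨x, hx, rfl⟩ := hy
  simp only [Submodule.mem_map, Submodule.mem_comap, Submodule.subtype_apply, Subtype.exists]
  constructor
  · rintro ⟨z, hz, hz1, hz2⟩
    refine ⟨z, hz1, ?_⟩
    have := congrArg Subtype.val hz2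
    simpa using this
  · rintro ⟨z, hz1, hz2⟩
    have hzx : z = x := hi hz2
    subst hzx
    refine ⟨z, hx, hz1, ?_⟩
    apply Subtype.ext
    simp

/-- quotients of preimages -/
noncomputable def comapQuot (π : V →ₗ[A] W) (hπ : Function.Surjective π) (P Q : Submodule A W) :
    (↥(Q.comap π) ⧸ (P.comap π).comap (Q.comap π).subtype) ≃ₗ[A] (↥Q ⧸ P.comap Q.subtype) := by
  let f : ↥(Q.comap π) →ₗ[A] ↥Q := π.restrict (fun x hx => hx)
  have hf : Function.Surjective f := by
    rintro ⟨y, hy⟩
    obtain ⟨x, rfl⟩ := hπ y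
    exact ⟨⟨x, hy⟩, Subtype.ext rfl⟩
  let g : ↥(Q.comap π) →ₗ[A] (↥Q ⧸ P.comap Q.subtype) := (P.comap Q.subtype).mkQ.comp f
  have hg : Function.Surjective g := (Submodule.mkQ_surjective _).comp hf
  have hker : LinearMap.ker g = (P.comap π).comap (Q.comap π).subtype := by
    ext x
    simp [g, f, LinearMap.restrict_apply]
  exact (Submodule.quotEquivOfEq _ _ hker.symm).trans (LinearMap.quotKerEquivOfSurjective g hg)

lemma JHSum.of_exact {μ : WeightFn A} (i : U →ₗ[A] V) (π : V →ₗ[A] W)
    (hi : Function.Injective i) (hπ : Function.Surjective π)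
    (hex : LinearMap.range i = LinearMap.ker π) {a b : ℕ}
    (ha : JHSum μ U a) (hb : JHSum μ W b) : JHSum μ V (a + b) := by
  obtain ⟨s, hs1, hs2, rfl⟩ := ha
  obtain ⟨t, ht1, ht2, rfl⟩ := hb
  have h1 : (mapSeries i hi s).last = (comapSeries π hπ t).head := by
    have e1 : (mapSeries i hi s).last = s.last.map i := rfl
    have e2 : (comapSeries π hπ t).head = t.head.comap π := rfl
    rw [e1, e2, hs2, ht1, Submodule.map_top, hex]
    rfl
  refine ⟨(mapSeries i hi s).smash (comapSeries π hπ t) h1, ?_, ?_, ?_⟩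
  · rw [RelSeries.head_smash]
    have e1 : (mapSeries i hi s).head = s.head.map i := rfl
    rw [e1, hs1, Submodule.map_bot]
  · rw [RelSeries.last_smash]
    have e2 : (comapSeries π hπ t).last = t.last.comap π := rfl
    rw [e2, ht2, Submodule.comap_top]
  · rw [WeightFn.sum_smash]
    congr 1
    · exact Finset.sum_congr rfl (fun j _ => (μ.iso _ _ (mapQuot i hi _ _)).symm)
    · exact Finset.sum_congr rfl (fun j _ => (μ.iso _ _ (comapQuot π hπ _ _)))

end transport

end Pool.Agent.Work.MP_39033f_nt
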