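import Pool.Agent.Work.MP_39033f_nt.Poly

set_option autoImplicit false

open MvPolynomial
open scoped MonoidAlgebra TensorProduct

namespace Pool.Agent.Work.MP_39033f_nt

section hat

variable {Emb : Type} [Fintype Emb]

lemma hat_of_dominant (e : (Emb → ℤ × ℤ) → ℤ) {ν : Emb → ℤ × ℤ} (h : Dominant ν) :
    hat e ν = e ν := by
  unfold hat
  have h1 : ∀ x, sgn (ν x) = 1 := fun x => by simp [sgn, h x]
  have h2 : (fun x => dom (ν x)) = ν := by
    ext1 x
    simp [dom, h x]
  rw [h2, Finset.prod_congr rfl (fun x _ => h1 x)]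
  simp

lemma hat_of_wall (e : (Emb → ℤ × ℤ) → ℤ) {ν : Emb → ℤ × ℤ} (x : Emb)
    (h : (ν x).2 = (ν x).1 + 1) : hat e ν = 0 := by
  unfold hat
  rw [Finset.prod_eq_zero (Finset.mem_univ x), zero_mul]
  simp [sgn, h]

end hat

section fd

variable {F Emb : Type} [Field F] [Fintype Emb] [DecidableEq Emb]

instance Homog.finite (n : Emb → ℕ) : FiniteDimensional F (Homog F n) := by
  classical
  let b : (Emb × Fin 2) →₀ ℕ := Finsupp.equivFunOnFinite.symm (fun v => n v.1)
  let D : Set ((Emb × Fin 2) →₀ ℕ) := Set.Iic b
  have hD : D.Finite := Set.finite_Iic b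
  have hle : Homog F n ≤ Submodule.span F ((fun m => monomial m (1 : F)) '' D) := by
    intro f hf
    rw [mem_Homog_iff] at hf
    rw [f.as_sum]
    apply Submodule.sum_mem
    intro m hm
    have hm' := hf m (mem_support_iff.mp hm)
    have : monomial m (coeff m f) = coeff m f • monomial m (1 : F) := by
      rw [smul_monomial]; simp
    rw [this]
    apply Submodule.smul_mem
    apply Submodule.subset_span
    refine ⟨m, ?_, rfl⟩
    intro v
    have h1 := hm' v.1
    obtain ⟨x, i⟩ := v
    simp only [b, Finsupp.equivFunOnFinite_symm_apply_apply]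
    fin_cases i <;> simp at h1 ⊢ <;> omega
  have hfin : FiniteDimensional F (Submodule.span F ((fun m => monomial m (1 : F)) '' D)) :=
    FiniteDimensional.span_of_finite F (hD.image _)
  exact Submodule.finiteDimensional_of_le hle

end fd

section pair

variable {k F : Type} [Field k] [Field F]

/-- The tensor product of the standard representation (via `κ`) with `ρ`. -/
noncomputable def pairRep (κ : k →+* F) {V : Type} [AddCommGroup V] [Module F V]
    (ρ : Representation F (GL (Fin 2) k) V) : Representation F (GL (Fin 2) k) (Fin 2 → V) where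
  toFun g := LinearMap.pi (fun i => ∑ j, κ (g i j) • (ρ g ∘ₗ LinearMap.proj j))
  map_one' := by
    apply LinearMap.ext
    intro v
    ext1 i
    fin_cases i <;> simp [Fin.sum_univ_two]
  map_mul' g h := by
    apply LinearMap.ext
    intro v
    ext1 i
    simp [Fin.sum_univ_two, Matrix.mul_apply]
    module

lemma pairRep_apply (κ : k →+* F) {V : Type} [AddCommGroup V] [Module F V]
    (ρ : Representation F (GL (Fin 2) k) V) (g : GL (Fin 2) k) (v : Fin 2 → V) (i : Fin 2) :
    pairRep κ ρ g v i = κ (g i 0) • ρ g (v 0) + κ (g i 1) • ρ g (v 1) := by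
  simp [pairRep, Fin.sum_univ_two]

/-- Precomposition of an additive function with the tensor product with the standard
representation. -/
noncomputable def AddFn.pair (Φ : AddFn F (GL (Fin 2) k)) (κ : k →+* F) :
    AddFn F (GL (Fin 2) k) where
  val V _ _ ρ := Φ.val (Fin 2 → V) (pairRep κ ρ)
  exact' := by
    intro U V W _ _ _ _ _ _ _ _ _ ρU ρV ρW i π hi hπ hinj hsurj hex
    refine Φ.exact' _ _ _ _ _ _ (i.compLeft (Fin 2)) (π.compLeft (Fin 2)) ?_ ?_ ?_ ?_ ?_
    · intro g u
      ext1 j
      simp [pairRep_apply, hi]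
    · intro g v
      ext1 j
      simp [pairRep_apply, hπ]
    · intro u v huv
      ext1 j
      exact hinj (congrFun huv j)
    · intro w
      choose f hf using hsurj
      exact ⟨fun j => f (w j), by ext1 j; exact hf (w j)⟩
    · ext v
      rw [LinearMap.mem_range, LinearMap.mem_ker]
      constructor
      · rintro ⟨u, rfl⟩
        ext1 j
        have : i (u j) ∈ LinearMap.ker π := by rw [← hex]; exact ⟨u j, rfl⟩
        exact this
      · intro h
        have h' : ∀ j, ∃ u, i u = v j := by
          intro j
          have : v j ∈ LinearMap.range i := by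
            rw [hex]; exact congrFun h j
          exact this
        choose u hu using h'
        exact ⟨u, by ext1 j; exact hu j⟩

lemma AddFn.pair_comm (Φ : AddFn F (GL (Fin 2) k)) (κ κ' : k →+* F) {V : Type}
    [AddCommGroup V] [Module F V] [FiniteDimensional F V]
    (ρ : Representation F (GL (Fin 2) k) V) :
    Φ.val _ (pairRep κ (pairRep κ' ρ)) = Φ.val _ (pairRep κ' (pairRep κ ρ)) := by
  refine Φ.iso _ _ ⟨⟨⟨fun f i j => f j i, fun _ _ => rfl⟩, fun _ _ => rfl⟩,
    fun f i j => f j i, fun _ => rfl, fun _ => rfl⟩ ?_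
  intro g u
  ext1 i
  ext1 j
  simp only [LinearEquiv.coe_mk, LinearMap.coe_mk, AddHom.coe_mk, pairRep_apply, Pi.add_apply,
    Pi.smul_apply]
  module

end pair

end Pool.Agent.Work.MP_39033f_nt
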