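import Pool.Agent.Work.MP_39033f_nt.Koszul

set_option autoImplicit false

open MvPolynomial
open scoped MonoidAlgebra TensorProduct

namespace Pool.Agent.Work.MP_39033f_nt

section koszul

variable {k F Emb : Type} [Field k] [Field F] [Fintype Emb] [DecidableEq Emb]

lemma W_coe (κ : Emb → k →+* F) (lam : Emb → ℤ × ℤ) (g : GL (Fin 2) k)
    (f : Homog F (gap lam)) :
    (W κ lam g f).1 = (∏ x, (κ x (g.det : k)) ^ (lam x).2) • subst κ g f.1 := rfl

/-- `(f₀, f₁) ↦ X^r f₀ + Y^r f₁` -/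
noncomputable def multMap (y : Emb) (r : ℕ) {n n' : Emb → ℕ} (hn : n' = n + Pi.single y r) :
    (Fin 2 → Homog F n) →ₗ[F] Homog F n' where
  toFun f := ⟨X (y, 0) ^ r * (f 0).1 + X (y, 1) ^ r * (f 1).1,
    Submodule.add_mem _ (X_pow_mul_mem y 0 r hn (f 0).2) (X_pow_mul_mem y 1 r hn (f 1).2)⟩
  map_add' f g := by
    apply Subtype.ext
    simp only [Pi.add_apply, Submodule.coe_add]
    ring
  map_smul' c f := by
    apply Subtype.ext
    simp only [Pi.smul_apply, Submodule.coe_smul, RingHom.id_apply, mul_smul_comm, smul_add]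

lemma multMap_coe (y : Emb) (r : ℕ) {n n' : Emb → ℕ} (hn : n' = n + Pi.single y r)
    (f : Fin 2 → Homog F n) : (multMap y r hn f).1
      = X (y, 0) ^ r * (f 0).1 + X (y, 1) ^ r * (f 1).1 := rfl

/-- `h ↦ (Y^r h, - X^r h)` -/
noncomputable def kerMap (y : Emb) (r : ℕ) {n n' : Emb → ℕ} (hn : n' = n + Pi.single y r) :
    Homog F n →ₗ[F] (Fin 2 → Homog F n') where
  toFun h := ![⟨X (y, 1) ^ r * h.1, X_pow_mul_mem y 1 r hn h.2⟩,
    ⟨-(X (y, 0) ^ r * h.1), Submodule.neg_mem _ (X_pow_mul_mem y 0 r hn h.2)⟩]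
  map_add' f g := by
    ext1 i
    apply Subtype.ext
    fin_cases i
    · simp [mul_add]
    · simp [mul_add]; ring
  map_smul' c f := by
    ext1 i
    apply Subtype.ext
    fin_cases i <;> simp

lemma kerMap_zero (y : Emb) (r : ℕ) {n n' : Emb → ℕ} (hn : n' = n + Pi.single y r)
    (h : Homog F n) : (kerMap y r hn h 0).1 = X (y, 1) ^ r * h.1 := rfl

lemma kerMap_one (y : Emb) (r : ℕ) {n n' : Emb → ℕ} (hn : n' = n + Pi.single y r)
    (h : Homog F n) : (kerMap y r hn h 1).1 = -(X (y, 0) ^ r * h.1) := rfl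

lemma subst_X_pow (κ : Emb → k →+* F) (g : GL (Fin 2) k) (y : Emb) (j : Fin 2) (r : ℕ)
    (hfrob : ∀ a b : MvPolynomial (Emb × Fin 2) F, (a + b) ^ r = a ^ r + b ^ r)
    (κ' : k →+* F) (hκ' : ∀ a, κ' a = κ y a ^ r) :
    subst κ g (X (y, j) ^ r) = C (κ' (g 0 j)) * X (y, 0) ^ r + C (κ' (g 1 j)) * X (y, 1) ^ r := by
  rw [map_pow, subst_X, Fin.sum_univ_two, hfrob, mul_pow, mul_pow, hκ', hκ', map_pow, map_pow]

lemma gap_add_fst (lam : Emb → ℤ × ℤ) (hlam : Dominant lam) (y : Emb) (r : ℕ) :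
    gap (lam + Pi.single y ((r : ℤ), (0 : ℤ))) = gap lam + Pi.single y r := by
  ext1 x
  have := hlam x
  by_cases hx : x = y
  · subst hx
    simp only [gap, Pi.add_apply, Pi.single_eq_same, Prod.fst_add, Prod.snd_add]
    omega
  · simp only [gap, Pi.add_apply, Pi.single_eq_of_ne hx, Prod.fst_add, Prod.snd_add,
      Prod.fst_zero, Prod.snd_zero]
    omega

lemma gap_add_snd (lam : Emb → ℤ × ℤ) (y : Emb) (r : ℕ) (hr : r ≤ gap lam y) :
    gap lam = gap (lam + Pi.single y ((0 : ℤ), (r : ℤ))) + Pi.single y r := by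
  ext1 x
  by_cases hx : x = y
  · subst hx
    simp only [gap, Pi.add_apply, Pi.single_eq_same, Prod.fst_add, Prod.snd_add] at hr ⊢
    omega
  · simp only [gap, Pi.add_apply, Pi.single_eq_of_ne hx, Prod.fst_add, Prod.snd_add,
      Prod.fst_zero, Prod.snd_zero]
    omega

lemma multMap_equivariant (κ : Emb → k →+* F) (lam lam' : Emb → ℤ × ℤ) (y : Emb) (r : ℕ)
    (hfrob : ∀ a b : MvPolynomial (Emb × Fin 2) F, (a + b) ^ r = a ^ r + b ^ r)
    (κ' : k →+* F) (hκ' : ∀ a, κ' a = κ y a ^ r)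
    (hn : gap lam' = gap lam + Pi.single y r) (h2 : ∀ x, (lam' x).2 = (lam x).2)
    (g : GL (Fin 2) k) (f : Fin 2 → Homog F (gap lam)) :
    multMap y r hn (pairRep κ' (W κ lam) g f) = W κ lam' g (multMap y r hn f) := by
  apply Subtype.ext
  rw [multMap_coe, W_coe, multMap_coe, pairRep_apply, pairRep_apply]
  simp only [Submodule.coe_add, Submodule.coe_smul, W_coe, map_add, map_mul, h2]
  rw [subst_X_pow κ g y 0 r hfrob κ' hκ', subst_X_pow κ g y 1 r hfrob κ' hκ']
  simp only [MvPolynomial.smul_eq_C_mul]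
  ring

lemma kerMap_equivariant (κ : Emb → k →+* F) (lam lam' : Emb → ℤ × ℤ) (y : Emb) (r : ℕ)
    (hfrob : ∀ a b : MvPolynomial (Emb × Fin 2) F, (a + b) ^ r = a ^ r + b ^ r)
    (κ' : k →+* F) (hκ' : ∀ a, κ' a = κ y a ^ r)
    (hn : gap lam = gap lam' + Pi.single y r)
    (h2 : lam' = lam + Pi.single y ((0 : ℤ), (r : ℤ)))
    (g : GL (Fin 2) k) (h : Homog F (gap lam')) :
    kerMap y r hn (W κ lam' g h) = pairRep κ' (W κ lam) g (kerMap y r hn h) := by
  have hdet : (∏ x, (κ x (g.det : k)) ^ (lam' x).2)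
      = (κ' (g 0 0) * κ' (g 1 1) - κ' (g 0 1) * κ' (g 1 0)) *
        (∏ x, (κ x (g.det : k)) ^ (lam x).2) := by
    have h3 : κ' (g.det : k) = κ' (g 0 0) * κ' (g 1 1) - κ' (g 0 1) * κ' (g 1 0) := by
      have : (g.det : k) = g 0 0 * g 1 1 - g 0 1 * g 1 0 := by
        rw [Matrix.GeneralLinearGroup.val_det_apply, Matrix.det_fin_two]
      rw [this, map_sub, map_mul, map_mul]
    rw [← h3, hκ']
    have h4 : ∀ x, (κ x (g.det : k)) ^ (lam' x).2
        = (κ x (g.det : k)) ^ (lam x).2 * (if x = y then κ y (g.det : k) ^ r else 1) := by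
      intro x
      have hne : κ x (g.det : k) ≠ 0 := by
        rw [map_ne_zero_iff _ (κ x).injective]
        exact g.det.ne_zero
      by_cases hx : x = y
      · subst hx
        rw [h2, if_pos rfl]
        simp only [Pi.add_apply, Pi.single_eq_same, Prod.snd_add]
        rw [zpow_add₀ hne, zpow_natCast]
      · rw [h2, if_neg hx, mul_one]
        simp only [Pi.add_apply, Pi.single_eq_of_ne hx, add_zero]
    rw [Finset.prod_congr rfl (fun x _ => h4 x), Finset.prod_mul_distrib,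
      Finset.prod_ite_eq' Finset.univ y, if_pos (Finset.mem_univ y), mul_comm]
  ext1 i
  apply Subtype.ext
  rw [pairRep_apply]
  fin_cases i
  · simp only [Fin.zero_eta]
    rw [kerMap_zero, W_coe, hdet]
    simp only [Submodule.coe_add, Submodule.coe_smul, W_coe, kerMap_zero, kerMap_one, map_mul,
      map_neg]
    rw [subst_X_pow κ g y 0 r hfrob κ' hκ', subst_X_pow κ g y 1 r hfrob κ' hκ']
    simp only [MvPolynomial.smul_eq_C_mul, map_mul, map_sub]
    ring
  · simp only [Fin.mk_one]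
    rw [kerMap_one, W_coe, hdet]
    simp only [Submodule.coe_add, Submodule.coe_smul, W_coe, kerMap_zero, kerMap_one, map_mul,
      map_neg]
    rw [subst_X_pow κ g y 0 r hfrob κ' hκ', subst_X_pow κ g y 1 r hfrob κ' hκ']
    simp only [MvPolynomial.smul_eq_C_mul, map_mul, map_sub]
    ring

lemma multMap_surjective (y : Emb) (r : ℕ) {n n' : Emb → ℕ} (hn : n' = n + Pi.single y r)
    (hr : r ≤ n y + 1) : Function.Surjective (multMap (F := F) y r hn) := by
  rintro ⟨f, hf⟩
  obtain ⟨f0, h0, f1, h1, h⟩ := exists_decomp y r hn hr hf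
  refine ⟨![⟨f0, h0⟩, ⟨f1, h1⟩], ?_⟩
  apply Subtype.ext
  rw [multMap_coe]
  exact h

lemma kerMap_injective (y : Emb) (r : ℕ) {n n' : Emb → ℕ} (hn : n' = n + Pi.single y r) :
    Function.Injective (kerMap (F := F) y r hn) := by
  intro a b hab
  apply Subtype.ext
  have h1 := congrArg (fun z => (z 0).1) hab
  simp only [kerMap_zero] at h1
  exact mul_left_cancel₀ (pow_ne_zero _ (X_ne_zero _)) h1

lemma range_kerMap (y : Emb) (r : ℕ) {n n' n'' : Emb → ℕ} (hn : n' = n + Pi.single y r)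
    (hn2 : n'' = n' + Pi.single y r) :
    LinearMap.range (kerMap (F := F) y r hn) = LinearMap.ker (multMap (F := F) y r hn2) := by
  ext f
  rw [LinearMap.mem_range, LinearMap.mem_ker]
  constructor
  · rintro ⟨h, rfl⟩
    apply Subtype.ext
    rw [multMap_coe, kerMap_zero, kerMap_one]
    simp only [ZeroMemClass.coe_zero]
    ring
  · intro h
    have h1 := congrArg Subtype.val h
    rw [multMap_coe] at h1
    obtain ⟨g, hg0, hg1⟩ := koszul_exact (y, (0 : Fin 2)) (y, 1) (by simp) r _ _ h1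
    have hg : g ∈ Homog F n := by
      apply mem_of_X_pow_mul_mem y 1 r hn
      rw [← hg0]
      exact (f 0).2
    refine ⟨⟨g, hg⟩, ?_⟩
    ext1 i
    apply Subtype.ext
    fin_cases i
    · exact hg0.symm
    · exact hg1.symm

lemma multMap_injective (y : Emb) (r : ℕ) {n n' : Emb → ℕ} (hn : n' = n + Pi.single y r)
    (hr : n y < r) : Function.Injective (multMap (F := F) y r hn) := by
  rw [← LinearMap.ker_eq_bot, LinearMap.ker_eq_bot']
  intro f h
  have h1 := congrArg Subtype.val h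
  rw [multMap_coe] at h1
  obtain ⟨g, hg0, hg1⟩ := koszul_exact (y, (0 : Fin 2)) (y, 1) (by simp) r _ _ h1
  have hg : g = 0 := by
    ext m
    by_contra hne
    rw [coeff_zero] at hne
    have h2 := (mem_Homog_iff n _).mp (f 0).2 (m + Finsupp.single (y, 1) r)
      (by rw [hg0, coeff_X_pow_mul'']; exact hne) y
    simp only [Finsupp.add_apply, Finsupp.single_eq_same] at h2
    omega
  ext1 i
  apply Subtype.ext
  fin_cases i
  · change (f 0).1 = 0
    rw [hg0, hg, mul_zero]
  · change (f 1).1 = 0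
    rw [hg1, hg, mul_zero, neg_zero]

/-- The values of an additive function on the `W_λ`. -/
noncomputable def AddFn.wval (Φ : AddFn F (GL (Fin 2) k)) (κ : Emb → k →+* F)
    (lam : Emb → ℤ × ℤ) : ℤ := Φ.val (Homog F (gap lam)) (W κ lam)

lemma AddFn.pair_W_exact (Φ : AddFn F (GL (Fin 2) k)) (κ : Emb → k →+* F)
    (lam lamA lamB : Emb → ℤ × ℤ) (y : Emb) (r : ℕ)
    (hfrob : ∀ a b : MvPolynomial (Emb × Fin 2) F, (a + b) ^ r = a ^ r + b ^ r)
    (κ' : k →+* F) (hκ' : ∀ a, κ' a = κ y a ^ r)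
    (hA : gap lamA = gap lam + Pi.single y r) (hA2 : ∀ x, (lamA x).2 = (lam x).2)
    (hB : gap lam = gap lamB + Pi.single y r)
    (hB2 : lamB = lam + Pi.single y ((0 : ℤ), (r : ℤ))) :
    (Φ.pair κ').wval κ lam = Φ.wval κ lamA + Φ.wval κ lamB := by
  have hr : r ≤ gap lam y + 1 := by
    rw [hB, Pi.add_apply, Pi.single_eq_same]; omega
  have := Φ.exact' (Homog F (gap lamB)) (Fin 2 → Homog F (gap lam)) (Homog F (gap lamA))
    (W κ lamB) (pairRep κ' (W κ lam)) (W κ lamA) (kerMap y r hB) (multMap y r hA)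
    (kerMap_equivariant κ lam lamB y r hfrob κ' hκ' hB hB2)
    (multMap_equivariant κ lam lamA y r hfrob κ' hκ' hA hA2)
    (kerMap_injective y r hB) (multMap_surjective y r hA hr) (range_kerMap y r hB hA)
  rw [add_comm] at this
  exact this

lemma AddFn.pair_W_iso (Φ : AddFn F (GL (Fin 2) k)) (κ : Emb → k →+* F)
    (lam lamA : Emb → ℤ × ℤ) (y : Emb) (r : ℕ)
    (hfrob : ∀ a b : MvPolynomial (Emb × Fin 2) F, (a + b) ^ r = a ^ r + b ^ r)
    (κ' : k →+* F) (hκ' : ∀ a, κ' a = κ y a ^ r)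
    (hA : gap lamA = gap lam + Pi.single y r) (hA2 : ∀ x, (lamA x).2 = (lam x).2)
    (hr : r = gap lam y + 1) :
    (Φ.pair κ').wval κ lam = Φ.wval κ lamA := by
  have hb : Function.Bijective (multMap (F := F) y r hA) :=
    ⟨multMap_injective y r hA (by omega), multMap_surjective y r hA (by omega)⟩
  exact Φ.iso (pairRep κ' (W κ lam)) (W κ lamA) (LinearEquiv.ofBijective (multMap y r hA) hb)
    (multMap_equivariant κ lam lamA y r hfrob κ' hκ' hA hA2)

lemma AddFn.pair_W (Φ : AddFn F (GL (Fin 2) k)) (κ : Emb → k →+* F) (lam : Emb → ℤ × ℤ)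
    (hlam : Dominant lam) (y : Emb) (r : ℕ)
    (hfrob : ∀ a b : MvPolynomial (Emb × Fin 2) F, (a + b) ^ r = a ^ r + b ^ r)
    (κ' : k →+* F) (hκ' : ∀ a, κ' a = κ y a ^ r) (hr : r ≤ gap lam y + 1) :
    (Φ.pair κ').wval κ lam = hat (Φ.wval κ) (lam + Pi.single y ((r : ℤ), (0 : ℤ)))
      + hat (Φ.wval κ) (lam + Pi.single y ((0 : ℤ), (r : ℤ))) := by
  have hdom1 : Dominant (lam + Pi.single y ((r : ℤ), (0 : ℤ))) := by
    intro x
    have := hlam x
    by_cases hx : x = y
    · subst hx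
      simp only [Pi.add_apply, Pi.single_eq_same, Prod.fst_add, Prod.snd_add]
      omega
    · simp only [Pi.add_apply, Pi.single_eq_of_ne hx, add_zero]
      exact this
  rw [hat_of_dominant _ hdom1]
  have hA := gap_add_fst lam hlam y r
  have hA2 : ∀ x, ((lam + Pi.single y ((r : ℤ), (0 : ℤ)) : Emb → ℤ × ℤ) x).2 = (lam x).2 := by
    intro x
    by_cases hx : x = y
    · subst hx
      simp
    · simp [Pi.single_eq_of_ne hx]
  by_cases hrg : r ≤ gap lam y
  · have hdom2 : Dominant (lam + Pi.single y ((0 : ℤ), (r : ℤ))) := by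
      intro x
      have := hlam x
      by_cases hx : x = y
      · subst hx
        simp only [gap] at hrg
        simp only [Pi.add_apply, Pi.single_eq_same, Prod.fst_add, Prod.snd_add]
        omega
      · simp only [Pi.add_apply, Pi.single_eq_of_ne hx, add_zero]
        exact this
    rw [hat_of_dominant _ hdom2]
    exact Φ.pair_W_exact κ lam _ _ y r hfrob κ' hκ' hA hA2 (gap_add_snd lam y r hrg) rfl
  · have hreq : r = gap lam y + 1 := by omega
    have hwall : hat (Φ.wval κ) (lam + Pi.single y ((0 : ℤ), (r : ℤ))) = 0 := by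
      apply hat_of_wall _ y
      have := hlam y
      simp only [gap] at hreq
      simp only [Pi.add_apply, Pi.single_eq_same, Prod.fst_add, Prod.snd_add]
      omega
    rw [hwall, add_zero]
    exact Φ.pair_W_iso κ lam _ y r hfrob κ' hκ' hA hA2 hreq

end koszul

end Pool.Agent.Work.MP_39033f_nt
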