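import Pool.Agent.Work.MP_39033f_nt.Full

/-!
# The weights at one embedding generate
-/

set_option autoImplicit false

open MvPolynomial
open scoped MonoidAlgebra TensorProduct

namespace Pool.Agent.Work.MP_39033f_nt

/-- The weight `(b + r, b)` at `x₀` and `(0, 0)` at the other embeddings. -/
def wone {Emb : Type} [DecidableEq Emb] (x₀ : Emb) (r b : ℕ) : Emb → ℤ × ℤ :=
  Pi.single x₀ ((b : ℤ) + r, (b : ℤ))

section oneemb

variable {k F Emb : Type} [Field k] [Field F] [Fintype k] [Fintype Emb] [DecidableEq Emb]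

/-- Functionals which are integer combinations of the values at the weights `(b + r, b)` at `x₀`,
uniformly for all additive functions. -/
def Good (κ : Emb → k →+* F) (x₀ : Emb) (q : ℕ) (L : ((Emb → ℤ × ℤ) → ℤ) → ℤ) : Prop :=
  ∃ c : Fin q → Fin (q - 1) → ℤ, ∀ Φ : AddFn F (GL (Fin 2) k),
    L (Φ.wval κ) = ∑ r, ∑ b, c r b * Φ.wval κ (wone x₀ r b)

variable {κ : Emb → k →+* F} {x₀ : Emb} {q : ℕ}

omit [Fintype k] in
lemma Good.zero : Good κ x₀ q (fun _ => 0) := ⟨fun _ _ => 0, fun Φ => by simp⟩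

omit [Fintype k] in
lemma Good.add {L L' : ((Emb → ℤ × ℤ) → ℤ) → ℤ} (h : Good κ x₀ q L) (h' : Good κ x₀ q L') :
    Good κ x₀ q (fun e => L e + L' e) := by
  obtain ⟨c, hc⟩ := h
  obtain ⟨c', hc'⟩ := h'
  refine ⟨fun r b => c r b + c' r b, fun Φ => ?_⟩
  dsimp only
  rw [hc Φ, hc' Φ]
  simp only [add_mul, Finset.sum_add_distrib]

omit [Fintype k] in
lemma Good.smul {L : ((Emb → ℤ × ℤ) → ℤ) → ℤ} (h : Good κ x₀ q L) (m : ℤ) :
    Good κ x₀ q (fun e => m * L e) := by
  obtain ⟨c, hc⟩ := h
  refine ⟨fun r b => m * c r b, fun Φ => ?_⟩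
  dsimp only
  rw [hc Φ]
  simp only [Finset.mul_sum, mul_assoc]

omit [Fintype k] in
lemma Good.sub {L L' : ((Emb → ℤ × ℤ) → ℤ) → ℤ} (h : Good κ x₀ q L) (h' : Good κ x₀ q L') :
    Good κ x₀ q (fun e => L e - L' e) := by
  obtain ⟨c, hc⟩ := h.add (h'.smul (-1))
  exact ⟨c, fun Φ => by rw [← hc Φ]; ring⟩

omit [Fintype k] in
lemma Good.congr {L L' : ((Emb → ℤ × ℤ) → ℤ) → ℤ} (h : Good κ x₀ q L)
    (hL : ∀ Φ : AddFn F (GL (Fin 2) k), L' (Φ.wval κ) = L (Φ.wval κ)) :
    Good κ x₀ q L' := by
  obtain ⟨c, hc⟩ := h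
  exact ⟨c, fun Φ => by rw [hL Φ, hc Φ]⟩

omit [Fintype k] in
lemma Good.hat (ν : Emb → ℤ × ℤ) (h : (∀ x, (ν x).2 ≠ (ν x).1 + 1) →
    Good κ x₀ q (fun e => e (fun x => dom (ν x)))) : Good κ x₀ q (fun e => hat e ν) := by
  by_cases hw : ∃ x, (ν x).2 = (ν x).1 + 1
  · obtain ⟨x, hx⟩ := hw
    exact Good.zero.congr (fun Φ => hat_of_wall _ x hx)
  · push Not at hw
    exact ((h hw).smul (∏ x, sgn (ν x))).congr (fun Φ => rfl)

omit [Fintype Emb] [DecidableEq Emb] in
lemma dom_dominant {ν : Emb → ℤ × ℤ} (hw : ∀ x, (ν x).2 ≠ (ν x).1 + 1) :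
    Dominant (fun x => dom (ν x)) := by
  intro x
  have := hw x
  unfold dom
  dsimp only
  split_ifs with h1
  · exact h1
  · dsimp only
    omega

variable {p : ℕ} [Fact p.Prime] [CharP k p]

omit [Fintype k] in
/-- The relation between two embeddings. -/
lemma powOp_rel (x x₀ : Emb) (m : ℕ) (hm : ∀ a, κ x a = κ x₀ a ^ p ^ m)
    (Φ : AddFn F (GL (Fin 2) k)) (lam : Emb → ℤ × ℤ) (hlam : Dominant lam) :
    powOp x 1 (Pool.Agent.Work.MP_39033f_nt.hat (Φ.wval κ)) lam
      = powOp x₀ (p ^ m) (Pool.Agent.Work.MP_39033f_nt.hat (Φ.wval κ)) lam := by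
  have : CharP F p := charP_of_injective_ringHom (κ x).injective p
  have h1 := AddFn.wval_pair κ x 1 (fun a b => by simp) (κ x) (fun a => by simp)
    0 (gap lam x) (by omega) Φ lam hlam rfl
  have h2 := AddFn.wval_pair κ x₀ (p ^ m) (fun a b => add_pow_char_pow a b p m) (κ x) hm
    (p ^ m) (gap lam x₀) (by omega) Φ lam hlam rfl
  rw [← h1, h2]

/-- Normalisation of the determinant twists, uniformly in the function. -/
lemma normalize_uniform (hκ : ∀ j : k →+* F, ∃ x, κ x = j) (x₀ : Emb) (lam : Emb → ℤ × ℤ)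
    (hlam : Dominant lam) :
    ∃ lam' : Emb → ℤ × ℤ, Dominant lam' ∧ gap lam' = gap lam ∧
      (∀ e, FrobeniusPeriodic p κ e → e lam' = e lam) ∧
      (∀ x, x ≠ x₀ → (lam' x).2 = 0) ∧ 0 ≤ (lam' x₀).2 ∧
      (lam' x₀).2 < (Fintype.card k : ℤ) - 1 := by
  have key : ∀ T : Finset Emb, x₀ ∉ T → ∃ lam' : Emb → ℤ × ℤ, Dominant lam' ∧
      gap lam' = gap lam ∧ (∀ e, FrobeniusPeriodic p κ e → e lam' = e lam) ∧
      (∀ x ∈ T, (lam' x).2 = 0) := by
    intro T
    induction T using Finset.induction_on with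
    | empty => intro _; exact ⟨lam, hlam, rfl, fun _ _ => rfl, by simp⟩
    | insert x T hx ih =>
      intro hx₀
      rw [Finset.mem_insert, not_or] at hx₀
      obtain ⟨l, hl1, hl2, hl3, hl4⟩ := ih hx₀.2
      obtain ⟨t, ht, _⟩ := exists_frob_pow p (κ x₀) (κ x)
      set m := (l x).2 with hm
      have hd : Dominant (l + Pi.single x (-m, -m)) := dominant_add l hl1 x _ _ le_rfl
      refine ⟨l + Pi.single x (-m, -m) + Pi.single x₀ (m * p ^ t, m * p ^ t), ?_, ?_, ?_, ?_⟩
      · exact dominant_add _ hd x₀ _ _ le_rfl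
      · rw [gap_add_same, gap_add_same, hl2]
      · intro e he
        rw [← he.shift_pow hκ x₀ t x ht m _ hd, shift_add]
        simp [hl3 e he, single_zero_pair]
      · intro z hz
        by_cases hzx : z = x
        · subst hzx
          simp [Pi.single_eq_of_ne (Ne.symm hx₀.1), ← hm]
        · have hzT : z ∈ T := by
            rcases Finset.mem_insert.mp hz with h | h
            · exact absurd h hzx
            · exact h
          have hzx₀ : z ≠ x₀ := fun h => hx₀.2 (h ▸ hzT)
          simp [Pi.single_eq_of_ne hzx, Pi.single_eq_of_ne hzx₀, hl4 z hzT]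
  obtain ⟨l, hl1, hl2, hl3, hl4⟩ := key (Finset.univ.erase x₀) (by simp)
  set Q : ℤ := (Fintype.card k : ℤ) - 1 with hQ
  have hQpos : 0 < Q := by
    have : 1 < Fintype.card k := Fintype.one_lt_card
    omega
  refine ⟨l + Pi.single x₀ (-((l x₀).2 / Q) * Q, -((l x₀).2 / Q) * Q), ?_, ?_, ?_, ?_, ?_, ?_⟩
  · exact dominant_add _ hl1 x₀ _ _ le_rfl
  · rw [gap_add_same, hl2]
  · intro e he
    rw [he.period hκ x₀ _ l hl1, hl3 e he]
  · intro x hx
    simp [Pi.single_eq_of_ne hx, hl4 x (by simp [hx])]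
  · simp only [Pi.add_apply, Pi.single_eq_same, Prod.snd_add]
    have := Int.emod_nonneg (l x₀).2 hQpos.ne'
    rw [Int.emod_def] at this
    linarith [mul_comm Q ((l x₀).2 / Q)]
  · simp only [Pi.add_apply, Pi.single_eq_same, Prod.snd_add]
    have := Int.emod_lt_of_pos (l x₀).2 hQpos
    rw [Int.emod_def] at this
    linarith [mul_comm Q ((l x₀).2 / Q)]

omit [Fintype k] in
lemma Good.wone (r : Fin q) (b : Fin (q - 1)) :
    Good κ x₀ q (fun e => e (wone x₀ r b)) := by
  refine ⟨fun r' b' => if r' = r ∧ b' = b then 1 else 0, fun Φ => ?_⟩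
  rw [Finset.sum_eq_single r, Finset.sum_eq_single b]
  · simp
  · intro b' _ hb'
    simp [hb']
  · simp
  · intro r' _ hr'
    simp [hr']
  · simp

/-- Weights supported at `x₀` (up to determinants). -/
lemma good_single (p : ℕ) [Fact p.Prime] [CharP k p] (hκ : ∀ j : k →+* F, ∃ x, κ x = j) (x₀ : Emb) :
    ∀ (n : ℕ) (lam : Emb → ℤ × ℤ), Dominant lam → (∀ x, x ≠ x₀ → gap lam x = 0) →
      gap lam x₀ = n → Good κ x₀ (Fintype.card k) (fun e => e lam) := by
  intro n
  induction n using Nat.strong_induction_on with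
  | _ n ih =>
  intro lam hlam hout hn
  have hq1 : 1 < Fintype.card k := Fintype.one_lt_card
  by_cases hnq : n < Fintype.card k
  · -- small weights
    obtain ⟨l, hl1, hl2, hl3, hl4, hl5, hl6⟩ := normalize_uniform (p := p) hκ x₀ lam hlam
    have hl : l = MP_39033f_nt.wone x₀ n (l x₀).2.toNat := by
      ext1 x
      unfold MP_39033f_nt.wone
      by_cases hx : x = x₀
      · subst hx
        rw [Pi.single_eq_same]
        have h1 : gap l x = n := by rw [hl2, hn]
        have h2 := hl1 x
        unfold gap at h1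
        ext
        · dsimp only
          omega
        · dsimp only
          omega
      · rw [Pi.single_eq_of_ne hx]
        have h1 : gap l x = 0 := by rw [hl2, hout x hx]
        have h2 := hl1 x
        have h3 := hl4 x hx
        unfold gap at h1
        ext
        · change (l x).1 = 0
          omega
        · exact h3
    have hb : (l x₀).2.toNat < Fintype.card k - 1 := by omega
    refine (Good.wone (κ := κ) (x₀ := x₀) (⟨n, hnq⟩ : Fin (Fintype.card k))
      (⟨(l x₀).2.toNat, hb⟩ : Fin (Fintype.card k - 1))).congr (fun Φ => ?_)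
    rw [← hl3 _ (Φ.frobeniusPeriodic (p := p) κ)]
    conv_lhs => rw [hl]
  · -- large weights
    push Not at hnq
    obtain ⟨f, _, hf⟩ := card_eq_pow (k := k) p
    set Q := Fintype.card k with hQ
    have hx₀ : ∀ a, κ x₀ a = κ x₀ a ^ p ^ f := fun a => by
      rw [← hf, ← map_pow, hQ, FiniteField.pow_card]
    set mu : Emb → ℤ × ℤ := lam + Pi.single x₀ (-(Q : ℤ), (0 : ℤ)) with hmu
    have hlamx := hlam x₀
    have hgx : (lam x₀).1 - (lam x₀).2 = n := by
      unfold gap at hn
      omega
    have hmux : mu x₀ = ((lam x₀).1 - Q, (lam x₀).2) := by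
      simp [hmu, sub_eq_add_neg]
      ext <;> simp
    have hmux' : ∀ x, x ≠ x₀ → mu x = lam x := by
      intro x hx
      simp [hmu, Pi.single_eq_of_ne hx]
    have hmu_dom : Dominant mu := by
      intro z
      by_cases hz : z = x₀
      · subst hz
        rw [hmux]
        dsimp only
        omega
      · rw [hmux' z hz]
        exact hlam z
    have hback : mu + Pi.single x₀ ((Q : ℤ), (0 : ℤ)) = lam := by
      rw [hmu, shift_add]
      simp [single_zero_pair]
    have hrel := fun Φ => powOp_rel (κ := κ) (p := p) x₀ x₀ f hx₀ Φ mu hmu_dom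
    -- the auxiliary terms
    have haux : ∀ v : ℤ × ℤ, (∀ w : ℤ × ℤ, w = mu x₀ + v → w.2 ≠ w.1 + 1 →
        ((dom w).1 - (dom w).2).toNat < n) →
        Good κ x₀ Q (fun e => MP_39033f_nt.hat e (mu + Pi.single x₀ v)) := by
      intro v hv
      apply Good.hat
      intro hw
      have hw₀ := hw x₀
      refine ih _ (hv _ rfl ?_) _ (dom_dominant hw) ?_ ?_
      · have : (mu + Pi.single x₀ v : Emb → ℤ × ℤ) x₀ = mu x₀ + v := by simp
        rw [this] at hw₀
        exact hw₀
      · intro x hx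
        have h1 : (mu + Pi.single x₀ v : Emb → ℤ × ℤ) x = lam x := by
          rw [Pi.add_apply, Pi.single_eq_of_ne hx, add_zero, hmux' x hx]
        have h2 := hout x hx
        have h3 := hlam x
        unfold gap at h2 ⊢
        dsimp only
        rw [h1]
        simp only [dom, h3, if_true]
        exact h2
      · unfold gap
        dsimp only
        rw [Pi.add_apply, Pi.single_eq_same]
    have h10 := haux (1, 0) (by
      rintro w rfl hw
      rw [hmux] at hw ⊢
      simp only [dom, Prod.fst_add, Prod.snd_add] at hw ⊢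
      split_ifs <;> simp <;> omega)
    have h01 := haux (0, 1) (by
      rintro w rfl hw
      rw [hmux] at hw ⊢
      simp only [dom, Prod.fst_add, Prod.snd_add] at hw ⊢
      split_ifs <;> simp <;> omega)
    have h0Q := haux (0, (Q : ℤ)) (by
      rintro w rfl hw
      rw [hmux] at hw ⊢
      simp only [dom, Prod.fst_add, Prod.snd_add] at hw ⊢
      split_ifs <;> simp <;> omega)
    refine ((h10.add h01).sub h0Q).congr (fun Φ => ?_)
    have h1 := hrel Φ
    unfold powOp at h1
    rw [← hf] at h1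
    rw [hback, hat_of_dominant _ hlam] at h1
    push_cast at h1
    linarith

/-- All dominant weights. -/
theorem good_dominant (p : ℕ) [Fact p.Prime] [CharP k p] (hκ : ∀ j : k →+* F, ∃ x, κ x = j) (x₀ : Emb) (lam : Emb → ℤ × ℤ)
    (hlam : Dominant lam) : Good κ x₀ (Fintype.card k) (fun e => e lam) := by
  suffices H : ∀ (N : ℕ) (lam : Emb → ℤ × ℤ), Dominant lam →
      (∑ x ∈ Finset.univ.erase x₀, gap lam x) = N →
      Good κ x₀ (Fintype.card k) (fun e => e lam) from H _ lam hlam rfl
  intro N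
  induction N using Nat.strong_induction_on with
  | _ N ih =>
  intro lam hlam hN
  by_cases hbig : ∃ x, x ≠ x₀ ∧ 0 < gap lam x
  · obtain ⟨x, hx, hgx⟩ := hbig
    obtain ⟨m, hm, _⟩ := exists_frob_pow p (κ x₀) (κ x)
    set mu : Emb → ℤ × ℤ := lam + Pi.single x (-(1 : ℤ), (0 : ℤ)) with hmu
    have hlamx := hlam x
    have hmux : mu x = ((lam x).1 - 1, (lam x).2) := by
      simp [hmu, sub_eq_add_neg]
      ext <;> simp
    have hmux' : ∀ z, z ≠ x → mu z = lam z := by
      intro z hz
      simp [hmu, Pi.single_eq_of_ne hz]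
    have hmu_dom : Dominant mu := by
      intro z
      by_cases hz : z = x
      · subst hz
        rw [hmux]
        unfold gap at hgx
        dsimp only
        omega
      · rw [hmux' z hz]
        exact hlam z
    have hback : mu + Pi.single x ((1 : ℤ), (0 : ℤ)) = lam := by
      rw [hmu, shift_add]
      simp [single_zero_pair]
    have hxm : x ∈ Finset.univ.erase x₀ := Finset.mem_erase.mpr ⟨hx, Finset.mem_univ x⟩
    -- outside sums
    have hsum : ∀ ν : Emb → ℤ × ℤ, (∀ z, z ≠ x₀ → z ≠ x → gap ν z = gap lam z) →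
        gap ν x < gap lam x → (∑ z ∈ Finset.univ.erase x₀, gap ν z) < N := by
      intro ν h1 h2
      rw [← hN]
      apply Finset.sum_lt_sum
      · intro z hz
        by_cases hzx : z = x
        · rw [hzx]; exact h2.le
        · rw [h1 z (Finset.ne_of_mem_erase hz) hzx]
      · exact ⟨x, hxm, h2⟩
    have hx0 : ∀ v : ℤ × ℤ,
        Good κ x₀ (Fintype.card k) (fun e => MP_39033f_nt.hat e (mu + Pi.single x₀ v)) := by
      intro v
      apply Good.hat
      intro hw
      refine ih _ (hsum _ ?_ ?_) _ (dom_dominant hw) rfl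
      · intro z hz hzx
        have h1 : (mu + Pi.single x₀ v : Emb → ℤ × ℤ) z = lam z := by
          rw [Pi.add_apply, Pi.single_eq_of_ne hz, add_zero, hmux' z hzx]
        have h3 := hlam z
        unfold gap
        dsimp only
        rw [h1]
        simp only [dom, h3, if_true]
      · have h1 : (mu + Pi.single x₀ v : Emb → ℤ × ℤ) x = mu x := by
          rw [Pi.add_apply, Pi.single_eq_of_ne hx, add_zero]
        unfold gap at hgx ⊢
        dsimp only
        rw [h1, hmux]
        simp only [dom]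
        split_ifs <;> dsimp only at * <;> omega
    have h01 : Good κ x₀ (Fintype.card k)
        (fun e => MP_39033f_nt.hat e (mu + Pi.single x ((0 : ℤ), (1 : ℤ)))) := by
      apply Good.hat
      intro hw
      have hwx := hw x
      rw [Pi.add_apply, Pi.single_eq_same, hmux] at hwx
      refine ih _ (hsum _ ?_ ?_) _ (dom_dominant hw) rfl
      · intro z hz hzx
        have h1 : (mu + Pi.single x ((0 : ℤ), (1 : ℤ)) : Emb → ℤ × ℤ) z = lam z := by
          rw [Pi.add_apply, Pi.single_eq_of_ne hzx, add_zero, hmux' z hzx]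
        have h3 := hlam z
        unfold gap
        dsimp only
        rw [h1]
        simp only [dom, h3, if_true]
      · unfold gap at hgx ⊢
        dsimp only
        rw [Pi.add_apply, Pi.single_eq_same, hmux]
        simp only [dom, Prod.fst_add, Prod.snd_add] at hwx ⊢
        split_ifs <;> simp <;> omega
    refine (((hx0 ((p ^ m : ℕ), 0)).add (hx0 (0, (p ^ m : ℕ)))).sub h01).congr (fun Φ => ?_)
    have h1 := powOp_rel (κ := κ) (p := p) x x₀ m hm Φ mu hmu_dom
    unfold powOp at h1
    rw [Nat.cast_one, hback, hat_of_dominant _ hlam] at h1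
    linarith
  · push Not at hbig
    exact good_single p hκ x₀ _ lam hlam (fun x hx => Nat.le_zero.mp (hbig x hx)) rfl

end oneemb

end Pool.Agent.Work.MP_39033f_nt
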