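import Pool.Agent.Work.MP_39033f_nt.OneEmb

/-!
# The number of restricted weights
-/

set_option autoImplicit false

namespace Pool.Agent.Work.MP_39033f_nt

section card

variable {k F Emb : Type} [Field k] [Field F] [Fintype k]

lemma frob_exp_aux {p : ℕ} [Fact p.Prime] [CharP k p] {f i j : ℕ} (hq : Fintype.card k = p ^ f)
    (hij : i < j) (hj : j < f) (h : ∀ a : k, a ^ p ^ i = a ^ p ^ j) : False := by
  have hp := (Fact.out : p.Prime)
  have h1 : ∀ a : k, a ^ p ^ (j - i) = a := by
    intro a
    have h2 : (a ^ p ^ (j - i)) ^ p ^ i = a ^ p ^ i := by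
      rw [← pow_mul, ← pow_add, Nat.sub_add_cancel hij.le, h a]
    have h3 : Function.Injective (fun x : k => x ^ p ^ i) := by
      intro x y hxy
      exact iterateFrobenius_inj k p i (by simpa [iterateFrobenius_def] using hxy)
    exact h3 h2
  classical
  have hlt : 1 < p ^ (j - i) := Nat.one_lt_pow (by omega) hp.one_lt
  let P : Polynomial k := Polynomial.X ^ p ^ (j - i) - Polynomial.X
  have hP : P ≠ 0 := FiniteField.X_pow_card_sub_X_ne_zero k hlt
  have hdeg : P.natDegree = p ^ (j - i) := FiniteField.X_pow_card_sub_X_natDegree_eq k hlt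
  have hsub : (Finset.univ : Finset k) ⊆ P.roots.toFinset := by
    intro a _
    rw [Multiset.mem_toFinset, Polynomial.mem_roots hP, Polynomial.IsRoot.def]
    simp [P, h1 a]
  have hcard := Finset.card_le_card hsub
  rw [Finset.card_univ, hq] at hcard
  have h4 : P.roots.toFinset.card ≤ P.natDegree :=
    (Multiset.toFinset_card_le _).trans (Polynomial.card_roots' P)
  have h5 : p ^ (j - i) < p ^ f := Nat.pow_lt_pow_right hp.one_lt (by omega)
  omega

lemma Setup.card_S {p : ℕ} [Fact p.Prime] [CharP k p] {κ : Emb → k →+* F} {S : Finset Emb}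
    {x₀ : Emb} {t : Emb → ℕ} {f : ℕ} (h : Setup p κ S x₀ t f) : S.card = f := by
  apply le_antisymm
  · calc S.card ≤ (Finset.range f).card :=
          Finset.card_le_card_of_injOn t (fun x hx => by
            simpa using h.hf x hx) h.hinj
      _ = f := Finset.card_range f
  · calc f = (Finset.range f).card := (Finset.card_range f).symm
      _ ≤ S.card := by
        have hex : ∀ j : ℕ, ∃ x ∈ S, κ x = frobTwist p (κ x₀) j := by
          intro j
          obtain ⟨x, hx⟩ := h.hκ (frobTwist p (κ x₀) j)
          obtain ⟨x', hx', hxx⟩ := h.hS x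
          exact ⟨x', hx', hxx.trans hx⟩
        choose g hg1 hg2 using hex
        apply Finset.card_le_card_of_injOn g (fun j _ => hg1 j)
        intro i hi j hj hij
        have hi' := Finset.mem_range.mp (Finset.mem_coe.mp hi)
        have hj' := Finset.mem_range.mp (Finset.mem_coe.mp hj)
        have h1 : ∀ a : k, a ^ p ^ i = a ^ p ^ j := by
          intro a
          apply (κ x₀).injective
          rw [map_pow, map_pow, ← frobTwist_apply, ← frobTwist_apply, ← hg2 i, ← hg2 j, hij]
        rcases lt_trichotomy i j with hlt | heq | hgt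
        · exact (frob_exp_aux h.hq hlt hj' h1).elim
        · exact heq
        · exact (frob_exp_aux h.hq hgt hi' (fun a => (h1 a).symm)).elim

variable [DecidableEq Emb]

/-- The restricted weights are parametrised by their gaps on `S` and the second entry at `x₀`. -/
noncomputable def restrictedEquiv (p q : ℕ) (S : Finset Emb) (x₀ : Emb) (hp : 0 < p) (hq : 1 < q) :
    {ν : Emb → ℤ × ℤ // Restricted p q S x₀ ν} ≃ (S → Fin p) × Fin (q - 1) where
  toFun ν := (fun x => ⟨gap ν.1 x.1, by
      have := ν.2.1 x.1
      unfold gap
      omega⟩, ⟨(ν.1 x₀).2.toNat, by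
      have := ν.2.2.2.2
      omega⟩)
  invFun z := ⟨fun x => ((if hx : x ∈ S then ((z.1 ⟨x, hx⟩ : ℕ) : ℤ) else 0)
      + (if x = x₀ then ((z.2 : ℕ) : ℤ) else 0), if x = x₀ then ((z.2 : ℕ) : ℤ) else 0), by
    refine ⟨fun x => ?_, fun x hx => ?_, fun x hx => ?_, ?_, ?_⟩
    · dsimp only
      by_cases hx : x ∈ S
      · rw [dif_pos hx]
        have := (z.1 ⟨x, hx⟩).2
        constructor <;> omega
      · rw [dif_neg hx]
        constructor <;> omega
    · dsimp only
      rw [dif_neg hx, zero_add]
    · dsimp only
      rw [if_neg hx]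
    · dsimp only
      rw [if_pos rfl]
      omega
    · dsimp only
      rw [if_pos rfl]
      have := z.2.2
      omega⟩
  left_inv ν := by
    apply Subtype.ext
    funext x
    have h1 := ν.2.1 x
    have h2 := ν.2.2.1 x
    have h3 := ν.2.2.2.1 x
    have h4 := ν.2.2.2.2
    by_cases hx : x ∈ S
    · by_cases hx0 : x = x₀
      · subst hx0
        ext
        · simp only [hx, dite_true, if_true, gap]
          omega
        · simp only [if_true]
          omega
      · ext
        · simp only [hx, dite_true, hx0, if_false, gap]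
          have := h3 hx0
          omega
        · simp only [hx0, if_false]
          exact (h3 hx0).symm
    · by_cases hx0 : x = x₀
      · subst hx0
        ext
        · simp only [hx, dite_false, if_true]
          have := h2 hx
          omega
        · simp only [if_true]
          omega
      · ext
        · simp only [hx, dite_false, hx0, if_false]
          have := h3 hx0
          have := h2 hx
          omega
        · simp only [hx0, if_false]
          exact (h3 hx0).symm
  right_inv z := by
    ext x
    · simp only [gap]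
      rw [dif_pos x.2]
      have h1 : z.1 ⟨x.1, x.2⟩ = z.1 x := rfl
      rw [h1]
      omega
    · simp

lemma Setup.card_restricted {p : ℕ} [Fact p.Prime] [CharP k p] {κ : Emb → k →+* F}
    {S : Finset Emb} {x₀ : Emb} {t : Emb → ℕ} {f : ℕ} (h : Setup p κ S x₀ t f)
    [Fintype {ν : Emb → ℤ × ℤ // Restricted p (Fintype.card k) S x₀ ν}] :
    Fintype.card {ν : Emb → ℤ × ℤ // Restricted p (Fintype.card k) S x₀ ν}
      = Fintype.card (Fin (Fintype.card k) × Fin (Fintype.card k - 1)) := by
  have hp := (Fact.out : p.Prime)
  rw [Fintype.card_congr (restrictedEquiv p (Fintype.card k) S x₀ hp.pos Fintype.one_lt_card)]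
  rw [Fintype.card_prod, Fintype.card_prod, Fintype.card_fun, Fintype.card_fin, Fintype.card_fin,
    Fintype.card_fin, Fintype.card_coe, h.card_S, ← h.hq]

end card

end Pool.Agent.Work.MP_39033f_nt
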