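import Pool.Agent.Work.MP_39033f_nt.OneEmbCard
import Pool.Agent.Work.MP_39033f_nt.Ring

/-!
# The dual basis of Frobenius periodic functions
-/

set_option autoImplicit false

open MvPolynomial
open scoped MonoidAlgebra TensorProduct

namespace Pool.Agent.Work.MP_39033f_nt

section lin

variable {k F Emb : Type} [Field k] [Field F] [Fintype Emb] [DecidableEq Emb] {p : ℕ}
  {κ : Emb → k →+* F}

omit [DecidableEq Emb] in
lemma hat_sum {ι : Type} (s : Finset ι) (a : ι → ℤ) (g : ι → (Emb → ℤ × ℤ) → ℤ)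
    (ν : Emb → ℤ × ℤ) :
    hat (fun l => ∑ i ∈ s, a i * g i l) ν = ∑ i ∈ s, a i * hat (g i) ν := by
  unfold hat
  rw [Finset.mul_sum]
  refine Finset.sum_congr rfl fun i _ => ?_
  ring

lemma FrobeniusPeriodic.sum {ι : Type} (s : Finset ι) (a : ι → ℤ)
    (g : ι → (Emb → ℤ × ℤ) → ℤ) (hg : ∀ i ∈ s, FrobeniusPeriodic p κ (g i)) :
    FrobeniusPeriodic p κ (fun l => ∑ i ∈ s, a i * g i l) := by
  intro x y hxy lam hlam
  refine ⟨?_, ?_⟩
  · rw [hat_sum, hat_sum, hat_sum, hat_sum, ← Finset.sum_add_distrib, ← Finset.sum_add_distrib]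
    refine Finset.sum_congr rfl fun i hi => ?_
    have h1 := (hg i hi x y hxy lam hlam).1
    rw [← mul_add, ← mul_add, h1]
  · dsimp only
    refine Finset.sum_congr rfl fun i hi => ?_
    rw [(hg i hi x y hxy lam hlam).2]

lemma gsum_sum {ι : Type} (s : Finset ι) (a : ι → ℤ) (g : ι → (Emb → ℤ × ℤ) → ℤ)
    (ν lam : Emb → ℤ × ℤ) :
    gsum (fun l => ∑ i ∈ s, a i * g i l) ν lam = ∑ i ∈ s, a i * gsum (g i) ν lam := by
  unfold gsum
  simp only [Finset.mul_sum]
  rw [Finset.sum_comm]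

end lin

section main

variable {k F Emb : Type} [Field k] [Field F] [Fintype k] [Fintype Emb] [DecidableEq Emb]
  {p : ℕ} [Fact p.Prime] [CharP k p]
  {κ : Emb → k →+* F} {S : Finset Emb} {x₀ : Emb} {t : Emb → ℕ} {f : ℕ}

/-- the multiplicity of the restricted weight `ν` in `W_λ` -/
noncomputable def mlt (κ : Emb → k →+* F) (ν lam : Emb → ℤ × ℤ) : ℤ :=
  (AddFn.ofMu (multFn (W κ ν))).wval κ lam

omit [Fintype k] in
lemma mlt_periodic (ν : Emb → ℤ × ℤ) : FrobeniusPeriodic p κ (mlt κ ν) :=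
  (AddFn.ofMu (multFn (W κ ν))).frobeniusPeriodic κ

lemma Setup.mlt_delta (h : Setup p κ S x₀ t f) {ν ν' : Emb → ℤ × ℤ}
    (hν : Restricted p (Fintype.card k) S x₀ ν) (hν' : Restricted p (Fintype.card k) S x₀ ν') :
    mlt κ ν' ν = if ν = ν' then 1 else 0 := by
  have h1 := h.mult_delta (MonoidHom.id _) Function.surjective_id hν hν'
  have h2 : mlt κ ν' ν = (jh (multFn (Wi (MonoidHom.id _) κ ν')) (Wi (MonoidHom.id _) κ ν) : ℤ) :=
    rfl
  rw [h2, h1]
  split_ifs <;> rfl

/-- A Frobenius periodic function is determined by its values on restricted weights. -/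
lemma Setup.periodic_expand (h : Setup p κ S x₀ t f) (R : Finset (Emb → ℤ × ℤ))
    (hR : ∀ ν, ν ∈ R ↔ Restricted p (Fintype.card k) S x₀ ν) (g : (Emb → ℤ × ℤ) → ℤ)
    (hg : FrobeniusPeriodic p κ g) (lam : Emb → ℤ × ℤ) (hlam : Dominant lam) :
    g lam = ∑ ν ∈ R, g ν * mlt κ ν lam := by
  have h1 := FrobeniusPeriodic.sum (κ := κ) (p := p) R g (mlt κ) (fun ν _ => mlt_periodic ν)
  have h2 := (hg.sub h1).eq_zero h.hκ S x₀ h.hS (fun ν hν => by
    rw [Finset.sum_eq_single ν]
    · rw [h.mlt_delta hν hν, if_pos rfl, mul_one, sub_self]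
    · intro ν' hν' hne
      rw [h.mlt_delta hν ((hR ν').1 hν'), if_neg hne.symm, mul_zero]
    · intro hν'
      exact absurd ((hR ν).2 hν) hν') lam hlam
  linarith

/-- The dual basis. -/
theorem Setup.exists_dual (h : Setup p κ S x₀ t f) :
    ∃ c : Fin (Fintype.card k) → Fin (Fintype.card k - 1) → (Emb → ℤ × ℤ) → ℤ,
      (∀ r b, FrobeniusPeriodic p κ (c r b)) ∧
      (∀ (r r' : Fin (Fintype.card k)) (b b' : Fin (Fintype.card k - 1)),
        c r b (wone x₀ r' b') = if r = r' ∧ b = b' then 1 else 0) ∧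
      ∀ g : (Emb → ℤ × ℤ) → ℤ, FrobeniusPeriodic p κ g → ∀ lam, Dominant lam →
        g lam = ∑ r : Fin (Fintype.card k), ∑ b : Fin (Fintype.card k - 1),
          g (wone x₀ r b) * c r b lam := by
  classical
  have hfin := restricted_finite (Emb := Emb) p (Fintype.card k) S x₀
  set R := hfin.toFinset with hRdef
  have hR : ∀ ν, ν ∈ R ↔ Restricted p (Fintype.card k) S x₀ ν := fun ν => by
    rw [hRdef, Set.Finite.mem_toFinset]; rfl
  -- index types
  let RT := {ν : Emb → ℤ × ℤ // Restricted p (Fintype.card k) S x₀ ν}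
  let BT := Fin (Fintype.card k) × Fin (Fintype.card k - 1)
  let _ : Fintype RT := Fintype.subtype R hR
  have hcard : Fintype.card RT = Fintype.card BT := h.card_restricted
  have hgood : ∀ ν : RT, ∃ c : Fin (Fintype.card k) → Fin (Fintype.card k - 1) → ℤ,
      ∀ Φ : AddFn F (GL (Fin 2) k), Φ.wval κ ν.1 = ∑ r, ∑ b, c r b * Φ.wval κ (wone x₀ r b) :=
    fun ν => good_dominant p h.hκ x₀ ν.1 (fun x => (ν.2.1 x).1)
  choose cc hcc using hgood
  let C : Matrix RT BT ℤ := fun ν β => cc ν β.1 β.2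
  let M : Matrix BT RT ℤ := fun β ν => mlt κ ν.1 (wone x₀ β.1 β.2)
  have hCM : C * M = 1 := by
    ext ν ν'
    rw [Matrix.mul_apply, Matrix.one_apply, Fintype.sum_prod_type]
    have h1 := hcc ν (AddFn.ofMu (multFn (W κ ν'.1)))
    have h2 := h.mlt_delta ν.2 ν'.2
    unfold mlt at h2
    rw [h2] at h1
    have h3 : (if ν = ν' then (1 : ℤ) else 0) = if ν.1 = ν'.1 then 1 else 0 := by
      by_cases hνν : ν = ν'
      · simp [hνν]
      · have : ν.1 ≠ ν'.1 := fun hh => hνν (Subtype.ext hh)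
        simp [hνν, this]
    rw [h3, h1]
    rfl
  have hMC : M * C = 1 := (Matrix.mul_eq_one_comm_of_card_eq _ _ _ hcard).mp hCM
  have sum_conv : ∀ G : (Emb → ℤ × ℤ) → ℤ, ∑ ν ∈ R, G ν = ∑ ν : RT, G ν.1 := by
    intro G
    exact (Finset.sum_subtype R hR G)
  -- values of periodic functions on restricted weights
  have hval : ∀ g : (Emb → ℤ × ℤ) → ℤ, FrobeniusPeriodic p κ g → ∀ ν : RT,
      g ν.1 = ∑ r, ∑ b, cc ν r b * g (wone x₀ r b) := by
    intro g hg ν
    have hw : ∀ r b : ℕ, Dominant (wone x₀ r b : Emb → ℤ × ℤ) := by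
      intro r b x
      unfold wone
      by_cases hx : x = x₀
      · subst hx
        rw [Pi.single_eq_same]
        dsimp only
        omega
      · rw [Pi.single_eq_of_ne hx]
        exact le_rfl
    rw [h.periodic_expand R hR g hg ν.1 (fun x => (ν.2.1 x).1)]
    have h1 : ∀ (r : Fin (Fintype.card k)) (b : Fin (Fintype.card k - 1)),
        g (wone x₀ r b) = ∑ ν' ∈ R, g ν' * mlt κ ν' (wone x₀ r b) :=
      fun r b => h.periodic_expand R hR g hg _ (hw r b)
    simp only [h1]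
    have h2 : ∀ ν' ∈ R, g ν' * mlt κ ν' ν.1
        = ∑ r, ∑ b, g ν' * (cc ν r b * mlt κ ν' (wone x₀ r b)) := by
      intro ν' _
      have h3 : mlt κ ν' ν.1 = ∑ r, ∑ b, cc ν r b * mlt κ ν' (wone x₀ r b) :=
        hcc ν (AddFn.ofMu (multFn (W κ ν')))
      rw [h3]
      simp only [Finset.mul_sum]
    rw [Finset.sum_congr rfl h2, Finset.sum_comm]
    refine Finset.sum_congr rfl fun r _ => ?_
    rw [Finset.sum_comm]
    refine Finset.sum_congr rfl fun b _ => ?_
    rw [Finset.mul_sum]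
    refine Finset.sum_congr rfl fun ν' _ => ?_
    ring
  -- the dual basis
  let cd : Fin (Fintype.card k) → Fin (Fintype.card k - 1) → (Emb → ℤ × ℤ) → ℤ :=
    fun r b lam => ∑ ν ∈ R, (if hν : Restricted p (Fintype.card k) S x₀ ν
      then cc ⟨ν, hν⟩ r b else 0) * mlt κ ν lam
  have hcd : ∀ r b lam, cd r b lam = ∑ ν : RT, cc ν r b * mlt κ ν.1 lam := by
    intro r b lam
    change ∑ ν ∈ R, (if hν : Restricted p (Fintype.card k) S x₀ ν
      then cc ⟨ν, hν⟩ r b else 0) * mlt κ ν lam = _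
    rw [sum_conv (fun ν => (if hν : Restricted p (Fintype.card k) S x₀ ν
      then cc ⟨ν, hν⟩ r b else 0) * mlt κ ν lam)]
    refine Finset.sum_congr rfl fun ν _ => ?_
    rw [dif_pos ν.2]
  refine ⟨cd, ?_, ?_, ?_⟩
  · intro r b
    exact FrobeniusPeriodic.sum R _ _ (fun ν _ => mlt_periodic ν)
  · intro r r' b b'
    rw [hcd]
    have h1 := congrFun (congrFun hMC (r', b')) (r, b)
    rw [Matrix.mul_apply, Matrix.one_apply] at h1
    have h2 : ∑ ν : RT, cc ν r b * mlt κ ν.1 (wone x₀ r' b')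
        = ∑ ν : RT, M (r', b') ν * C ν (r, b) := by
      refine Finset.sum_congr rfl fun ν _ => ?_
      change _ = mlt κ ν.1 (wone x₀ r' b') * cc ν r b
      ring
    rw [h2, h1]
    by_cases hr : r = r'
    · by_cases hb : b = b'
      · simp [hr, hb]
      · have : ¬ b' = b := fun hh => hb hh.symm
        simp [hr, hb, this]
    · have : ¬ r' = r := fun hh => hr hh.symm
      simp [hr, this]
  · intro g hg lam hlam
    rw [h.periodic_expand R hR g hg lam hlam,
      sum_conv (fun ν => g ν * mlt κ ν lam)]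
    have h1 : ∀ ν : RT, g ν.1 * mlt κ ν.1 lam
        = ∑ r : Fin (Fintype.card k), ∑ b : Fin (Fintype.card k - 1),
          g (wone x₀ r b) * (cc ν r b * mlt κ ν.1 lam) := by
      intro ν
      rw [hval g hg ν, Finset.sum_mul]
      refine Finset.sum_congr rfl fun r _ => ?_
      rw [Finset.sum_mul]
      refine Finset.sum_congr rfl fun b _ => ?_
      ring
    simp only [h1, hcd]
    rw [Finset.sum_comm]
    refine Finset.sum_congr rfl fun r _ => ?_
    rw [Finset.sum_comm]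
    refine Finset.sum_congr rfl fun b _ => ?_
    rw [Finset.mul_sum]

end main

end Pool.Agent.Work.MP_39033f_nt
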