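import Pool.Agent.Work.MP_39033f_nt.Classify

set_option autoImplicit false

open MvPolynomial
open scoped MonoidAlgebra TensorProduct

namespace Pool.Agent.Work.MP_39033f_nt

section fixed

variable {p : ℕ} [Fact p.Prime] {F Γ V : Type} [Field F] [CharP F p] [Group Γ] [AddCommGroup V]
  [Module F V]

/-- The subgroup `K` acts through a finite `p`-group. -/
def PAct (p : ℕ) (ρ : Representation F Γ V) (K : Subgroup Γ) : Prop :=
  (ρ '' (K : Set Γ)).Finite ∧ ∀ g ∈ K, ∃ n, ρ g ^ p ^ n = 1

/-- A `p`-group acting on a nonzero vector space in characteristic `p` has a fixed vector. -/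
theorem fixed_vector (ρ : Representation F Γ V) (K : Subgroup Γ) (hK : PAct p ρ K)
    (v : V) (hv : v ≠ 0) :
    ∃ w ∈ Submodule.span F ((fun g => ρ g v) '' (K : Set Γ)), w ≠ 0 ∧ ∀ g ∈ K, ρ g w = w := by
  classical
  obtain ⟨hfin, hpow⟩ := hK
  have hpV : ∀ x : V, p • x = 0 := by
    intro x
    rw [← Nat.cast_smul_eq_nsmul F, CharP.cast_eq_zero, zero_smul]
  have instZ : Module (ZMod p) V := AddCommGroup.zmodModule hpV
  let O : Set V := (fun g => ρ g v) '' (K : Set Γ)
  have hO : O.Finite := by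
    have : O = (fun f : V →ₗ[F] V => f v) '' (ρ '' (K : Set Γ)) := by
      rw [Set.image_image]
    rw [this]
    exact hfin.image _
  let N : Submodule (ZMod p) V := Submodule.span (ZMod p) O
  have hvO : v ∈ O := ⟨1, K.one_mem, by simp⟩
  have hNF : ∀ x : V, x ∈ N → x ∈ Submodule.span F O := by
    intro x hx
    refine Submodule.span_induction (p := fun x _ => x ∈ Submodule.span F O)
      (fun y hy => Submodule.subset_span hy) (Submodule.zero_mem _)
      (fun a b _ _ ha hb => Submodule.add_mem _ ha hb) (fun c a _ ha => ?_) hx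
    have : c • a = (c.val : F) • a := by
      rw [Nat.cast_smul_eq_nsmul]
      conv_lhs => rw [← ZMod.natCast_zmod_val c]
      rw [Nat.cast_smul_eq_nsmul]
    rw [this]
    exact Submodule.smul_mem _ _ ha
  have hstab : ∀ g ∈ K, ∀ x : V, x ∈ N → ρ g x ∈ N := by
    intro g hg x hx
    refine Submodule.span_induction (p := fun x _ => ρ g x ∈ N)
      ?_ ?_ ?_ ?_ hx
    · rintro _ ⟨h, hh, rfl⟩
      refine Submodule.subset_span ⟨g * h, K.mul_mem hg hh, ?_⟩
      simp
    · rw [map_zero]; exact N.zero_mem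
    · intro a b _ _ ha hb
      rw [map_add]; exact N.add_mem ha hb
    · intro c a _ ha
      have : ρ g (c • a) = c • ρ g a := by
        rw [← ZMod.natCast_zmod_val c, Nat.cast_smul_eq_nsmul, Nat.cast_smul_eq_nsmul, map_nsmul]
      rw [this]
      exact N.smul_mem _ ha
  have : Finite N := by
    have : Module.Finite (ZMod p) N := Module.Finite.span_of_finite (ZMod p) hO
    exact Module.finite_of_finite (ZMod p)
  -- the p-group
  let P : Subgroup (Module.End F V)ˣ := K.map (MonoidHom.toHomUnits ρ)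
  have hP : ∀ x : P, ∃ g ∈ K, (x : (Module.End F V)ˣ) = MonoidHom.toHomUnits ρ g := by
    rintro ⟨_, g, hg, rfl⟩
    exact ⟨g, hg, rfl⟩
  have hPp : IsPGroup p P := by
    intro x
    obtain ⟨g, hg, hx⟩ := hP x
    obtain ⟨n, hn⟩ := hpow g hg
    refine ⟨n, ?_⟩
    apply Subtype.ext
    apply Units.ext
    rw [Subgroup.coe_pow, Units.val_pow_eq_pow_val, hx]
    exact hn
  have hact : ∀ (x : P) (y : V), y ∈ N → ((x : (Module.End F V)ˣ) : Module.End F V) y ∈ N := by
    intro x y hy
    obtain ⟨g, hg, hx⟩ := hP x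
    rw [hx]
    exact hstab g hg y hy
  let _ : MulAction P N :=
    { smul := fun x y => ⟨((x : (Module.End F V)ˣ) : Module.End F V) y.1, hact x y.1 y.2⟩
      one_smul := fun y => Subtype.ext rfl
      mul_smul := fun x x' y => Subtype.ext rfl }
  have hcard : p ∣ Nat.card N := by
    rw [Module.natCard_eq_pow_finrank (K := ZMod p) (V := N), Nat.card_zmod]
    apply dvd_pow_self
    have : Nontrivial N := ⟨⟨⟨v, Submodule.subset_span hvO⟩, 0, fun h => hv (congrArg Subtype.val h)⟩⟩
    exact Module.finrank_pos.ne'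
  have h0 : (0 : N) ∈ MulAction.fixedPoints P N := by
    intro x
    apply Subtype.ext
    exact map_zero _
  obtain ⟨b, hb, hb0⟩ := hPp.exists_fixed_point_of_prime_dvd_card_of_fixed_point N hcard h0
  refine ⟨b.1, hNF b.1 b.2, fun h => hb0 (Subtype.ext h.symm), fun g hg => ?_⟩
  have h1 := hb ⟨MonoidHom.toHomUnits ρ g, g, hg, rfl⟩
  exact congrArg Subtype.val h1

end fixed

end Pool.Agent.Work.MP_39033f_nt
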