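import Pool.Agent.Work.MP_39033f_nt.Rep

set_option autoImplicit false

open MvPolynomial
open scoped MonoidAlgebra TensorProduct

namespace Pool.Agent.Work.MP_39033f_nt

section poly

variable {F σ : Type} [Field F]

lemma coeff_X_pow_mul'' (i : σ) (r : ℕ) (m : σ →₀ ℕ) (f : MvPolynomial σ F) :
    coeff (m + Finsupp.single i r) (X i ^ r * f) = coeff m f := by
  rw [X_pow_eq_monomial, add_comm m, coeff_monomial_mul, one_mul]

lemma coeff_X_pow_mul_eq_zero (i : σ) (r : ℕ) (m : σ →₀ ℕ) (f : MvPolynomial σ F)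
    (h : m i < r) : coeff m (X i ^ r * f) = 0 := by
  classical
  rw [X_pow_eq_monomial, coeff_monomial_mul', if_neg]
  intro hle
  have := hle i
  rw [Finsupp.single_eq_same] at this
  omega

lemma single_le_iff (i : σ) (r : ℕ) (m : σ →₀ ℕ) : Finsupp.single i r ≤ m ↔ r ≤ m i := by
  classical
  constructor
  · intro h
    have := h i
    rwa [Finsupp.single_eq_same] at this
  · intro h j
    by_cases hj : j = i
    · subst hj; rwa [Finsupp.single_eq_same]
    · rw [Finsupp.single_eq_of_ne hj]; exact Nat.zero_le _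

/-- `X_i ^ r` divides `f` if all monomials of `f` have exponent at least `r` at `i`. -/
lemma exists_eq_X_pow_mul (i : σ) (r : ℕ) (f : MvPolynomial σ F)
    (h : ∀ m, m i < r → coeff m f = 0) : ∃ g, f = X i ^ r * g := by
  refine ⟨f.divMonomial (Finsupp.single i r), ?_⟩
  ext m
  by_cases hm : m i < r
  · rw [h m hm, coeff_X_pow_mul_eq_zero i r m _ hm]
  · push Not at hm
    obtain ⟨m', rfl⟩ : ∃ m', m = m' + Finsupp.single i r :=
      ⟨m - Finsupp.single i r, (tsub_add_cancel_of_le ((single_le_iff i r m).mpr hm)).symm⟩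
    rw [coeff_X_pow_mul'', coeff_divMonomial, add_comm]

lemma koszul_exact (i j : σ) (hij : i ≠ j) (r : ℕ) (f0 f1 : MvPolynomial σ F)
    (h : X i ^ r * f0 + X j ^ r * f1 = 0) : ∃ g, f0 = X j ^ r * g ∧ f1 = -(X i ^ r * g) := by
  classical
  obtain ⟨g, hg⟩ := exists_eq_X_pow_mul j r f0 (by
    intro m hm
    have h1 : coeff (m + Finsupp.single i r) (X i ^ r * f0 + X j ^ r * f1) = 0 := by
      rw [h, coeff_zero]
    rw [coeff_add, coeff_X_pow_mul'', coeff_X_pow_mul_eq_zero j r _ f1, add_zero] at h1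
    · exact h1
    · rw [Finsupp.add_apply, Finsupp.single_eq_of_ne hij.symm]
      simpa using hm)
  refine ⟨g, hg, ?_⟩
  rw [hg] at h
  have h2 : X j ^ r * (X i ^ r * g + f1) = 0 := by
    rw [← h]; ring
  rcases mul_eq_zero.mp h2 with h3 | h3
  · exact absurd h3 (pow_ne_zero _ (X_ne_zero j))
  · rw [eq_neg_iff_add_eq_zero, add_comm]; exact h3

end poly

section homog

variable {F Emb : Type} [Field F] [Fintype Emb] [DecidableEq Emb]

lemma weight_apply (m : (Emb × Fin 2) →₀ ℕ) (x : Emb) :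
    (Finsupp.weight (fun v : Emb × Fin 2 => (Pi.single v.1 1 : Emb → ℕ)) m) x
      = m (x, 0) + m (x, 1) := by
  rw [Finsupp.weight_apply, Finsupp.sum_fintype _ _ (by simp), Finset.sum_apply,
    Fintype.sum_prod_type]
  simp only [Fin.sum_univ_two, Pi.smul_apply, smul_eq_mul]
  rw [Finset.sum_eq_single x]
  · simp
  · intro y _ hy
    simp [Pi.single_apply, hy.symm]
  · intro h; exact absurd (Finset.mem_univ x) h

lemma mem_Homog_iff (n : Emb → ℕ) (f : MvPolynomial (Emb × Fin 2) F) :
    f ∈ Homog F n ↔ ∀ m, coeff m f ≠ 0 → ∀ x, m (x, 0) + m (x, 1) = n x := by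
  rw [mem_weightedHomogeneousSubmodule, IsWeightedHomogeneous]
  constructor
  · intro h m hm x
    rw [← weight_apply, h hm]
  · intro h m hm
    ext x
    rw [weight_apply, h m hm x]

/-- shift of multidegrees -/
lemma X_pow_mul_mem (y : Emb) (i : Fin 2) (r : ℕ) {n n' : Emb → ℕ} (hn : n' = n + Pi.single y r)
    {f : MvPolynomial (Emb × Fin 2) F} (hf : f ∈ Homog F n) :
    X (y, i) ^ r * f ∈ Homog F n' := by
  rw [mem_weightedHomogeneousSubmodule] at hf ⊢
  have h1 := (isWeightedHomogeneous_X F (fun v : Emb × Fin 2 => (Pi.single v.1 1 : Emb → ℕ))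
    (y, i)).pow r
  have h2 := h1.mul hf
  convert h2 using 1
  rw [hn, add_comm]
  congr 1
  ext x
  simp [Pi.single_apply]

lemma mem_of_X_pow_mul_mem (y : Emb) (i : Fin 2) (r : ℕ) {n n' : Emb → ℕ}
    (hn : n' = n + Pi.single y r) {f : MvPolynomial (Emb × Fin 2) F}
    (hf : X (y, i) ^ r * f ∈ Homog F n') : f ∈ Homog F n := by
  rw [mem_Homog_iff] at hf ⊢
  intro m hm x
  have h1 := hf (m + Finsupp.single (y, i) r) (by rwa [coeff_X_pow_mul'']) x
  rw [hn] at h1
  simp only [Finsupp.add_apply, Pi.add_apply] at h1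
  by_cases hx : x = y
  · subst hx
    rw [Pi.single_eq_same] at h1
    fin_cases i
    · simp only [Fin.zero_eta, Finsupp.single_eq_same] at h1
      rw [Finsupp.single_eq_of_ne (by simp)] at h1
      omega
    · simp only [Fin.mk_one, Finsupp.single_eq_same] at h1
      rw [Finsupp.single_eq_of_ne (by simp)] at h1
      omega
  · rw [Pi.single_eq_of_ne hx, Finsupp.single_eq_of_ne (by simp [hx]),
      Finsupp.single_eq_of_ne (by simp [hx])] at h1
    omega

/-- surjectivity of `(f₀, f₁) ↦ X^r f₀ + Y^r f₁` in degrees `≥ 2r - 1`. -/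
lemma exists_decomp (y : Emb) (r : ℕ) {n n' : Emb → ℕ} (hn : n' = n + Pi.single y r)
    (hr : r ≤ n y + 1) {f : MvPolynomial (Emb × Fin 2) F} (hf : f ∈ Homog F n') :
    ∃ f0 ∈ Homog F n, ∃ f1 ∈ Homog F n, X (y, 0) ^ r * f0 + X (y, 1) ^ r * f1 = f := by
  classical
  set f1' := f.modMonomial (Finsupp.single (y, (0 : Fin 2)) r) with hf1'
  set f0 := f.divMonomial (Finsupp.single (y, (0 : Fin 2)) r) with hf0
  have hdec : X (y, 0) ^ r * f0 + f1' = f := by
    rw [X_pow_eq_monomial]
    exact divMonomial_add_modMonomial f _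
  have h0 : f0 ∈ Homog F n := by
    rw [mem_Homog_iff] at hf ⊢
    intro m hm x
    rw [hf0, coeff_divMonomial] at hm
    have h1 := hf _ hm x
    rw [hn] at h1
    simp only [Finsupp.add_apply, Pi.add_apply] at h1
    by_cases hx : x = y
    · subst hx
      rw [Pi.single_eq_same, Finsupp.single_eq_same, Finsupp.single_eq_of_ne (by simp)] at h1
      omega
    · rw [Pi.single_eq_of_ne hx, Finsupp.single_eq_of_ne (by simp [hx]),
        Finsupp.single_eq_of_ne (by simp [hx])] at h1
      omega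
  have h1' : f1' ∈ Homog F n' := by
    have : f1' = f - X (y, 0) ^ r * f0 := by rw [← hdec]; ring
    rw [this]
    exact Submodule.sub_mem _ hf (X_pow_mul_mem y 0 r hn h0)
  obtain ⟨f1, hf1⟩ := exists_eq_X_pow_mul (y, (1 : Fin 2)) r f1' (by
    intro m hm
    by_contra hne
    have h2 := (mem_Homog_iff n' f1').mp h1' m hne y
    have h3 : m (y, 0) < r := by
      by_contra hge
      push Not at hge
      exact hne (coeff_modMonomial_of_le _ ((single_le_iff _ _ _).mpr hge))
    rw [hn, Pi.add_apply, Pi.single_eq_same] at h2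
    omega)
  refine ⟨f0, h0, f1, ?_, ?_⟩
  · rw [hf1] at h1'
    exact mem_of_X_pow_mul_mem y 1 r hn h1'
  · rw [← hf1, hdec]

end homog

end Pool.Agent.Work.MP_39033f_nt
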