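import Pool.Agent.Work.MP_39033f_nt.Recur

set_option autoImplicit false

open MvPolynomial
open scoped MonoidAlgebra TensorProduct

namespace Pool.Agent.Work.MP_39033f_nt

section tens

variable {F G : Type} [Field F] [Group G]

/-- Precomposition of an additive function with the tensor product with `M`. -/
noncomputable def AddFn.tens (Φ : AddFn F G) {N : Type} [AddCommGroup N] [Module F N]
    [FiniteDimensional F N] (M : Representation F G N) : AddFn F G where
  val V _ _ ρ := Φ.val (V ⊗[F] N) (Representation.tprod ρ M)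
  exact' := by
    intro U V W _ _ _ _ _ _ _ _ _ ρU ρV ρW i π hi hπ hinj hsurj hex
    refine Φ.exact' _ _ _ _ _ _ (i.rTensor N) (π.rTensor N) ?_ ?_ ?_ ?_ ?_
    · intro g u
      induction u using TensorProduct.induction_on with
      | zero => simp
      | tmul x y => simp [hi]
      | add x y hx hy => simp only [map_add, hx, hy]
    · intro g u
      induction u using TensorProduct.induction_on with
      | zero => simp
      | tmul x y => simp [hπ]
      | add x y hx hy => simp only [map_add, hx, hy]
    · exact Module.Flat.rTensor_preserves_injective_linearMap i hinj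
    · exact LinearMap.rTensor_surjective N hsurj
    · have := rTensor_exact N (f := i) (g := π) (LinearMap.exact_iff.mpr hex.symm) hsurj
      exact (LinearMap.exact_iff.mp this).symm

lemma AddFn.tens_val (Φ : AddFn F G) {N : Type} [AddCommGroup N] [Module F N]
    [FiniteDimensional F N] (M : Representation F G N) {V : Type} [AddCommGroup V] [Module F V]
    (ρ : Representation F G V) :
    (Φ.tens M).val V ρ = Φ.val (V ⊗[F] N) (Representation.tprod ρ M) := rfl

lemma AddFn.tens_comm (Φ : AddFn F G) {N V : Type} [AddCommGroup N] [Module F N]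
    [FiniteDimensional F N] (M : Representation F G N) [AddCommGroup V] [Module F V]
    [FiniteDimensional F V] (ρ : Representation F G V) :
    (Φ.tens M).val V ρ = (Φ.tens ρ).val N M := by
  rw [tens_val, tens_val]
  refine Φ.iso _ _ (TensorProduct.comm F V N) ?_
  intro g u
  induction u using TensorProduct.induction_on with
  | zero => simp
  | tmul x y => simp
  | add x y hx hy => simp only [map_add, hx, hy]

end tens

section pairtens

variable {k F : Type} [Field k] [Field F]

/-- `(Fin 2 → V) ⊗ N ≃ (Fin 2 → V ⊗ N)` -/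
noncomputable def piTens (V N : Type) [AddCommGroup V] [Module F V] [AddCommGroup N]
    [Module F N] : ((Fin 2 → V) ⊗[F] N) ≃ₗ[F] (Fin 2 → V ⊗[F] N) :=
  (TensorProduct.comm F (Fin 2 → V) N).trans
    ((TensorProduct.piRight F F N (fun _ : Fin 2 => V)).trans
      (LinearEquiv.piCongrRight (fun _ => TensorProduct.comm F N V)))

lemma piTens_tmul {V N : Type} [AddCommGroup V] [Module F V] [AddCommGroup N]
    [Module F N] (v : Fin 2 → V) (n : N) (i : Fin 2) :
    piTens (F := F) V N (v ⊗ₜ n) i = v i ⊗ₜ n := by
  simp [piTens]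

lemma AddFn.pair_tens (Φ : AddFn F (GL (Fin 2) k)) (κ : k →+* F) {N V : Type} [AddCommGroup N]
    [Module F N] [FiniteDimensional F N] (M : Representation F (GL (Fin 2) k) N)
    [AddCommGroup V] [Module F V] [FiniteDimensional F V]
    (ρ : Representation F (GL (Fin 2) k) V) :
    ((Φ.tens M).pair κ).val V ρ = ((Φ.pair κ).tens M).val V ρ := by
  change Φ.val ((Fin 2 → V) ⊗[F] N) (Representation.tprod (pairRep κ ρ) M)
    = Φ.val (Fin 2 → V ⊗[F] N) (pairRep κ (Representation.tprod ρ M))
  refine Φ.iso _ _ (piTens V N) ?_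
  intro g u
  induction u using TensorProduct.induction_on with
  | zero => simp
  | tmul x y =>
    ext1 i
    rw [Representation.tprod_apply, TensorProduct.map_tmul, piTens_tmul, pairRep_apply,
      pairRep_apply, piTens_tmul, piTens_tmul, Representation.tprod_apply,
      TensorProduct.map_tmul, TensorProduct.map_tmul, TensorProduct.add_tmul,
      TensorProduct.smul_tmul', TensorProduct.smul_tmul']
  | add x y hx hy => simp only [map_add, hx, hy]

end pairtens

section gsum

variable {Emb : Type} [Fintype Emb] [DecidableEq Emb]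

/-- the weight `(ν_{x,1} - i_x, ν_{x,2} + i_x)` -/
def wt (ν : Emb → ℤ × ℤ) (i : Emb → ℕ) (x : Emb) : ℤ × ℤ := ((ν x).1 - i x, (ν x).2 + i x)

/-- The sum of `f (λ + η)` over the weights `η` of `W_ν`. -/
def gsum (f : (Emb → ℤ × ℤ) → ℤ) (ν lam : Emb → ℤ × ℤ) : ℤ :=
  ∑ i ∈ Fintype.piFinset (fun x => Finset.range (gap ν x + 1)), f (lam + wt ν i)

lemma sum_piFinset_split (R : Emb → Finset ℕ) (x : Emb) (H : (Emb → ℕ) → ℤ) :
    ∑ i ∈ Fintype.piFinset R, H i
      = ∑ i ∈ Fintype.piFinset (Function.update R x {0}), ∑ a ∈ R x, H (Function.update i x a) := by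
  rw [← Finset.sum_product']
  refine Finset.sum_bij' (fun i _ => (Function.update i x 0, i x))
    (fun z _ => Function.update z.1 x z.2) ?_ ?_ ?_ ?_ ?_
  · intro i hi
    rw [Fintype.mem_piFinset] at hi
    rw [Finset.mem_product, Fintype.mem_piFinset]
    refine ⟨fun y => ?_, hi x⟩
    by_cases hy : y = x
    · subst hy; simp
    · simp [Function.update_of_ne hy, hi y]
  · rintro ⟨i, a⟩ hz
    rw [Finset.mem_product, Fintype.mem_piFinset] at hz
    rw [Fintype.mem_piFinset]
    intro y
    by_cases hy : y = x
    · subst hy; simpa using hz.2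
    · have := hz.1 y
      rw [Function.update_of_ne hy] at this
      simpa [Function.update_of_ne hy] using this
  · intro i hi
    simp
  · rintro ⟨i, a⟩ hz
    rw [Finset.mem_product, Fintype.mem_piFinset] at hz
    have h0 := hz.1 x
    rw [Function.update_self, Finset.mem_singleton] at h0
    ext y
    · by_cases hy : y = x
      · subst hy
        simpa using h0.symm
      · simp [Function.update_of_ne hy]
    · simp
  · intro i hi
    simp

/-- The one-variable identity behind Pieri's rule. -/
lemma range_identity (h : ℤ → ℤ → ℤ) (a b : ℤ) (m : ℕ) :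
    (∑ i ∈ Finset.range (m + 1), (h (a - i + 1) (b + i) + h (a - i) (b + i + 1)))
      = (∑ i ∈ Finset.range (m + 2), h (a + 1 - i) (b + i))
        + ∑ i ∈ Finset.range m, h (a - i) (b + 1 + i) := by
  rw [Finset.sum_add_distrib, Finset.sum_range_succ (fun i : ℕ => h (a + 1 - i) (b + i)) (m + 1),
    Finset.sum_range_succ (fun i : ℕ => h (a - i) (b + i + 1)) m]
  have h1 : (∑ i ∈ Finset.range (m + 1), h (a - i + 1) (b + i))
      = ∑ i ∈ Finset.range (m + 1), h (a + 1 - i) (b + i) :=
    Finset.sum_congr rfl (fun i _ => by congr 1; ring)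
  have h2 : (∑ i ∈ Finset.range m, h (a - i) (b + i + 1))
      = ∑ i ∈ Finset.range m, h (a - i) (b + 1 + i) :=
    Finset.sum_congr rfl (fun i _ => by congr 1; ring)
  rw [h1, h2]
  have h3 : h (a - (m : ℤ)) (b + m + 1) = h (a + 1 - ((m + 1 : ℕ) : ℤ)) (b + ((m + 1 : ℕ) : ℤ)) := by
    congr 1
    · push_cast; ring
    · push_cast; ring
  rw [h3]
  ring

lemma gsum_pow (f : (Emb → ℤ × ℤ) → ℤ) (ν lam : Emb → ℤ × ℤ) (x : Emb)
    (hν : (ν x).2 ≤ (ν x).1) :
    gsum (powOp x 1 f) ν lam = gsum f (ν + Pi.single x (1, 0)) lam
      + (if 1 ≤ gap ν x then gsum f (ν + Pi.single x (0, 1)) lam else 0) := by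
  set R : Emb → Finset ℕ := fun y => Finset.range (gap ν y + 1) with hR
  have hgap1 : gap (ν + Pi.single x ((1 : ℤ), (0 : ℤ))) x = gap ν x + 1 := by
    simp only [gap, Pi.add_apply, Pi.single_eq_same, Prod.fst_add, Prod.snd_add]
    omega
  have hgap1' : ∀ v y, y ≠ x → gap (ν + Pi.single x v) y = gap ν y := by
    intro v y hy
    simp only [gap, Pi.add_apply, Pi.single_eq_of_ne hy, add_zero]
  have hgap2 : gap (ν + Pi.single x ((0 : ℤ), (1 : ℤ))) x = gap ν x - 1 := by
    simp only [gap, Pi.add_apply, Pi.single_eq_same, Prod.fst_add, Prod.snd_add]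
    omega
  have hup : ∀ v, Function.update (fun y => Finset.range (gap (ν + Pi.single x v) y + 1)) x {0}
      = Function.update R x {0} := by
    intro v
    ext1 y
    by_cases hy : y = x
    · subst hy; simp
    · rw [Function.update_of_ne hy, Function.update_of_ne hy, hgap1' v y hy]
  have hs : ∀ (g : (Emb → ℤ × ℤ) → ℤ) (v : ℤ × ℤ), gsum g (ν + Pi.single x v) lam
      = ∑ i ∈ Fintype.piFinset (Function.update R x {0}),
        ∑ a ∈ Finset.range (gap (ν + Pi.single x v) x + 1),
          g (lam + wt (ν + Pi.single x v) (Function.update i x a)) := by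
    intro g v
    unfold gsum
    rw [sum_piFinset_split _ x, hup]
  have hs0 : ∀ (g : (Emb → ℤ × ℤ) → ℤ), gsum g ν lam
      = ∑ i ∈ Fintype.piFinset (Function.update R x {0}),
        ∑ a ∈ Finset.range (gap ν x + 1), g (lam + wt ν (Function.update i x a)) := by
    intro g
    unfold gsum
    rw [sum_piFinset_split _ x]
  rw [hs0, hs, hs]
  have key : ∀ i ∈ Fintype.piFinset (Function.update R x {0}),
      (∑ a ∈ Finset.range (gap ν x + 1), powOp x 1 f (lam + wt ν (Function.update i x a)))
        = (∑ a ∈ Finset.range (gap ν x + 2),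
            f (lam + wt (ν + Pi.single x ((1 : ℤ), (0 : ℤ))) (Function.update i x a)))
          + ∑ a ∈ Finset.range (gap ν x),
            f (lam + wt (ν + Pi.single x ((0 : ℤ), (1 : ℤ))) (Function.update i x a)) := by
    intro i _
    set h : ℤ → ℤ → ℤ := fun u v => f (Function.update (lam + wt ν i) x (lam x + (u, v))) with hh
    have e1 : ∀ (v : ℤ × ℤ) (a : ℕ), lam + wt (ν + Pi.single x v) (Function.update i x a)
        = Function.update (lam + wt ν i) x (lam x + ((ν x).1 + v.1 - a, (ν x).2 + v.2 + a)) := by
      intro v a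
      ext1 y
      by_cases hy : y = x
      · subst hy
        simp [wt]
      · simp [wt, Function.update_of_ne hy, Pi.single_eq_of_ne hy]
    have e2 : ∀ a : ℕ, powOp x 1 f (lam + wt ν (Function.update i x a))
        = h ((ν x).1 - a + 1) ((ν x).2 + a) + h ((ν x).1 - a) ((ν x).2 + a + 1) := by
      intro a
      unfold powOp
      rw [hh]
      congr 2
      · ext1 y
        by_cases hy : y = x
        · subst hy
          simp only [wt, Pi.add_apply, Function.update_self, Pi.single_eq_same]
          ext <;> simp <;> ring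
        · simp [wt, Function.update_of_ne hy, Pi.single_eq_of_ne hy]
      · ext1 y
        by_cases hy : y = x
        · subst hy
          simp only [wt, Pi.add_apply, Function.update_self, Pi.single_eq_same]
          ext <;> simp <;> ring
        · simp [wt, Function.update_of_ne hy, Pi.single_eq_of_ne hy]
    rw [Finset.sum_congr rfl (fun a _ => e2 a)]
    rw [range_identity h (ν x).1 (ν x).2 (gap ν x)]
    congr 1
    · apply Finset.sum_congr rfl
      intro a _
      rw [e1, hh]
      dsimp only
      rw [add_zero]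
    · apply Finset.sum_congr rfl
      intro a _
      rw [e1, hh]
      dsimp only
      rw [add_zero]
  rw [Finset.sum_congr rfl key, Finset.sum_add_distrib, hgap1]
  congr 1
  split_ifs with h1
  · apply Finset.sum_congr rfl
    intro i _
    rw [hgap2, Nat.sub_add_cancel h1]
  · have h0 : gap ν x = 0 := by omega
    rw [h0]
    simp

end gsum

end Pool.Agent.Work.MP_39033f_nt
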