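import Pool.Agent.Work.MP_39033f_nt.Prod

set_option autoImplicit false

open MvPolynomial
open scoped MonoidAlgebra TensorProduct

namespace Pool.Agent.Work.MP_39033f_nt

section base

variable {k F Emb : Type} [Field k] [Field F] [Fintype Emb] [DecidableEq Emb]

lemma eq_C_of_mem_zero {n : Emb → ℕ} (hn : n = 0) {f : MvPolynomial (Emb × Fin 2) F}
    (hf : f ∈ Homog F n) : f = C (coeff 0 f) := by
  ext m
  rw [coeff_C]
  by_cases hm : 0 = m
  · rw [if_pos hm, ← hm]
  · rw [if_neg hm]
    by_contra hne
    apply hm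
    have h1 := (mem_Homog_iff n f).1 hf m hne
    ext ⟨x, i⟩
    have h2 := h1 x
    rw [hn, Pi.zero_apply] at h2
    fin_cases i
    · simp only [Finsupp.coe_zero, Pi.zero_apply, Fin.zero_eta]
      omega
    · simp only [Finsupp.coe_zero, Pi.zero_apply, Fin.mk_one]
      omega

/-- `Homog F 0` is one-dimensional. -/
noncomputable def homogZero {n : Emb → ℕ} (hn : n = 0) : Homog F n ≃ₗ[F] F where
  toFun f := coeff 0 f.1
  map_add' f g := by simp
  map_smul' c f := by simp
  invFun c := ⟨C c, by
    rw [mem_Homog_iff]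
    intro m hm x
    rw [coeff_C] at hm
    by_cases h0 : 0 = m
    · rw [← h0, hn]; simp
    · rw [if_neg h0] at hm; exact absurd rfl hm⟩
  left_inv f := by
    apply Subtype.ext
    exact (eq_C_of_mem_zero hn f.2).symm
  right_inv c := by simp

lemma homogZero_W (κ : Emb → k →+* F) (ν : Emb → ℤ × ℤ) (hν : gap ν = 0) (g : GL (Fin 2) k)
    (f : Homog F (gap ν)) : homogZero hν (W κ ν g f)
      = (∏ x, (κ x (g.det : k)) ^ (ν x).2) * homogZero hν f := by
  change coeff 0 (W κ ν g f).1 = _ * coeff 0 f.1
  rw [W_coe, eq_C_of_mem_zero hν f.2, algHom_C, algebraMap_eq]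
  simp

lemma AddFn.tens_base (Φ : AddFn F (GL (Fin 2) k)) (κ : Emb → k →+* F) (lam ν : Emb → ℤ × ℤ)
    (hlam : Dominant lam) (hν : Dominant ν) (h0 : gap ν = 0) :
    (Φ.tens (W κ ν)).wval κ lam = Φ.wval κ (lam + ν) := by
  have hg : gap (lam + ν) = gap lam := by
    ext1 x
    have h1 := congrFun h0 x
    have h2 := hlam x
    have h3 := hν x
    simp only [gap, Pi.zero_apply, Pi.add_apply, Prod.fst_add, Prod.snd_add] at h1 ⊢
    omega
  have hH : Homog F (gap lam) = Homog F (gap (lam + ν)) := by rw [hg]
  change Φ.val (Homog F (gap lam) ⊗[F] Homog F (gap ν))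
    (Representation.tprod (W κ lam) (W κ ν)) = Φ.val _ (W κ (lam + ν))
  refine Φ.iso _ _ (((LinearEquiv.lTensor (Homog F (gap lam)) (homogZero h0)).trans
    (TensorProduct.rid F _)).trans (LinearEquiv.ofEq _ _ hH)) ?_
  intro g u
  induction u using TensorProduct.induction_on with
  | zero => simp only [map_zero]
  | tmul a b =>
    simp only [Representation.tprod_apply, TensorProduct.map_tmul, LinearEquiv.trans_apply,
      LinearEquiv.lTensor_tmul, TensorProduct.rid_tmul]
    apply Subtype.ext
    rw [LinearEquiv.coe_ofEq_apply, W_coe, LinearEquiv.coe_ofEq_apply, homogZero_W,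
      Submodule.coe_smul, Submodule.coe_smul, W_coe, map_smul, smul_smul, smul_smul]
    congr 1
    have h4 : ∀ x, (κ x (g.det : k)) ^ ((lam + ν : Emb → ℤ × ℤ) x).2
        = (κ x (g.det : k)) ^ (lam x).2 * (κ x (g.det : k)) ^ (ν x).2 := by
      intro x
      have hne : κ x (g.det : k) ≠ 0 := by
        rw [map_ne_zero_iff _ (κ x).injective]
        exact g.det.ne_zero
      rw [Pi.add_apply, Prod.snd_add, zpow_add₀ hne]
    rw [Finset.prod_congr rfl (fun x _ => h4 x), Finset.prod_mul_distrib]
    ring
  | add x y hx hy => simp only [map_add, hx, hy]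

lemma gsum_base (f : (Emb → ℤ × ℤ) → ℤ) (ν lam : Emb → ℤ × ℤ) (h0 : gap ν = 0) :
    gsum f ν lam = f (lam + ν) := by
  unfold gsum
  rw [h0]
  have h1 : (Fintype.piFinset (fun x : Emb => Finset.range ((0 : Emb → ℕ) x + 1)))
      = {(0 : Emb → ℕ)} := by
    ext i
    rw [Fintype.mem_piFinset, Finset.mem_singleton]
    constructor
    · intro h
      ext1 x
      have := h x
      rw [Finset.mem_range] at this
      simp only [Pi.zero_apply] at this ⊢
      omega
    · rintro rfl x
      simp
  rw [h1, Finset.sum_singleton]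
  congr 2
  ext1 x
  unfold wt
  simp

/-- **Product formula** (Brauer's formula) for the values of an additive function on
`W_λ ⊗ W_ν`. -/
theorem AddFn.tens_wval (κ : Emb → k →+* F) :
    ∀ (N : ℕ) (Φ : AddFn F (GL (Fin 2) k)) (lam ν : Emb → ℤ × ℤ), Dominant lam → Dominant ν →
      (∑ x, gap ν x) = N → (Φ.tens (W κ ν)).wval κ lam = gsum (hat (Φ.wval κ)) ν lam := by
  intro N
  induction N using Nat.strong_induction_on with
  | _ N ih =>
  intro Φ lam ν hlam hν hN
  by_cases h0 : gap ν = 0
  · rw [gsum_base _ _ _ h0, Φ.tens_base κ lam ν hlam hν h0, hat_of_dominant]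
    intro x
    have h1 := hlam x
    have h2 := hν x
    simp only [Pi.add_apply, Prod.fst_add, Prod.snd_add]
    omega
  · obtain ⟨x, hx⟩ : ∃ x, gap ν x ≠ 0 := by
      by_contra hcon
      push Not at hcon
      exact h0 (funext hcon)
    set ν' : Emb → ℤ × ℤ := ν + Pi.single x ((-1 : ℤ), (0 : ℤ)) with hν'
    have hνν' : ν' + Pi.single x ((1 : ℤ), (0 : ℤ)) = ν := by
      rw [hν', shift_add]
      simp
    have hνx := hν x
    have hgx : 1 ≤ (ν x).1 - (ν x).2 := by
      unfold gap at hx
      omega
    have hν'x : ν' x = ((ν x).1 - 1, (ν x).2) := by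
      simp only [hν', Pi.add_apply, Pi.single_eq_same]
      ext
      · simp [sub_eq_add_neg]
      · simp
    have hν'y : ∀ y, y ≠ x → ν' y = ν y := by
      intro y hy
      simp [hν', Pi.single_eq_of_ne hy]
    have hν'd : Dominant ν' := by
      intro y
      by_cases hy : y = x
      · subst hy
        rw [hν'x]
        dsimp only
        omega
      · rw [hν'y y hy]
        exact hν y
    have hsum' : (∑ y, gap ν' y) + 1 = ∑ y, gap ν y := by
      rw [← Finset.add_sum_erase Finset.univ (fun y => gap ν' y) (Finset.mem_univ x),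
        ← Finset.add_sum_erase Finset.univ (fun y => gap ν y) (Finset.mem_univ x)]
      have h1 : ∀ y ∈ Finset.univ.erase x, gap ν' y = gap ν y := by
        intro y hy
        unfold gap
        rw [hν'y y (Finset.ne_of_mem_erase hy)]
      rw [Finset.sum_congr rfl h1]
      have h2 : gap ν' x + 1 = gap ν x := by
        unfold gap
        rw [hν'x]
        dsimp only
        omega
      change gap ν' x + (∑ y ∈ Finset.univ.erase x, gap ν y) + 1
        = gap ν x + ∑ y ∈ Finset.univ.erase x, gap ν y
      omega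
    -- Pieri in the second variable
    set Ψ := Φ.tens (W κ lam) with hΨ
    have e1 := Ψ.hat_pair_one κ x ν'
    rw [hat_of_dominant _ hν'd] at e1
    have e2 : (Ψ.pair (κ x)).wval κ ν' = ((Φ.pair (κ x)).tens (W κ ν')).wval κ lam := by
      have h1 := Φ.pair_tens (κ x) (W κ lam) (W κ ν')
      have h2 := (Φ.pair (κ x)).tens_comm (W κ lam) (W κ ν')
      exact h1.trans h2
    have e3 := ih (∑ y, gap ν' y) (by omega) (Φ.pair (κ x)) lam ν' hlam hν'd rfl
    have e4 : hat ((Φ.pair (κ x)).wval κ) = powOp x 1 (hat (Φ.wval κ)) :=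
      funext (fun μ => Φ.hat_pair_one κ x μ)
    rw [e4, gsum_pow _ _ _ _ (hν'd x), hνν'] at e3
    have e5 : ∀ μ, Ψ.wval κ μ = (Φ.tens (W κ μ)).wval κ lam := fun μ =>
      Φ.tens_comm (W κ lam) (W κ μ)
    unfold powOp at e1
    rw [Nat.cast_one, hνν', hat_of_dominant _ hν, e2, e3, e5] at e1
    by_cases hg : 1 ≤ gap ν' x
    · rw [if_pos hg] at e1
      have hd2 : Dominant (ν' + Pi.single x ((0 : ℤ), (1 : ℤ))) := by
        intro y
        by_cases hy : y = x
        · subst hy
          simp only [Pi.add_apply, Pi.single_eq_same, Prod.fst_add, Prod.snd_add]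
          unfold gap at hg
          omega
        · simp only [Pi.add_apply, Pi.single_eq_of_ne hy, add_zero]
          exact hν'd y
      have hs2 : (∑ y, gap (ν' + Pi.single x ((0 : ℤ), (1 : ℤ))) y) < N := by
        have h1 : ∀ y, gap (ν' + Pi.single x ((0 : ℤ), (1 : ℤ))) y ≤ gap ν' y := by
          intro y
          by_cases hy : y = x
          · subst hy
            simp only [gap, Pi.add_apply, Pi.single_eq_same, Prod.fst_add, Prod.snd_add]
            omega
          · simp only [gap, Pi.add_apply, Pi.single_eq_of_ne hy, add_zero]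
            exact le_rfl
        have := Finset.sum_le_sum (fun y (_ : y ∈ Finset.univ) => h1 y)
        omega
      rw [hat_of_dominant _ hd2, e5, ih _ hs2 Φ lam _ hlam hd2 rfl] at e1
      linarith
    · rw [if_neg hg] at e1
      have hw : hat (Ψ.wval κ) (ν' + Pi.single x ((0 : ℤ), (1 : ℤ))) = 0 := by
        apply hat_of_wall _ x
        have := hν'd x
        simp only [Pi.add_apply, Pi.single_eq_same, Prod.fst_add, Prod.snd_add]
        unfold gap at hg
        omega
      rw [hw] at e1
      linarith

end base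

end Pool.Agent.Work.MP_39033f_nt
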