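import Pool.Agent.Work.MP_39033f_nt.Koszul2

set_option autoImplicit false

open MvPolynomial
open scoped MonoidAlgebra TensorProduct

namespace Pool.Agent.Work.MP_39033f_nt

section antisymm

variable {Emb : Type} [Fintype Emb] [DecidableEq Emb]

/-- The dot action of the reflection. -/
def refl (v : ℤ × ℤ) : ℤ × ℤ := (v.2 - 1, v.1 + 1)

lemma sgn_refl (v : ℤ × ℤ) : sgn (refl v) = -sgn v := by
  unfold sgn refl
  dsimp only
  split_ifs <;> omega

lemma dom_refl (v : ℤ × ℤ) (h : v.2 ≠ v.1 + 1) : dom (refl v) = dom v := by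
  unfold dom refl
  dsimp only
  split_ifs
  · omega
  · rfl
  · ext <;> simp
  · omega

/-- antisymmetry under the dot action -/
def Antisymm (G : (Emb → ℤ × ℤ) → ℤ) : Prop :=
  ∀ ν x, G (Function.update ν x (refl (ν x))) = -G ν

lemma hat_antisymm (e : (Emb → ℤ × ℤ) → ℤ) : Antisymm (hat e) := by
  intro ν x
  by_cases hw : (ν x).2 = (ν x).1 + 1
  · rw [hat_of_wall e x hw, neg_zero]
    apply hat_of_wall e x
    rw [Function.update_self]
    unfold refl
    dsimp only
    omega
  · unfold hat
    have h1 : (fun z => dom (Function.update ν x (refl (ν x)) z)) = fun z => dom (ν z) := by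
      ext1 z
      by_cases hz : z = x
      · subst hz
        rw [Function.update_self, dom_refl _ hw]
      · rw [Function.update_of_ne hz]
    rw [h1]
    have h2 : (∏ z, sgn (Function.update ν x (refl (ν x)) z)) = -∏ z, sgn (ν z) := by
      rw [← Finset.mul_prod_erase Finset.univ _ (Finset.mem_univ x),
        ← Finset.mul_prod_erase Finset.univ (fun z => sgn (ν z)) (Finset.mem_univ x),
        Function.update_self, sgn_refl, neg_mul]
      congr 2
      apply Finset.prod_congr rfl
      intro z hz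
      rw [Function.update_of_ne (Finset.ne_of_mem_erase hz)]
    rw [h2, neg_mul]

lemma Antisymm.single {G : (Emb → ℤ × ℤ) → ℤ} (hG : Antisymm G) (ν : Emb → ℤ × ℤ) (x : Emb) :
    G ν = sgn (ν x) * G (Function.update ν x (dom (ν x))) := by
  by_cases h1 : (ν x).2 ≤ (ν x).1
  · have : dom (ν x) = ν x := by simp [dom, h1]
    rw [this, Function.update_eq_self]
    simp [sgn, h1]
  · by_cases h2 : (ν x).2 = (ν x).1 + 1
    · have h3 := hG ν x
      have h4 : refl (ν x) = ν x := by
        unfold refl; ext <;> simp [h2]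
      rw [h4, Function.update_eq_self] at h3
      have h5 : G ν = 0 := by omega
      rw [h5]
      simp [sgn, h2]
    · have h3 : dom (ν x) = refl (ν x) := by simp [dom, refl, h1]
      rw [h3, hG ν x]
      simp [sgn, h1, h2]

lemma Antisymm.eq_hat {G : (Emb → ℤ × ℤ) → ℤ} (hG : Antisymm G) (ν : Emb → ℤ × ℤ) :
    G ν = hat G ν := by
  have key : ∀ s : Finset Emb, G ν = (∏ x ∈ s, sgn (ν x)) *
      G (fun x => if x ∈ s then dom (ν x) else ν x) := by
    intro s
    induction s using Finset.induction_on with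
    | empty => simp
    | insert x s hx ih =>
      rw [Finset.prod_insert hx, ih, hG.single (fun x => if x ∈ s then dom (ν x) else ν x) x]
      simp only [hx, if_false]
      have : Function.update (fun z => if z ∈ s then dom (ν z) else ν z) x (dom (ν x))
          = fun z => if z ∈ insert x s then dom (ν z) else ν z := by
        ext1 z
        by_cases hz : z = x
        · subst hz
          simp
        · rw [Function.update_of_ne hz]
          simp [Finset.mem_insert, hz]
      rw [this]
      ring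
  have := key Finset.univ
  simpa [hat] using this

lemma hat_congr {e e' : (Emb → ℤ × ℤ) → ℤ} (h : ∀ ν, Dominant ν → e ν = e' ν)
    (ν : Emb → ℤ × ℤ) : hat e ν = hat e' ν := by
  by_cases hw : ∃ x, (ν x).2 = (ν x).1 + 1
  · obtain ⟨x, hx⟩ := hw
    rw [hat_of_wall e x hx, hat_of_wall e' x hx]
  · push Not at hw
    unfold hat
    rw [h]
    intro x
    have := hw x
    unfold dom
    dsimp only
    split_ifs with h1
    · exact h1
    · dsimp only
      omega

/-- two antisymmetric functions agreeing on dominant weights are equal. -/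
lemma Antisymm.ext {G G' : (Emb → ℤ × ℤ) → ℤ} (hG : Antisymm G) (hG' : Antisymm G')
    (h : ∀ ν, Dominant ν → G ν = G' ν) (ν : Emb → ℤ × ℤ) : G ν = G' ν := by
  rw [hG.eq_hat, hG'.eq_hat, hat_congr h]

/-- The operator `e ↦ (ν ↦ e(ν + (r,0)_y) + e(ν + (0,r)_y))`. -/
def powOp (y : Emb) (r : ℕ) (G : (Emb → ℤ × ℤ) → ℤ) (ν : Emb → ℤ × ℤ) : ℤ :=
  G (ν + Pi.single y ((r : ℤ), (0 : ℤ))) + G (ν + Pi.single y ((0 : ℤ), (r : ℤ)))

lemma powOp_antisymm (y : Emb) (r : ℕ) {G : (Emb → ℤ × ℤ) → ℤ} (hG : Antisymm G) :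
    Antisymm (powOp y r G) := by
  intro ν x
  unfold powOp
  by_cases hx : x = y
  · subst hx
    have h1 : Function.update ν x (refl (ν x)) + Pi.single x ((r : ℤ), (0 : ℤ))
        = Function.update (ν + Pi.single x ((0 : ℤ), (r : ℤ))) x
          (refl ((ν + Pi.single x ((0 : ℤ), (r : ℤ)) : Emb → ℤ × ℤ) x)) := by
      ext1 z
      by_cases hz : z = x
      · subst hz
        simp only [Pi.add_apply, Function.update_self, Pi.single_eq_same, refl]
        ext <;> simp <;> ring
      · simp [Function.update_of_ne hz, Pi.single_eq_of_ne hz]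
    have h2 : Function.update ν x (refl (ν x)) + Pi.single x ((0 : ℤ), (r : ℤ))
        = Function.update (ν + Pi.single x ((r : ℤ), (0 : ℤ))) x
          (refl ((ν + Pi.single x ((r : ℤ), (0 : ℤ)) : Emb → ℤ × ℤ) x)) := by
      ext1 z
      by_cases hz : z = x
      · subst hz
        simp only [Pi.add_apply, Function.update_self, Pi.single_eq_same, refl]
        ext <;> simp <;> ring
      · simp [Function.update_of_ne hz, Pi.single_eq_of_ne hz]
    rw [h1, h2, hG, hG]
    ring
  · have h1 : ∀ v : ℤ × ℤ, Function.update ν x (refl (ν x)) + Pi.single y v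
        = Function.update (ν + Pi.single y v) x (refl ((ν + Pi.single y v : Emb → ℤ × ℤ) x)) := by
      intro v
      ext1 z
      by_cases hz : z = x
      · subst hz
        simp [Pi.single_eq_of_ne hx]
      · simp [Function.update_of_ne hz]
    rw [h1, h1, hG, hG]
    ring

end antisymm

section main

variable {k F Emb : Type} [Field k] [Field F] [Fintype Emb] [DecidableEq Emb]

lemma gap_add_same (lam : Emb → ℤ × ℤ) (y : Emb) (m : ℤ) :
    gap (lam + Pi.single y (m, m)) = gap lam := by
  ext1 x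
  by_cases hx : x = y
  · subst hx
    simp [gap]
  · simp [gap, Pi.single_eq_of_ne hx]

lemma dominant_add (lam : Emb → ℤ × ℤ) (hlam : Dominant lam) (y : Emb) (a b : ℤ) (hab : b ≤ a) :
    Dominant (lam + Pi.single y (a, b)) := by
  intro x
  have := hlam x
  by_cases hx : x = y
  · subst hx
    simp only [Pi.add_apply, Pi.single_eq_same, Prod.fst_add, Prod.snd_add]
    omega
  · simp only [Pi.add_apply, Pi.single_eq_of_ne hx, add_zero]
    exact this

lemma shift_add (lam : Emb → ℤ × ℤ) (y : Emb) (v w : ℤ × ℤ) :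
    lam + Pi.single y v + Pi.single y w = lam + Pi.single y (v + w) := by
  rw [add_assoc, ← Pi.single_add]

/-- Pieri for the antisymmetrised values (`r = 1`). -/
lemma AddFn.hat_pair_one (Φ : AddFn F (GL (Fin 2) k)) (κ : Emb → k →+* F) (y : Emb)
    (ν : Emb → ℤ × ℤ) :
    hat ((Φ.pair (κ y)).wval κ) ν = powOp y 1 (hat (Φ.wval κ)) ν := by
  refine Antisymm.ext (hat_antisymm _) (powOp_antisymm y 1 (hat_antisymm _)) ?_ ν
  intro ν hν
  rw [hat_of_dominant _ hν, Φ.pair_W κ ν hν y 1 (fun a b => by simp) (κ y) (fun a => by simp)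
    (by omega)]
  rfl

/-- The `r`-th power sum relation, for all dominant weights. -/
lemma AddFn.wval_pair (κ : Emb → k →+* F) (y : Emb) (r : ℕ)
    (hfrob : ∀ a b : MvPolynomial (Emb × Fin 2) F, (a + b) ^ r = a ^ r + b ^ r)
    (κ' : k →+* F) (hκ' : ∀ a, κ' a = κ y a ^ r) :
    ∀ d n : ℕ, r ≤ n + 1 + d → ∀ (Φ : AddFn F (GL (Fin 2) k)) (lam : Emb → ℤ × ℤ),
      Dominant lam → gap lam y = n →
      (Φ.pair κ').wval κ lam = powOp y r (hat (Φ.wval κ)) lam := by
  intro d
  induction d with
  | zero =>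
    intro n hn Φ lam hlam hgap
    exact Φ.pair_W κ lam hlam y r hfrob κ' hκ' (by omega)
  | succ d ih =>
    intro n hn Φ lam hlam hgap
    -- the weight `lam - (1,1)_y`
    set mu : Emb → ℤ × ℤ := lam + Pi.single y ((-1 : ℤ), (-1 : ℤ)) with hmu
    have hmu_dom : Dominant mu := dominant_add lam hlam y _ _ le_rfl
    have hmu_gap : gap mu = gap lam := gap_add_same lam y (-1)
    have hmu1_dom : Dominant (mu + Pi.single y ((1 : ℤ), (0 : ℤ))) :=
      dominant_add mu hmu_dom y _ _ (by norm_num)
    have hmu2_dom : Dominant (mu + Pi.single y ((2 : ℤ), (0 : ℤ))) :=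
      dominant_add mu hmu_dom y _ _ (by norm_num)
    have hg1 : gap (mu + Pi.single y ((1 : ℤ), (0 : ℤ))) y = n + 1 := by
      have := gap_add_fst mu hmu_dom y 1
      have h2 := congrFun this y
      simp only [Pi.add_apply, Pi.single_eq_same, hmu_gap, hgap, Nat.cast_one] at h2
      exact h2
    have hg2 : gap (mu + Pi.single y ((2 : ℤ), (0 : ℤ))) y = n + 2 := by
      have := gap_add_fst mu hmu_dom y 2
      have h2 := congrFun this y
      simp only [Pi.add_apply, Pi.single_eq_same, hmu_gap, hgap, Nat.cast_ofNat] at h2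
      exact h2
    -- two computations of the value on `pair κ' (pair (κ y) W)`
    have e1 : ((Φ.pair κ').pair (κ y)).wval κ (mu + Pi.single y ((1 : ℤ), (0 : ℤ)))
        = ((Φ.pair (κ y)).pair κ').wval κ (mu + Pi.single y ((1 : ℤ), (0 : ℤ))) :=
      Φ.pair_comm κ' (κ y) _
    have e2 := ih (n + 1) (by omega) (Φ.pair (κ y)) _ hmu1_dom hg1
    have e3 := (Φ.pair κ').hat_pair_one κ y (mu + Pi.single y ((1 : ℤ), (0 : ℤ)))
    rw [hat_of_dominant _ hmu1_dom] at e3
    have e4 := ih (n + 2) (by omega) Φ _ hmu2_dom hg2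
    have e5 := Φ.hat_pair_one κ y
    rw [e3, e2] at e1
    unfold powOp at e1 e4 e5 ⊢
    have a1 : mu + Pi.single y ((1 : ℤ), (0 : ℤ)) + Pi.single y (((1 : ℕ) : ℤ), (0 : ℤ))
        = mu + Pi.single y ((2 : ℤ), (0 : ℤ)) := by
      rw [add_assoc, ← Pi.single_add]; norm_num
    have a2 : mu + Pi.single y ((1 : ℤ), (0 : ℤ)) + Pi.single y ((0 : ℤ), ((1 : ℕ) : ℤ))
        = lam := by
      rw [add_assoc, ← Pi.single_add, hmu, add_assoc, ← Pi.single_add]
      norm_num
    rw [a1, a2, hat_of_dominant _ hmu2_dom, hat_of_dominant _ hlam, e4, e5, e5] at e1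
    have b1 : mu + Pi.single y ((1 : ℤ), (0 : ℤ)) + Pi.single y ((r : ℤ), (0 : ℤ))
        + Pi.single y (((1 : ℕ) : ℤ), (0 : ℤ))
        = mu + Pi.single y ((2 : ℤ), (0 : ℤ)) + Pi.single y ((r : ℤ), (0 : ℤ)) := by
      simp only [shift_add]
      congr 2
      simp only [Prod.mk_add_mk, Prod.mk.injEq]
      constructor <;> push_cast <;> ring
    have b2 : mu + Pi.single y ((1 : ℤ), (0 : ℤ)) + Pi.single y ((r : ℤ), (0 : ℤ))
        + Pi.single y ((0 : ℤ), ((1 : ℕ) : ℤ))
        = lam + Pi.single y ((r : ℤ), (0 : ℤ)) := by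
      simp only [hmu, shift_add]
      congr 2
      simp only [Prod.mk_add_mk, Prod.mk.injEq]
      constructor <;> push_cast <;> ring
    have b3 : mu + Pi.single y ((1 : ℤ), (0 : ℤ)) + Pi.single y ((0 : ℤ), (r : ℤ))
        + Pi.single y (((1 : ℕ) : ℤ), (0 : ℤ))
        = mu + Pi.single y ((2 : ℤ), (0 : ℤ)) + Pi.single y ((0 : ℤ), (r : ℤ)) := by
      simp only [shift_add]
      congr 2
    have b4 : mu + Pi.single y ((1 : ℤ), (0 : ℤ)) + Pi.single y ((0 : ℤ), (r : ℤ))
        + Pi.single y ((0 : ℤ), ((1 : ℕ) : ℤ))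
        = lam + Pi.single y ((0 : ℤ), (r : ℤ)) := by
      simp only [hmu, shift_add]
      congr 2
      simp only [Prod.mk_add_mk, Prod.mk.injEq]
      constructor <;> push_cast <;> ring
    rw [b1, b2, b3, b4] at e1
    linarith

end main

end Pool.Agent.Work.MP_39033f_nt
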