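import Pool.Agent.Work.MP_39033f_nt.JH

set_option autoImplicit false

open scoped MonoidAlgebra TensorProduct

namespace Pool.Agent.Work.MP_39033f_nt

section basic

variable {A : Type} [Ring A]

lemma JHSum.of_subsingleton (μ : WeightFn A) (M : Type) [AddCommGroup M] [Module A M]
    [Subsingleton M] : JHSum μ M 0 := by
  refine ⟨RelSeries.singleton _ ⊥, rfl, ?_, ?_⟩
  · rw [RelSeries.last_singleton]
    exact Subsingleton.elim _ _
  · unfold WeightFn.sum
    rfl

lemma JHSum.of_equiv {μ : WeightFn A} {M N : Type} [AddCommGroup M] [Module A M]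
    [AddCommGroup N] [Module A N] (e : M ≃ₗ[A] N) {a : ℕ} (h : JHSum μ M a) : JHSum μ N a := by
  have := JHSum.of_exact (U := PUnit) (0 : PUnit →ₗ[A] N) (e.symm : N →ₗ[A] M)
    (fun x y _ => Subsingleton.elim x y) e.symm.surjective
    (by rw [LinearMap.range_zero, LinearEquiv.ker]) (JHSum.of_subsingleton μ PUnit) h
  rwa [zero_add] at this

lemma JHSum.of_simple (μ : WeightFn A) (M : Type) [AddCommGroup M] [Module A M]
    [IsSimpleModule A M] : JHSum μ M (μ.val M) := by
  have hcov : (⊥ : Submodule A M) ⋖ ⊤ := bot_covBy_top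
  let s : CompositionSeries (Submodule A M) :=
    { length := 1
      toFun := ![⊥, ⊤]
      step := by
        intro i
        fin_cases i
        exact hcov }
  refine ⟨s, rfl, rfl, ?_⟩
  unfold WeightFn.sum
  have h1 : (∑ i : Fin s.length, μ.val (↥(s i.succ) ⧸ (s i.castSucc).comap (s i.succ).subtype))
      = μ.val (↥(⊤ : Submodule A M) ⧸ (⊥ : Submodule A M).comap (⊤ : Submodule A M).subtype) := by
    exact Fin.sum_univ_one _
  rw [h1]
  apply μ.iso
  refine (Submodule.quotEquivOfEqBot _ ?_).trans Submodule.topEquiv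
  rw [Submodule.comap_bot, Submodule.ker_subtype]

end basic

section reps

variable {F Γ : Type} [Field F] [Group Γ]

/-- The Jordan–Hölder sum of a representation, as a number. -/
noncomputable def jh (μ : WeightFn F[Γ]) {V : Type} [AddCommGroup V] [Module F V]
    (ρ : Representation F Γ V) : ℕ := by
  classical
  exact if h : ∃ n, JHSum μ ρ.asModule n then h.choose else 0

lemma exists_jhSum (μ : WeightFn F[Γ]) {V : Type} [AddCommGroup V] [Module F V]
    [FiniteDimensional F V] (ρ : Representation F Γ V) : ∃ n, JHSum μ ρ.asModule n := by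
  haveI : IsNoetherian F ρ.asModule := inferInstance
  haveI : IsArtinian F ρ.asModule := inferInstance
  haveI : IsNoetherian F[Γ] ρ.asModule := isNoetherian_of_tower F inferInstance
  haveI : IsArtinian F[Γ] ρ.asModule := isArtinian_of_tower F inferInstance
  obtain ⟨s, h1, h2⟩ := exists_compositionSeries_of_isNoetherian_isArtinian F[Γ] ρ.asModule
  exact ⟨μ.sum s, s, h1, h2, rfl⟩

lemma jh_eq {μ : WeightFn F[Γ]} {V : Type} [AddCommGroup V] [Module F V]
    {ρ : Representation F Γ V} {n : ℕ} (h : JHSum μ ρ.asModule n) : jh μ ρ = n := by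
  have hex : ∃ n, JHSum μ ρ.asModule n := ⟨n, h⟩
  unfold jh
  rw [dif_pos hex]
  exact hex.choose_spec.unique h

lemma jhSum_jh (μ : WeightFn F[Γ]) {V : Type} [AddCommGroup V] [Module F V]
    [FiniteDimensional F V] (ρ : Representation F Γ V) : JHSum μ ρ.asModule (jh μ ρ) := by
  obtain ⟨n, hn⟩ := exists_jhSum μ ρ
  rwa [jh_eq hn]

variable {U V W : Type} [AddCommGroup U] [Module F U] [AddCommGroup V] [Module F V]
  [AddCommGroup W] [Module F W]

/-- An equivariant map as a map of modules over the group algebra. -/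
noncomputable def toMod (ρ : Representation F Γ U) (σ : Representation F Γ V) (f : U →ₗ[F] V)
    (hf : ∀ g u, f (ρ g u) = σ g (f u)) : ρ.asModule →ₗ[F[Γ]] σ.asModule :=
  Representation.IntertwiningMap.equivLinearMapAsModule ρ σ
    (f.intertwiningMap_of_isIntertwiningMap ρ σ hf)

lemma toMod_apply (ρ : Representation F Γ U) (σ : Representation F Γ V) (f : U →ₗ[F] V)
    (hf : ∀ g u, f (ρ g u) = σ g (f u)) (u : U) :
    (toMod ρ σ f hf : U → V) u = f u := rfl

lemma jh_exact (μ : WeightFn F[Γ]) [FiniteDimensional F U] [FiniteDimensional F V]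
    [FiniteDimensional F W] (ρU : Representation F Γ U) (ρV : Representation F Γ V)
    (ρW : Representation F Γ W) (i : U →ₗ[F] V) (π : V →ₗ[F] W)
    (hi : ∀ g u, i (ρU g u) = ρV g (i u)) (hπ : ∀ g v, π (ρV g v) = ρW g (π v))
    (hinj : Function.Injective i) (hsurj : Function.Surjective π)
    (hex : LinearMap.range i = LinearMap.ker π) :
    jh μ ρV = jh μ ρU + jh μ ρW := by
  apply jh_eq
  refine JHSum.of_exact (toMod ρU ρV i hi) (toMod ρV ρW π hπ) hinj hsurj ?_
    (jhSum_jh μ ρU) (jhSum_jh μ ρW)
  ext v
  have h1 : v ∈ LinearMap.range i ↔ v ∈ LinearMap.ker π := by rw [hex]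
  exact h1

end reps

section additive

variable {F G : Type} [Field F] [Group G]

/-- Additive functions on finite-dimensional representations. -/
structure AddFn (F G : Type) [Field F] [Group G] where
  val : (V : Type) → [AddCommGroup V] → [Module F V] → Representation F G V → ℤ
  exact' : ∀ (U V W : Type) [AddCommGroup U] [Module F U] [AddCommGroup V] [Module F V]
    [AddCommGroup W] [Module F W] [FiniteDimensional F U] [FiniteDimensional F V]
    [FiniteDimensional F W] (ρU : Representation F G U) (ρV : Representation F G V)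
    (ρW : Representation F G W) (i : U →ₗ[F] V) (π : V →ₗ[F] W),
    (∀ g u, i (ρU g u) = ρV g (i u)) → (∀ g v, π (ρV g v) = ρW g (π v)) →
    Function.Injective i → Function.Surjective π → LinearMap.range i = LinearMap.ker π →
    val V ρV = val U ρU + val W ρW

lemma AddFn.val_punit (Φ : AddFn F G) (ρ : Representation F G PUnit) : Φ.val PUnit ρ = 0 := by
  have := Φ.exact' PUnit PUnit PUnit ρ ρ ρ 0 0 (fun _ _ => Subsingleton.elim _ _)
    (fun _ _ => Subsingleton.elim _ _) (fun _ _ _ => Subsingleton.elim _ _)
    (fun x => ⟨0, Subsingleton.elim _ _⟩) (Subsingleton.elim _ _)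
  omega

lemma AddFn.iso (Φ : AddFn F G) {U V : Type} [AddCommGroup U] [Module F U] [AddCommGroup V]
    [Module F V] [FiniteDimensional F U] [FiniteDimensional F V] (ρ : Representation F G U)
    (σ : Representation F G V) (e : U ≃ₗ[F] V) (he : ∀ g u, e (ρ g u) = σ g (e u)) :
    Φ.val U ρ = Φ.val V σ := by
  have := Φ.exact' PUnit U V (1 : Representation F G PUnit) ρ σ 0 (e : U →ₗ[F] V)
    (fun _ _ => by simp) he (fun _ _ _ => Subsingleton.elim _ _) e.surjective
    (by rw [LinearMap.range_zero, LinearEquiv.ker])
  rw [this, Φ.val_punit, zero_add]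

/-- The additive function attached to `μ`, a homomorphism `φ : Γ → G` and a representation `M` of
`Γ`: send `ρ` to the Jordan–Hölder sum of `(ρ ∘ φ) ⊗ M`. -/
noncomputable def AddFn.ofWeight {Γ : Type} [Group Γ] (φ : Γ →* G) (μ : WeightFn F[Γ])
    {N : Type} [AddCommGroup N] [Module F N] [FiniteDimensional F N]
    (M : Representation F Γ N) : AddFn F G where
  val V _ _ ρ := (jh μ (Representation.tprod (ρ.comp φ) M) : ℤ)
  exact' := by
    intro U V W _ _ _ _ _ _ _ _ _ ρU ρV ρW i π hi hπ hinj hsurj hex
    rw [← Nat.cast_add, Nat.cast_inj]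
    refine jh_exact μ _ _ _ (i.rTensor N) (π.rTensor N) ?_ ?_ ?_ ?_ ?_
    · intro g u
      induction u using TensorProduct.induction_on with
      | zero => simp
      | tmul x y => simp [hi]
      | add x y hx hy => simp only [map_add, hx, hy]
    · intro g u
      induction u using TensorProduct.induction_on with
      | zero => simp
      | tmul x y => simp [hπ]
      | add x y hx hy => simp only [map_add, hx, hy]
    · exact Module.Flat.rTensor_preserves_injective_linearMap i hinj
    · exact LinearMap.rTensor_surjective N hsurj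
    · have := rTensor_exact N (f := i) (g := π) (LinearMap.exact_iff.mpr hex.symm) hsurj
      exact (LinearMap.exact_iff.mp this).symm

end additive

end Pool.Agent.Work.MP_39033f_nt
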