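import Pool.Agent.Work.MP_39033f_nt.Crys
import Pool.Agent.Work.MP_39033f_nt.Prod2

set_option autoImplicit false

open MvPolynomial
open scoped MonoidAlgebra TensorProduct

namespace Pool.Agent.Work.MP_39033f_nt

section rows

variable {k F Emb : Type} [Field k] [Field F]

/-- evaluation of a polynomial at a row vector -/
noncomputable def evR (κ : Emb → k →+* F) (r : Fin 2 → k) : MvPolynomial (Emb × Fin 2) F →ₐ[F] F :=
  aeval (fun v => κ v.1 (r v.2))

lemma evR_subst (κ : Emb → k →+* F) (g : GL (Fin 2) k) (r : Fin 2 → k)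
    (f : MvPolynomial (Emb × Fin 2) F) :
    evR κ r (subst κ g f) = evR κ (Matrix.vecMul r (g : Matrix (Fin 2) (Fin 2) k)) f := by
  have h : (evR κ r).comp (subst κ g) = evR κ (Matrix.vecMul r (g : Matrix (Fin 2) (Fin 2) k)) := by
    apply MvPolynomial.algHom_ext
    rintro ⟨x, j⟩
    rw [AlgHom.comp_apply, subst_X, map_sum]
    simp only [evR, map_mul, aeval_X, Fin.sum_univ_two, Matrix.vecMul, dotProduct, map_add,
      algHom_C, Algebra.algebraMap_self, RingHom.id_apply]
    ring
  rw [← h]
  rfl

/-- the row of a matrix -/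
def row (h : GL (Fin 2) k) (i : Fin 2) : Fin 2 → k := fun j => h i j

lemma row_mul (h g : GL (Fin 2) k) (i : Fin 2) :
    row (h * g) i = Matrix.vecMul (row h i) (g : Matrix (Fin 2) (Fin 2) k) := by
  ext j
  simp [row, Matrix.vecMul, dotProduct, Matrix.mul_apply]

/-- The interpolation polynomial of the point `r`. -/
noncomputable def deltaPoly [Fintype k] [DecidableEq k] (κ : Emb → k →+* F) (x₀ : Emb)
    (r : Fin 2 → k) : MvPolynomial (Emb × Fin 2) F :=
  ∏ j : Fin 2, ∏ c ∈ Finset.univ.erase (r j), (C (κ x₀ (r j) - κ x₀ c)⁻¹ * (X (x₀, j) - C (κ x₀ c)))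

lemma evR_deltaPoly [Fintype k] [DecidableEq k] (κ : Emb → k →+* F) (x₀ : Emb)
    (r s : Fin 2 → k) : evR κ s (deltaPoly κ x₀ r) = if s = r then 1 else 0 := by
  unfold deltaPoly
  simp only [map_prod, map_mul, map_sub, evR, algHom_C, aeval_X, Algebra.algebraMap_self,
    RingHom.id_apply]
  split_ifs with h
  · subst h
    apply Finset.prod_eq_one
    intro j _
    apply Finset.prod_eq_one
    intro c hc
    apply inv_mul_cancel₀
    rw [← map_sub, map_ne_zero_iff _ (κ x₀).injective, sub_ne_zero]
    exact (Finset.ne_of_mem_erase hc).symm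
  · obtain ⟨j, hj⟩ := Function.ne_iff.1 h
    apply Finset.prod_eq_zero (Finset.mem_univ j)
    apply Finset.prod_eq_zero (i := s j)
    · exact Finset.mem_erase.2 ⟨hj, Finset.mem_univ _⟩
    · rw [sub_self, mul_zero]

end rows

section surj

variable {k F Emb : Type} [Field k] [Field F] [Fintype k] [Fintype Emb] [DecidableEq Emb]

/-- The bilinear map `(P, Q) ↦ ∑_h P(row₀ h) Q(row₁ h) ρ(h⁻¹) v`. -/
noncomputable def regMap (κ : Emb → k →+* F) {V : Type} [AddCommGroup V] [Module F V]
    (ρ : Representation F (GL (Fin 2) k) V) (v : V) :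
    MvPolynomial (Emb × Fin 2) F →ₗ[F] MvPolynomial (Emb × Fin 2) F →ₗ[F] V := by
  classical
  exact ∑ h : GL (Fin 2) k, LinearMap.mk₂ F
    (fun P Q => (evR κ (row h 0) P * evR κ (row h 1) Q) • ρ h⁻¹ v)
    (fun P P' Q => by rw [map_add, add_mul, add_smul])
    (fun c P Q => by rw [map_smul, smul_eq_mul, mul_assoc, mul_smul])
    (fun P Q Q' => by rw [map_add, mul_add, add_smul])
    (fun c P Q => by rw [map_smul, smul_eq_mul, mul_left_comm, mul_smul])

lemma regMap_apply (κ : Emb → k →+* F) {V : Type} [AddCommGroup V] [Module F V]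
    (ρ : Representation F (GL (Fin 2) k) V) (v : V) [Fintype (GL (Fin 2) k)]
    (P Q : MvPolynomial (Emb × Fin 2) F) :
    regMap κ ρ v P Q = ∑ h : GL (Fin 2) k, (evR κ (row h 0) P * evR κ (row h 1) Q) • ρ h⁻¹ v := by
  classical
  unfold regMap
  simp only [LinearMap.sum_apply, LinearMap.mk₂_apply]
  refine Finset.sum_congr ?_ (fun _ _ => rfl)
  ext x
  simp only [Finset.mem_univ]

lemma regMap_equivariant (κ : Emb → k →+* F) {V : Type} [AddCommGroup V] [Module F V]
    (ρ : Representation F (GL (Fin 2) k) V) (v : V) (g : GL (Fin 2) k)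
    (P Q : MvPolynomial (Emb × Fin 2) F) :
    regMap κ ρ v (subst κ g P) (subst κ g Q) = ρ g (regMap κ ρ v P Q) := by
  classical
  rw [regMap_apply, regMap_apply, map_sum]
  refine Fintype.sum_equiv (Equiv.mulRight g) _ _ fun h => ?_
  rw [evR_subst, evR_subst, Equiv.coe_mulRight, row_mul, row_mul, map_smul, ← Module.End.mul_apply,
    ← map_mul]
  congr 3
  group

lemma regMap_delta [DecidableEq k] (κ : Emb → k →+* F) {V : Type} [AddCommGroup V] [Module F V]
    (ρ : Representation F (GL (Fin 2) k) V) (v : V) (x₀ : Emb) :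
    regMap κ ρ v (deltaPoly κ x₀ (row (1 : GL (Fin 2) k) 0))
      (deltaPoly κ x₀ (row (1 : GL (Fin 2) k) 1)) = v := by
  classical
  rw [regMap_apply, Finset.sum_eq_single (1 : GL (Fin 2) k)]
  · simp [evR_deltaPoly]
  · intro h _ hne
    rw [evR_deltaPoly, evR_deltaPoly]
    by_cases h0 : row h 0 = row (1 : GL (Fin 2) k) 0
    · by_cases h1 : row h 1 = row (1 : GL (Fin 2) k) 1
      · exfalso
        apply hne
        ext i j
        fin_cases i
        · exact congrFun h0 j
        · exact congrFun h1 j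
      · simp [h1]
    · simp [h0]
  · intro h
    exact absurd (Finset.mem_univ _) h

/-- Every nonzero representation receives a nonzero map from some `W_λ ⊗ W_ν`. -/
theorem exists_map (κ : Emb → k →+* F) (x₀ : Emb) {V : Type} [AddCommGroup V] [Module F V]
    (ρ : Representation F (GL (Fin 2) k) V) (v : V) (hv : v ≠ 0) :
    ∃ lam ν : Emb → ℤ × ℤ, Dominant lam ∧ Dominant ν ∧
      ∃ f : (Homog F (gap lam) ⊗[F] Homog F (gap ν)) →ₗ[F] V,
        (∀ g u, f (Representation.tprod (W κ lam) (W κ ν) g u) = ρ g (f u)) ∧ f ≠ 0 := by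
  classical
  -- find monomials
  obtain ⟨m, m', hm⟩ : ∃ m m' : (Emb × Fin 2) →₀ ℕ,
      regMap κ ρ v (monomial m 1) (monomial m' 1) ≠ 0 := by
    by_contra hcon
    push Not at hcon
    apply hv
    rw [← regMap_delta κ ρ v x₀]
    have h0 : regMap κ ρ v = 0 := by
      apply MvPolynomial.linearMap_ext
      intro m
      apply LinearMap.ext_ring
      apply MvPolynomial.linearMap_ext
      intro m'
      apply LinearMap.ext_ring
      simpa using hcon m m'
    rw [h0]
    rfl
  set lam : Emb → ℤ × ℤ := fun x => ((m (x, 0) + m (x, 1) : ℕ), 0) with hlam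
  set ν : Emb → ℤ × ℤ := fun x => ((m' (x, 0) + m' (x, 1) : ℕ), 0) with hν
  have hgl : gap lam = fun x => m (x, 0) + m (x, 1) := by
    ext x
    simp only [gap, hlam]
    omega
  have hgν : gap ν = fun x => m' (x, 0) + m' (x, 1) := by
    ext x
    simp only [gap, hν]
    omega
  have hmem : (monomial m (1 : F)) ∈ Homog F (gap lam) := by
    rw [mem_Homog_iff, hgl]
    intro a ha x
    rw [coeff_monomial] at ha
    split_ifs at ha with h
    · rw [← h]
    · exact absurd rfl ha
  have hmem' : (monomial m' (1 : F)) ∈ Homog F (gap ν) := by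
    rw [mem_Homog_iff, hgν]
    intro a ha x
    rw [coeff_monomial] at ha
    split_ifs at ha with h
    · rw [← h]
    · exact absurd rfl ha
  let B : Homog F (gap lam) →ₗ[F] Homog F (gap ν) →ₗ[F] V :=
    (regMap κ ρ v).compl₁₂ (Homog F (gap lam)).subtype (Homog F (gap ν)).subtype
  refine ⟨lam, ν, fun x => by simp [hlam]; positivity, fun x => by simp [hν]; positivity,
    TensorProduct.lift B, ?_, ?_⟩
  · intro g u
    induction u using TensorProduct.induction_on with
    | zero => simp
    | tmul a b =>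
      rw [Representation.tprod_apply, TensorProduct.map_tmul, TensorProduct.lift.tmul,
        TensorProduct.lift.tmul]
      simp only [B, LinearMap.compl₁₂_apply, Submodule.subtype_apply]
      rw [← regMap_equivariant, W_coe, W_coe]
      simp [hlam, hν]
    | add x y hx hy => simp only [map_add, hx, hy]
  · intro h
    apply hm
    have := LinearMap.congr_fun h ((⟨monomial m 1, hmem⟩ : Homog F (gap lam)) ⊗ₜ
      (⟨monomial m' 1, hmem'⟩ : Homog F (gap ν)))
    rw [TensorProduct.lift.tmul] at this
    exact this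

end surj

end Pool.Agent.Work.MP_39033f_nt
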