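import Pool.Agent.Work.MP_39033f_nt.PGroup

set_option autoImplicit false

open MvPolynomial
open scoped MonoidAlgebra TensorProduct

namespace Pool.Agent.Work.MP_39033f_nt

section irr

variable {F Γ V : Type} [Field F] [Group Γ] [AddCommGroup V] [Module F V]

lemma irr_iff (ρ : Representation F Γ V) : IsSimpleModule F[Γ] ρ.asModule ↔
    (∃ v : V, v ≠ 0) ∧ ∀ U : Submodule F V, (∀ g, ∀ v ∈ U, ρ g v ∈ U) → (∃ v ∈ U, v ≠ 0) →
      U = ⊤ := by
  rw [← Representation.irreducible_iff_isSimpleModule_asModule]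
  constructor
  · intro h
    have h' : IsSimpleOrder (Subrepresentation ρ) := h
    constructor
    · by_contra hcon
      push Not at hcon
      obtain ⟨a, b, hab⟩ := h'.exists_pair_ne
      apply hab
      apply Subrepresentation.toSubmodule_injective
      ext x
      rw [hcon x]
      simp
    · intro U hU hne
      rcases h'.eq_bot_or_eq_top ⟨U, fun g v hv => hU g v hv⟩ with h1 | h1
      · exfalso
        obtain ⟨v, hv, hv0⟩ := hne
        have h2 : (⟨U, fun g v hv => hU g v hv⟩ : Subrepresentation ρ).toSubmodule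
          = (⊥ : Subrepresentation ρ).toSubmodule := by rw [h1]
        apply hv0
        have h3 : v ∈ (⊥ : Subrepresentation ρ).toSubmodule := by rw [← h2]; exact hv
        exact (Submodule.mem_bot F).1 h3
      · exact congrArg Subrepresentation.toSubmodule h1
  · rintro ⟨⟨v, hv⟩, h⟩
    have hnt : Nontrivial (Subrepresentation ρ) := by
      refine ⟨⟨⊥, ⊤, ?_⟩⟩
      intro h
      have h1 : v ∈ (⊥ : Subrepresentation ρ).toSubmodule := by
        rw [h]; exact Submodule.mem_top
      exact hv ((Submodule.mem_bot F).1 h1)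
    refine @IsSimpleOrder.mk _ _ _ hnt ?_
    intro σ
    by_cases h' : ∃ v ∈ σ.toSubmodule, v ≠ 0
    · right
      exact Subrepresentation.toSubmodule_injective
        (h _ (fun g v hv => σ.apply_mem_toSubmodule g hv) h')
    · left
      push Not at h'
      apply Subrepresentation.toSubmodule_injective
      exact (Submodule.eq_bot_iff _).2 h'

lemma irr_comp {G : Type} [Group G] (φ : Γ →* G) (hφ : Function.Surjective φ)
    (σ : Representation F G V) :
    IsSimpleModule F[Γ] (Representation.asModule (G := Γ) (V := V) (k := F) (σ.comp φ)) ↔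
      IsSimpleModule F[G] σ.asModule := by
  rw [irr_iff, irr_iff]
  have : ∀ U : Submodule F V, (∀ g, ∀ v ∈ U, (σ.comp φ : Representation F Γ V) g v ∈ U) ↔
      (∀ g, ∀ v ∈ U, σ g v ∈ U) := by
    intro U
    constructor
    · intro h g
      obtain ⟨γ, rfl⟩ := hφ g
      exact h γ
    · intro h γ
      exact h (φ γ)
  simp only [this]

lemma exists_min_stable [FiniteDimensional F V] (ρ : Representation F Γ V) (v : V) (hv : v ≠ 0) :
    ∃ U : Submodule F V, (∃ v ∈ U, v ≠ 0) ∧ (∀ g, ∀ v ∈ U, ρ g v ∈ U) ∧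
      ∀ U' ≤ U, (∀ g, ∀ v ∈ U', ρ g v ∈ U') → (∃ v ∈ U', v ≠ 0) → U' = U := by
  obtain ⟨U, ⟨hU1, hU2⟩, hmin⟩ := (wellFounded_lt (α := Submodule F V)).has_min
    {U | (∃ v ∈ U, v ≠ 0) ∧ (∀ g, ∀ v ∈ U, ρ g v ∈ U)}
    ⟨⊤, ⟨v, Submodule.mem_top, hv⟩, fun _ _ _ => Submodule.mem_top⟩
  refine ⟨U, hU1, hU2, fun U' hle hst hne => ?_⟩
  by_contra hcon
  exact hmin U' ⟨hne, hst⟩ (lt_of_le_of_ne hle hcon)

end irr

section pact

variable {p : ℕ} {F Γ V : Type} [Field F] [Group Γ] [AddCommGroup V] [Module F V]

lemma PAct.sub {ρ : Representation F Γ V} {K : Subgroup Γ} (h : PAct p ρ K)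
    (σ : Subrepresentation ρ) : PAct p σ.toRepresentation K := by
  classical
  obtain ⟨h1, h2⟩ := h
  refine ⟨?_, fun g hg => ?_⟩
  · let Fn : (V →ₗ[F] V) → (σ.toSubmodule →ₗ[F] σ.toSubmodule) := fun f =>
      if hf : ∀ v ∈ σ.toSubmodule, f v ∈ σ.toSubmodule then f.restrict hf else 0
    have : (σ.toRepresentation '' (K : Set Γ)) = Fn '' (ρ '' (K : Set Γ)) := by
      rw [Set.image_image]
      apply Set.image_congr
      intro g _
      have hf : ∀ v ∈ σ.toSubmodule, ρ g v ∈ σ.toSubmodule := fun v hv =>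
        σ.apply_mem_toSubmodule g hv
      simp only [Fn, dif_pos hf]
      rfl
    rw [this]
    exact h1.image _
  · obtain ⟨n, hn⟩ := h2 g hg
    refine ⟨n, ?_⟩
    have h3 : ∀ m : ℕ, ∀ v : σ.toSubmodule,
        (((σ.toRepresentation g) ^ m) v : V) = ((ρ g) ^ m) (v : V) := by
      intro m
      induction m with
      | zero => intro v; rfl
      | succ m ih =>
        intro v
        rw [pow_succ, pow_succ, Module.End.mul_apply, Module.End.mul_apply, ih]
        rfl
    ext v
    rw [h3, hn]
    rfl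

lemma PAct.quot {ρ : Representation F Γ V} {K : Subgroup Γ} (h : PAct p ρ K)
    (U : Submodule F V) (hU : ∀ g, U ≤ U.comap (ρ g)) : PAct p (ρ.quotient U hU) K := by
  classical
  obtain ⟨h1, h2⟩ := h
  refine ⟨?_, fun g hg => ?_⟩
  · let Fn : (V →ₗ[F] V) → (V ⧸ U →ₗ[F] V ⧸ U) := fun f =>
      if hf : U ≤ U.comap f then Submodule.mapQ _ _ f hf else 0
    have : (ρ.quotient U hU '' (K : Set Γ)) = Fn '' (ρ '' (K : Set Γ)) := by
      rw [Set.image_image]
      apply Set.image_congr
      intro g _
      simp only [Fn, dif_pos (hU g)]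
      rfl
    rw [this]
    exact h1.image _
  · obtain ⟨n, hn⟩ := h2 g hg
    refine ⟨n, ?_⟩
    have h3 : ∀ m : ℕ, ∀ v : V,
        (((ρ.quotient U hU g) ^ m) (U.mkQ v)) = U.mkQ (((ρ g) ^ m) v) := by
      intro m
      induction m with
      | zero => intro v; rfl
      | succ m ih =>
        intro v
        rw [pow_succ, pow_succ, Module.End.mul_apply, Module.End.mul_apply, ← ih]
        rfl
    apply LinearMap.ext
    intro v
    obtain ⟨v, rfl⟩ := U.mkQ_surjective v
    rw [h3, hn]
    rfl

end pact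

section vanish

variable {p : ℕ} [Fact p.Prime] {F Γ G : Type} [Field F] [CharP F p] [Group Γ] [Group G]

/-- An additive function vanishing on the inflations of all irreducible representations of `G`
vanishes on all representations of `Γ` on which `ker φ` acts through a finite `p`-group. -/
theorem AddFn.vanish (Ψ : AddFn F Γ) (φ : Γ →* G) (hφ : Function.Surjective φ)
    (h0 : ∀ (V : Type) [AddCommGroup V] [Module F V] [FiniteDimensional F V]
      (σ : Representation F G V), IsSimpleModule F[G] σ.asModule → Ψ.val V (σ.comp φ) = 0) :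
    ∀ (N : ℕ) (V : Type) [AddCommGroup V] [Module F V] [FiniteDimensional F V]
      (ρ : Representation F Γ V), PAct p ρ φ.ker → Module.finrank F V = N → Ψ.val V ρ = 0 := by
  intro N
  induction N using Nat.strong_induction_on with
  | _ N ih =>
  intro V _ _ _ ρ hρ hN
  rcases subsingleton_or_nontrivial V with hV | hV
  · have e : V ≃ₗ[F] PUnit := 
      { toFun := fun _ => PUnit.unit
        map_add' := fun _ _ => rfl
        map_smul' := fun _ _ => rfl
        invFun := fun _ => 0
        left_inv := fun _ => Subsingleton.elim _ _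
        right_inv := fun _ => rfl }
    rw [Ψ.iso ρ (1 : Representation F Γ PUnit) e (fun _ _ => Subsingleton.elim _ _),
      Ψ.val_punit]
  · obtain ⟨v, hv⟩ := exists_ne (0 : V)
    obtain ⟨U, ⟨u, hu, hu0⟩, hst, hmin⟩ := exists_min_stable ρ v hv
    let σU : Subrepresentation ρ := ⟨U, fun g v hv => hst g v hv⟩
    have hle : ∀ g, U ≤ U.comap (ρ g) := fun g v hv => hst g v hv
    have hex := Ψ.exact' U V (V ⧸ U) σU.toRepresentation ρ (ρ.quotient U hle) U.subtype U.mkQ
      (fun _ _ => rfl) (fun _ _ => rfl) (Submodule.subtype_injective U) (Submodule.mkQ_surjective U)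
      (by rw [Submodule.range_subtype, Submodule.ker_mkQ])
    -- the quotient
    have hq : Ψ.val (V ⧸ U) (ρ.quotient U hle) = 0 := by
      refine ih (Module.finrank F (V ⧸ U)) ?_ (V ⧸ U) (ρ.quotient U hle) (hρ.quot U hle) rfl
      rw [← hN, ← Submodule.finrank_quotient_add_finrank U]
      have : Nontrivial U := ⟨⟨⟨u, hu⟩, 0, fun h => hu0 (congrArg Subtype.val h)⟩⟩
      have := Module.finrank_pos (R := F) (M := U)
      omega
    -- the submodule
    have htriv : ∀ g ∈ φ.ker, ∀ x ∈ U, ρ g x = x := by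
      obtain ⟨w, hw, hw0, hwf⟩ := fixed_vector ρ φ.ker hρ u hu0
      have hwU : w ∈ U := by
        refine (Submodule.span_le.2 ?_) hw
        rintro _ ⟨g, _, rfl⟩
        exact hst g u hu
      let U' : Submodule F V :=
        { carrier := {x | x ∈ U ∧ ∀ g ∈ φ.ker, ρ g x = x}
          add_mem' := fun {a b} ha hb => ⟨U.add_mem ha.1 hb.1, fun g hg => by
            rw [map_add, ha.2 g hg, hb.2 g hg]⟩
          zero_mem' := ⟨U.zero_mem, fun g _ => map_zero _⟩
          smul_mem' := fun c x hx => ⟨U.smul_mem c hx.1, fun g hg => by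
            rw [map_smul, hx.2 g hg]⟩ }
      have hU' : U' = U := by
        refine hmin U' (fun x hx => hx.1) ?_ ⟨w, ⟨hwU, hwf⟩, hw0⟩
        intro γ x hx
        refine ⟨hst γ x hx.1, fun g hg => ?_⟩
        have h1 : γ⁻¹ * g * γ ∈ φ.ker := by
          have := (MonoidHom.normal_ker φ).conj_mem g hg γ⁻¹
          rwa [inv_inv] at this
        have h2 := hx.2 _ h1
        have h3 : ρ g (ρ γ x) = ρ γ (ρ (γ⁻¹ * g * γ) x) := by
          rw [← Module.End.mul_apply, ← Module.End.mul_apply, ← map_mul, ← map_mul]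
          congr 2
          group
        rw [h3, h2]
      intro g hg x hx
      rw [← hU'] at hx
      exact hx.2 g hg
    have heq : ∀ a b : Γ, φ a = φ b → σU.toRepresentation a = σU.toRepresentation b := by
      intro a b hab
      have h1 : a⁻¹ * b ∈ φ.ker := by
        rw [MonoidHom.mem_ker, map_mul, map_inv, hab, inv_mul_cancel]
      have h2 : σU.toRepresentation (a⁻¹ * b) = 1 := by
        ext x
        exact htriv _ h1 x.1 x.2
      have h3 : b = a * (a⁻¹ * b) := by group
      rw [h3, map_mul, h2, mul_one]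
    let σ : Representation F G U :=
      { toFun := fun g => σU.toRepresentation (Function.surjInv hφ g)
        map_one' := by
          rw [heq (Function.surjInv hφ 1) 1 (by rw [Function.surjInv_eq hφ, map_one]), map_one]
        map_mul' := fun a b => by
          rw [← map_mul]
          apply heq
          rw [Function.surjInv_eq hφ, map_mul, Function.surjInv_eq hφ, Function.surjInv_eq hφ] }
    have hσ : (σ.comp φ : Representation F Γ U) = σU.toRepresentation := by
      apply MonoidHom.ext
      intro γ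
      exact heq _ _ (Function.surjInv_eq hφ _)
    have hsimple : IsSimpleModule F[G] σ.asModule := by
      rw [← irr_comp φ hφ, hσ, irr_iff]
      refine ⟨⟨⟨u, hu⟩, fun h => hu0 (congrArg Subtype.val h)⟩, ?_⟩
      rintro U₁ hU₁ ⟨x, hx, hx0⟩
      have h1 : U₁.map U.subtype = U := by
        refine hmin _ (Submodule.map_subtype_le U U₁) ?_ ⟨x.1, ⟨x, hx, rfl⟩, fun h => hx0 (Subtype.ext h)⟩
        rintro g _ ⟨y, hy, rfl⟩
        exact ⟨_, hU₁ g y hy, rfl⟩
      rw [eq_top_iff]
      intro y _
      have h2 : y.1 ∈ U₁.map U.subtype := by rw [h1]; exact y.2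
      obtain ⟨z, hz, hzy⟩ := h2
      have : z = y := Subtype.ext hzy
      rwa [← this]
    have hsub : Ψ.val U σU.toRepresentation = 0 := by
      rw [← hσ]
      exact h0 U σ hsimple
    have hex' : Ψ.val V ρ = Ψ.val U σU.toRepresentation + Ψ.val (V ⧸ U) (ρ.quotient U hle) := hex
    rw [hex', hsub, hq, add_zero]

end vanish

end Pool.Agent.Work.MP_39033f_nt
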