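import Pool.Agent.Work.MP_39033f_nt.TySum

set_option autoImplicit false

open MvPolynomial
open scoped MonoidAlgebra TensorProduct

/-!
Representations on which the kernel of a map to a finite abelian group acts through a finite
`p`-group: their Jordan–Hölder factors are characters.
-/

namespace Pool.Agent.Work.MP_39033f_nt

section infl

variable {F Γ G : Type} [Field F] [Group Γ] [Group G] (φ : Γ →* G) (hφ : Function.Surjective φ)
  (T : Subgroup G) (χ : T →* Fˣ)

/-- the pull-back of a character of a subgroup -/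
noncomputable def pullch : (T.comap φ) →* Fˣ := χ.comp (φ.subgroupComap T)

lemma pullch_val (h : T.comap φ) : (pullch φ T χ h : Fˣ) = χ ⟨φ h.1, h.2⟩ := rfl

include hφ in
/-- Pull-back of functions. -/
noncomputable def pullfn : Representation.coindV T.subtype (chRep χ) →ₗ[F]
    Representation.coindV (T.comap φ).subtype (chRep (pullch φ T χ)) where
  toFun f := ⟨fun g => f.1 (φ g), by
    intro h g
    have h1 := f.2 ⟨φ h.1, h.2⟩ (φ g)
    rw [chRep_apply] at h1 ⊢
    change f.1 (φ (h.1 * g)) = _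
    rw [map_mul]
    exact h1⟩
  map_add' _ _ := rfl
  map_smul' _ _ := rfl

include hφ in
lemma pullfn_bijective : Function.Bijective (pullfn φ T χ) := by
  constructor
  · intro f f' h
    apply Subtype.ext
    funext x
    obtain ⟨g, rfl⟩ := hφ x
    exact congrFun (congrArg Subtype.val h) g
  · intro f
    have key : ∀ g g' : Γ, φ g = φ g' → f.1 g = f.1 g' := by
      intro g g' hg
      have hmem : g * g'⁻¹ ∈ T.comap φ := by
        rw [Subgroup.mem_comap, map_mul, map_inv, hg, mul_inv_cancel]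
        exact T.one_mem
      have h1 := f.2 ⟨g * g'⁻¹, hmem⟩ g'
      have h2 : ((T.comap φ).subtype ⟨g * g'⁻¹, hmem⟩) * g' = g := by
        change g * g'⁻¹ * g' = g
        group
      rw [h2, chRep_apply, pullch_val] at h1
      rw [h1]
      have h3 : (⟨φ (g * g'⁻¹), hmem⟩ : T) = 1 := by
        apply Subtype.ext
        change φ (g * g'⁻¹) = 1
        rw [map_mul, map_inv, hg, mul_inv_cancel]
      rw [h3, map_one, Units.val_one, one_mul]
    refine ⟨⟨fun x => f.1 (Function.surjInv hφ x), ?_⟩, ?_⟩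
    · intro h x
      obtain ⟨γ, hγ⟩ := hφ h.1
      have hmem : γ ∈ T.comap φ := by
        rw [Subgroup.mem_comap, hγ]
        exact h.2
      have h1 := f.2 ⟨γ, hmem⟩ (Function.surjInv hφ x)
      rw [chRep_apply] at h1 ⊢
      have h2 : f.1 (Function.surjInv hφ (T.subtype h * x))
          = f.1 ((T.comap φ).subtype ⟨γ, hmem⟩ * Function.surjInv hφ x) := by
        apply key
        rw [Function.surjInv_eq hφ, map_mul, Function.surjInv_eq hφ]
        change h.1 * x = φ γ * x
        rw [hγ]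
      change f.1 (Function.surjInv hφ (T.subtype h * x)) = _
      rw [h2, h1, pullch_val]
      have h3 : (⟨φ γ, hmem⟩ : T) = h := Subtype.ext hγ
      rw [h3]
    · apply Subtype.ext
      funext g
      exact key _ _ (Function.surjInv_eq hφ (φ g))

include hφ in
/-- Coinduction commutes with inflation. -/
lemma AddFn.infl_coind [T.FiniteIndex] (Ψ : AddFn F Γ) :
    (Ψ.infl φ).val _ (Representation.coind T.subtype (chRep χ))
      = Ψ.val _ (Representation.coind (T.comap φ).subtype (chRep (pullch φ T χ))) := by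
  change Ψ.val _ ((Representation.coind T.subtype (chRep χ)).comp φ) = _
  have := (LinearEquiv.ofBijective _ (pullfn_bijective φ hφ T χ)).finiteDimensional
  refine Ψ.iso _ _ (LinearEquiv.ofBijective _ (pullfn_bijective φ hφ T χ)) ?_
  intro g f
  apply Subtype.ext
  funext x
  change f.1 (φ x * φ g) = f.1 (φ (x * g))
  rw [map_mul]

end infl

section abel

variable {F A : Type} [Field F] [CommGroup A] [Fintype A] [DecidableEq A]

/-- The irreducible representations of a finite abelian group with enough characters. -/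
lemma irr_chars (X : Finset (A →* Fˣ)) (c : F) (hc : c ≠ 0)
    (hX : ∀ t : A, ∑ χ ∈ X, ((χ t : Fˣ) : F) = if t = 1 then c else 0)
    {V : Type} [AddCommGroup V] [Module F V] (σ : Representation F A V)
    (hs : IsSimpleModule F[A] σ.asModule) :
    ∃ χ ∈ X, ∃ e : F ≃ₗ[F] V, ∀ t x, e (chRep χ t x) = σ t (e x) := by
  rw [irr_iff] at hs
  obtain ⟨⟨v, hv⟩, hmin⟩ := hs
  let w : (A →* Fˣ) → V := fun χ => ∑ t : A, ((χ t⁻¹ : Fˣ) : F) • σ t v
  have hsum : ∑ χ ∈ X, w χ = c • v := by
    simp only [w]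
    rw [Finset.sum_comm]
    simp only [← Finset.sum_smul, hX]
    rw [Finset.sum_eq_single 1]
    · simp
    · intro t _ ht
      rw [if_neg (by rwa [inv_eq_one]), zero_smul]
    · intro h
      exact absurd (Finset.mem_univ _) h
  obtain ⟨χ, hχ, hw⟩ : ∃ χ ∈ X, w χ ≠ 0 := by
    by_contra hcon
    push Not at hcon
    rw [Finset.sum_eq_zero hcon] at hsum
    exact smul_ne_zero hc hv hsum.symm
  have heig : ∀ s : A, σ s (w χ) = ((χ s : Fˣ) : F) • w χ := by
    intro s
    simp only [w, map_sum, map_smul, Finset.smul_sum]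
    refine Fintype.sum_equiv (Equiv.mulLeft s) _ _ fun t => ?_
    simp only [Equiv.coe_mulLeft, mul_inv_rev, map_mul, Units.val_mul, Module.End.mul_apply,
      smul_smul]
    congr 1
    have : ((χ s : Fˣ) : F) * ((χ s⁻¹ : Fˣ) : F) = 1 := by
      rw [← Units.val_mul, ← map_mul, mul_inv_cancel, map_one, Units.val_one]
    linear_combination (-((χ t⁻¹ : Fˣ) : F)) * this
  have htop : Submodule.span F {w χ} = ⊤ := by
    refine hmin _ ?_ ⟨w χ, Submodule.mem_span_singleton_self _, hw⟩
    intro g u hu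
    obtain ⟨a, rfl⟩ := Submodule.mem_span_singleton.1 hu
    rw [map_smul, heig, smul_smul]
    exact Submodule.smul_mem _ _ (Submodule.mem_span_singleton_self _)
  refine ⟨χ, hχ, LinearEquiv.ofBijective (LinearMap.toSpanSingleton F V (w χ)) ⟨?_, ?_⟩, ?_⟩
  · intro a b hab
    rw [LinearMap.toSpanSingleton_apply, LinearMap.toSpanSingleton_apply] at hab
    exact smul_left_injective F hw hab
  · intro u
    have hu : u ∈ Submodule.span F {w χ} := by rw [htop]; exact Submodule.mem_top
    obtain ⟨a, ha⟩ := Submodule.mem_span_singleton.1 hu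
    exact ⟨a, by rw [LinearMap.toSpanSingleton_apply, ha]⟩
  · intro t x
    rw [LinearEquiv.ofBijective_apply, LinearEquiv.ofBijective_apply,
      LinearMap.toSpanSingleton_apply, LinearMap.toSpanSingleton_apply, map_smul, heig,
      chRep_apply, smul_smul, mul_comm]

end abel

section expand

lemma chRep_simple {F Γ : Type} [Field F] [Group Γ] (χ : Γ →* Fˣ) :
    IsSimpleModule F[Γ] (chRep χ).asModule := by
  rw [irr_iff]
  refine ⟨⟨1, one_ne_zero⟩, ?_⟩
  rintro U _ ⟨v, hv, hv0⟩
  rw [eq_top_iff]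
  intro x _
  have : x = (x / v) • v := by
    rw [smul_eq_mul, div_mul_cancel₀ _ hv0]
  rw [this]
  exact U.smul_mem _ hv

/-- isomorphic characters are equal -/
lemma chRep_unique {F Γ : Type} [Field F] [Group Γ] {χ χ' : Γ →* Fˣ} {M : Type} [AddCommGroup M]
    [Module F[Γ] M] (h : IsoTo M (chRep χ)) (h' : IsoTo M (chRep χ')) : χ = χ' := by
  obtain ⟨a, -, ⟨h1, h2⟩, -⟩ := h.trans' h'
  ext g
  have h3 := h2 g 1
  rw [chRep_apply, chRep_apply, mul_one] at h3
  have h4 : a ((χ g : Fˣ) : F) = ((χ g : Fˣ) : F) * a 1 := by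
    conv_lhs => rw [← mul_one ((χ g : Fˣ) : F), ← smul_eq_mul, map_smul]
    rfl
  rw [h4] at h3
  refine mul_right_cancel₀ ?_ h3
  intro h0
  exact one_ne_zero (h1 (h0.trans (map_zero a).symm))

lemma mult_chRep {F Γ : Type} [Field F] [Group Γ] [DecidableEq (Γ →* Fˣ)] (χ χ' : Γ →* Fˣ) :
    jh (multFn (chRep χ')) (chRep χ) = if χ = χ' then 1 else 0 := by
  refine jh_eq (repJHSum_of_simple _ _ (chRep_simple χ) _ (fun M _ _ hM => ?_))
  split_ifs with hll
  · subst hll
    exact multFn_pos _ M hM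
  · apply multFn_zero
    intro hiso
    exact hll (chRep_unique hM hiso)

variable {p : ℕ} [Fact p.Prime] {F Γ A : Type} [Field F] [CharP F p] [Group Γ] [CommGroup A]
  [Fintype A] [DecidableEq A]

/-- **Expansion in characters.** -/
theorem AddFn.expand_chars (X : Finset (A →* Fˣ)) (c : F) (hc : c ≠ 0)
    (hX : ∀ t : A, ∑ χ ∈ X, ((χ t : Fˣ) : F) = if t = 1 then c else 0)
    (φ : Γ →* A) (hφ : Function.Surjective φ) (Ψ : AddFn F Γ) {V : Type} [AddCommGroup V]
    [Module F V] [FiniteDimensional F V] (ρ : Representation F Γ V) (hρ : PAct p ρ φ.ker) :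
    Ψ.val V ρ = ∑ χ ∈ X, (jh (multFn (chRep (χ.comp φ))) ρ : ℤ) * Ψ.val _ (chRep (χ.comp φ)) := by
  classical
  let Ψ' : AddFn F Γ :=
    { val := fun V _ _ ρ => Ψ.val V ρ - ∑ χ ∈ X, (jh (multFn (chRep (χ.comp φ))) ρ : ℤ)
        * Ψ.val _ (chRep (χ.comp φ))
      exact' := by
        intro U V W _ _ _ _ _ _ _ _ _ ρU ρV ρW i π hi hπ hinj hsurj hex
        rw [Ψ.exact' U V W ρU ρV ρW i π hi hπ hinj hsurj hex]
        have h1 : ∀ χ : A →* Fˣ, (jh (multFn (chRep (χ.comp φ))) ρV : ℤ)
            = jh (multFn (chRep (χ.comp φ))) ρU + jh (multFn (chRep (χ.comp φ))) ρW := by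
          intro χ
          rw [jh_exact (multFn (chRep (χ.comp φ))) ρU ρV ρW i π hi hπ hinj hsurj hex]
          push_cast
          rfl
        simp only [h1, add_mul, Finset.sum_add_distrib]
        ring }
  have hinj : ∀ χ χ' : A →* Fˣ, χ.comp φ = χ'.comp φ → χ = χ' := by
    intro χ χ' h
    ext t
    obtain ⟨g, rfl⟩ := hφ t
    exact congrArg Units.val (DFunLike.congr_fun h g)
  have hΨ' : Ψ'.val V ρ = 0 := by
    refine Ψ'.vanish φ hφ ?_ (Module.finrank F V) V ρ hρ rfl
    intro V _ _ _ σ hσ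
    obtain ⟨χ, hχ, e, he⟩ := irr_chars X c hc hX σ hσ
    have h2 : Ψ'.val F (chRep (χ.comp φ)) = Ψ'.val V (σ.comp φ) :=
      Ψ'.iso (chRep (χ.comp φ)) (σ.comp φ) e (fun g u => he (φ g) u)
    rw [← h2]
    change Ψ.val _ (chRep (χ.comp φ)) - ∑ χ' ∈ X,
      (jh (multFn (chRep (χ'.comp φ))) (chRep (χ.comp φ)) : ℤ) * Ψ.val _ (chRep (χ'.comp φ)) = 0
    rw [Finset.sum_eq_single χ]
    · rw [mult_chRep, if_pos rfl]
      simp
    · intro χ' _ hne
      rw [mult_chRep, if_neg (fun h => hne (hinj _ _ h).symm)]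
      simp
    · intro h
      exact absurd hχ h
  have h3 : Ψ'.val V ρ = Ψ.val V ρ - ∑ χ ∈ X, (jh (multFn (chRep (χ.comp φ))) ρ : ℤ)
        * Ψ.val _ (chRep (χ.comp φ)) := rfl
  rw [h3] at hΨ'
  linarith

end expand

section congr

variable {R k : Type} [CommRing R] [IsLocalRing R] [Field k]

/-- A representation of a subgroup of `GL₂(R)` which is trivial on a congruence subgroup: a
subgroup of elements whose reductions are `p`-elements acts through a finite `p`-group. -/
theorem pact_sub {p : ℕ} [Fact p.Prime] [CharP k p] (π : R →+* k)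
    (hπ : Function.Surjective π) {F V : Type} [Field F] [AddCommGroup V] [Module F V]
    (H : Subgroup (GL (Fin 2) R)) (ρ : Representation F H V) (I : Ideal R) [Finite (R ⧸ I)]
    (hI : ∀ g : H, (∀ i j, g.1 i j - (1 : Matrix (Fin 2) (Fin 2) R) i j ∈ I) → ρ g = 1)
    (K : Subgroup H) (hK : ∀ g ∈ K, ∃ m, gp π (g.1 ^ p ^ m) = 1) :
    PAct p ρ K := by
  have hcong : ∀ g h : H, (∀ i j, g.1 i j - h.1 i j ∈ I) → ρ g = ρ h := by
    intro g h hgh
    have h1 : ρ (h⁻¹ * g) = 1 := by
      apply hI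
      have h2 : EntIn I ((g.1 : Matrix (Fin 2) (Fin 2) R) - (h.1 : Matrix (Fin 2) (Fin 2) R)) :=
        fun i j => hgh i j
      intro i j
      have h3 : ((h.1⁻¹ * g.1 : GL (Fin 2) R) : Matrix (Fin 2) (Fin 2) R) - 1
          = ((h.1⁻¹ : GL (Fin 2) R) : Matrix (Fin 2) (Fin 2) R) *
            ((g.1 : Matrix (Fin 2) (Fin 2) R) - (h.1 : Matrix (Fin 2) (Fin 2) R)) := by
        rw [mul_sub, ← Units.val_mul, ← Units.val_mul, inv_mul_cancel, Units.val_one]
      have h4 : ((h⁻¹ * g).1 i j - (1 : Matrix (Fin 2) (Fin 2) R) i j)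
          = (((h.1⁻¹ * g.1 : GL (Fin 2) R) : Matrix (Fin 2) (Fin 2) R) - 1) i j := rfl
      rw [h4, h3, Matrix.mul_apply]
      exact Ideal.sum_mem _ fun l _ => Ideal.mul_mem_left _ _ (h2 l j)
    have h5 : g = h * (h⁻¹ * g) := by group
    rw [h5, map_mul, h1, mul_one]
  refine ⟨?_, fun g hg => ?_⟩
  · let c : H → (Fin 2 → Fin 2 → R ⧸ I) := fun g i j => Ideal.Quotient.mk I (g.1 i j)
    have hfac : ∀ g h, c g = c h → ρ g = ρ h := by
      intro g h hgh
      apply hcong
      intro i j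
      exact Ideal.Quotient.eq.1 (congrFun (congrFun hgh i) j)
    have hfin : (Set.range c).Finite := Set.toFinite _
    refine Set.Finite.subset (hfin.image (Function.extend c ρ (fun _ => 0))) ?_
    rintro _ ⟨g, _, rfl⟩
    refine ⟨c g, ⟨g, rfl⟩, ?_⟩
    exact Function.FactorsThrough.extend_apply (fun a b hab => hfac a b hab) _ g
  · obtain ⟨n, hn⟩ := exists_pow_le I
    obtain ⟨m, hm⟩ := hK g hg
    refine ⟨m + n, ?_⟩
    rw [← map_pow, pow_add, pow_mul]
    apply hI
    have hpm : (p : R) ∈ IsLocalRing.maximalIdeal R := by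
      rw [← ker_eq_max π hπ, RingHom.mem_ker, map_natCast, CharP.cast_eq_zero]
    set g₁ : GL (Fin 2) R := g.1 ^ p ^ m with hg₁
    have hg1 : EntIn (IsLocalRing.maximalIdeal R) ((g₁ : Matrix (Fin 2) (Fin 2) R) - 1) := by
      intro i j
      rw [← ker_eq_max π hπ, RingHom.mem_ker, Matrix.sub_apply, map_sub]
      have h2 : π (g₁ i j) = (1 : GL (Fin 2) k) i j := by
        rw [← hm]; rfl
      rw [h2]
      rw [Units.val_one, Matrix.one_apply, Matrix.one_apply]
      split_ifs <;> simp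
    have h3 := hg1.pow_iter (Fact.out : p.Prime) hpm n
    intro i j
    have h4 := h3 i j
    have h5 : (((g₁ ^ p ^ n : GL (Fin 2) R) : Matrix (Fin 2) (Fin 2) R) - 1) i j ∈
        IsLocalRing.maximalIdeal R ^ (n + 1) := by
      rw [Units.val_pow_eq_pow_val]
      exact h4
    exact hn (Ideal.pow_le_pow_right (by omega) h5)

end congr

end Pool.Agent.Work.MP_39033f_nt
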