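import Pool.Agent.Work.MP_39033f_nt.TyCond

set_option autoImplicit false

open scoped MonoidAlgebra TensorProduct

/-!
The affine step: `H_I ≤ H_J` with `H_I \ H_J` identified with a finite field `k'` by a crossed
homomorphism.
-/

namespace Pool.Agent.Work.MP_39033f_nt

section aff

set_option linter.unusedSectionVars false

variable {F Γ k' : Type} [Field F] [Group Γ] [Field k'] [Fintype k'] (κ' : k' →+* F)
  {HI HJ : Subgroup Γ} (hIJ : HI ≤ HJ) (al : HJ →* k'ˣ) (c : HJ → k')
  (hc : ∀ n h, c (n * h) = c n * (al h : k') + c h) (hker : ∀ h : HJ, c h = 0 ↔ h.1 ∈ HI)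
  (hsurj : Function.Surjective c) (χ : HJ →* Fˣ)

/-- the function space -/
noncomputable abbrev AfV : Submodule F (Γ → F) :=
  Representation.coindV HI.subtype (chRep (χ.comp (Subgroup.inclusion hIJ)))

lemma afv_mul (f : AfV hIJ χ) (h : HJ) (hh : h.1 ∈ HI) (g : Γ) :
    f.1 (h.1 * g) = ((χ h : Fˣ) : F) * f.1 g := by
  have h1 := f.2 ⟨h.1, hh⟩ g
  rw [chRep_apply] at h1
  exact h1

include hc hker in
lemma afv_norm (f : AfV hIJ χ) (n n' : HJ) (hn : c n = c n') (g : Γ) :
    ((χ n : Fˣ) : F)⁻¹ * f.1 (n.1 * g) = ((χ n' : Fˣ) : F)⁻¹ * f.1 (n'.1 * g) := by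
  set h : HJ := n' * n⁻¹ with hh
  have h1 : n' = h * n := by rw [hh]; group
  have h2 : c h = 0 := by
    have h3 := hc h n
    rw [← h1, ← hn] at h3
    have h4 : c h * (al n : k') = 0 := by linear_combination -h3
    exact (mul_eq_zero.1 h4).resolve_right (al n).ne_zero
  have h5 : h.1 ∈ HI := (hker h).1 h2
  have h6 : n'.1 * g = h.1 * (n.1 * g) := by
    rw [h1, Subgroup.coe_mul, mul_assoc]
  rw [h6, afv_mul hIJ χ f h h5, h1, map_mul, Units.val_mul]
  have h7 : ((χ h : Fˣ) : F) ≠ 0 := (χ h).ne_zero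
  have h8 : ((χ n : Fˣ) : F) ≠ 0 := (χ n).ne_zero
  field_simp

open Classical in
/-- the interpolation polynomial -/
noncomputable def apol (g : Γ) : AfV hIJ χ →ₗ[F] Polynomial F :=
  (Lagrange.interpolate (Finset.univ : Finset k') (fun u => κ' u)).comp
    ({ toFun := fun f u => ((χ (Function.surjInv hsurj u) : Fˣ) : F)⁻¹ *
        f.1 ((Function.surjInv hsurj u).1 * g)
       map_add' := fun f f' => by
        ext1 u
        exact mul_add _ _ _
       map_smul' := fun c f => by
        ext1 u
        exact mul_left_comm _ _ _ } : AfV hIJ χ →ₗ[F] (k' → F))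

lemma nodes_inj' : Set.InjOn (fun u : k' => κ' u) (Finset.univ : Finset k') :=
  fun _ _ _ _ h => κ'.injective h

include hc hker in
lemma apol_eval (g : Γ) (f : AfV hIJ χ) (n : HJ) :
    (apol κ' hIJ c hsurj χ g f).eval (κ' (c n)) = ((χ n : Fˣ) : F)⁻¹ * f.1 (n.1 * g) := by
  classical
  unfold apol
  rw [LinearMap.comp_apply,
    Lagrange.eval_interpolate_at_node _ (nodes_inj' κ') (Finset.mem_univ (c n))]
  exact afv_norm hIJ al c hc hker χ f _ n (Function.surjInv_eq hsurj _) g

lemma apol_degree (g : Γ) (f : AfV hIJ χ) :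
    (apol κ' hIJ c hsurj χ g f).degree < (Fintype.card k' : WithBot ℕ) := by
  classical
  exact Lagrange.degree_interpolate_lt _ (nodes_inj' κ')

include hc hker in
lemma apol_unique (g : Γ) (f : AfV hIJ χ) (P : Polynomial F)
    (hP : P.degree < (Fintype.card k' : WithBot ℕ))
    (h : ∀ n : HJ, P.eval (κ' (c n)) = ((χ n : Fˣ) : F)⁻¹ * f.1 (n.1 * g)) :
    apol κ' hIJ c hsurj χ g f = P := by
  classical
  refine Polynomial.eq_of_degrees_lt_of_eval_index_eq (Finset.univ : Finset k') (nodes_inj' κ')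
    (apol_degree κ' hIJ c hsurj χ g f) hP ?_
  intro u _
  obtain ⟨n, rfl⟩ := hsurj u
  rw [apol_eval κ' hIJ al c hc hker hsurj χ, h]

include hc hker in
/-- the transformation rule -/
lemma apol_trans (f : AfV hIJ χ) (h : HJ) (g : Γ) : apol κ' hIJ c hsurj χ (h.1 * g) f
      = Polynomial.C ((χ h : Fˣ) : F) * (apol κ' hIJ c hsurj χ g f).comp
        (Polynomial.C (κ' (al h : k')) * Polynomial.X + Polynomial.C (κ' (c h))) := by
  apply apol_unique κ' hIJ al c hc hker hsurj χ
  · refine lt_of_le_of_lt (degree_C_mul_le' _ _) ?_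
    exact degree_comp_lin _ _ _ _ (apol_degree κ' hIJ c hsurj χ g f)
  · intro n
    rw [Polynomial.eval_mul, Polynomial.eval_C, Polynomial.eval_comp]
    have h1 : (Polynomial.C (κ' (al h : k')) * Polynomial.X + Polynomial.C (κ' (c h))).eval
        (κ' (c n)) = κ' (c (n * h)) := by
      rw [hc, map_add, map_mul]
      simp only [Polynomial.eval_add, Polynomial.eval_mul, Polynomial.eval_C, Polynomial.eval_X]
      ring
    rw [h1, apol_eval κ' hIJ al c hc hker hsurj χ, map_mul, Units.val_mul, Subgroup.coe_mul,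
      mul_assoc]
    have h7 : ((χ h : Fˣ) : F) ≠ 0 := (χ h).ne_zero
    have h8 : ((χ n : Fˣ) : F) ≠ 0 := (χ n).ne_zero
    field_simp

include hc hker in
lemma apol_coind (g g' : Γ) (f : AfV hIJ χ) :
    apol κ' hIJ c hsurj χ g' (Representation.coind HI.subtype
        (chRep (χ.comp (Subgroup.inclusion hIJ))) g f) = apol κ' hIJ c hsurj χ (g' * g) f := by
  apply apol_unique κ' hIJ al c hc hker hsurj χ
  · exact apol_degree κ' hIJ c hsurj χ _ f
  · intro n
    rw [apol_eval κ' hIJ al c hc hker hsurj χ, coind_apply, mul_assoc]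

/-- functions of degree `< s` -/
noncomputable def AVs (s : ℕ) : Subrepresentation (Representation.coind HI.subtype
    (chRep (χ.comp (Subgroup.inclusion hIJ)))) where
  toSubmodule :=
    { carrier := {f | ∀ g, (apol κ' hIJ c hsurj χ g f).degree < (s : WithBot ℕ)}
      add_mem' := fun {a b} ha hb g => by
        rw [map_add]
        exact lt_of_le_of_lt (Polynomial.degree_add_le _ _) (max_lt (ha g) (hb g))
      zero_mem' := fun g => by
        rw [map_zero, Polynomial.degree_zero]
        exact WithBot.bot_lt_coe s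
      smul_mem' := fun r f hf g => by
        rw [map_smul]
        exact lt_of_le_of_lt (Polynomial.degree_smul_le _ _) (hf g) }
  apply_mem_toSubmodule g f hf := by
    intro g'
    rw [apol_coind κ' hIJ al c hc hker hsurj χ]
    exact hf _

/-- the twisted character -/
noncomputable def twch (s : ℕ) : HJ →* Fˣ := χ * ((Units.map κ'.toMonoidHom).comp al) ^ s

lemma twch_val (s : ℕ) (h : HJ) :
    ((twch κ' al χ s h : Fˣ) : F) = ((χ h : Fˣ) : F) * κ' (al h : k') ^ s := by
  unfold twch
  rw [MonoidHom.mul_apply, Units.val_mul, MonoidHom.pow_apply, Units.val_pow_eq_pow_val]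
  rfl

/-- the leading coefficient -/
noncomputable def alc (s : ℕ) : (AVs κ' hIJ al c hc hker hsurj χ (s + 1)).toSubmodule →ₗ[F]
    Representation.coindV HJ.subtype (chRep (twch κ' al χ s)) where
  toFun f := ⟨fun g => (apol κ' hIJ c hsurj χ g f.1).coeff s, by
    intro h g
    rw [chRep_apply, twch_val]
    change (apol κ' hIJ c hsurj χ (h.1 * g) f.1).coeff s = _
    rw [apol_trans κ' hIJ al c hc hker hsurj χ, Polynomial.coeff_C_mul,
      coeff_comp_lin _ _ _ s (f.2 g)]
    ring⟩
  map_add' f f' := by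
    apply Subtype.ext
    ext1 g
    simp only [Submodule.coe_add, Pi.add_apply, map_add, Polynomial.coeff_add]
  map_smul' r f := by
    apply Subtype.ext
    ext1 g
    simp only [Submodule.coe_smul, Pi.smul_apply, map_smul, Polynomial.coeff_smul, RingHom.id_apply]

lemma alc_apply (s : ℕ) (f : (AVs κ' hIJ al c hc hker hsurj χ (s + 1)).toSubmodule) (g : Γ) :
    (alc κ' hIJ al c hc hker hsurj χ s f).1 g = (apol κ' hIJ c hsurj χ g f.1).coeff s := rfl

/-- the function on `HJ` given by the `s`-th power of the coordinate -/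
noncomputable def abas (s : ℕ) : AfV hIJ χ := by
  classical
  exact ⟨fun g => if hg : g ∈ HJ then ((χ ⟨g, hg⟩ : Fˣ) : F) * κ' (c ⟨g, hg⟩) ^ s else 0, by
    intro h g
    rw [chRep_apply]
    dsimp only
    have hhJ : h.1 ∈ HJ := hIJ h.2
    by_cases hg : g ∈ HJ
    · have h1 : HI.subtype h * g ∈ HJ := HJ.mul_mem hhJ hg
      rw [dif_pos h1, dif_pos hg]
      have h2 : (⟨HI.subtype h * g, h1⟩ : HJ) = ⟨h.1, hhJ⟩ * ⟨g, hg⟩ := rfl
      have h3 : c ⟨h.1, hhJ⟩ = 0 := (hker _).2 h.2
      rw [h2, hc, h3, zero_mul, zero_add, map_mul, Units.val_mul, mul_assoc]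
      rfl
    · have h1 : HI.subtype h * g ∉ HJ := by
        intro hcon
        exact hg ((Subgroup.mul_mem_cancel_left _ hhJ).1 hcon)
      rw [dif_neg h1, dif_neg hg, mul_zero]⟩

lemma abas_mem (s : ℕ) (g : HJ) :
    (abas κ' hIJ al c hc hker χ s).1 g.1 = ((χ g : Fˣ) : F) * κ' (c g) ^ s := by
  classical
  unfold abas
  simp only [dif_pos g.2]

lemma abas_notMem (s : ℕ) (g : Γ) (hg : g ∉ HJ) :
    (abas κ' hIJ al c hc hker χ s).1 g = 0 := by
  classical
  unfold abas
  simp only [dif_neg hg]

lemma apol_abas_one (s : ℕ) (hs : s < Fintype.card k') :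
    apol κ' hIJ c hsurj χ 1 (abas κ' hIJ al c hc hker χ s) = Polynomial.X ^ s := by
  apply apol_unique κ' hIJ al c hc hker hsurj χ
  · rw [Polynomial.degree_X_pow]
    exact_mod_cast hs
  · intro n
    have h8 : ((χ n : Fˣ) : F) ≠ 0 := (χ n).ne_zero
    rw [mul_one, abas_mem κ' hIJ al c hc hker χ s n]
    simp only [Polynomial.eval_pow, Polynomial.eval_X]
    field_simp

lemma apol_abas_mem (s : ℕ) (hs : s < Fintype.card k') (g : HJ) :
    apol κ' hIJ c hsurj χ g.1 (abas κ' hIJ al c hc hker χ s)
      = Polynomial.C ((χ g : Fˣ) : F) * (Polynomial.X ^ s : Polynomial F).comp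
        (Polynomial.C (κ' (al g : k')) * Polynomial.X + Polynomial.C (κ' (c g))) := by
  have h1 := apol_trans κ' hIJ al c hc hker hsurj χ (abas κ' hIJ al c hc hker χ s) g 1
  rw [mul_one, apol_abas_one κ' hIJ al c hc hker hsurj χ s hs] at h1
  exact h1

lemma apol_abas_notMem (s : ℕ) (g : Γ) (hg : g ∉ HJ) :
    apol κ' hIJ c hsurj χ g (abas κ' hIJ al c hc hker χ s) = 0 := by
  apply apol_unique κ' hIJ al c hc hker hsurj χ
  · rw [Polynomial.degree_zero]
    exact WithBot.bot_lt_coe _
  · intro n
    rw [Polynomial.eval_zero, abas_notMem, mul_zero]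
    intro hcon
    exact hg ((Subgroup.mul_mem_cancel_left _ n.2).1 hcon)

lemma abas_mem_AVs (s : ℕ) (hs : s < Fintype.card k') :
    abas κ' hIJ al c hc hker χ s ∈ (AVs κ' hIJ al c hc hker hsurj χ (s + 1)).toSubmodule := by
  intro g
  by_cases hg : g ∈ HJ
  · rw [show g = (⟨g, hg⟩ : HJ).1 from rfl, apol_abas_mem κ' hIJ al c hc hker hsurj χ s hs]
    refine lt_of_le_of_lt (degree_C_mul_le' _ _) ?_
    apply degree_comp_lin
    rw [Polynomial.degree_X_pow]
    exact_mod_cast Nat.lt_succ_self s
  · rw [apol_abas_notMem κ' hIJ al c hc hker hsurj χ s g hg, Polynomial.degree_zero]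
    exact WithBot.bot_lt_coe _

lemma alc_surjective (s : ℕ) (hs : s < Fintype.card k') [HJ.FiniteIndex] :
    Function.Surjective (alc κ' hIJ al c hc hker hsurj χ s) := by
  rw [← LinearMap.range_eq_top]
  apply delta_generates
  · rintro g _ ⟨f, rfl⟩
    refine ⟨⟨Representation.coind HI.subtype (chRep (χ.comp (Subgroup.inclusion hIJ))) g f.1,
      (AVs κ' hIJ al c hc hker hsurj χ (s + 1)).apply_mem_toSubmodule g f.2⟩, ?_⟩
    apply Subtype.ext
    ext1 x
    rw [alc_apply, coind_apply, alc_apply]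
    change (apol κ' hIJ c hsurj χ x (Representation.coind HI.subtype
      (chRep (χ.comp (Subgroup.inclusion hIJ))) g f.1)).coeff s = _
    rw [apol_coind κ' hIJ al c hc hker hsurj χ]
  · refine ⟨⟨abas κ' hIJ al c hc hker χ s, abas_mem_AVs κ' hIJ al c hc hker hsurj χ s hs⟩, ?_⟩
    apply Subtype.ext
    ext1 g
    rw [alc_apply]
    by_cases hg : g ∈ HJ
    · have h2 := delta_mem HJ (twch κ' al χ s) ⟨g, hg⟩
      rw [h2, twch_val]
      change (apol κ' hIJ c hsurj χ (⟨g, hg⟩ : HJ).1 (abas κ' hIJ al c hc hker χ s)).coeff s = _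
      rw [apol_abas_mem κ' hIJ al c hc hker hsurj χ s hs, Polynomial.coeff_C_mul,
        Polynomial.X_pow_comp, coeff_lin_pow _ _ s s le_rfl, if_pos rfl]
    · rw [delta_notMem _ _ g hg]
      change (apol κ' hIJ c hsurj χ g (abas κ' hIJ al c hc hker χ s)).coeff s = _
      rw [apol_abas_notMem κ' hIJ al c hc hker hsurj χ s g hg, Polynomial.coeff_zero]

lemma AVs_succ [HI.FiniteIndex] [HJ.FiniteIndex] (Ψ : AddFn F Γ) (s : ℕ)
    (hs : s < Fintype.card k') :
    Ψ.val (AVs κ' hIJ al c hc hker hsurj χ (s + 1)).toSubmodule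
        (AVs κ' hIJ al c hc hker hsurj χ (s + 1)).toRepresentation
      = Ψ.val (AVs κ' hIJ al c hc hker hsurj χ s).toSubmodule
        (AVs κ' hIJ al c hc hker hsurj χ s).toRepresentation
        + Ψ.val _ (Representation.coind HJ.subtype (chRep (twch κ' al χ s))) := by
  have hle : (AVs κ' hIJ al c hc hker hsurj χ s).toSubmodule
      ≤ (AVs κ' hIJ al c hc hker hsurj χ (s + 1)).toSubmodule := by
    intro f hf g
    refine lt_trans (hf g) ?_
    exact_mod_cast Nat.lt_succ_self s
  refine Ψ.exact' _ _ _ _ _ _ (Submodule.inclusion hle) (alc κ' hIJ al c hc hker hsurj χ s)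
    (fun g u => rfl) ?_ (Submodule.inclusion_injective hle)
    (alc_surjective κ' hIJ al c hc hker hsurj χ s hs) ?_
  · intro g f
    apply Subtype.ext
    ext1 x
    rw [alc_apply, coind_apply, alc_apply]
    change (apol κ' hIJ c hsurj χ x (Representation.coind HI.subtype
      (chRep (χ.comp (Subgroup.inclusion hIJ))) g f.1)).coeff s = _
    rw [apol_coind κ' hIJ al c hc hker hsurj χ]
  · ext f
    rw [LinearMap.mem_ker, Submodule.range_inclusion]
    constructor
    · intro hf
      apply Subtype.ext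
      ext1 g
      rw [alc_apply]
      have h1 : (apol κ' hIJ c hsurj χ g f.1).degree < (s : WithBot ℕ) := hf g
      rw [Polynomial.coeff_eq_zero_of_degree_lt h1]
      rfl
    · intro hf
      change ∀ g, (apol κ' hIJ c hsurj χ g f.1).degree < (s : WithBot ℕ)
      intro g
      have h1 : (apol κ' hIJ c hsurj χ g f.1).coeff s = 0 := by
        have := congrFun (congrArg Subtype.val hf) g
        rwa [alc_apply] at this
      rw [Polynomial.degree_lt_iff_coeff_zero]
      intro m hm
      rcases eq_or_lt_of_le hm with h2 | h2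
      · rw [← h2]; exact h1
      · have h3 := (Polynomial.degree_lt_iff_coeff_zero _ _).1 (f.2 g)
        exact h3 m h2

include hc hker hsurj in
/-- **The affine step.** -/
theorem AddFn.aff_step [HI.FiniteIndex] [HJ.FiniteIndex] (Ψ : AddFn F Γ) :
    Ψ.val _ (Representation.coind HI.subtype (chRep (χ.comp (Subgroup.inclusion hIJ))))
      = ∑ s ∈ Finset.range (Fintype.card k'), Ψ.val _
        (Representation.coind HJ.subtype (chRep (twch κ' al χ s))) := by
  have h1 : ∀ n : ℕ, n ≤ Fintype.card k' →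
      Ψ.val (AVs κ' hIJ al c hc hker hsurj χ n).toSubmodule
        (AVs κ' hIJ al c hc hker hsurj χ n).toRepresentation
        = ∑ s ∈ Finset.range n, Ψ.val _
        (Representation.coind HJ.subtype (chRep (twch κ' al χ s))) := by
    intro n
    induction n with
    | zero =>
      intro _
      have hsub : Subsingleton (AVs κ' hIJ al c hc hker hsurj χ 0).toSubmodule := by
        have hz : ∀ f : (AVs κ' hIJ al c hc hker hsurj χ 0).toSubmodule, f = 0 := by
          intro f
          apply Subtype.ext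
          apply Subtype.ext
          ext1 g
          have h1 : (apol κ' hIJ c hsurj χ g f.1).degree < ((0 : ℕ) : WithBot ℕ) := f.2 g
          have h2 : apol κ' hIJ c hsurj χ g f.1 = 0 := by
            by_contra hne
            have := Polynomial.zero_le_degree_iff.2 hne
            exact absurd (lt_of_le_of_lt this h1) (lt_irrefl _)
          have h3 := apol_eval κ' hIJ al c hc hker hsurj χ g f.1 1
          rw [h2, Polynomial.eval_zero, map_one, Units.val_one, inv_one, one_mul,
            Subgroup.coe_one, one_mul] at h3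
          exact h3.symm
        exact ⟨fun a b => by rw [hz a, hz b]⟩
      rw [Finset.range_zero, Finset.sum_empty]
      exact Ψ.val_zero _
    | succ n ih =>
      intro hn
      rw [AVs_succ κ' hIJ al c hc hker hsurj χ Ψ n (by omega), ih (by omega),
        Finset.sum_range_succ]
  rw [← h1 _ le_rfl]
  symm
  have htop : (AVs κ' hIJ al c hc hker hsurj χ (Fintype.card k')).toSubmodule = ⊤ := by
    rw [eq_top_iff]
    intro f _ g
    exact apol_degree κ' hIJ c hsurj χ g f
  refine Ψ.iso _ _ (LinearEquiv.ofTop _ htop) ?_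
  intro g u
  rfl

end aff

end Pool.Agent.Work.MP_39033f_nt
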