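import Pool.Agent.Work.MP_39033f_nt.TyCoind

set_option autoImplicit false

open MvPolynomial
open scoped MonoidAlgebra TensorProduct

namespace Pool.Agent.Work.MP_39033f_nt

section matrix

variable {R : Type} [CommRing R]

lemma gl_mul_apply (g h : GL (Fin 2) R) (i j : Fin 2) :
    (g * h) i j = g i 0 * h 0 j + g i 1 * h 1 j := by
  rw [Units.val_mul, Matrix.mul_apply, Fin.sum_univ_two]

lemma gl_det (g : GL (Fin 2) R) : (g.det : R) = g 0 0 * g 1 1 - g 0 1 * g 1 0 := by
  rw [Matrix.GeneralLinearGroup.val_det_apply, Matrix.det_fin_two]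

lemma gl_one_apply (i j : Fin 2) :
    (1 : GL (Fin 2) R) i j = (1 : Matrix (Fin 2) (Fin 2) R) i j := rfl

/-- The inverse of a matrix. -/
lemma gl_inv_apply (g : GL (Fin 2) R) (i j : Fin 2) :
    (g⁻¹ : GL (Fin 2) R) i j = ((g.det⁻¹ : Rˣ) : R) * !![g 1 1, -g 0 1; -g 1 0, g 0 0] i j := by
  have h1 : (g : Matrix (Fin 2) (Fin 2) R) *
      (((g.det⁻¹ : Rˣ) : R) • !![g 1 1, -g 0 1; -g 1 0, g 0 0]) = 1 := by
    rw [Matrix.mul_smul, ← Matrix.adjugate_fin_two, Matrix.mul_adjugate, smul_smul]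
    have : ((g.det⁻¹ : Rˣ) : R) * (g : Matrix (Fin 2) (Fin 2) R).det = 1 := by
      rw [← Matrix.GeneralLinearGroup.val_det_apply]
      exact Units.inv_mul _
    rw [this, one_smul]
  have h2 : ((g⁻¹ : GL (Fin 2) R) : Matrix (Fin 2) (Fin 2) R)
      = ((g.det⁻¹ : Rˣ) : R) • !![g 1 1, -g 0 1; -g 1 0, g 0 0] := by
    calc ((g⁻¹ : GL (Fin 2) R) : Matrix (Fin 2) (Fin 2) R)
        = ((g⁻¹ : GL (Fin 2) R) : Matrix (Fin 2) (Fin 2) R) * ((g : Matrix (Fin 2) (Fin 2) R) *
      (((g.det⁻¹ : Rˣ) : R) • !![g 1 1, -g 0 1; -g 1 0, g 0 0])) := by rw [h1, mul_one]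
      _ = _ := by rw [← mul_assoc, ← Units.val_mul, inv_mul_cancel, Units.val_one, one_mul]
  rw [h2, Matrix.smul_apply, smul_eq_mul]

/-- The subgroup `Γ₀(I)` of `GL₂(R)`: lower left entry in `I`. -/
def gam0 (I : Ideal R) : Subgroup (GL (Fin 2) R) where
  carrier := {g | g 1 0 ∈ I}
  mul_mem' := by
    intro g h hg hh
    simp only [Set.mem_setOf_eq] at *
    rw [gl_mul_apply]
    exact I.add_mem (I.mul_mem_right _ hg) (I.mul_mem_left _ hh)
  one_mem' := by
    simp only [Set.mem_setOf_eq]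
    rw [gl_one_apply, Matrix.one_apply_ne (by decide)]
    exact I.zero_mem
  inv_mem' := by
    intro g hg
    simp only [Set.mem_setOf_eq] at *
    rw [gl_inv_apply]
    apply I.mul_mem_left
    simpa using hg

lemma mem_gam0 {I : Ideal R} {g : GL (Fin 2) R} : g ∈ gam0 I ↔ g 1 0 ∈ I := Iff.rfl

lemma gam0_mono {I J : Ideal R} (h : I ≤ J) : gam0 I ≤ gam0 J := fun _ hg => h hg

lemma gam0_rc {I : Ideal R} {g h : GL (Fin 2) R} (h0 : g 1 0 - h 1 0 ∈ I)
    (h1 : g 1 1 - h 1 1 ∈ I) : (Quotient.mk _ g : RC (gam0 I)) = Quotient.mk _ h := by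
  rw [rc_eq, mem_gam0, gl_mul_apply]
  have e1 : (g⁻¹ : GL (Fin 2) R) 0 0 = ((g.det⁻¹ : Rˣ) : R) * g 1 1 := by
    rw [gl_inv_apply]; simp
  have e2 : (g⁻¹ : GL (Fin 2) R) 1 0 = ((g.det⁻¹ : Rˣ) : R) * -g 1 0 := by
    rw [gl_inv_apply]; simp
  rw [e1, e2]
  have e3 : h 1 0 * (((g.det⁻¹ : Rˣ) : R) * g 1 1) + h 1 1 * (((g.det⁻¹ : Rˣ) : R) * -g 1 0)
      = ((g.det⁻¹ : Rˣ) : R) * (g 1 0 * (g 1 1 - h 1 1) - g 1 1 * (g 1 0 - h 1 0)) := by ring
  rw [e3]
  exact I.mul_mem_left _ (I.sub_mem (I.mul_mem_left _ h1) (I.mul_mem_left _ h0))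

instance gam0_finiteIndex (I : Ideal R) [Finite (R ⧸ I)] : (gam0 I).FiniteIndex := by
  have h1 : Finite (RC (gam0 I)) := by
    let f : RC (gam0 I) → (R ⧸ I) × (R ⧸ I) := fun c =>
      (Ideal.Quotient.mk I (c.out 1 0), Ideal.Quotient.mk I (c.out 1 1))
    refine Finite.of_injective f ?_
    intro c d hcd
    have h2 := congrArg Prod.fst hcd
    have h3 := congrArg Prod.snd hcd
    rw [← Quotient.out_eq c, ← Quotient.out_eq d]
    exact gam0_rc (Ideal.Quotient.eq.1 h2) (Ideal.Quotient.eq.1 h3)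
  have h2 : Finite (GL (Fin 2) R ⧸ gam0 I) :=
    Finite.of_equiv _ (QuotientGroup.quotientRightRelEquivQuotientLeftRel (gam0 I))
  exact Subgroup.finiteIndex_of_finite_quotient

end matrix

section chars

variable {R k F : Type} [CommRing R] [Field k] [Field F] (π : R →+* k) (κ₀ : k →+* F)

lemma pi_det (g : GL (Fin 2) R) : π (g.det : R) = π (g 0 0) * π (g 1 1) - π (g 0 1) * π (g 1 0) := by
  rw [gl_det, map_sub, map_mul, map_mul]

lemma borel_lower {g : GL (Fin 2) R} (hg : g ∈ gam0 (RingHom.ker π)) : π (g 1 0) = 0 := hg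

lemma borel_diag_ne {g : GL (Fin 2) R} (hg : g ∈ gam0 (RingHom.ker π)) (t : Fin 2) :
    π (g t t) ≠ 0 := by
  have h1 : π (g.det : R) ≠ 0 := (g.det.isUnit.map π).ne_zero
  rw [pi_det, borel_lower π hg, mul_zero, sub_zero] at h1
  fin_cases t
  · exact left_ne_zero_of_mul h1
  · exact right_ne_zero_of_mul h1

/-- The diagonal entries of the reduction of an element of the preimage of the Borel subgroup. -/
noncomputable def dg (t : Fin 2) : gam0 (RingHom.ker π) →* kˣ where
  toFun g := Units.mk0 (π (g.1 t t)) (borel_diag_ne π g.2 t)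
  map_one' := by
    apply Units.ext
    rw [Units.val_mk0, Subgroup.coe_one, gl_one_apply, Matrix.one_apply_eq, map_one, Units.val_one]
  map_mul' g h := by
    apply Units.ext
    rw [Units.val_mk0, Units.val_mul, Units.val_mk0, Units.val_mk0, Subgroup.coe_mul, gl_mul_apply,
      map_add, map_mul, map_mul]
    have h1 := borel_lower π g.2
    have h2 := borel_lower π h.2
    fin_cases t
    · simp only [Fin.zero_eta, h2, mul_zero, add_zero]
    · simp only [Fin.mk_one, h1, zero_mul, zero_add]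

lemma dg_val (t : Fin 2) (g : gam0 (RingHom.ker π)) : ((dg π t g : kˣ) : k) = π (g.1 t t) := rfl

/-- The character `g ↦ κ₀(a)^i κ₀(d)^j` of the preimage of the Borel subgroup,
`(a, *; 0, d)` being the reduction of `g`. -/
noncomputable def bchar (i j : ℤ) : gam0 (RingHom.ker π) →* Fˣ :=
  ((Units.map κ₀.toMonoidHom).comp (dg π 0)) ^ i * ((Units.map κ₀.toMonoidHom).comp (dg π 1)) ^ j

lemma bchar_val (i j : ℤ) (g : gam0 (RingHom.ker π)) :
    ((bchar π κ₀ i j g : Fˣ) : F) = κ₀ (π (g.1 0 0)) ^ i * κ₀ (π (g.1 1 1)) ^ j := by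
  unfold bchar
  rw [MonoidHom.mul_apply, Units.val_mul, MonoidHom.zpow_apply, MonoidHom.zpow_apply,
    Units.val_zpow_eq_zpow_val, Units.val_zpow_eq_zpow_val]
  rfl

/-- The principal series character of `Γ₀(I)`. -/
noncomputable def pchar (I : Ideal R) (hI : I ≤ RingHom.ker π) (i j : ℤ) : gam0 I →* Fˣ :=
  (bchar π κ₀ i j).comp (Subgroup.inclusion (gam0_mono hI))

lemma pchar_val (I : Ideal R) (hI : I ≤ RingHom.ker π) (i j : ℤ) (g : gam0 I) :
    ((pchar π κ₀ I hI i j g : Fˣ) : F) = κ₀ (π (g.1 0 0)) ^ i * κ₀ (π (g.1 1 1)) ^ j :=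
  bchar_val π κ₀ i j _

/-- The preimage of the subgroup of upper triangular matrices with equal diagonal entries. -/
def zu : Subgroup (GL (Fin 2) R) where
  carrier := {g | π (g 1 0) = 0 ∧ π (g 0 0) = π (g 1 1)}
  mul_mem' := by
    intro g h hg hh
    simp only [Set.mem_setOf_eq] at *
    simp only [gl_mul_apply, map_add, map_mul, hg.1, hh.1, hg.2, hh.2]
    constructor <;> ring
  one_mem' := by
    simp only [Set.mem_setOf_eq]
    rw [gl_one_apply, gl_one_apply, gl_one_apply, Matrix.one_apply_ne (by decide),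
      Matrix.one_apply_eq, Matrix.one_apply_eq]
    simp
  inv_mem' := by
    intro g hg
    simp only [Set.mem_setOf_eq] at *
    rw [gl_inv_apply, gl_inv_apply, gl_inv_apply, map_mul, map_mul, map_mul]
    simp [hg.1, hg.2]

lemma zu_le : zu π ≤ gam0 (RingHom.ker π) := fun _ hg => hg.1

/-- The character `ω` of the centre extended to `zu`. -/
noncomputable def zchar (ω : kˣ →* Fˣ) : zu π →* Fˣ :=
  ω.comp ((dg π 0).comp (Subgroup.inclusion (zu_le π)))

/-- The `r`-th power of the embedding, as a character. -/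
noncomputable def kpow (r : ℤ) : kˣ →* Fˣ := (Units.map κ₀.toMonoidHom) ^ r

lemma kpow_val (r : ℤ) (a : kˣ) : ((kpow κ₀ r a : Fˣ) : F) = κ₀ (a : k) ^ r := by
  unfold kpow
  rw [MonoidHom.zpow_apply, Units.val_zpow_eq_zpow_val]
  rfl

lemma zchar_val (r : ℤ) (g : zu π) :
    ((zchar π (kpow κ₀ r) g : Fˣ) : F) = κ₀ (π (g.1 0 0)) ^ r := by
  unfold zchar
  rw [MonoidHom.comp_apply, kpow_val]
  rfl

instance zu_finiteIndex [Finite k] : (zu π).FiniteIndex := by
  have h1 : Finite (RC (zu π)) := by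
    let f : RC (zu π) → (Fin 2 → Fin 2 → k) := fun c i j => π (c.out i j)
    refine Finite.of_injective f ?_
    intro c d hcd
    have h2 : ∀ i j, π (c.out i j) = π (d.out i j) := fun i j => congrFun (congrFun hcd i) j
    rw [← Quotient.out_eq c, ← Quotient.out_eq d]
    rw [rc_eq]
    have h3 : ∀ i j, π ((d.out * (c.out)⁻¹) i j) = π ((1 : GL (Fin 2) R) i j) := by
      intro i j
      rw [← mul_inv_cancel c.out, gl_mul_apply, gl_mul_apply]
      simp only [map_add, map_mul, h2]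
    refine ⟨?_, ?_⟩
    · rw [h3, gl_one_apply, Matrix.one_apply_ne (by decide), map_zero]
    · rw [h3, h3, gl_one_apply, gl_one_apply, Matrix.one_apply_eq, Matrix.one_apply_eq]
  have h2 : Finite (GL (Fin 2) R ⧸ zu π) :=
    Finite.of_equiv _ (QuotientGroup.quotientRightRelEquivQuotientLeftRel (zu π))
  exact Subgroup.finiteIndex_of_finite_quotient

instance borel_finiteIndex [Finite k] : (gam0 (RingHom.ker π)).FiniteIndex :=
  Subgroup.finiteIndex_of_le (zu_le π)

end chars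

section index

variable {R k : Type} [CommRing R] [Field k] (π : R →+* k) (hπ : Function.Surjective π)

/-- the unipotent matrix `(1, 0; x, 1)` -/
def nlow {R : Type} [CommRing R] (x : R) : GL (Fin 2) R :=
  ⟨!![1, 0; x, 1], !![1, 0; -x, 1], by ext i j; fin_cases i <;> fin_cases j <;> simp [Matrix.mul_apply],
    by ext i j; fin_cases i <;> fin_cases j <;> simp [Matrix.mul_apply]⟩

lemma nlow_00 {R : Type} [CommRing R] (x : R) : (nlow x) 0 0 = 1 := rfl
lemma nlow_01 {R : Type} [CommRing R] (x : R) : (nlow x) 0 1 = 0 := rfl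
lemma nlow_10 {R : Type} [CommRing R] (x : R) : (nlow x) 1 0 = x := rfl
lemma nlow_11 {R : Type} [CommRing R] (x : R) : (nlow x) 1 1 = 1 := rfl

/-- the matrix `(0, -1; 1, x)` -/
def wx {R : Type} [CommRing R] (x : R) : GL (Fin 2) R :=
  ⟨!![0, -1; 1, x], !![x, 1; -1, 0], by ext i j; fin_cases i <;> fin_cases j <;> simp [Matrix.mul_apply],
    by ext i j; fin_cases i <;> fin_cases j <;> simp [Matrix.mul_apply]⟩

lemma wx_10 {R : Type} [CommRing R] (x : R) : (wx x) 1 0 = 1 := rfl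
lemma wx_11 {R : Type} [CommRing R] (x : R) : (wx x) 1 1 = x := rfl

lemma borel_rc_iff (g h : GL (Fin 2) R) :
    (Quotient.mk _ g : RC (gam0 (RingHom.ker π))) = Quotient.mk _ h ↔
      π (h 1 0) * π (g 1 1) = π (h 1 1) * π (g 1 0) := by
  rw [rc_eq, mem_gam0, gl_mul_apply, RingHom.mem_ker]
  have e1 : (g⁻¹ : GL (Fin 2) R) 0 0 = ((g.det⁻¹ : Rˣ) : R) * g 1 1 := by
    rw [gl_inv_apply]; simp
  have e2 : (g⁻¹ : GL (Fin 2) R) 1 0 = ((g.det⁻¹ : Rˣ) : R) * -g 1 0 := by
    rw [gl_inv_apply]; simp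
  rw [e1, e2]
  have e3 : h 1 0 * (((g.det⁻¹ : Rˣ) : R) * g 1 1) + h 1 1 * (((g.det⁻¹ : Rˣ) : R) * -g 1 0)
      = ((g.det⁻¹ : Rˣ) : R) * (h 1 0 * g 1 1 - h 1 1 * g 1 0) := by ring
  rw [e3, map_mul, mul_eq_zero, map_sub, map_mul, map_mul, sub_eq_zero]
  have e4 : π ((g.det⁻¹ : Rˣ) : R) ≠ 0 := ((g.det⁻¹).isUnit.map π).ne_zero
  simp only [e4, false_or]

include hπ in
/-- The index of the preimage of the Borel subgroup is `q + 1`. -/
lemma borel_index [Finite k] : (gam0 (RingHom.ker π)).index = Nat.card k + 1 := by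
  classical
  rw [← card_rc, ← Finite.card_option]
  let s : k → R := Function.surjInv hπ
  have hs : ∀ x, π (s x) = x := Function.surjInv_eq hπ
  refine (Nat.card_congr (Equiv.ofBijective
    (fun o : Option k => (match o with
      | none => Quotient.mk _ 1
      | some x => Quotient.mk _ (wx (s x)) : RC (gam0 (RingHom.ker π)))) ⟨?_, ?_⟩)).symm
  · intro a b hab
    rcases a with _ | a <;> rcases b with _ | b
    · rfl
    · exfalso
      have h1 := (borel_rc_iff π _ _).1 hab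
      rw [wx_10, wx_11, gl_one_apply, gl_one_apply, Matrix.one_apply_eq,
        Matrix.one_apply_ne (by decide)] at h1
      simp at h1
    · exfalso
      have h1 := (borel_rc_iff π _ _).1 hab
      rw [wx_10, wx_11, gl_one_apply, gl_one_apply, Matrix.one_apply_eq,
        Matrix.one_apply_ne (by decide)] at h1
      simp at h1
    · have h1 := (borel_rc_iff π _ _).1 hab
      rw [wx_10, wx_11, wx_10, wx_11, map_one, one_mul, mul_one, hs, hs] at h1
      rw [h1]
  · intro c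
    rw [← Quotient.out_eq c]
    set g := c.out
    by_cases h0 : π (g 1 0) = 0
    · refine ⟨none, ?_⟩
      rw [borel_rc_iff, gl_one_apply, gl_one_apply, Matrix.one_apply_eq,
        Matrix.one_apply_ne (by decide), h0]
      simp
    · refine ⟨some (π (g 1 1) / π (g 1 0)), ?_⟩
      rw [borel_rc_iff, wx_10, wx_11, hs, map_one, mul_one]
      field_simp

end index

end Pool.Agent.Work.MP_39033f_nt
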