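import Pool.Agent.Work.MP_39033f_nt.TyDefs

set_option autoImplicit false

open MvPolynomial
open scoped MonoidAlgebra TensorProduct

namespace Pool.Agent.Work.MP_39033f_nt

section coind

variable {F Γ : Type} [Field F] [Group Γ] (H : Subgroup Γ)

/-- Right cosets `H g`. -/
abbrev RC : Type := Quotient (QuotientGroup.rightRel H)

lemma rc_eq {a b : Γ} : (Quotient.mk _ a : RC H) = Quotient.mk _ b ↔ b * a⁻¹ ∈ H := by
  rw [Quotient.eq, QuotientGroup.rightRel_apply]

lemma rc_mul (h : H) (g : Γ) : (Quotient.mk _ (h.1 * g) : RC H) = Quotient.mk _ g := by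
  rw [rc_eq, mul_inv_rev, mul_inv_cancel_left]
  exact H.inv_mem h.2

lemma rc_out_mem (g : Γ) : g * (Quotient.mk _ g : RC H).out⁻¹ ∈ H := by
  rw [← rc_eq]
  exact Quotient.out_eq _

/-- The element of `H` with `g = rcH g * representative`. -/
noncomputable def rcH (g : Γ) : H := ⟨g * (Quotient.mk _ g : RC H).out⁻¹, rc_out_mem H g⟩

lemma rcH_mul (g : Γ) : (rcH H g).1 * (Quotient.mk _ g : RC H).out = g := by
  simp [rcH]

instance [H.FiniteIndex] : Finite (RC H) := by
  have : Finite (Γ ⧸ H) := inferInstance
  exact Finite.of_equiv _ (QuotientGroup.quotientRightRelEquivQuotientLeftRel H).symm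

lemma card_rc : Nat.card (RC H) = H.index :=
  Nat.card_congr (QuotientGroup.quotientRightRelEquivQuotientLeftRel H)

variable {V : Type} [AddCommGroup V] [Module F V] (ρ : Representation F H V)

/-- A function in the coinduced module is determined by its values at coset representatives. -/
noncomputable def coindEquiv : Representation.coindV H.subtype ρ ≃ₗ[F] (RC H → V) where
  toFun f c := f.1 c.out
  map_add' _ _ := rfl
  map_smul' _ _ := rfl
  invFun ψ := ⟨fun g => ρ (rcH H g) (ψ (Quotient.mk _ g)), by
    intro h g
    have h1 : rcH H (h.1 * g) = h * rcH H g := by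
      apply Subtype.ext
      simp only [rcH, Subgroup.coe_mul, rc_mul, mul_assoc]
    have h2 : (Quotient.mk _ (H.subtype h * g) : RC H) = Quotient.mk _ g := rc_mul H h g
    change ρ (rcH H (h.1 * g)) (ψ (Quotient.mk _ (H.subtype h * g))) = _
    rw [h1, h2, map_mul]
    rfl⟩
  left_inv f := by
    apply Subtype.ext
    ext1 g
    change ρ (rcH H g) (f.1 (Quotient.mk _ g : RC H).out) = f.1 g
    rw [← f.2 (rcH H g)]
    exact congrArg f.1 (rcH_mul H g)
  right_inv ψ := by
    ext1 c
    change ρ (rcH H c.out) (ψ (Quotient.mk _ c.out)) = ψ c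
    have h1 : (Quotient.mk _ c.out : RC H) = c := Quotient.out_eq _
    have h2 : rcH H c.out = 1 := by
      apply Subtype.ext
      simp only [rcH, Quotient.out_eq, mul_inv_cancel, Subgroup.coe_one]
    rw [h1, h2, map_one]
    rfl

instance [H.FiniteIndex] [FiniteDimensional F V] :
    FiniteDimensional F (Representation.coindV H.subtype ρ) := by
  have : Fintype (RC H) := Fintype.ofFinite _
  exact LinearEquiv.finiteDimensional (coindEquiv H ρ).symm

lemma finrank_coind [H.FiniteIndex] [FiniteDimensional F V] :
    Module.finrank F (Representation.coindV H.subtype ρ) = H.index * Module.finrank F V := by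
  have : Fintype (RC H) := Fintype.ofFinite _
  rw [(coindEquiv H ρ).finrank_eq, Module.finrank_pi_fintype, Finset.sum_const, smul_eq_mul,
    ← card_rc H, Nat.card_eq_fintype_card]
  rfl

/-- Coinduction of an equivariant map. -/
noncomputable def coMap {U : Type} [AddCommGroup U] [Module F U] (σ : Representation F H U)
    (i : U →ₗ[F] V) (hi : ∀ h u, i (σ h u) = ρ h (i u)) :
    Representation.coindV H.subtype σ →ₗ[F] Representation.coindV H.subtype ρ where
  toFun f := ⟨fun g => i (f.1 g), fun h g => by
    dsimp only
    rw [f.2 h g, hi]⟩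
  map_add' f f' := by
    apply Subtype.ext
    ext1 g
    exact map_add _ _ _
  map_smul' c f := by
    apply Subtype.ext
    ext1 g
    exact map_smul _ _ _

lemma coMap_apply {U : Type} [AddCommGroup U] [Module F U] (σ : Representation F H U)
    (i : U →ₗ[F] V) (hi : ∀ h u, i (σ h u) = ρ h (i u)) (f : Representation.coindV H.subtype σ)
    (g : Γ) : (coMap H ρ σ i hi f).1 g = i (f.1 g) := rfl

lemma coind_apply (g : Γ) (f : Representation.coindV H.subtype ρ) (x : Γ) :
    (Representation.coind H.subtype ρ g f).1 x = f.1 (x * g) := rfl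

/-- Coinduction turns additive functions on `Γ` into additive functions on `H`. -/
noncomputable def AddFn.coind (Ψ : AddFn F Γ) [H.FiniteIndex] : AddFn F H where
  val V _ _ ρ := Ψ.val _ (Representation.coind H.subtype ρ)
  exact' := by
    intro U V W _ _ _ _ _ _ _ _ _ ρU ρV ρW i π hi hπ hinj hsurj hex
    have e1 : Function.Injective (coMap H ρV ρU i hi) := by
      intro f f' hff
      apply Subtype.ext
      ext1 g
      apply hinj
      exact congrFun (congrArg Subtype.val hff) g
    have e2 : LinearMap.range (coMap H ρV ρU i hi) = LinearMap.ker (coMap H ρW ρV π hπ) := by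
      ext f
      constructor
      · rintro ⟨u, rfl⟩
        rw [LinearMap.mem_ker]
        apply Subtype.ext
        ext1 g
        rw [coMap_apply, coMap_apply]
        have : i (u.1 g) ∈ LinearMap.ker π := by
          rw [← hex]
          exact ⟨_, rfl⟩
        exact this
      · intro hf
        rw [LinearMap.mem_ker] at hf
        have h1 : ∀ g, f.1 g ∈ LinearMap.range i := by
          intro g
          rw [hex, LinearMap.mem_ker]
          exact congrFun (congrArg Subtype.val hf) g
        choose u hu using h1
        refine ⟨⟨u, fun h g => ?_⟩, ?_⟩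
        · apply hinj
          rw [hi, hu, hu]
          exact f.2 h g
        · apply Subtype.ext
          ext1 g
          exact hu g
    have e3 : Function.Surjective (coMap H ρW ρV π hπ) := by
      intro f
      choose s hs using hsurj
      refine ⟨(coindEquiv H ρV).symm (fun c => s (f.1 c.out)), ?_⟩
      apply (coindEquiv H ρW).injective
      ext1 c
      change π (((coindEquiv H ρV).symm (fun c => s (f.1 c.out))).1 c.out) = f.1 c.out
      have h1 : ((coindEquiv H ρV).symm (fun c => s (f.1 c.out))).1 c.out = s (f.1 c.out) :=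
        congrFun ((coindEquiv H ρV).apply_symm_apply (fun c => s (f.1 c.out))) c
      rw [h1, hs]
    exact Ψ.exact' _ _ _ _ _ _ (coMap H ρV ρU i hi) (coMap H ρW ρV π hπ)
      (fun g u => rfl) (fun g v => rfl) e1 e3 e2

lemma AddFn.coind_val (Ψ : AddFn F Γ) [H.FiniteIndex] :
    (Ψ.coind H).val V ρ = Ψ.val _ (Representation.coind H.subtype ρ) := rfl

end coind

section chars

variable {F Γ : Type} [Field F] [Group Γ]

lemma chRep_apply {H : Type} [Group H] (χ : H →* Fˣ) (h : H) (x : F) :
    chRep χ h x = ((χ h : Fˣ) : F) * x := rfl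

/-- The function equal to the character on `H` and to zero outside. -/
noncomputable def delta (H : Subgroup Γ) (χ : H →* Fˣ) :
    Representation.coindV H.subtype (chRep χ) := by
  classical
  exact ⟨fun g => if hg : g ∈ H then ((χ ⟨g, hg⟩ : Fˣ) : F) else 0, by
    intro h g
    rw [chRep_apply]
    dsimp only
    by_cases hg : g ∈ H
    · have h1 : H.subtype h * g ∈ H := H.mul_mem h.2 hg
      rw [dif_pos h1, dif_pos hg]
      have h2 : (⟨H.subtype h * g, h1⟩ : H) = h * ⟨g, hg⟩ := rfl
      rw [h2, map_mul, Units.val_mul]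
    · have h1 : H.subtype h * g ∉ H := by
        intro hcon
        exact hg ((Subgroup.mul_mem_cancel_left H h.2).1 hcon)
      rw [dif_neg h1, dif_neg hg, mul_zero]⟩

lemma delta_mem (H : Subgroup Γ) (χ : H →* Fˣ) (h : H) : (delta H χ).1 h.1 = χ h := by
  classical
  unfold delta
  simp

lemma delta_notMem (H : Subgroup Γ) (χ : H →* Fˣ) (g : Γ) (hg : g ∉ H) :
    (delta H χ).1 g = 0 := by
  classical
  unfold delta
  simp [hg]

/-- The coinduced representation of a character is generated by `delta`. -/
lemma delta_generates (H : Subgroup Γ) [H.FiniteIndex] (χ : H →* Fˣ)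
    (U : Submodule F (Representation.coindV H.subtype (chRep χ)))
    (hU : ∀ g, ∀ f ∈ U, Representation.coind H.subtype (chRep χ) g f ∈ U)
    (hd : delta H χ ∈ U) : U = ⊤ := by
  have : Fintype (RC H) := Fintype.ofFinite _
  rw [eq_top_iff]
  intro f _
  have h1 : f = ∑ c : RC H, f.1 c.out •
      Representation.coind H.subtype (chRep χ) c.out⁻¹ (delta H χ) := by
    apply Subtype.ext
    ext1 g
    rw [AddSubmonoidClass.coe_finsetSum, Finset.sum_apply,
      Finset.sum_eq_single (Quotient.mk _ g : RC H)]
    · change f.1 g = f.1 (Quotient.mk _ g : RC H).out *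
        (delta H χ).1 (g * (Quotient.mk _ g : RC H).out⁻¹)
      have h2 : (delta H χ).1 (g * (Quotient.mk _ g : RC H).out⁻¹) = χ (rcH H g) :=
        delta_mem H χ (rcH H g)
      rw [h2, mul_comm]
      have h3 := f.2 (rcH H g) (Quotient.mk _ g : RC H).out
      rw [chRep_apply] at h3
      rw [← h3]
      exact congrArg f.1 (rcH_mul H g).symm
    · intro c _ hc
      change f.1 c.out * (delta H χ).1 (g * c.out⁻¹) = 0
      rw [delta_notMem, mul_zero]
      intro hmem
      apply hc
      rw [← Quotient.out_eq c]
      exact (rc_eq H).2 hmem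
    · intro hc
      exact absurd (Finset.mem_univ _) hc
  rw [h1]
  exact U.sum_mem fun c _ => U.smul_mem _ (hU _ _ hd)

/-- Two functions in coinduced modules of characters agreeing pointwise. -/
lemma AddFn.coind_congr (Ψ : AddFn F Γ) {H H' : Subgroup Γ} [H.FiniteIndex] [H'.FiniteIndex]
    (χ : H →* Fˣ) (χ' : H' →* Fˣ) (hH : H = H')
    (h : ∀ (g : Γ) (hg : g ∈ H) (hg' : g ∈ H'), χ ⟨g, hg⟩ = χ' ⟨g, hg'⟩) :
    Ψ.val _ (Representation.coind H.subtype (chRep χ))
      = Ψ.val _ (Representation.coind H'.subtype (chRep χ')) := by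
  subst hH
  have : χ = χ' := by
    ext1 ⟨g, hg⟩
    exact h g hg hg
  rw [this]

end chars

section pi

variable {F Γ : Type} [Field F] [Group Γ]

/-- The product of a family of representations. -/
noncomputable def piRep {ι : Type} {V : ι → Type} [∀ i, AddCommGroup (V i)] [∀ i, Module F (V i)]
    (ρ : ∀ i, Representation F Γ (V i)) : Representation F Γ (∀ i, V i) where
  toFun g := LinearMap.pi fun i => (ρ i g).comp (LinearMap.proj i)
  map_one' := by
    ext f i
    simp
  map_mul' a b := by
    apply LinearMap.ext
    intro f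
    ext1 i
    simp

lemma piRep_apply {ι : Type} {V : ι → Type} [∀ i, AddCommGroup (V i)] [∀ i, Module F (V i)]
    (ρ : ∀ i, Representation F Γ (V i)) (g : Γ) (f : ∀ i, V i) (i : ι) :
    piRep ρ g f i = ρ i g (f i) := rfl

lemma AddFn.pi (Ψ : AddFn F Γ) : ∀ (m : ℕ) (V : Fin m → Type) [∀ i, AddCommGroup (V i)]
    [∀ i, Module F (V i)] [∀ i, FiniteDimensional F (V i)] (ρ : ∀ i, Representation F Γ (V i)),
    Ψ.val _ (piRep ρ) = ∑ i, Ψ.val _ (ρ i) := by
  intro m
  induction m with
  | zero =>
    intro V _ _ _ ρ
    rw [Finset.univ_eq_empty, Finset.sum_empty]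
    let e : (∀ i, V i) ≃ₗ[F] PUnit :=
      { toFun := fun _ => PUnit.unit
        map_add' := fun _ _ => rfl
        map_smul' := fun _ _ => rfl
        invFun := fun _ => 0
        left_inv := fun _ => Subsingleton.elim _ _
        right_inv := fun _ => rfl }
    rw [Ψ.iso (piRep ρ) (1 : Representation F Γ PUnit) e (fun _ _ => Subsingleton.elim _ _),
      Ψ.val_punit]
  | succ m ih =>
    intro V _ _ _ ρ
    rw [Fin.sum_univ_succ, ← ih (fun i => V i.succ) (fun i => ρ i.succ)]
    refine Ψ.exact' (V 0) (∀ i, V i) (∀ i : Fin m, V i.succ) (ρ 0) (piRep ρ)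
      (piRep fun i : Fin m => ρ i.succ) (LinearMap.single F V 0)
      (LinearMap.pi fun i => LinearMap.proj i.succ) ?_ ?_ ?_ ?_ ?_
    · intro g u
      ext1 i
      rw [piRep_apply]
      by_cases hi : i = 0
      · subst hi
        simp
      · simp [hi]
    · intro g v
      rfl
    · intro a b hab
      have := congrFun hab 0
      simpa using this
    · intro w
      refine ⟨Fin.cons 0 w, ?_⟩
      ext1 i
      simp
    · ext v
      simp only [LinearMap.mem_range, LinearMap.mem_ker]
      constructor
      · rintro ⟨u, rfl⟩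
        ext1 i
        simp
      · intro hv
        refine ⟨v 0, ?_⟩
        ext1 i
        refine Fin.cases ?_ (fun i => ?_) i
        · simp
        · have := congrFun hv i
          simp only [LinearMap.pi_apply, LinearMap.proj_apply, Pi.zero_apply] at this
          simp [this]

end pi

end Pool.Agent.Work.MP_39033f_nt
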