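import Pool.Agent.Work.MP_39033f_nt.TyPS

set_option autoImplicit false

open scoped MonoidAlgebra TensorProduct

namespace Pool.Agent.Work.MP_39033f_nt

section step2

set_option linter.unusedSectionVars false

variable {R k F : Type} [CommRing R] [Field k] [Fintype k] [Field F] (π : R →+* k)
  (κ₀ : k →+* F) {I J : Ideal R} (hIJ : I ≤ J) (hJ : J ≤ RingHom.ker π) (E : Eps π I J)
  (i j : ℤ)

lemma AddFn.val_zero {Γ : Type} [Group Γ] (Φ : AddFn F Γ) {V : Type} [AddCommGroup V]
    [Module F V] [FiniteDimensional F V] [Subsingleton V] (ρ : Representation F Γ V) :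
    Φ.val V ρ = 0 := by
  have e : V ≃ₗ[F] PUnit :=
    { toFun := fun _ => PUnit.unit
      map_add' := fun _ _ => rfl
      map_smul' := fun _ _ => rfl
      invFun := fun _ => 0
      left_inv := fun _ => Subsingleton.elim _ _
      right_inv := fun _ => rfl }
  rw [Φ.iso ρ (1 : Representation F Γ PUnit) e (fun _ _ => Subsingleton.elim _ _), Φ.val_punit]

lemma Vs_succ [Finite (R ⧸ I)] [Finite (R ⧸ J)] (Ψ : AddFn F (GL (Fin 2) R)) (s : ℕ)
    (hs : s < Fintype.card k) :
    Ψ.val (Vs π κ₀ hIJ hJ E i j (s + 1)).toSubmodule (Vs π κ₀ hIJ hJ E i j (s + 1)).toRepresentation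
      = Ψ.val (Vs π κ₀ hIJ hJ E i j s).toSubmodule (Vs π κ₀ hIJ hJ E i j s).toRepresentation
        + Ψ.val _ (Representation.coind (gam0 J).subtype (chRep (pchar π κ₀ J hJ (i + s) (j - s)))) := by
  have hle : (Vs π κ₀ hIJ hJ E i j s).toSubmodule ≤ (Vs π κ₀ hIJ hJ E i j (s + 1)).toSubmodule := by
    intro f hf g
    refine lt_trans (hf g) ?_
    exact_mod_cast Nat.lt_succ_self s
  refine Ψ.exact' _ _ _ _ _ _ (Submodule.inclusion hle) (lcMap π κ₀ hIJ hJ E i j s)
    (fun g u => rfl) ?_ (Submodule.inclusion_injective hle)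
    (lcMap_surjective π κ₀ hIJ hJ E i j s hs) ?_
  · intro g f
    apply Subtype.ext
    ext1 x
    rw [lcMap_apply, coind_apply, lcMap_apply]
    change (pol π κ₀ hIJ hJ E i j x (Representation.coind (gam0 I).subtype
      (chRep (pchar π κ₀ I (hIJ.trans hJ) i j)) g f.1)).coeff s = _
    rw [pol_coind]
  · ext f
    rw [LinearMap.mem_ker, Submodule.range_inclusion]
    constructor
    · intro hf
      apply Subtype.ext
      ext1 g
      rw [lcMap_apply]
      have h1 : (pol π κ₀ hIJ hJ E i j g f.1).degree < (s : WithBot ℕ) := hf g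
      rw [Polynomial.coeff_eq_zero_of_degree_lt h1]
      rfl
    · intro hf
      change ∀ g, (pol π κ₀ hIJ hJ E i j g f.1).degree < (s : WithBot ℕ)
      intro g
      have h1 : (pol π κ₀ hIJ hJ E i j g f.1).coeff s = 0 := by
        have := congrFun (congrArg Subtype.val hf) g
        rwa [lcMap_apply] at this
      rw [Polynomial.degree_lt_iff_coeff_zero]
      intro m hm
      rcases eq_or_lt_of_le hm with h2 | h2
      · rw [← h2]; exact h1
      · have h3 := (Polynomial.degree_lt_iff_coeff_zero _ _).1 (f.2 g)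
        exact h3 m h2

/-- **(I)**, one step: from `Γ₀(I)` to `Γ₀(J)`. -/
theorem AddFn.ps_step (E : Eps π I J) [Finite (R ⧸ I)] [Finite (R ⧸ J)] (Ψ : AddFn F (GL (Fin 2) R)) :
    Ψ.val _ (Representation.coind (gam0 I).subtype (chRep (pchar π κ₀ I (hIJ.trans hJ) i j)))
      = ∑ s ∈ Finset.range (Fintype.card k), Ψ.val _
        (Representation.coind (gam0 J).subtype (chRep (pchar π κ₀ J hJ (i + s) (j - s)))) := by
  have h1 : ∀ n : ℕ, n ≤ Fintype.card k →
      Ψ.val (Vs π κ₀ hIJ hJ E i j n).toSubmodule (Vs π κ₀ hIJ hJ E i j n).toRepresentation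
        = ∑ s ∈ Finset.range n, Ψ.val _
        (Representation.coind (gam0 J).subtype (chRep (pchar π κ₀ J hJ (i + s) (j - s)))) := by
    intro n
    induction n with
    | zero =>
      intro _
      have hsub : Subsingleton (Vs π κ₀ hIJ hJ E i j 0).toSubmodule := by
        have hz : ∀ f : (Vs π κ₀ hIJ hJ E i j 0).toSubmodule, f = 0 := by
          intro f
          apply Subtype.ext
          apply Subtype.ext
          ext1 g
          have h1 : (pol π κ₀ hIJ hJ E i j g f.1).degree < ((0 : ℕ) : WithBot ℕ) := f.2 g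
          have h2 : pol π κ₀ hIJ hJ E i j g f.1 = 0 := by
            by_contra hne
            have := Polynomial.zero_le_degree_iff.2 hne
            exact absurd (lt_of_le_of_lt this h1) (lt_irrefl _)
          have h3 := pol_eval π κ₀ hIJ hJ E i j g f.1 0
          rw [h2, Polynomial.eval_zero] at h3
          have h4 : nlow ((0 : J) : R) * g = g := by
            have : nlow ((0 : J) : R) = 1 := by
              ext a b
              fin_cases a <;> fin_cases b <;> simp [nlow_00, nlow_01, nlow_10, nlow_11]
            rw [this, one_mul]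
          rw [h4] at h3
          exact h3.symm
        exact ⟨fun a b => by rw [hz a, hz b]⟩
      rw [Finset.range_zero, Finset.sum_empty]
      exact Ψ.val_zero _
    | succ n ih =>
      intro hn
      rw [Vs_succ π κ₀ hIJ hJ E i j Ψ n (by omega), ih (by omega), Finset.sum_range_succ]
  rw [← h1 _ le_rfl]
  symm
  have htop : (Vs π κ₀ hIJ hJ E i j (Fintype.card k)).toSubmodule = ⊤ := by
    rw [eq_top_iff]
    intro f _ g
    exact pol_degree π κ₀ hIJ hJ E i j g f
  refine Ψ.iso _ _ (LinearEquiv.ofTop _ htop) ?_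
  intro g u
  rfl

end step2

section chain

variable {R k F : Type} [CommRing R] [IsLocalRing R] [Field k] [Fintype k] [Field F] (π : R →+* k)

omit [Fintype k] in
/-- A proper ideal of finite index has a predecessor. -/
lemma exists_eps (hπ : Function.Surjective π) (I : Ideal R) [Finite (R ⧸ I)]
    (hI : I < RingHom.ker π) : ∃ J : Ideal R, I < J ∧ J ≤ RingHom.ker π ∧ Nonempty (Eps π I J) := by
  classical
  set m := RingHom.ker π with hm
  have hmax : m = IsLocalRing.maximalIdeal R := ker_eq_max π hπ
  have hex : ∃ n, m ^ n ≤ I := by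
    rw [hmax]
    exact exists_pow_le I
  set n := Nat.find hex with hn
  have hn1 : m ^ n ≤ I := Nat.find_spec hex
  have hn2 : ∀ l < n, ¬ m ^ l ≤ I := fun l hl => Nat.find_min hex hl
  have hn3 : 2 ≤ n := by
    by_contra hcon
    have : n = 0 ∨ n = 1 := by omega
    rcases this with h | h
    · rw [h, pow_zero, Ideal.one_eq_top] at hn1
      exact (lt_irrefl _) (lt_of_le_of_lt hn1 (lt_of_lt_of_le hI le_top))
    · rw [h, pow_one] at hn1
      exact absurd hI (not_lt_of_ge hn1)
  obtain ⟨x, hx, hxI⟩ : ∃ x ∈ m ^ (n - 1), x ∉ I := by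
    have := hn2 (n - 1) (by omega)
    rw [SetLike.not_le_iff_exists] at this
    exact this
  have hxm : x ∈ m := Ideal.pow_le_self (by omega) hx
  have hmx : ∀ r ∈ m, r * x ∈ I := by
    intro r hr
    apply hn1
    have : n = (n - 1) + 1 := by omega
    rw [this, pow_succ, mul_comm r x]
    exact Ideal.mul_mem_mul hx hr
  set J := I ⊔ Ideal.span {x} with hJ
  have hxJ : x ∈ J := Ideal.mem_sup_right (Ideal.mem_span_singleton_self x)
  have hIJ : I < J := lt_of_le_of_ne le_sup_left (fun h => hxI (by rw [h]; exact hxJ))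
  have hJm : J ≤ m := sup_le hI.le (by
    rw [Ideal.span_singleton_le_iff_mem]; exact hxm)
  have hrep : ∀ y : J, ∃ r : R, y.1 - r * x ∈ I := by
    rintro ⟨y, hy⟩
    obtain ⟨a, ha, b, hb, hab⟩ := Submodule.mem_sup.1 hy
    obtain ⟨c, rfl⟩ := Ideal.mem_span_singleton'.1 hb
    refine ⟨c, ?_⟩
    change y - c * x ∈ I
    rw [← hab, add_sub_cancel_right]
    exact ha
  choose r hr using hrep
  have huniq : ∀ a b : R, (a - b) * x ∈ I → π a = π b := by
    intro a b hab
    by_contra hne
    have h1 : IsUnit (a - b) := by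
      by_contra hcon
      have h2 : a - b ∈ IsLocalRing.maximalIdeal R := (IsLocalRing.mem_maximalIdeal _).2 hcon
      rw [← hmax, hm, RingHom.mem_ker, map_sub, sub_eq_zero] at h2
      exact hne h2
    obtain ⟨u, hu⟩ := h1
    apply hxI
    have h3 := I.mul_mem_left ((u⁻¹ : Rˣ) : R) hab
    rwa [← hu, ← mul_assoc, Units.inv_mul, one_mul] at h3
  refine ⟨J, hIJ, hJm, ⟨⟨fun y => π (r y), ?_, ?_, ?_, ?_⟩⟩⟩
  · intro y z
    rw [← map_add]
    apply huniq
    have h1 : (r (y + z) - (r y + r z)) * x
        = (y.1 - r y * x) + (z.1 - r z * x) - ((y + z).1 - r (y + z) * x) := by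
      have : (y + z).1 = y.1 + z.1 := rfl
      rw [this]; ring
    rw [h1]
    exact I.sub_mem (I.add_mem (hr y) (hr z)) (hr (y + z))
  · intro c y
    rw [← map_mul]
    apply huniq
    have h1 : (r (c • y) - c * r y) * x
        = c * (y.1 - r y * x) - ((c • y).1 - r (c • y) * x) := by
      have : (c • y).1 = c * y.1 := rfl
      rw [this]; ring
    rw [h1]
    exact I.sub_mem (I.mul_mem_left _ (hr y)) (hr (c • y))
  · intro y
    constructor
    · intro h
      have h1 : r y * x ∈ I := hmx _ h
      have := I.add_mem (hr y) h1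
      rwa [sub_add_cancel] at this
    · intro h
      rw [← map_zero π]
      apply huniq
      have h1 := I.sub_mem h (hr y)
      rw [sub_sub_cancel] at h1
      rwa [sub_zero]
  · intro c
    obtain ⟨a, ha⟩ := hπ c
    refine ⟨⟨a * x, J.mul_mem_left _ hxJ⟩, ?_⟩
    rw [← ha]
    apply huniq
    have h1 := hr ⟨a * x, J.mul_mem_left _ hxJ⟩
    have h2 := I.neg_mem h1
    rw [neg_sub, ← sub_mul] at h2
    exact h2

omit [IsLocalRing R] in
/-- `|R/I| = q |R/J|` -/
lemma card_eps {I J : Ideal R} (hIJ : I ≤ J) (E : Eps π I J) :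
    Nat.card (R ⧸ I) = Fintype.card k * Nat.card (R ⧸ J) := by
  let e : J →+ k :=
    { toFun := E.ε
      map_zero' := (E.ker 0).2 I.zero_mem
      map_add' := E.add }
  have hker : (I.toAddSubgroup).addSubgroupOf J.toAddSubgroup = e.ker := by
    ext x
    rw [AddSubgroup.mem_addSubgroupOf, AddMonoidHom.mem_ker]
    exact (E.ker x).symm
  have h1 : (I.toAddSubgroup).relIndex J.toAddSubgroup = Fintype.card k := by
    unfold AddSubgroup.relIndex
    rw [hker, AddSubgroup.index_ker, AddMonoidHom.range_eq_top.2 E.surj]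
    rw [← Nat.card_eq_fintype_card]
    exact Nat.card_congr (Equiv.Set.univ k)
  have h2 := AddSubgroup.relIndex_mul_index (H := I.toAddSubgroup) (K := J.toAddSubgroup) hIJ
  rw [h1] at h2
  exact h2.symm

variable (κ₀ : k →+* F)

/-- **(I)** Principal series of arbitrary conductor. -/
theorem AddFn.ps_conductor (hπ : Function.Surjective π) (Ψ : AddFn F (GL (Fin 2) R)) :
    ∀ (n : ℕ) (I : Ideal R) (hI : I ≤ RingHom.ker π) [Finite (R ⧸ I)], Nat.card (R ⧸ I) ≤ n →
      ∃ t : ℕ, Nat.card (R ⧸ I) = Fintype.card k * ((Fintype.card k - 1) * t + 1) ∧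
        ∀ i j : ℤ, Ψ.val _ (Representation.coind (gam0 I).subtype (chRep (pchar π κ₀ I hI i j)))
          = Ψ.val _ (Representation.coind (gam0 (RingHom.ker π)).subtype (chRep (bchar π κ₀ i j)))
            + t * Ψ.val _ (Representation.coind (zu π).subtype (chRep (zchar π (kpow κ₀ (i + j))))) := by
  have hq : 2 ≤ Fintype.card k := Fintype.one_lt_card
  intro n
  induction n with
  | zero =>
    intro I hI _ hn
    exfalso
    have : 0 < Nat.card (R ⧸ I) := Nat.card_pos
    omega
  | succ n ih =>
    intro I hI _ hn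
    rcases eq_or_lt_of_le hI with h | h
    · subst h
      refine ⟨0, ?_, fun i j => ?_⟩
      · have e : R ⧸ RingHom.ker π ≃+* k := RingHom.quotientKerEquivOfSurjective hπ
        rw [Nat.card_congr e.toEquiv, Nat.card_eq_fintype_card]
        simp
      · rw [Nat.cast_zero, zero_mul, add_zero]
        exact Ψ.coind_congr _ _ rfl (fun g hg hg' => rfl)
    · obtain ⟨J, hIJ, hJ, ⟨E⟩⟩ := exists_eps π hπ I h
      have hfin : Finite (R ⧸ J) :=
        Finite.of_surjective _ (Ideal.Quotient.factor_surjective hIJ.le)
      have hcard := card_eps π hIJ.le E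
      have hpos : 0 < Nat.card (R ⧸ J) := Nat.card_pos
      have hlt : Nat.card (R ⧸ J) ≤ n := by nlinarith
      obtain ⟨t, ht, hval⟩ := ih J hJ hlt
      refine ⟨Fintype.card k * t + 1, ?_, fun i j => ?_⟩
      · rw [hcard, ht]
        obtain ⟨c, hc⟩ : ∃ c, Fintype.card k = c + 1 := ⟨Fintype.card k - 1, by omega⟩
        rw [hc, Nat.add_sub_cancel]
        ring
      · rw [Ψ.ps_step π κ₀ hIJ.le hJ i j E]
        set q := Fintype.card k with hqd
        have hsum : ∀ s : ℕ, Ψ.val _
            (Representation.coind (gam0 J).subtype (chRep (pchar π κ₀ J hJ (i + s) (j - s))))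
            = Ψ.val _ (Representation.coind (gam0 (RingHom.ker π)).subtype
                (chRep (bchar π κ₀ (i + s) (j - s))))
              + t * Ψ.val _ (Representation.coind (zu π).subtype
                (chRep (zchar π (kpow κ₀ (i + j))))) := by
          intro s
          have h1 := hval (i + s) (j - s)
          have h2 : i + (s : ℤ) + (j - s) = i + j := by ring
          rw [h2] at h1
          exact h1
        rw [Finset.sum_congr rfl (fun s _ => hsum s), Finset.sum_add_distrib, Finset.sum_const,
          Finset.card_range, nsmul_eq_mul]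
        set Z := Ψ.val _ (Representation.coind (zu π).subtype
                (chRep (zchar π (kpow κ₀ (i + j))))) with hZ
        set G : ℤ → ℤ := fun t => Ψ.val _ (Representation.coind
          (gam0 (RingHom.ker π)).subtype (chRep (bchar π κ₀ t (i + j - t)))) with hG
        have hz : ∑ s ∈ Finset.range (q - 1), G s = Z := by
          rw [hZ, Ψ.zu_eq π κ₀ hπ (i + j)]
        have hper : ∀ t, G (t + ((q - 1 : ℕ) : ℤ)) = G t := by
          intro t
          have hm : ((q - 1 : ℕ) : ℤ) = (Fintype.card k : ℤ) - 1 := by omega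
          rw [hm]
          refine Ψ.bchar_congr π κ₀ _ _ _ _ (fun c hc => ?_) (fun c hc => ?_)
          · have := kpow_period κ₀ c hc t 1
            rwa [one_mul] at this
          · have := kpow_period κ₀ c hc (i + j - t) (-1)
            rw [← this]
            congr 1
            ring
        have hsh := sum_shift G (q - 1) hper (i + 1)
        have hGs : ∀ s : ℕ, Ψ.val _ (Representation.coind (gam0 (RingHom.ker π)).subtype
                (chRep (bchar π κ₀ (i + s) (j - s)))) = G (i + s) := by
          intro s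
          simp only [hG]
          have h2 : i + j - (i + (s : ℤ)) = j - s := by ring
          rw [h2]
        have hq1 : q = (q - 1) + 1 := by omega
        have hsum2 : ∑ s ∈ Finset.range q, Ψ.val _ (Representation.coind
            (gam0 (RingHom.ker π)).subtype (chRep (bchar π κ₀ (i + s) (j - s))))
            = G i + Z := by
          rw [Finset.sum_congr rfl (fun s _ => hGs s), hq1, Finset.sum_range_succ', ← hz, ← hsh]
          have h3 : ∀ s : ℕ, G (i + ((s + 1 : ℕ) : ℤ)) = G (i + 1 + s) := by
            intro s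
            congr 1
            push_cast
            ring
          rw [Finset.sum_congr rfl (fun s _ => h3 s), Nat.cast_zero, add_zero, add_comm]
        rw [hsum2]
        have hGi : G i = Ψ.val _ (Representation.coind (gam0 (RingHom.ker π)).subtype
            (chRep (bchar π κ₀ i j))) := by
          simp only [hG]
          have h2 : i + j - i = j := by ring
          rw [h2]
        rw [hGi]
        push_cast
        ring

end chain

end Pool.Agent.Work.MP_39033f_nt
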