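import Pool.Agent.Work.MP_39033f_nt.Ring

set_option autoImplicit false

open scoped MonoidAlgebra

/-!
Definitions used in the statement of the explicit identities.
-/

namespace Pool.Agent.Work.MP_39033f_nt

/-- The one-dimensional representation given by a character. -/
noncomputable def chRep {F : Type} [Field F] {H : Type} [Group H] (χ : H →* Fˣ) :
    Representation F H F where
  toFun h := ((χ h : Fˣ) : F) • LinearMap.id
  map_one' := by simp; rfl
  map_mul' a b := by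
    ext
    simp [mul_comm]

section same

variable {F Γ U V N : Type} [Field F] [Group Γ] [AddCommGroup V] [Module F V]
  [AddCommGroup N] [Module F N] [AddCommGroup U] [Module F U]

/-- `ρ` and `σ` have the same Jordan–Hölder factors. -/
def SameJH (ρ : Representation F Γ V) (σ : Representation F Γ N) : Prop :=
  ∀ (μ : WeightFn F[Γ]) (n : ℕ), RepJHSum μ ρ n ↔ RepJHSum μ σ n

/-- `[ρ] + [σ] = [τ]` in the Grothendieck group. -/
def SumJH (ρ : Representation F Γ V) (σ : Representation F Γ N) (τ : Representation F Γ U) :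
    Prop :=
  ∀ (μ : WeightFn F[Γ]) (a b c : ℕ), RepJHSum μ ρ a → RepJHSum μ σ b → RepJHSum μ τ c → a + b = c

end same

section sums

variable {Emb : Type} [Fintype Emb] [DecidableEq Emb]

/-- The sum of `G (λ + η)` over the weights `η = (u - l, v + l)` at `x₀` of `det^v Sym^{u-v}`. -/
def ssum (G : (Emb → ℤ × ℤ) → ℤ) (lam : Emb → ℤ × ℤ) (x₀ : Emb) (u v : ℤ) : ℤ :=
  ∑ l ∈ Finset.range ((u - v).toNat + 1), G (lam + Pi.single x₀ (u - (l : ℤ), v + (l : ℤ)))

/-- `e(λ + (r + q² - 1, 0)) - e(λ + (r, 0))` times `λ_{x₀,1} - λ_{x₀,2} + 1` -/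
def zterm (q : ℕ) (e : (Emb → ℤ × ℤ) → ℤ) (lam : Emb → ℤ × ℤ) (x₀ : Emb) (r : ℕ) : ℤ :=
  ((lam x₀).1 - (lam x₀).2 + 1) *
    (e (lam + Pi.single x₀ ((r : ℤ) + (q : ℤ) ^ 2 - 1, 0)) - e (lam + Pi.single x₀ ((r : ℤ), 0)))

/-- The sum for `det^0 Sym^(a + q² - 1)` minus the sum for `det^0 Sym^(a + q - 1)`. -/
def tterm (q : ℕ) (e : (Emb → ℤ × ℤ) → ℤ) (lam : Emb → ℤ × ℤ) (x₀ : Emb) (a : ℕ) : ℤ :=
  ssum (hat e) lam x₀ ((a : ℤ) + (q : ℤ) ^ 2 - 1) 0 - ssum (hat e) lam x₀ ((a : ℤ) + q - 1) 0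

end sums

end Pool.Agent.Work.MP_39033f_nt
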