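import Pool.Agent.Work.MP_39033f_nt.TyBorel

set_option autoImplicit false

open MvPolynomial
open scoped MonoidAlgebra TensorProduct

namespace Pool.Agent.Work.MP_39033f_nt

section dim

set_option linter.unusedSectionVars false

variable {F Emb : Type} [Field F] [Fintype Emb] [DecidableEq Emb]

/-- the exponent `(i, n - i)` at `x₀` -/
noncomputable def mon (x₀ : Emb) (n i : ℕ) : (Emb × Fin 2) →₀ ℕ :=
  Finsupp.single (x₀, 0) i + Finsupp.single (x₀, 1) (n - i)

omit [Fintype Emb] in
lemma mon_zero (x₀ : Emb) (n i : ℕ) : mon x₀ n i (x₀, 0) = i := by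
  simp [mon]

omit [Fintype Emb] in
lemma mon_one (x₀ : Emb) (n i : ℕ) : mon x₀ n i (x₀, 1) = n - i := by
  simp [mon]

omit [Fintype Emb] in
lemma mon_ne (x₀ : Emb) (n i : ℕ) (x : Emb) (hx : x ≠ x₀) (j : Fin 2) : mon x₀ n i (x, j) = 0 := by
  simp [mon, hx]

lemma mon_mem (x₀ : Emb) {nn : Emb → ℕ} (hnn : ∀ x, x ≠ x₀ → nn x = 0) (i : ℕ)
    (hi : i ≤ nn x₀) (c : F) : monomial (mon x₀ (nn x₀) i) c ∈ Homog F nn := by
  classical
  rw [mem_Homog_iff]
  intro m hm x
  rw [coeff_monomial] at hm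
  have h1 : mon x₀ (nn x₀) i = m := by
    by_contra hne
    rw [if_neg hne] at hm
    exact hm rfl
  rw [← h1]
  by_cases hx : x = x₀
  · subst hx
    rw [mon_zero, mon_one]
    omega
  · rw [mon_ne _ _ _ _ hx, mon_ne _ _ _ _ hx, hnn x hx]

lemma eq_mon (x₀ : Emb) {nn : Emb → ℕ} (hnn : ∀ x, x ≠ x₀ → nn x = 0)
    {P : MvPolynomial (Emb × Fin 2) F} (hP : P ∈ Homog F nn) {m : (Emb × Fin 2) →₀ ℕ}
    (hm : coeff m P ≠ 0) : m (x₀, 0) ≤ nn x₀ ∧ m = mon x₀ (nn x₀) (m (x₀, 0)) := by
  rw [mem_Homog_iff] at hP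
  have h1 := hP m hm
  have h2 := h1 x₀
  refine ⟨by omega, ?_⟩
  ext ⟨x, j⟩
  by_cases hx : x = x₀
  · subst hx
    fin_cases j
    · simp only [Fin.zero_eta, mon_zero]
    · simp only [Fin.mk_one, mon_one]
      omega
  · rw [mon_ne _ _ _ _ hx]
    have h3 := h1 x
    rw [hnn x hx] at h3
    fin_cases j
    · simp only [Fin.zero_eta]
      omega
    · simp only [Fin.mk_one]
      omega

/-- Coordinates on binary forms. -/
noncomputable def coordMap (x₀ : Emb) (nn : Emb → ℕ) : Homog F nn →ₗ[F] (Fin (nn x₀ + 1) → F) where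
  toFun P i := coeff (mon x₀ (nn x₀) i) P.1
  map_add' P Q := by
    ext1 i
    exact coeff_add _ _ _
  map_smul' c P := by
    ext1 i
    exact coeff_smul _ _ _

lemma coordMap_bij (x₀ : Emb) {nn : Emb → ℕ} (hnn : ∀ x, x ≠ x₀ → nn x = 0) :
    Function.Bijective (coordMap (F := F) x₀ nn) := by
  classical
  constructor
  · rw [← LinearMap.ker_eq_bot, LinearMap.ker_eq_bot']
    intro P hP
    apply Subtype.ext
    ext m
    rw [Submodule.coe_zero, coeff_zero]
    by_contra hm
    obtain ⟨h1, h2⟩ := eq_mon x₀ hnn P.2 hm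
    apply hm
    rw [h2]
    exact congrFun hP ⟨m (x₀, 0), by omega⟩
  · intro c
    refine ⟨∑ i : Fin (nn x₀ + 1), ⟨monomial (mon x₀ (nn x₀) i) (c i),
      mon_mem x₀ hnn i (by omega) _⟩, ?_⟩
    rw [map_sum]
    ext1 j
    rw [Finset.sum_apply, Finset.sum_eq_single j]
    · change coeff (mon x₀ (nn x₀) j) (monomial (mon x₀ (nn x₀) j) (c j)) = c j
      rw [coeff_monomial, if_pos rfl]
    · intro i _ hij
      change coeff (mon x₀ (nn x₀) j) (monomial (mon x₀ (nn x₀) i) (c i)) = 0
      rw [coeff_monomial, if_neg]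
      intro h
      apply hij
      apply Fin.ext
      have := DFunLike.congr_fun h (x₀, 0)
      rwa [mon_zero, mon_zero] at this
    · intro h
      exact absurd (Finset.mem_univ j) h

lemma finrank_homog (x₀ : Emb) {nn : Emb → ℕ} (hnn : ∀ x, x ≠ x₀ → nn x = 0) :
    Module.finrank F (Homog F nn) = nn x₀ + 1 := by
  rw [(LinearEquiv.ofBijective _ (coordMap_bij (F := F) x₀ hnn)).finrank_eq,
    Module.finrank_fintype_fun_eq_card, Fintype.card_fin]

omit [Fintype Emb] in
lemma gap_single_ne (x₀ : Emb) (v : ℤ × ℤ) (x : Emb) (hx : x ≠ x₀) :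
    gap (Pi.single x₀ v) x = 0 := by
  simp [gap, hx]

omit [Fintype Emb] in
lemma gap_single_self (x₀ : Emb) (v : ℤ × ℤ) : gap (Pi.single x₀ v) x₀ = (v.1 - v.2).toNat := by
  simp [gap]

end dim

section evl

variable {R k F Emb : Type} [CommRing R] [Field k] [Field F] [Fintype Emb] [DecidableEq Emb]

/-- The reduction map on `GL₂`. -/
noncomputable abbrev gp (π : R →+* k) : GL (Fin 2) R →* GL (Fin 2) k :=
  Matrix.GeneralLinearGroup.map π

variable (π : R →+* k) (κ : Emb → k →+* F) (x₀ : Emb)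

lemma gp_det (g : GL (Fin 2) R) : ((gp π g).det : k) = π (g.det : R) := by
  rw [gl_det, pi_det]
  rfl

/-- evaluating a form of degree `n` in the variables of `x₀` -/
lemma evR_homog {nn : Emb → ℕ} (hnn : ∀ x, x ≠ x₀ → nn x = 0)
    {P : MvPolynomial (Emb × Fin 2) F} (hP : P ∈ Homog F nn) (c : k) (r : Fin 2 → k) :
    evR κ (fun j => c * r j) P = κ x₀ c ^ nn x₀ * evR κ r P := by
  classical
  conv_lhs => rw [P.as_sum]
  conv_rhs => rw [P.as_sum]
  rw [map_sum, map_sum, Finset.mul_sum]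
  refine Finset.sum_congr rfl fun m hm => ?_
  obtain ⟨h1, h2⟩ := eq_mon x₀ hnn hP (mem_support_iff.1 hm)
  have hev : ∀ (s : Fin 2 → k), evR κ s (monomial m (coeff m P))
      = coeff m P * (κ x₀ (s 0) ^ m (x₀, 0) * κ x₀ (s 1) ^ (nn x₀ - m (x₀, 0))) := by
    intro s
    unfold evR
    rw [aeval_monomial, Algebra.algebraMap_self, RingHom.id_apply]
    congr 1
    conv_lhs => rw [h2]
    unfold mon
    rw [Finsupp.prod_add_index' (by simp) (by intro a b c; exact pow_add _ _ _),
      Finsupp.prod_single_index (by simp), Finsupp.prod_single_index (by simp)]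
  rw [hev, hev, map_mul, map_mul, mul_pow, mul_pow]
  have h3 : κ x₀ c ^ nn x₀ = κ x₀ c ^ m (x₀, 0) * κ x₀ c ^ (nn x₀ - m (x₀, 0)) := by
    rw [← pow_add]
    congr 1
    omega
  rw [h3]
  ring

/-- Evaluation of forms at the lower row. -/
noncomputable def evMap (a b : ℤ) (hab : b ≤ a) :
    Homog F (gap (Pi.single x₀ (a, b))) →ₗ[F]
      Representation.coindV (gam0 (RingHom.ker π)).subtype (chRep (bchar π (κ x₀) b a)) where
  toFun P := ⟨fun g => κ x₀ (π (g.det : R)) ^ b * evR κ (row (gp π g) 1) P.1, by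
    intro h g
    rw [chRep_apply, bchar_val]
    have h1 : row (gp π (h.1 * g)) 1 = fun j => π (h.1 1 1) * row (gp π g) 1 j := by
      ext1 j
      change π ((h.1 * g) 1 j) = π (h.1 1 1) * π (g 1 j)
      rw [gl_mul_apply, map_add, map_mul, map_mul, borel_lower π h.2, zero_mul, zero_add]
    have h2 : π ((h.1 * g).det : R) = π (h.1 0 0) * π (h.1 1 1) * π (g.det : R) := by
      rw [map_mul, Units.val_mul, map_mul, pi_det π h.1, borel_lower π h.2, mul_zero, sub_zero]
    change κ x₀ (π ((h.1 * g).det : R)) ^ b * evR κ (row (gp π (h.1 * g)) 1) P.1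
      = κ x₀ (π (h.1 0 0)) ^ b * κ x₀ (π (h.1 1 1)) ^ a * (κ x₀ (π (g.det : R)) ^ b *
        evR κ (row (gp π g) 1) P.1)
    rw [h1, h2, evR_homog κ x₀ (gap_single_ne x₀ (a, b)) P.2, gap_single_self, map_mul, map_mul,
      mul_zpow, mul_zpow]
    have h3 : κ x₀ (π (h.1 1 1)) ≠ 0 := by
      rw [map_ne_zero_iff _ (κ x₀).injective]
      exact borel_diag_ne π h.2 1
    have h4 : κ x₀ (π (h.1 1 1)) ^ a
        = κ x₀ (π (h.1 1 1)) ^ b * κ x₀ (π (h.1 1 1)) ^ (a - b).toNat := by
      rw [← zpow_natCast, ← zpow_add₀ h3]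
      congr 1
      omega
    rw [h4]
    ring⟩
  map_add' P Q := by
    apply Subtype.ext
    ext1 g
    simp only [Submodule.coe_add, Pi.add_apply, map_add, mul_add]
  map_smul' c P := by
    apply Subtype.ext
    ext1 g
    simp only [Submodule.coe_smul, Pi.smul_apply, map_smul, RingHom.id_apply, smul_eq_mul]
    ring

lemma evMap_apply (a b : ℤ) (hab : b ≤ a) (P : Homog F (gap (Pi.single x₀ (a, b))))
    (g : GL (Fin 2) R) : (evMap π κ x₀ a b hab P).1 g
      = κ x₀ (π (g.det : R)) ^ b * evR κ (row (gp π g) 1) P.1 := rfl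

lemma W_single_coe (a b : ℤ) (g : GL (Fin 2) k) (P : Homog F (gap (Pi.single x₀ (a, b)))) :
    (W κ (Pi.single x₀ (a, b)) g P).1 = (κ x₀ (g.det : k)) ^ b • subst κ g P.1 := by
  rw [W_coe]
  congr 1
  rw [Finset.prod_eq_single x₀]
  · rw [Pi.single_eq_same]
  · intro x _ hx
    rw [Pi.single_eq_of_ne hx]
    exact zpow_zero _
  · intro h
    exact absurd (Finset.mem_univ x₀) h

lemma evMap_equivariant (a b : ℤ) (hab : b ≤ a) (g : GL (Fin 2) R)
    (P : Homog F (gap (Pi.single x₀ (a, b)))) :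
    evMap π κ x₀ a b hab (Wi (gp π) κ (Pi.single x₀ (a, b)) g P)
      = Representation.coind (gam0 (RingHom.ker π)).subtype (chRep (bchar π (κ x₀) b a)) g
        (evMap π κ x₀ a b hab P) := by
  apply Subtype.ext
  ext1 g'
  rw [coind_apply, evMap_apply, evMap_apply]
  change κ x₀ (π (g'.det : R)) ^ b * evR κ (row (gp π g') 1)
    (W κ (Pi.single x₀ (a, b)) (gp π g) P).1 = _
  have hd : π ((g' * g).det : R) = π (g'.det : R) * π (g.det : R) := by
    rw [map_mul, Units.val_mul, map_mul]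
  rw [W_single_coe, map_smul, smul_eq_mul, evR_subst, ← row_mul, ← map_mul, gp_det, hd,
    map_mul (κ x₀), mul_zpow]
  ring

/-- `Y^n - X^{q-1} Y^{n-q+1}` -/
noncomputable def peak (q n : ℕ) : MvPolynomial (Emb × Fin 2) F :=
  X (x₀, 1) ^ n - X (x₀, 0) ^ (q - 1) * X (x₀, 1) ^ (n - q + 1)

lemma peak_mem (q n : ℕ) (hq : 1 ≤ q) (hn : q ≤ n) {nn : Emb → ℕ}
    (hnn : ∀ x, x ≠ x₀ → nn x = 0) (h0 : nn x₀ = n) : peak (F := F) x₀ q n ∈ Homog F nn := by
  have h1 : ∀ i j : ℕ, i + j = n → X (x₀, 0) ^ i * X (x₀, 1) ^ j ∈ Homog F nn := by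
    intro i j hij
    have h2 := mon_mem (F := F) x₀ hnn i (by omega) 1
    have h3 : mon x₀ (nn x₀) i = Finsupp.single (x₀, 0) i + Finsupp.single (x₀, 1) j := by
      unfold mon
      rw [show nn x₀ - i = j by omega]
    rw [h3] at h2
    rwa [X_pow_eq_monomial, X_pow_eq_monomial, monomial_mul, one_mul]
  unfold peak
  refine Submodule.sub_mem _ ?_ (h1 _ _ (by omega))
  have := h1 0 n (by omega)
  rwa [pow_zero, one_mul] at this

omit [Fintype Emb] [DecidableEq Emb] in
lemma evR_peak [Fintype k] [DecidableEq k] (n : ℕ) (hn : Fintype.card k ≤ n) (r : Fin 2 → k) :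
    evR κ r (peak x₀ (Fintype.card k) n) = if r 0 = 0 then κ x₀ (r 1) ^ n else 0 := by
  have hq : 2 ≤ Fintype.card k := Fintype.one_lt_card
  unfold peak evR
  simp only [map_sub, map_mul, map_pow, aeval_X]
  split_ifs with h
  · rw [h, map_zero, zero_pow (by omega), zero_mul, sub_zero]
  · have h1 : κ x₀ (r 0) ^ (Fintype.card k - 1) = 1 := by
      rw [← map_pow, FiniteField.pow_card_sub_one_eq_one _ h, map_one]
    rw [h1, one_mul, sub_eq_zero]
    have h2 : n = (n - Fintype.card k) + Fintype.card k := by omega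
    conv_lhs => rw [h2]
    rw [pow_add, pow_add, ← map_pow, ← map_pow, ← map_pow, FiniteField.pow_card, pow_one]

lemma evMap_surjective [Fintype k] (a b : ℤ) (hab : b + Fintype.card k ≤ a) :
    Function.Surjective (evMap π κ x₀ a b (by omega)) := by
  classical
  rw [← LinearMap.range_eq_top]
  apply delta_generates
  · rintro g _ ⟨P, rfl⟩
    exact ⟨_, evMap_equivariant π κ x₀ a b _ g P⟩
  · refine ⟨⟨peak x₀ (Fintype.card k) (a - b).toNat, peak_mem x₀ _ _ ?_ ?_
      (gap_single_ne x₀ (a, b)) (gap_single_self x₀ _)⟩, ?_⟩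
    · exact Fintype.card_pos
    · omega
    · apply Subtype.ext
      ext1 g
      rw [evMap_apply, evR_peak κ x₀ _ (by omega)]
      by_cases hg : g ∈ gam0 (RingHom.ker π)
      · have h1 : row (gp π g) 1 0 = 0 := hg
        rw [if_pos h1]
        have h2 := delta_mem (gam0 (RingHom.ker π)) (bchar π (κ x₀) b a) ⟨g, hg⟩
        rw [h2, bchar_val]
        change κ x₀ (π (g.det : R)) ^ b * κ x₀ (π (g 1 1)) ^ (a - b).toNat
          = κ x₀ (π (g 0 0)) ^ b * κ x₀ (π (g 1 1)) ^ a
        rw [pi_det, borel_lower π hg, mul_zero, sub_zero, map_mul, mul_zpow]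
        have h3 : κ x₀ (π (g 1 1)) ≠ 0 := by
          rw [map_ne_zero_iff _ (κ x₀).injective]
          exact borel_diag_ne π hg 1
        have h4 : κ x₀ (π (g 1 1)) ^ a
            = κ x₀ (π (g 1 1)) ^ b * κ x₀ (π (g 1 1)) ^ (a - b).toNat := by
          rw [← zpow_natCast, ← zpow_add₀ h3]
          congr 1
          omega
        rw [h4]
        ring
      · have h1 : ¬ row (gp π g) 1 0 = 0 := hg
        rw [if_neg h1, mul_zero]
        exact (delta_notMem _ _ g hg).symm

end evl

section theta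

variable {R k F Emb : Type} [CommRing R] [Field k] [Fintype k]
  [Field F] [Fintype Emb] [DecidableEq Emb]
  (π : R →+* k) (κ : Emb → k →+* F) (x₀ : Emb)

include κ in
omit [DecidableEq Emb] [Fintype Emb] in
/-- the cardinality of `k` is a power of the characteristic -/
lemma frob_q (x : Emb) (a b : MvPolynomial (Emb × Fin 2) F) :
    (a + b) ^ Fintype.card k = a ^ Fintype.card k + b ^ Fintype.card k := by
  obtain ⟨p, hp⟩ := CharP.exists k
  obtain ⟨n, hprime, hn⟩ := FiniteField.card k p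
  have : Fact p.Prime := ⟨hprime⟩
  have : CharP F p := charP_of_injective_ringHom (κ x).injective p
  rw [hn]
  exact add_pow_char_pow a b p n

/-- `X^q Y - X Y^q` -/
noncomputable def theta (q : ℕ) : MvPolynomial (Emb × Fin 2) F :=
  X (x₀, 0) ^ q * X (x₀, 1) - X (x₀, 0) * X (x₀, 1) ^ q

omit [DecidableEq Emb] [Fintype Emb] in
lemma subst_theta (g : GL (Fin 2) k) : subst κ g (theta x₀ (Fintype.card k))
    = C (κ x₀ (g.det : k)) * theta x₀ (Fintype.card k) := by
  have hf := frob_q κ x₀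
  have hc : ∀ c : k, C (κ x₀ c) ^ Fintype.card k = (C (κ x₀ c) : MvPolynomial (Emb × Fin 2) F) := by
    intro c
    rw [← map_pow, ← map_pow, FiniteField.pow_card]
  unfold theta
  rw [map_sub, map_mul, map_mul, map_pow, map_pow, subst_X, subst_X, Fin.sum_univ_two,
    Fin.sum_univ_two, hf, hf, mul_pow, mul_pow, mul_pow, mul_pow, hc, hc, hc, hc, gl_det,
    map_sub, map_sub, map_mul, map_mul, map_mul, map_mul]
  ring

lemma theta_mul_mem (q : ℕ) {nn nn' : Emb → ℕ} (h : nn' = nn + Pi.single x₀ (q + 1))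
    {P : MvPolynomial (Emb × Fin 2) F} (hP : P ∈ Homog F nn) : theta x₀ q * P ∈ Homog F nn' := by
  have h1 : ∀ i j : ℕ, i + j = q + 1 → X (x₀, 0) ^ i * (X (x₀, 1) ^ j * P) ∈ Homog F nn' := by
    intro i j hij
    have e1 := X_pow_mul_mem x₀ 1 j (n' := nn + Pi.single x₀ j) rfl hP
    refine X_pow_mul_mem x₀ 0 i ?_ e1
    rw [h, add_assoc, ← Pi.single_add]
    congr 2
    omega
  have h2 : theta x₀ q * P = X (x₀, 0) ^ q * (X (x₀, 1) ^ 1 * P)
      - X (x₀, 0) ^ 1 * (X (x₀, 1) ^ q * P) := by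
    unfold theta; ring
  rw [h2]
  exact Submodule.sub_mem _ (h1 _ _ rfl) (h1 _ _ (add_comm _ _))

omit [Fintype Emb] in
lemma theta_ne_zero (q : ℕ) (hq : 2 ≤ q) : theta (F := F) x₀ q ≠ 0 := by
  classical
  intro h
  have h1 := congrArg (coeff (Finsupp.single (x₀, 0) q + Finsupp.single (x₀, (1 : Fin 2)) 1)) h
  have h2 : theta (F := F) x₀ q = monomial (Finsupp.single (x₀, 0) q
      + Finsupp.single (x₀, (1 : Fin 2)) 1) 1 - monomial (Finsupp.single (x₀, 0) 1
      + Finsupp.single (x₀, (1 : Fin 2)) q) 1 := by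
    have h3 : theta (F := F) x₀ q = X (x₀, 0) ^ q * X (x₀, 1) ^ 1
        - X (x₀, 0) ^ 1 * X (x₀, 1) ^ q := by
      rw [pow_one, pow_one]
      rfl
    rw [h3, X_pow_eq_monomial, X_pow_eq_monomial, X_pow_eq_monomial, X_pow_eq_monomial,
      monomial_mul, monomial_mul, one_mul]
  rw [h2, coeff_sub, coeff_monomial, coeff_monomial, if_pos rfl, if_neg, coeff_zero] at h1
  · simp at h1
  · intro h3
    have := DFunLike.congr_fun h3 (x₀, 0)
    simp at this
    omega

/-- Multiplication by `theta`. -/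
noncomputable def thMap (q : ℕ) {nn nn' : Emb → ℕ} (h : nn' = nn + Pi.single x₀ (q + 1)) :
    Homog F nn →ₗ[F] Homog F nn' where
  toFun P := ⟨theta x₀ q * P.1, theta_mul_mem x₀ q h P.2⟩
  map_add' P Q := by
    apply Subtype.ext
    exact mul_add _ _ _
  map_smul' c P := by
    apply Subtype.ext
    exact mul_smul_comm _ _ _

lemma thMap_injective (q : ℕ) (hq : 2 ≤ q) {nn nn' : Emb → ℕ}
    (h : nn' = nn + Pi.single x₀ (q + 1)) : Function.Injective (thMap (F := F) x₀ q h) := by
  intro P Q hPQ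
  apply Subtype.ext
  have := congrArg Subtype.val hPQ
  exact mul_left_cancel₀ (theta_ne_zero x₀ q hq) this

omit [Fintype Emb] in
lemma gap_theta (q : ℕ) (a b : ℤ) (hab : b + q + 1 ≤ a) :
    gap (Pi.single x₀ (a, b)) = gap (Pi.single x₀ (a - q, b + 1)) + Pi.single x₀ (q + 1) := by
  ext1 x
  by_cases hx : x = x₀
  · subst hx
    rw [Pi.add_apply, gap_single_self, gap_single_self, Pi.single_eq_same]
    simp only
    omega
  · rw [Pi.add_apply, gap_single_ne _ _ _ hx, gap_single_ne _ _ _ hx, Pi.single_eq_of_ne hx,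
      add_zero]

/-- **(E1)** The principal series as a difference of symmetric powers. -/
theorem AddFn.ps_eq (hπ : Function.Surjective π) (Ψ : AddFn F (GL (Fin 2) R)) (a b : ℤ)
    (hab : b + Fintype.card k ≤ a) :
    Ψ.val _ (Representation.coind (gam0 (RingHom.ker π)).subtype (chRep (bchar π (κ x₀) b a)))
      = Ψ.val _ (Wi (gp π) κ (Pi.single x₀ (a, b)))
        - (if b + Fintype.card k = a then 0
            else Ψ.val _ (Wi (gp π) κ (Pi.single x₀ (a - Fintype.card k, b + 1)))) := by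
  have hq : 2 ≤ Fintype.card k := Fintype.one_lt_card
  have hsurj := evMap_surjective π κ x₀ a b hab
  have hdim1 : Module.finrank F (Homog F (gap (Pi.single x₀ (a, b)))) = (a - b).toNat + 1 := by
    rw [finrank_homog x₀ (gap_single_ne x₀ (a, b)), gap_single_self]
  have hdim2 : Module.finrank F (Representation.coindV (gam0 (RingHom.ker π)).subtype
      (chRep (bchar π (κ x₀) b a))) = Fintype.card k + 1 := by
    rw [finrank_coind, borel_index π hπ, Module.finrank_self, mul_one, Nat.card_eq_fintype_card]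
  have hrk := LinearMap.finrank_range_add_finrank_ker (evMap π κ x₀ a b (by omega))
  rw [LinearMap.range_eq_top.2 hsurj, finrank_top, hdim1, hdim2] at hrk
  split_ifs with h
  · rw [sub_zero]
    symm
    have hinj : Function.Injective (evMap π κ x₀ a b (by omega)) := by
      rw [← LinearMap.ker_eq_bot, ← Submodule.finrank_eq_zero (R := F)]
      omega
    exact Ψ.iso _ _ (LinearEquiv.ofBijective _ ⟨hinj, hsurj⟩)
      (fun g u => evMap_equivariant π κ x₀ a b (by omega) g u)
  · have hgap := gap_theta x₀ (Fintype.card k) a b (by omega)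
    have hex := Ψ.exact' _ _ _ (Wi (gp π) κ (Pi.single x₀ (a - Fintype.card k, b + 1)))
      (Wi (gp π) κ (Pi.single x₀ (a, b)))
      (Representation.coind (gam0 (RingHom.ker π)).subtype (chRep (bchar π (κ x₀) b a)))
      (thMap x₀ (Fintype.card k) hgap) (evMap π κ x₀ a b (by omega)) ?_
      (fun g u => evMap_equivariant π κ x₀ a b (by omega) g u)
      (thMap_injective x₀ _ hq hgap) hsurj ?_
    · rw [hex]; ring
    · intro g u
      apply Subtype.ext
      change theta x₀ (Fintype.card k) * (W κ (Pi.single x₀ (a - Fintype.card k, b + 1))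
        (gp π g) u).1 = (W κ (Pi.single x₀ (a, b)) (gp π g)
          (thMap x₀ (Fintype.card k) hgap u)).1
      rw [W_single_coe, W_single_coe]
      change _ = κ x₀ ((gp π g).det : k) ^ b • subst κ (gp π g) (theta x₀ (Fintype.card k) * u.1)
      rw [map_mul, subst_theta]
      have h3 : κ x₀ ((gp π g).det : k) ≠ 0 := by
        rw [map_ne_zero_iff _ (κ x₀).injective]
        exact (gp π g).det.ne_zero
      rw [zpow_add₀ h3, zpow_one]
      simp only [MvPolynomial.smul_eq_C_mul, map_mul]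
      ring
    · apply Submodule.eq_of_le_of_finrank_eq
      · rintro _ ⟨P, rfl⟩
        rw [LinearMap.mem_ker]
        apply Subtype.ext
        ext1 g
        rw [evMap_apply]
        change κ x₀ (π (g.det : R)) ^ b * evR κ (row (gp π g) 1)
          (theta x₀ (Fintype.card k) * P.1) = 0
        have h3 : evR κ (row (gp π g) 1) (theta x₀ (Fintype.card k)) = 0 := by
          unfold theta evR
          simp only [map_sub, map_mul, map_pow, aeval_X]
          rw [← map_pow, ← map_pow, FiniteField.pow_card, FiniteField.pow_card, sub_self]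
        rw [map_mul, h3, zero_mul, mul_zero]
      · rw [LinearMap.finrank_range_of_inj (thMap_injective x₀ _ hq hgap),
          finrank_homog x₀ (gap_single_ne x₀ _), gap_single_self]
        simp only
        omega

end theta

end Pool.Agent.Work.MP_39033f_nt
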