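import Pool.Agent.Work.MP_39033f_nt.TyUnr
import Pool.Agent.Work.MP_39033f_nt.TyAff

set_option autoImplicit false

open MvPolynomial
open scoped MonoidAlgebra TensorProduct

/-!
The subgroups of `GL₂(R)` of matrices which modulo an ideal `I` lie in the commutative ring
generated by the companion matrix of a quadratic polynomial with irreducible reduction.
-/

namespace Pool.Agent.Work.MP_39033f_nt

section group

variable {R : Type} [CommRing R] (T N : R)

/-- The first defect. -/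
def jU (g : GL (Fin 2) R) : R := g 0 1 + N * g 1 0

/-- The second defect. -/
def jV (g : GL (Fin 2) R) : R := g 1 1 - g 0 0 - T * g 1 0

lemma jU_mul (g h : GL (Fin 2) R) : jU N (g * h)
    = g 0 0 * jU N h + h 1 1 * jU N g - N * g 1 0 * jV T h + N * h 1 0 * jV T g := by
  simp only [jU, jV, gl_mul_apply]
  ring

lemma jV_mul (g h : GL (Fin 2) R) : jV T (g * h)
    = g 1 0 * jU N h + g 1 1 * jV T h - h 1 0 * jU N g + h 0 0 * jV T g := by
  simp only [jU, jV, gl_mul_apply]
  ring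

/-- The matrices which modulo `I` lie in the ring generated by `(0, -N; 1, T)`. -/
def JT (I : Ideal R) : Subgroup (GL (Fin 2) R) where
  carrier := {g | g 0 1 + N * g 1 0 ∈ I ∧ g 1 1 - g 0 0 - T * g 1 0 ∈ I}
  mul_mem' := by
    intro g h hg hh
    have hg1 : jU N g ∈ I := hg.1
    have hg2 : jV T g ∈ I := hg.2
    have hh1 : jU N h ∈ I := hh.1
    have hh2 : jV T h ∈ I := hh.2
    refine ⟨?_, ?_⟩
    · change jU N (g * h) ∈ I
      rw [jU_mul T]
      exact I.add_mem (I.sub_mem (I.add_mem (I.mul_mem_left _ hh1) (I.mul_mem_left _ hg1))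
        (I.mul_mem_left _ hh2)) (I.mul_mem_left _ hg2)
    · change jV T (g * h) ∈ I
      rw [jV_mul T N]
      exact I.add_mem (I.sub_mem (I.add_mem (I.mul_mem_left _ hh1) (I.mul_mem_left _ hh2))
        (I.mul_mem_left _ hg1)) (I.mul_mem_left _ hg2)
  one_mem' := by
    constructor <;> simp [gl_one_apply]
  inv_mem' := by
    intro g hg
    have hg1 : jU N g ∈ I := hg.1
    have hg2 : jV T g ∈ I := hg.2
    have h1 : jU N g⁻¹ = -((g.det⁻¹ : Rˣ) : R) * jU N g := by
      simp only [jU, gl_inv_apply]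
      simp
      ring
    have h2 : jV T g⁻¹ = -((g.det⁻¹ : Rˣ) : R) * jV T g := by
      simp only [jV, gl_inv_apply]
      simp
      ring
    refine ⟨?_, ?_⟩
    · change jU N g⁻¹ ∈ I
      rw [h1]
      exact I.mul_mem_left _ hg1
    · change jV T g⁻¹ ∈ I
      rw [h2]
      exact I.mul_mem_left _ hg2

lemma mem_JT {I : Ideal R} {g : GL (Fin 2) R} : g ∈ JT T N I ↔ jU N g ∈ I ∧ jV T g ∈ I := Iff.rfl

lemma JT_mono {I J : Ideal R} (h : I ≤ J) : JT T N I ≤ JT T N J := fun _ hg => ⟨h hg.1, h hg.2⟩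

instance JT_finiteIndex (I : Ideal R) [Finite (R ⧸ I)] : (JT T N I).FiniteIndex := by
  have h1 : ((Matrix.GeneralLinearGroup.map (n := Fin 2) (Ideal.Quotient.mk I)).ker).FiniteIndex :=
    inferInstance
  refine Subgroup.finiteIndex_of_le (H := (Matrix.GeneralLinearGroup.map (n := Fin 2)
    (Ideal.Quotient.mk I)).ker) ?_
  intro g hg
  have h2 : ∀ i j, Ideal.Quotient.mk I (g i j) = (1 : GL (Fin 2) (R ⧸ I)) i j := by
    intro i j
    rw [← MonoidHom.mem_ker.1 hg]
    rfl
  refine ⟨?_, ?_⟩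
  · change g 0 1 + N * g 1 0 ∈ I
    rw [← Ideal.Quotient.eq_zero_iff_mem]
    simp [h2]
  · change g 1 1 - g 0 0 - T * g 1 0 ∈ I
    rw [← Ideal.Quotient.eq_zero_iff_mem]
    simp [h2]

end group

section tors

variable {R k k2 F : Type} [CommRing R] [Field k] [Field k2] [Field F]
  (π : R →+* k) (ι : k →+* k2) (ω : k2) (T N : R)

lemma mem_torR (g : GL (Fin 2) R) : g ∈ torR π ι ω ↔
    ι (π (g 0 1)) + ω * ι (π (g 1 1)) = ω * (ι (π (g 0 0)) + ω * ι (π (g 1 0))) := Iff.rfl

lemma JT_ker (hω : ∀ a, ι a ≠ ω) (hTN : ω ^ 2 = ι (π T) * ω - ι (π N)) :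
    JT T N (RingHom.ker π) = torR π ι ω := by
  ext g
  rw [mem_torR, mem_JT, RingHom.mem_ker, RingHom.mem_ker]
  simp only [jU, jV, map_add, map_sub, map_mul]
  constructor
  · rintro ⟨h1, h2⟩
    have e1 := congrArg ι h1
    have e2 := congrArg ι h2
    simp only [map_add, map_sub, map_mul, map_zero] at e1 e2
    linear_combination e1 + ω * e2 - ι (π (g 1 0)) * hTN
  · intro h
    have h3 : ι (π (g 0 1) + π N * π (g 1 0))
        + ω * ι (π (g 1 1) - π (g 0 0) - π T * π (g 1 0)) = 0 := by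
      simp only [map_add, map_sub, map_mul]
      linear_combination h + ι (π (g 1 0)) * hTN
    exact indep ι ω hω h3

lemma JT_le (hω : ∀ a, ι a ≠ ω) (hTN : ω ^ 2 = ι (π T) * ω - ι (π N)) {I : Ideal R}
    (hI : I ≤ RingHom.ker π) : JT T N I ≤ torR π ι ω := by
  rw [← JT_ker π ι ω T N hω hTN]
  exact JT_mono T N hI

/-- The value of the reduction. -/
noncomputable def jS (hω : ∀ a, ι a ≠ ω) (hTN : ω ^ 2 = ι (π T) * ω - ι (π N)) (I : Ideal R)
    (hI : I ≤ RingHom.ker π) : JT T N I →* k2ˣ :=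
  (torRU π ι ω).comp (Subgroup.inclusion (JT_le π ι ω T N hω hTN hI))

lemma jS_val (hω : ∀ a, ι a ≠ ω) (hTN : ω ^ 2 = ι (π T) * ω - ι (π N)) (I : Ideal R)
    (hI : I ≤ RingHom.ker π) (g : JT T N I) :
    ((jS π ι ω T N hω hTN I hI g : k2ˣ) : k2) = ι (π (g.1 0 0)) + ω * ι (π (g.1 1 0)) := rfl

/-- The character `θ^d` on `J_I`. -/
noncomputable def jchar (hω : ∀ a, ι a ≠ ω) (hTN : ω ^ 2 = ι (π T) * ω - ι (π N))
    (κ2 : k2 →+* F) (I : Ideal R) (hI : I ≤ RingHom.ker π) (d : ℤ) : JT T N I →* Fˣ :=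
  (tchar π ι ω κ2 d).comp (Subgroup.inclusion (JT_le π ι ω T N hω hTN hI))

lemma jchar_val (hω : ∀ a, ι a ≠ ω) (hTN : ω ^ 2 = ι (π T) * ω - ι (π N))
    (κ2 : k2 →+* F) (I : Ideal R) (hI : I ≤ RingHom.ker π) (d : ℤ) (g : JT T N I) :
    ((jchar π ι ω T N hω hTN κ2 I hI d g : Fˣ) : F)
      = κ2 (ι (π (g.1 0 0)) + ω * ι (π (g.1 1 0))) ^ d := by
  unfold jchar
  rw [MonoidHom.comp_apply, tchar_val]
  rfl

end tors

section conj

variable {k k2 : Type} [Field k] [Field k2] [Fintype k] [Fintype k2]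

/-- The conjugate of `ω`. -/
lemma omega_conj {ι : k →+* k2} {ω : k2} (hω : ∀ a, ι a ≠ ω)
    (hcard : Fintype.card k2 = Fintype.card k ^ 2) (t n : k) (hTN : ω ^ 2 = ι t * ω - ι n) :
    ω ^ Fintype.card k = ι t - ω := by
  classical
  obtain ⟨p, hp⟩ := CharP.exists k
  have hpF : Fact p.Prime := ⟨(CharP.char_is_prime_or_zero k p).resolve_right (by
    intro h; subst h
    exact CharP.char_ne_zero_of_finite k 0 rfl)⟩
  have : CharP k2 p := (RingHom.charP_iff _ ι.injective p).mp hp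
  obtain ⟨s, hs0, hs⟩ := card_eq_pow (k := k) p
  have hfr : ∀ a : k, ι a ^ (p ^ s) = ι a := by
    intro a
    rw [← map_pow, ← hs, FiniteField.pow_card]
  have h1 : (ω ^ (p ^ s)) ^ 2 = ι t * ω ^ (p ^ s) - ι n := by
    rw [← pow_mul, mul_comm, pow_mul, hTN, sub_pow_char_pow, mul_pow, hfr, hfr]
  have h2 : ω ^ (p ^ s) ≠ ω := by
    intro h
    have h3 : ∀ z : k2, z ^ (p ^ s) = z := by
      intro z
      obtain ⟨a, b, rfl⟩ := span_all ι ω hω hcard z
      rw [add_pow_char_pow, mul_pow, hfr, hfr, h]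
    obtain ⟨ζ, hζ⟩ := IsCyclic.exists_generator (α := k2ˣ)
    have h4 : orderOf ζ = Fintype.card k2 - 1 := by
      rw [orderOf_eq_card_of_forall_mem_zpowers hζ, Nat.card_eq_fintype_card, Fintype.card_units]
    have hq : 2 ≤ Fintype.card k := Fintype.one_lt_card
    have h5 : ζ ^ (Fintype.card k - 1) = 1 := by
      have h6 : ζ ^ (Fintype.card k - 1) * ζ = 1 * ζ := by
        rw [← pow_succ, Nat.sub_add_cancel (by omega), one_mul, hs]
        exact Units.ext (by rw [Units.val_pow_eq_pow_val]; exact h3 _)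
      exact mul_right_cancel h6
    have h6 := Nat.le_of_dvd (by omega) (orderOf_dvd_of_pow_eq_one h5)
    rw [h4, hcard] at h6
    have h7 : Fintype.card k < Fintype.card k ^ 2 := by nlinarith
    omega
  have h3 : (ω ^ (p ^ s) - ω) * (ω ^ (p ^ s) + ω - ι t) = 0 := by
    linear_combination h1 - hTN
  rw [hs]
  have h4 := (mul_eq_zero.1 h3).resolve_left (sub_ne_zero.2 h2)
  linear_combination h4

/-- The Frobenius power of an element. -/
lemma conj_val {ι : k →+* k2} {ω : k2} (hω : ∀ a, ι a ≠ ω)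
    (hcard : Fintype.card k2 = Fintype.card k ^ 2) (t n : k) (hTN : ω ^ 2 = ι t * ω - ι n)
    (a b : k) : (ι a + ω * ι b) ^ Fintype.card k = ι a + (ι t - ω) * ι b := by
  obtain ⟨p, hp⟩ := CharP.exists k
  have hpF : Fact p.Prime := ⟨(CharP.char_is_prime_or_zero k p).resolve_right (by
    intro h; subst h
    exact CharP.char_ne_zero_of_finite k 0 rfl)⟩
  have : CharP k2 p := (RingHom.charP_iff _ ι.injective p).mp hp
  obtain ⟨s, hs0, hs⟩ := card_eq_pow (k := k) p
  have h1 := omega_conj hω hcard t n hTN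
  rw [hs] at h1 ⊢
  have hfr : ∀ a : k, ι a ^ (p ^ s) = ι a := by
    intro a
    rw [← map_pow, ← hs, FiniteField.pow_card]
  rw [add_pow_char_pow, mul_pow, hfr, hfr, h1]

end conj

section step

variable {R k k2 F : Type} [CommRing R] [IsLocalRing R] [Field k] [Field k2] [Field F]
  [Fintype k] [Fintype k2] (π : R →+* k) (ι : k →+* k2) (ω : k2) (T N : R)
  (hω : ∀ a, ι a ≠ ω) (hTN : ω ^ 2 = ι (π T) * ω - ι (π N)) {I J : Ideal R} (hIJ : I ≤ J)
  (hJ : J ≤ RingHom.ker π) (E : Eps π I J)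

/-- The defect modulo `I` of an element of `J_J`. -/
noncomputable def jD (h : JT T N J) : k2 :=
  ι (E.ε ⟨jU N h.1, h.2.1⟩) + ω * ι (E.ε ⟨jV T h.1, h.2.2⟩)

omit [IsLocalRing R] [Fintype k2] in
include hTN hJ in
lemma jD_mul (n h : JT T N J) : jD π ι ω T N E (n * h)
    = (ι (π (n.1 0 0)) + ω * ι (π (n.1 1 0))) * jD π ι ω T N E h
      + (ι (π (h.1 1 1)) - ω * ι (π (h.1 1 0))) * jD π ι ω T N E n := by
  have eU : (⟨jU N (n * h).1, (n * h).2.1⟩ : J)
      = (n.1 0 0) • ⟨jU N h.1, h.2.1⟩ + (h.1 1 1) • ⟨jU N n.1, n.2.1⟩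
        - (N * n.1 1 0) • ⟨jV T h.1, h.2.2⟩ + (N * h.1 1 0) • ⟨jV T n.1, n.2.2⟩ :=
    Subtype.ext (jU_mul T N n.1 h.1)
  have eV : (⟨jV T (n * h).1, (n * h).2.2⟩ : J)
      = (n.1 1 0) • ⟨jU N h.1, h.2.1⟩ + (n.1 1 1) • ⟨jV T h.1, h.2.2⟩
        - (h.1 1 0) • ⟨jU N n.1, n.2.1⟩ + (h.1 0 0) • ⟨jV T n.1, n.2.2⟩ :=
    Subtype.ext (jV_mul T N n.1 h.1)
  unfold jD
  rw [eU, eV]
  simp only [E.add, Eps.sub, E.smul, map_add, map_sub, map_mul]
  have en : π (n.1 1 1) - π (n.1 0 0) - π T * π (n.1 1 0) = 0 := by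
    have := hJ n.2.2
    rw [RingHom.mem_ker, map_sub, map_sub, map_mul] at this
    exact this
  have eh : π (h.1 1 1) - π (h.1 0 0) - π T * π (h.1 1 0) = 0 := by
    have := hJ h.2.2
    rw [RingHom.mem_ker, map_sub, map_sub, map_mul] at this
    exact this
  have en' := congrArg ι en
  have eh' := congrArg ι eh
  simp only [map_sub, map_mul, map_zero] at en' eh'
  linear_combination (-ω * ι (E.ε ⟨jV T n.1, n.2.2⟩)) * eh' + (ω * ι (E.ε ⟨jV T h.1, h.2.2⟩)) * en'
    + (ι (π (h.1 1 0)) * ι (E.ε ⟨jV T n.1, n.2.2⟩)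
      - ι (π (n.1 1 0)) * ι (E.ε ⟨jV T h.1, h.2.2⟩)) * hTN

/-- The crossed homomorphism. -/
noncomputable def jc (h : JT T N J) : k2 :=
  jD π ι ω T N E h / (ι (π (h.1 0 0)) + ω * ι (π (h.1 1 0)))

/-- The multiplier of the crossed homomorphism. -/
noncomputable def jal : JT T N J →* k2ˣ :=
  (powMonoidHom (Fintype.card k - 1)).comp (jS π ι ω T N hω hTN J hJ)

omit [IsLocalRing R] in
lemma jal_mul (hcard : Fintype.card k2 = Fintype.card k ^ 2) (h : JT T N J) :
    ((jal π ι ω T N hω hTN hJ h : k2ˣ) : k2) * (ι (π (h.1 0 0)) + ω * ι (π (h.1 1 0)))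
      = ι (π (h.1 1 1)) - ω * ι (π (h.1 1 0)) := by
  have hq : 1 ≤ Fintype.card k := Fintype.card_pos
  have h1 : ((jal π ι ω T N hω hTN hJ h : k2ˣ) : k2)
      = (ι (π (h.1 0 0)) + ω * ι (π (h.1 1 0))) ^ (Fintype.card k - 1) := by
    unfold jal
    rw [MonoidHom.comp_apply, powMonoidHom_apply, Units.val_pow_eq_pow_val, jS_val]
  rw [h1, ← pow_succ, Nat.sub_add_cancel hq, conj_val hω hcard (π T) (π N) hTN]
  have eh : π (h.1 1 1) - π (h.1 0 0) - π T * π (h.1 1 0) = 0 := by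
    have := hJ h.2.2
    rw [RingHom.mem_ker, map_sub, map_sub, map_mul] at this
    exact this
  have eh' := congrArg ι eh
  simp only [map_sub, map_mul, map_zero] at eh'
  linear_combination -eh'

omit [IsLocalRing R] [Fintype k] [Fintype k2] in
include hω hTN hJ in
lemma jS_ne (h : JT T N J) : ι (π (h.1 0 0)) + ω * ι (π (h.1 1 0)) ≠ 0 := by
  rw [← jS_val π ι ω T N hω hTN J hJ h]
  exact Units.ne_zero _

omit [IsLocalRing R] [Fintype k] [Fintype k2] in
include hω hTN hJ in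
lemma jS_mul (n h : JT T N J) : ι (π ((n * h).1 0 0)) + ω * ι (π ((n * h).1 1 0))
    = (ι (π (n.1 0 0)) + ω * ι (π (n.1 1 0))) * (ι (π (h.1 0 0)) + ω * ι (π (h.1 1 0))) := by
  rw [← jS_val π ι ω T N hω hTN J hJ (n * h), map_mul, Units.val_mul,
    jS_val π ι ω T N hω hTN J hJ n, jS_val π ι ω T N hω hTN J hJ h]

omit [IsLocalRing R] in
lemma jc_mul (hcard : Fintype.card k2 = Fintype.card k ^ 2) (n h : JT T N J) :
    jc π ι ω T N E (n * h)
      = jc π ι ω T N E n * ((jal π ι ω T N hω hTN hJ h : k2ˣ) : k2) + jc π ι ω T N E h := by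
  have h1 := jal_mul π ι ω T N hω hTN hJ hcard h
  have hn0 := jS_ne π ι ω T N hω hTN hJ n
  have hh0 := jS_ne π ι ω T N hω hTN hJ h
  unfold jc
  rw [jD_mul π ι ω T N hTN hJ E, jS_mul π ι ω T N hω hTN hJ, ← h1]
  field_simp
  ring

omit [IsLocalRing R] [Fintype k] [Fintype k2] in
include hω hTN hJ in
lemma jc_zero (h : JT T N J) : jc π ι ω T N E h = 0 ↔ h.1 ∈ JT T N I := by
  have hh0 := jS_ne π ι ω T N hω hTN hJ h
  unfold jc
  rw [div_eq_zero_iff, or_iff_left hh0]
  unfold jD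
  constructor
  · intro h1
    obtain ⟨h2, h3⟩ := indep ι ω hω h1
    exact ⟨(E.ker _).1 h2, (E.ker _).1 h3⟩
  · rintro ⟨h2, h3⟩
    rw [(E.ker ⟨jU N h.1, h.2.1⟩).2 h2, (E.ker ⟨jV T h.1, h.2.2⟩).2 h3]
    simp

omit [Fintype k] [Fintype k2] in
include hJ hω in
lemma jc_surjective [Fintype k] [Fintype k2] (hπ : Function.Surjective π)
    (hcard : Fintype.card k2 = Fintype.card k ^ 2) :
    Function.Surjective (jc π ι ω T N E) := by
  intro z
  obtain ⟨x, y, rfl⟩ := span_all ι ω hω hcard z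
  obtain ⟨a, rfl⟩ := E.surj x
  obtain ⟨b, rfl⟩ := E.surj y
  have hb : π b.1 = 0 := hJ b.2
  have hu : IsUnit (1 + b.1) := by
    by_contra hcon
    have h1 : 1 + b.1 ∈ IsLocalRing.maximalIdeal R := (IsLocalRing.mem_maximalIdeal _).2 hcon
    rw [← ker_eq_max π hπ, RingHom.mem_ker, map_add, map_one, hb, add_zero] at h1
    exact one_ne_zero h1
  have hdet : IsUnit (!![1, a.1; 0, 1 + b.1] : Matrix (Fin 2) (Fin 2) R).det := by
    rw [Matrix.det_fin_two_of]
    simpa using hu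
  set g : GL (Fin 2) R := Matrix.GeneralLinearGroup.mk'' !![1, a.1; 0, 1 + b.1] hdet with hg
  have g00 : g 0 0 = 1 := rfl
  have g01 : g 0 1 = a.1 := rfl
  have g10 : g 1 0 = 0 := rfl
  have g11 : g 1 1 = 1 + b.1 := rfl
  have hU : jU N g = a.1 := by
    unfold jU
    rw [g01, g10]; ring
  have hV : jV T g = b.1 := by
    unfold jV
    rw [g00, g10, g11]; ring
  have hmem : g ∈ JT T N J := (mem_JT T N).2 ⟨by rw [hU]; exact a.2, by rw [hV]; exact b.2⟩
  refine ⟨⟨g, hmem⟩, ?_⟩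
  unfold jc jD
  have e1 : (⟨jU N g, by rw [hU]; exact a.2⟩ : J) = a := Subtype.ext hU
  have e2 : (⟨jV T g, by rw [hV]; exact b.2⟩ : J) = b := Subtype.ext hV
  simp only [e1, e2, g00, g10, map_one, map_zero, mul_zero, add_zero, div_one]

include hIJ E in
/-- One step. -/
lemma AddFn.lev_step [Finite (R ⧸ I)] [Finite (R ⧸ J)] (hπ : Function.Surjective π)
    (hcard : Fintype.card k2 = Fintype.card k ^ 2) (κ2 : k2 →+* F)
    (Ψ : AddFn F (GL (Fin 2) R)) (a : ℤ) :
    Ψ.val _ (Representation.coind (JT T N I).subtype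
        (chRep (jchar π ι ω T N hω hTN κ2 I (hIJ.trans hJ) a)))
      = ∑ s ∈ Finset.range (Fintype.card k ^ 2), Ψ.val _ (Representation.coind
        (JT T N J).subtype (chRep (jchar π ι ω T N hω hTN κ2 J hJ
          (a + s * ((Fintype.card k : ℤ) - 1))))) := by
  have h1 := AddFn.aff_step κ2 (JT_mono T N hIJ) (jal π ι ω T N hω hTN hJ) (jc π ι ω T N E)
    (jc_mul π ι ω T N hω hTN hJ E hcard) (jc_zero π ι ω T N hω hTN hJ E)
    (jc_surjective π ι ω T N hω hJ E hπ hcard) (jchar π ι ω T N hω hTN κ2 J hJ a) Ψ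
  have h2 : (jchar π ι ω T N hω hTN κ2 J hJ a).comp (Subgroup.inclusion (JT_mono T N hIJ))
      = jchar π ι ω T N hω hTN κ2 I (hIJ.trans hJ) a := rfl
  rw [h2, hcard] at h1
  rw [h1]
  refine Finset.sum_congr rfl fun s _ => ?_
  have h3 : twch κ2 (jal π ι ω T N hω hTN hJ) (jchar π ι ω T N hω hTN κ2 J hJ a) s
      = jchar π ι ω T N hω hTN κ2 J hJ (a + s * ((Fintype.card k : ℤ) - 1)) := by
    ext h
    have hh0 := jS_ne π ι ω T N hω hTN hJ h
    have hh1 : κ2 (ι (π (h.1 0 0)) + ω * ι (π (h.1 1 0))) ≠ 0 := by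
      rwa [map_ne_zero_iff _ κ2.injective]
    have hq : 1 ≤ Fintype.card k := Fintype.card_pos
    have h4 : ((Fintype.card k : ℤ) - 1) = ((Fintype.card k - 1 : ℕ) : ℤ) := by omega
    rw [twch_val, jchar_val, jchar_val, zpow_add₀ hh1]
    congr 1
    have h1 : ((jal π ι ω T N hω hTN hJ h : k2ˣ) : k2)
        = (ι (π (h.1 0 0)) + ω * ι (π (h.1 1 0))) ^ (Fintype.card k - 1) := by
      unfold jal
      rw [MonoidHom.comp_apply, powMonoidHom_apply, Units.val_pow_eq_pow_val, jS_val]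
    rw [h1, map_pow, ← pow_mul, h4, ← Nat.cast_mul, zpow_natCast,
      mul_comm (Fintype.card k - 1) s]
  rw [h3]

end step

section main

variable {R k k2 F Emb : Type} [CommRing R] [IsLocalRing R] [Field k] [Field k2] [Field F]
  [Fintype Emb] [DecidableEq Emb] [Fintype k] [Fintype k2]

omit [IsLocalRing R] in
/-- The exponent of `θ` only matters modulo `q² - 1`. -/
lemma AddFn.tchar_period (π : R →+* k) (Ψ : AddFn F (GL (Fin 2) R)) (ι : k →+* k2)
    (ω : k2) (κ2 : k2 →+* F) (a m : ℤ) (hcard : Fintype.card k2 = Fintype.card k ^ 2) :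
    Ψ.val _ (Representation.coind (torR π ι ω).subtype
        (chRep (tchar π ι ω κ2 (a + m * ((Fintype.card k : ℤ) ^ 2 - 1)))))
      = Ψ.val _ (Representation.coind (torR π ι ω).subtype (chRep (tchar π ι ω κ2 a))) := by
  have h1 := tchar_congr π ι ω κ2 a m
  rw [hcard, Nat.cast_pow] at h1
  rw [h1]

/-- **(U4)** The sum over the characters of the torus with the same central character. -/
theorem AddFn.tor_sum (π : R →+* k) (hπ : Function.Surjective π) (Ψ : AddFn F (GL (Fin 2) R))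
    (κ : Emb → k →+* F) (x₀ : Emb) (ι : k →+* k2) (ω : k2) (κ2 : k2 →+* F) (hω : ∀ a, ι a ≠ ω)
    (hcard : Fintype.card k2 = Fintype.card k ^ 2) (hκ2 : ∀ a, κ2 (ι a) = κ x₀ a) (a : ℤ) :
    ∑ b ∈ Finset.range (Fintype.card k + 1), Ψ.val _ (Representation.coind
        (torR π ι ω).subtype (chRep (tchar π ι ω κ2 (a + b * ((Fintype.card k : ℤ) - 1)))))
      = (Fintype.card k : ℤ) *
        Ψ.val _ (Representation.coind (zu π).subtype (chRep (zchar π (kpow (κ x₀) a)))) := by
  have hq : 2 ≤ Fintype.card k := Fintype.one_lt_card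
  set q := Fintype.card k with hqd
  obtain ⟨M, hM⟩ : ∃ M : ℕ, -(M : ℤ) ≤ a := ⟨(-a).toNat, by omega⟩
  have hq2 : (2 : ℤ) ≤ q := by exact_mod_cast hq
  obtain ⟨A, hA'⟩ : ∃ A : ℕ, (A : ℤ) = a + M * ((q : ℤ) ^ 2 - 1) := by
    refine ⟨(a + M * ((q : ℤ) ^ 2 - 1)).toNat, Int.toNat_of_nonneg ?_⟩
    have h2 : (0 : ℤ) ≤ M := Int.natCast_nonneg _
    have h3 : (1 : ℤ) ≤ (q : ℤ) ^ 2 - 1 := by nlinarith
    nlinarith [mul_le_mul_of_nonneg_left h3 h2]
  -- the symmetric powers
  set S : ℕ → ℤ := fun n => Ψ.val _ (Wi (gp π) κ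
    (Pi.single x₀ (((A + n * (q - 1) : ℕ) : ℤ), 0))) with hS
  set G : ℤ → ℤ := fun b => Ψ.val _ (Representation.coind
    (torR π ι ω).subtype (chRep (tchar π ι ω κ2 (a + b * ((q : ℤ) - 1))))) with hG
  set Z := Ψ.val _ (Representation.coind (zu π).subtype (chRep (zchar π (kpow (κ x₀) a)))) with hZ
  have hq1 : ((q - 1 : ℕ) : ℤ) = (q : ℤ) - 1 := by omega
  have hGS : ∀ n : ℕ, G (n + q) = S (n + q) - S n := by
    intro n
    have h1 := Ψ.unr_eq π hπ κ x₀ ι ω κ2 hω hcard hκ2 (A + (n + q) * (q - 1)) (by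
      rw [← hqd]
      calc (q - 1) * q ≤ (n + q) * (q - 1) := by
            rw [mul_comm]
            exact Nat.mul_le_mul_right _ (by omega)
        _ ≤ _ := Nat.le_add_left _ _)
    rw [← hqd] at h1
    have h2 : ((A + (n + q) * (q - 1) : ℕ) : ℤ) - (((q - 1) * q : ℕ) : ℤ)
        = ((A + n * (q - 1) : ℕ) : ℤ) := by
      push_cast
      ring
    rw [h2] at h1
    have h3 : (((A + (n + q) * (q - 1) : ℕ)) : ℤ)
        = a + ((n : ℤ) + q) * ((q : ℤ) - 1) + M * ((q : ℤ) ^ 2 - 1) := by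
      push_cast
      rw [hA', hq1]
      ring
    simp only [hG, hS]
    rw [← h1, h3]
    exact (Ψ.tchar_period π ι ω κ2 _ _ hcard).symm
  have hSZ : ∀ n : ℕ, S (n + (q + 1)) - S n = Z := by
    intro n
    have h1 := Ψ.zu_sym π κ x₀ hπ ((A + n * (q - 1) : ℕ) : ℤ) 0 (Int.natCast_nonneg _)
    have h2 : ((A + n * (q - 1) : ℕ) : ℤ) + ((Fintype.card k : ℤ) ^ 2 - 1)
        = ((A + (n + (q + 1)) * (q - 1) : ℕ) : ℤ) := by
      rw [← hqd]
      push_cast
      rw [hq1]
      ring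
    rw [h2] at h1
    simp only [hS]
    rw [← h1, hZ]
    refine Ψ.coind_congr _ _ rfl fun g hg hg' => ?_
    apply Units.ext
    rw [zchar_val, zchar_val]
    have h3 : π (g 0 0) ≠ 0 := borel_diag_ne π (zu_le π hg) 0
    have h4 := kpow_period (κ x₀) (π (g 0 0)) h3 a (M * ((q : ℤ) + 1) + n)
    rw [← h4]
    congr 1
    push_cast
    rw [hA', ← hqd, hq1]
    ring
  have hper : ∀ t, G (t + ((q + 1 : ℕ) : ℤ)) = G t := by
    intro t
    simp only [hG]
    have h1 : a + (t + ((q + 1 : ℕ) : ℤ)) * ((q : ℤ) - 1)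
        = a + t * ((q : ℤ) - 1) + 1 * ((q : ℤ) ^ 2 - 1) := by
      push_cast
      ring
    rw [h1]
    exact Ψ.tchar_period π ι ω κ2 _ _ hcard
  have h1 : ∑ b ∈ Finset.range (q + 1), G b = ∑ b ∈ Finset.range (q + 1), G (q + b) :=
    (sum_shift G (q + 1) hper q).symm
  change ∑ b ∈ Finset.range (q + 1), G b = _
  rw [h1]
  have h2 : ∀ b ∈ Finset.range (q + 1), G (q + b) = S (b + q) - S b := by
    intro b _
    rw [add_comm (q : ℤ) b]
    exact hGS b
  rw [Finset.sum_congr rfl h2, Finset.sum_sub_distrib]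
  have e1 : ∑ b ∈ Finset.range (q + 1), S (b + q)
      = (∑ b ∈ Finset.range q, S (b + (q + 1))) + S q := by
    rw [Finset.sum_range_succ']
    congr 1
    · refine Finset.sum_congr rfl fun b _ => ?_
      congr 1
      ring
    · congr 1
      ring
  rw [e1, Finset.sum_range_succ S q]
  have e2 : ∑ b ∈ Finset.range q, S (b + (q + 1)) - ∑ b ∈ Finset.range q, S b = q * Z := by
    rw [← Finset.sum_sub_distrib, Finset.sum_congr rfl (fun b _ => hSZ b), Finset.sum_const,
      Finset.card_range, nsmul_eq_mul]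
  linarith

/-- **(U3)** The representations coinduced from `J_I`. -/
theorem AddFn.lev_conductor (π : R →+* k) (hπ : Function.Surjective π)
    (Ψ : AddFn F (GL (Fin 2) R)) (κ : Emb → k →+* F) (x₀ : Emb) (ι : k →+* k2) (ω : k2)
    (κ2 : k2 →+* F) (T N : R) (hω : ∀ a, ι a ≠ ω) (hTN : ω ^ 2 = ι (π T) * ω - ι (π N))
    (hcard : Fintype.card k2 = Fintype.card k ^ 2) (hκ2 : ∀ a, κ2 (ι a) = κ x₀ a) :
    ∀ (n : ℕ) (I : Ideal R) (hI : I ≤ RingHom.ker π) [Finite (R ⧸ I)], Nat.card (R ⧸ I) ≤ n →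
      ∃ t : ℕ, Nat.card (R ⧸ I) ^ 2
          = Fintype.card k ^ 2 * ((Fintype.card k ^ 2 - 1) * t + 1) ∧
        ∀ a : ℤ, Ψ.val _ (Representation.coind (JT T N I).subtype
            (chRep (jchar π ι ω T N hω hTN κ2 I hI a)))
          = Ψ.val _ (Representation.coind (torR π ι ω).subtype (chRep (tchar π ι ω κ2 a)))
            + t * (((Fintype.card k : ℤ) - 1) * Fintype.card k) *
              Ψ.val _ (Representation.coind (zu π).subtype
                (chRep (zchar π (kpow (κ x₀) a)))) := by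
  have hq : 2 ≤ Fintype.card k := Fintype.one_lt_card
  intro n
  induction n with
  | zero =>
    intro I hI _ hn
    exfalso
    have : 0 < Nat.card (R ⧸ I) := Nat.card_pos
    omega
  | succ n ih =>
    intro I hI _ hn
    rcases eq_or_lt_of_le hI with h | h
    · subst h
      refine ⟨0, ?_, fun a => ?_⟩
      · have e : R ⧸ RingHom.ker π ≃+* k := RingHom.quotientKerEquivOfSurjective hπ
        rw [Nat.card_congr e.toEquiv, Nat.card_eq_fintype_card]
        simp
      · rw [Nat.cast_zero, zero_mul, zero_mul, add_zero]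
        exact Ψ.coind_congr _ _ (JT_ker π ι ω T N hω hTN) (fun g hg hg' => rfl)
    · obtain ⟨J, hIJ, hJ, ⟨E⟩⟩ := exists_eps π hπ I h
      have hfin : Finite (R ⧸ J) :=
        Finite.of_surjective _ (Ideal.Quotient.factor_surjective hIJ.le)
      have hcd := card_eps π hIJ.le E
      have hpos : 0 < Nat.card (R ⧸ J) := Nat.card_pos
      have hlt : Nat.card (R ⧸ J) ≤ n := by nlinarith
      obtain ⟨t, ht, hval⟩ := ih J hJ hlt
      refine ⟨Fintype.card k ^ 2 * t + 1, ?_, fun a => ?_⟩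
      · rw [hcd, mul_pow, ht]
        obtain ⟨c, hc⟩ : ∃ c, Fintype.card k ^ 2 = c + 1 := ⟨Fintype.card k ^ 2 - 1, by
          have : 1 ≤ Fintype.card k ^ 2 := Nat.one_le_pow _ _ (by omega)
          omega⟩
        rw [hc, Nat.add_sub_cancel]
        ring
      · rw [Ψ.lev_step π ι ω T N hω hTN hIJ.le hJ E hπ hcard κ2 a]
        set q := Fintype.card k with hqd
        set Z := Ψ.val _ (Representation.coind (zu π).subtype
                (chRep (zchar π (kpow (κ x₀) a)))) with hZ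
        set G : ℤ → ℤ := fun b => Ψ.val _ (Representation.coind
          (torR π ι ω).subtype (chRep (tchar π ι ω κ2 (a + b * ((q : ℤ) - 1))))) with hG
        have hsum : ∀ s : ℕ, Ψ.val _ (Representation.coind (JT T N J).subtype
            (chRep (jchar π ι ω T N hω hTN κ2 J hJ (a + s * ((q : ℤ) - 1)))))
            = G s + t * (((q : ℤ) - 1) * q) * Z := by
          intro s
          rw [hval (a + s * ((q : ℤ) - 1)), hZ]
          congr 2
          refine Ψ.coind_congr _ _ rfl fun g hg hg' => ?_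
          apply Units.ext
          rw [zchar_val, zchar_val]
          exact kpow_period (κ x₀) (π (g 0 0)) (borel_diag_ne π (zu_le π hg) 0) a s
        rw [Finset.sum_congr rfl (fun s _ => hsum s), Finset.sum_add_distrib, Finset.sum_const,
          Finset.card_range, nsmul_eq_mul]
        have hper : ∀ t, G (t + ((q + 1 : ℕ) : ℤ)) = G t := by
          intro t
          simp only [hG]
          have h1 : a + (t + ((q + 1 : ℕ) : ℤ)) * ((q : ℤ) - 1)
              = a + t * ((q : ℤ) - 1) + 1 * ((q : ℤ) ^ 2 - 1) := by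
            push_cast
            ring
          rw [h1]
          exact Ψ.tchar_period π ι ω κ2 _ _ hcard
        have hU4 : ∑ b ∈ Finset.range (q + 1), G b = q * Z :=
          Ψ.tor_sum π hπ κ x₀ ι ω κ2 hω hcard hκ2 a
        -- blocks of length `q + 1`
        have hblock : ∀ m : ℕ, ∑ s ∈ Finset.range (m * (q + 1)), G (1 + s) = m * (q * Z) := by
          intro m
          induction m with
          | zero => simp
          | succ m ihm =>
            rw [Nat.succ_mul, Finset.sum_range_add, ihm]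
            have h1 : ∑ x ∈ Finset.range (q + 1), G (1 + ((m * (q + 1) + x : ℕ) : ℤ))
                = ∑ x ∈ Finset.range (q + 1), G ((1 + ((m * (q + 1) : ℕ) : ℤ)) + x) := by
              refine Finset.sum_congr rfl fun x _ => ?_
              congr 1
              push_cast
              ring
            rw [h1, sum_shift G (q + 1) hper, hU4]
            push_cast
            ring
        have hq2 : q ^ 2 = (q - 1) * (q + 1) + 1 := by
          obtain ⟨c, hc⟩ : ∃ c, q = c + 1 := ⟨q - 1, by omega⟩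
          rw [hc, Nat.add_sub_cancel]
          ring
        have hsum2 : ∑ s ∈ Finset.range (q ^ 2), G s = G 0 + ((q : ℤ) - 1) * (q * Z) := by
          rw [hq2, Finset.sum_range_succ']
          have h3 : ∀ s : ℕ, G (((s + 1 : ℕ) : ℤ)) = G (1 + s) := by
            intro s
            congr 1
            push_cast
            ring
          rw [Finset.sum_congr rfl (fun s _ => h3 s), hblock, Nat.cast_zero]
          have : ((q - 1 : ℕ) : ℤ) = (q : ℤ) - 1 := by omega
          rw [this]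
          ring
        rw [hsum2]
        have hG0 : G 0 = Ψ.val _ (Representation.coind (torR π ι ω).subtype
            (chRep (tchar π ι ω κ2 a))) := by
          simp only [hG]
          rw [show a + 0 * ((q : ℤ) - 1) = a by ring]
        rw [hG0]
        push_cast
        ring

/-- **(U3)** for a given ideal. -/
theorem AddFn.lev_eq (π : R →+* k) (hπ : Function.Surjective π)
    (κ : Emb → k →+* F) (x₀ : Emb) (ι : k →+* k2) (ω : k2)
    (κ2 : k2 →+* F) (T N : R) (hω : ∀ a, ι a ≠ ω) (hTN : ω ^ 2 = ι (π T) * ω - ι (π N))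
    (hcard : Fintype.card k2 = Fintype.card k ^ 2) (hκ2 : ∀ a, κ2 (ι a) = κ x₀ a)
    (I : Ideal R) (hI : I ≤ RingHom.ker π) [Finite (R ⧸ I)] (t : ℕ)
    (ht : Nat.card (R ⧸ I) ^ 2 = Fintype.card k ^ 2 * ((Fintype.card k ^ 2 - 1) * t + 1))
    (Ψ : AddFn F (GL (Fin 2) R)) (a : ℤ) :
    Ψ.val _ (Representation.coind (JT T N I).subtype
            (chRep (jchar π ι ω T N hω hTN κ2 I hI a)))
          = Ψ.val _ (Representation.coind (torR π ι ω).subtype (chRep (tchar π ι ω κ2 a)))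
            + t * (((Fintype.card k : ℤ) - 1) * Fintype.card k) *
              Ψ.val _ (Representation.coind (zu π).subtype
                (chRep (zchar π (kpow (κ x₀) a)))) := by
  obtain ⟨t', ht', h⟩ := Ψ.lev_conductor π hπ κ x₀ ι ω κ2 T N hω hTN hcard hκ2 _ I hI le_rfl
  have hq : 2 ≤ Fintype.card k := Fintype.one_lt_card
  have h4 : 4 ≤ Fintype.card k ^ 2 := by nlinarith
  have h1 : Fintype.card k ^ 2 * ((Fintype.card k ^ 2 - 1) * t + 1)
      = Fintype.card k ^ 2 * ((Fintype.card k ^ 2 - 1) * t' + 1) := ht.symm.trans ht'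
  have h2 := Nat.eq_of_mul_eq_mul_left (by omega) h1
  have h3 : t = t' := Nat.eq_of_mul_eq_mul_left (by omega : 0 < Fintype.card k ^ 2 - 1)
    (Nat.succ_injective h2)
  rw [h3]
  exact h a

end main

section expand

variable {R k k2 F : Type} [CommRing R] [IsLocalRing R] [Field k] [Field k2] [Field F]
  [Fintype k] [Fintype k2]

omit [Fintype k] [Fintype k2] in
/-- The reduction map of `J_I` is surjective. -/
lemma jS_surjective [Fintype k] [Fintype k2] (π : R →+* k) (hπ : Function.Surjective π)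
    (ι : k →+* k2) (ω : k2) (T N : R) (hω : ∀ a, ι a ≠ ω)
    (hTN : ω ^ 2 = ι (π T) * ω - ι (π N)) (hcard : Fintype.card k2 = Fintype.card k ^ 2)
    (I : Ideal R) (hI : I ≤ RingHom.ker π) :
    Function.Surjective (jS π ι ω T N hω hTN I hI) := by
  intro z
  obtain ⟨x, y, hxy⟩ := span_all ι ω hω hcard (z : k2)
  obtain ⟨X, rfl⟩ := hπ x
  obtain ⟨Y, rfl⟩ := hπ y
  have hu : IsUnit (X * (X + T * Y) + N * Y * Y) := by
    by_contra hcon
    have h1 : X * (X + T * Y) + N * Y * Y ∈ IsLocalRing.maximalIdeal R :=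
      (IsLocalRing.mem_maximalIdeal _).2 hcon
    rw [← ker_eq_max π hπ, RingHom.mem_ker] at h1
    simp only [map_add, map_mul] at h1
    have h2 := congrArg ι h1
    simp only [map_add, map_mul, map_zero] at h2
    have h3 : (ι (π X) + ω * ι (π Y)) * (ι (π X + π T * π Y) + ω * ι (-π Y)) = 0 := by
      simp only [map_add, map_mul, map_neg]
      linear_combination h2 - ι (π Y) ^ 2 * hTN
    rcases mul_eq_zero.1 h3 with h4 | h4
    · exact z.ne_zero (by rw [← hxy, h4])
    · obtain ⟨h5, h6⟩ := indep ι ω hω h4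
      rw [neg_eq_zero] at h6
      rw [h6, mul_zero, add_zero] at h5
      exact z.ne_zero (by rw [← hxy, h5, h6, map_zero, mul_zero, add_zero])
  have hdet : IsUnit (!![X, -N * Y; Y, X + T * Y] : Matrix (Fin 2) (Fin 2) R).det := by
    rw [Matrix.det_fin_two_of]
    have : X * (X + T * Y) - -N * Y * Y = X * (X + T * Y) + N * Y * Y := by ring
    rw [this]
    exact hu
  set g : GL (Fin 2) R := Matrix.GeneralLinearGroup.mk'' !![X, -N * Y; Y, X + T * Y] hdet with hg
  have g00 : g 0 0 = X := rfl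
  have g01 : g 0 1 = -N * Y := rfl
  have g10 : g 1 0 = Y := rfl
  have g11 : g 1 1 = X + T * Y := rfl
  have hmem : g ∈ JT T N I := by
    refine (mem_JT T N).2 ⟨?_, ?_⟩
    · have : jU N g = 0 := by
        unfold jU
        rw [g01, g10]; ring
      rw [this]
      exact I.zero_mem
    · have : jV T g = 0 := by
        unfold jV
        rw [g00, g10, g11]; ring
      rw [this]
      exact I.zero_mem
  refine ⟨⟨g, hmem⟩, ?_⟩
  apply Units.ext
  rw [jS_val, ← hxy]
  rfl

/-- **(U2')** A representation of `J_I` which is trivial on a congruence subgroup, in terms of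
characters. -/
theorem AddFn.lev_expand {p : ℕ} [Fact p.Prime] [CharP F p] [CharP k p] (π : R →+* k)
    (hπ : Function.Surjective π) (ι : k →+* k2) (ω : k2) (κ2 : k2 →+* F) (T N : R)
    (hω : ∀ a, ι a ≠ ω) (hTN : ω ^ 2 = ι (π T) * ω - ι (π N))
    (hcard : Fintype.card k2 = Fintype.card k ^ 2)
    (I : Ideal R) (hI : I ≤ RingHom.ker π) [Finite (R ⧸ I)] (Ψ : AddFn F (GL (Fin 2) R))
    {V : Type} [AddCommGroup V] [Module F V] [FiniteDimensional F V]
    (L : Representation F (JT T N I) V) (I' : Ideal R) [Finite (R ⧸ I')]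
    (hI' : ∀ g : JT T N I, (∀ i j, g.1 i j - (1 : Matrix (Fin 2) (Fin 2) R) i j ∈ I') → L g = 1)
    (m : ℕ → ℕ) (hm : ∀ a < Fintype.card k2 - 1,
      RepJHSum (multFn (chRep (jchar π ι ω T N hω hTN κ2 I hI (a : ℤ)))) L (m a)) :
    Ψ.val _ (Representation.coind (JT T N I).subtype L)
      = ∑ a ∈ Finset.range (Fintype.card k2 - 1), (m a : ℤ) *
        Ψ.val _ (Representation.coind (JT T N I).subtype
          (chRep (jchar π ι ω T N hω hTN κ2 I hI (a : ℤ)))) := by
  classical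
  have hkp : ∀ a b : ℕ, a < Fintype.card k2 - 1 → b < Fintype.card k2 - 1 →
      kpow κ2 (a : ℤ) = kpow κ2 (b : ℤ) → a = b := by
    intro a b ha hb hab
    obtain ⟨ζ, hζ⟩ := IsCyclic.exists_generator (α := k2ˣ)
    have h1 : ζ ^ a = ζ ^ b := by
      have h2 := congrArg Units.val (DFunLike.congr_fun hab ζ)
      rw [kpow_val, kpow_val, zpow_natCast, zpow_natCast, ← map_pow, ← map_pow] at h2
      apply Units.ext
      rw [Units.val_pow_eq_pow_val, Units.val_pow_eq_pow_val]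
      exact κ2.injective h2
    have h3 : orderOf ζ = Fintype.card k2 - 1 := by
      rw [orderOf_eq_card_of_forall_mem_zpowers hζ, Nat.card_eq_fintype_card, Fintype.card_units]
    exact pow_injOn_Iio_orderOf (by rw [h3]; exact ha) (by rw [h3]; exact hb) h1
  set X : Finset (k2ˣ →* Fˣ) := (Finset.range (Fintype.card k2 - 1)).image
    (fun a : ℕ => kpow κ2 (a : ℤ)) with hX
  have hinj : Set.InjOn (fun a : ℕ => kpow κ2 (a : ℤ)) (Finset.range (Fintype.card k2 - 1)) := by
    intro a ha b hb hab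
    exact hkp a b (by simpa using ha) (by simpa using hb) hab
  have horth : ∀ t : k2ˣ, ∑ χ ∈ X, ((χ t : Fˣ) : F) = if t = 1 then (-1 : F) else 0 := by
    intro t
    rw [hX, Finset.sum_image hinj]
    simp only [kpow_val, zpow_natCast]
    have h1 := sum_pow_eq κ2 (t : k2) t.ne_zero
    rw [Fin.sum_univ_eq_sum_range (fun s => κ2 (t : k2) ^ s)] at h1
    rw [h1]
    simp only [Units.val_eq_one]
  have hpact : PAct p L (jS π ι ω T N hω hTN I hI).ker := by
    refine pact_sub π hπ _ L I' hI' _ ?_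
    intro g hg
    refine ⟨0, ?_⟩
    rw [pow_zero, pow_one]
    have hmem : g.1 ∈ torR π ι ω := JT_le π ι ω T N hω hTN hI g.2
    have h1 : torU ι ω ((gp π).subgroupComap (tor ι ω) ⟨g.1, hmem⟩) = 1 := hg
    have h2 : (gp π).subgroupComap (tor ι ω) ⟨g.1, hmem⟩ = 1 := by
      apply torU_injective hω
      rw [h1, map_one]
    exact congrArg Subtype.val h2
  have hmain := AddFn.expand_chars X (-1 : F) (neg_ne_zero.2 one_ne_zero) horth
    (jS π ι ω T N hω hTN I hI) (jS_surjective π hπ ι ω T N hω hTN hcard I hI)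
    (Ψ.coind (JT T N I)) L hpact
  rw [AddFn.coind_val] at hmain
  rw [hmain, hX, Finset.sum_image hinj]
  refine Finset.sum_congr rfl fun a ha => ?_
  have h1 : (kpow κ2 (a : ℤ)).comp (jS π ι ω T N hω hTN I hI)
      = jchar π ι ω T N hω hTN κ2 I hI (a : ℤ) := rfl
  rw [h1, jh_eq (hm a (Finset.mem_range.1 ha)), AddFn.coind_val]

end expand

end Pool.Agent.Work.MP_39033f_nt
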