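import Pool.Agent.Work.MP_39033f_nt.UnrKer
import Pool.Agent.Work.MP_39033f_nt.TyAbel

set_option autoImplicit false

open MvPolynomial
open scoped MonoidAlgebra TensorProduct

/-!
The nonsplit torus: representations coinduced from the preimage of the nonsplit torus.
-/

namespace Pool.Agent.Work.MP_39033f_nt

section torus

variable {k k2 F : Type} [Field k] [Field k2] [Field F]

/-- the map from the nonsplit torus to `k₂ˣ` -/
noncomputable def torU (ι : k →+* k2) (ω : k2) : tor ι ω →* k2ˣ where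
  toFun g := Units.mk0 (torv ι ω g) (torv_ne ι ω g)
  map_one' := by
    apply Units.ext
    simp
  map_mul' g h := by
    apply Units.ext
    simp

lemma torU_val (ι : k →+* k2) (ω : k2) (g : tor ι ω) : ((torU ι ω g : k2ˣ) : k2)
    = rowm ι ω g.1 0 := rfl

/-- the character `θ^d` of the nonsplit torus -/
noncomputable def tch (ι : k →+* k2) (ω : k2) (κ2 : k2 →+* F) (d : ℤ) : tor ι ω →* Fˣ :=
  (kpow κ2 d).comp (torU ι ω)

lemma tch_val (ι : k →+* k2) (ω : k2) (κ2 : k2 →+* F) (d : ℤ) (g : tor ι ω) :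
    ((tch ι ω κ2 d g : Fˣ) : F) = κ2 (rowm ι ω g.1 0) ^ d := by
  unfold tch
  rw [MonoidHom.comp_apply, kpow_val, torU_val]

lemma charT_eq (ι : k →+* k2) (ω : k2) (κ2 : k2 →+* F) (d : ℕ) :
    charT ι ω κ2 d = chRep (tch ι ω κ2 (d : ℤ)) := by
  apply MonoidHom.ext
  intro g
  apply LinearMap.ext
  intro x
  rw [charT_apply, chRep_apply, tch_val, zpow_natCast]
  rfl

lemma torU_injective {ι : k →+* k2} {ω : k2} (hω : ∀ a, ι a ≠ ω) :
    Function.Injective (torU ι ω) := by
  rw [injective_iff_map_eq_one]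
  intro g hg
  have h1 : rowm ι ω g.1 0 = 1 := by
    rw [← torU_val, hg, Units.val_one]
  have h2 : rowm ι ω g.1 1 = ω := by
    rw [g.2, h1, mul_one]
  have e1 : ι (g.1 0 0 - 1) + ω * ι (g.1 1 0) = 0 := by
    have h3 : ι (g.1 0 0) + ω * ι (g.1 1 0) = 1 := h1
    rw [map_sub, map_one]
    linear_combination h3
  have e2 : ι (g.1 0 1) + ω * ι (g.1 1 1 - 1) = 0 := by
    have h3 : ι (g.1 0 1) + ω * ι (g.1 1 1) = ω := h2
    rw [map_sub, map_one]
    linear_combination h3
  obtain ⟨a1, a2⟩ := indep ι ω hω e1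
  obtain ⟨a3, a4⟩ := indep ι ω hω e2
  apply Subtype.ext
  ext i j
  fin_cases i <;> fin_cases j
  · simpa using sub_eq_zero.1 a1
  · simpa using a3
  · simpa using a2
  · simpa using sub_eq_zero.1 a4

lemma tor_index [Fintype k] [Fintype k2] {ι : k →+* k2} {ω : k2} (hω : ∀ a, ι a ≠ ω)
    (hcard : Fintype.card k2 = Fintype.card k ^ 2) :
    (tor ι ω).index = (Fintype.card k - 1) * Fintype.card k := by
  classical
  have hq : 2 ≤ Fintype.card k := Fintype.one_lt_card
  have h1 := Subgroup.card_mul_index (tor ι ω)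
  have h2 : Nat.card (tor ι ω) = Fintype.card k ^ 2 - 1 := by
    have : Fintype (tor ι ω) := Fintype.ofFinite _
    rw [Nat.card_eq_fintype_card, card_tor ι ω hω hcard]
  have h3 : Nat.card (GL (Fin 2) k) = (Fintype.card k ^ 2 - 1) *
      ((Fintype.card k - 1) * Fintype.card k) := by
    rw [Matrix.card_GL_field, Fin.prod_univ_two]
    simp only [Fin.val_zero, pow_zero, Fin.val_one, pow_one]
    congr 1
    rw [Nat.sub_mul, one_mul, pow_two]
  rw [h2, h3] at h1
  have h4 : 0 < Fintype.card k ^ 2 - 1 := by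
    have : 1 < Fintype.card k ^ 2 := Nat.one_lt_pow (by norm_num) (by omega)
    omega
  exact Nat.eq_of_mul_eq_mul_left h4 h1

end torus

section unr

variable {k k2 F Emb : Type} [Field k] [Field k2] [Field F] [Fintype Emb] [DecidableEq Emb]
  [Fintype k] [Fintype k2]

/-- **Unramified relation** on `GL₂(k)`. -/
theorem AddFn.unr_k (Φ : AddFn F (GL (Fin 2) k)) (κ : Emb → k →+* F) (x₀ : Emb) (ι : k →+* k2)
    (ω : k2) (κ2 : k2 →+* F) (hω : ∀ a, ι a ≠ ω)
    (hcard : Fintype.card k2 = Fintype.card k ^ 2) (hκ2 : ∀ a, κ2 (ι a) = κ x₀ a)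
    (d : ℕ) (hd : (Fintype.card k - 1) * Fintype.card k ≤ d) :
    Φ.val _ (Representation.coind (tor ι ω).subtype (chRep (tch ι ω κ2 (d : ℤ))))
      = Φ.wval κ (Pi.single x₀ ((d : ℤ), 0))
        - Φ.wval κ (Pi.single x₀ ((d : ℤ) - ((Fintype.card k - 1) * Fintype.card k : ℕ), 0)) := by
  obtain ⟨p, hp⟩ := CharP.exists k
  have hpF : Fact p.Prime := ⟨(CharP.char_is_prime_or_zero k p).resolve_right (by
    intro h; subst h
    exact CharP.char_ne_zero_of_finite k 0 rfl)⟩
  have : CharP F p := (RingHom.charP_iff _ (κ x₀).injective p).mp hp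
  obtain ⟨s, hs0, hs⟩ := card_eq_pow (k := k) p
  have hq : 2 ≤ Fintype.card k := Fintype.one_lt_card
  have hfr : ∀ a : k, a ^ (p ^ s) = a := by
    intro a
    rw [← hs]
    exact FiniteField.pow_card a
  set m := (Fintype.card k - 1) * Fintype.card k with hm
  set lam : Emb → ℤ × ℤ := Pi.single x₀ ((d : ℤ), 0) with hlamd
  set lam' : Emb → ℤ × ℤ := Pi.single x₀ ((d : ℤ) - (m : ℕ), 0) with hlamd'
  have hlam : ∀ y, y ≠ x₀ → gap lam y = 0 := fun y hy => gap_single_ne x₀ _ y hy
  have hlam' : ∀ y, y ≠ x₀ → gap lam' y = 0 := fun y hy => gap_single_ne x₀ _ y hy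
  have hx : gap lam x₀ = d := by
    rw [hlamd, gap_single_self]
    simp
  have hx' : gap lam' x₀ = d - m := by
    rw [hlamd', gap_single_self]
    simp only
    omega
  have hgap : gap lam = gap lam' + Pi.single x₀ m := by
    funext y
    by_cases hy : y = x₀
    · subst hy
      rw [Pi.add_apply, Pi.single_eq_same, hx, hx']
      omega
    · rw [Pi.add_apply, hlam y hy, hlam' y hy, Pi.single_eq_of_ne hy, add_zero]
  have hdet : ∀ (a b : ℤ) (c : k), c ≠ 0 →
      ∏ x, κ x c ^ ((Pi.single x₀ (a, 0) : Emb → ℤ × ℤ) x).2 = 1 := by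
    intro a b c _
    apply Finset.prod_eq_one
    intro x _
    by_cases hxx : x = x₀
    · subst hxx
      rw [Pi.single_eq_same, zpow_zero]
    · rw [Pi.single_eq_of_ne hxx]
      exact zpow_zero _
  have hW : ∀ (l : Emb → ℤ × ℤ) (_ : ∀ a : k, a ≠ 0 → ∏ x, κ x a ^ (l x).2 = 1)
      (g : GL (Fin 2) k) (f : Homog F (gap l)), ((W κ l g f : Homog F (gap l)) :
      MvPolynomial (Emb × Fin 2) F) = subst κ g f := by
    intro l hl g f
    rw [W_coe, hl _ g.det.ne_zero, one_smul]
  have hinj : Function.Injective (multD (F := F) x₀ (Fintype.card k) hgap) := by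
    intro f f' h
    have h1 := congrArg Subtype.val h
    apply Subtype.ext
    exact mul_left_cancel₀ (dick_ne x₀ _ hq) h1
  have hexact : LinearMap.range (multD (F := F) x₀ (Fintype.card k) hgap)
      = LinearMap.ker (evT x₀ ι ω κ2 hlam) := by
    ext f
    rw [LinearMap.mem_range, LinearMap.mem_ker]
    constructor
    · rintro ⟨f', rfl⟩
      apply Subtype.ext
      funext g
      rw [evT_apply]
      show evp x₀ (fun j => κ2 (rowm ι ω g j)) (dick F x₀ (Fintype.card k) * f') = 0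
      rw [map_mul]
      have h1 : evp x₀ (fun j => κ2 (rowm ι ω g j)) (dick F x₀ (Fintype.card k)) = 0 := by
        have h2 := dick_mem (F := F) x₀ (Fintype.card k)
          (n := Pi.single x₀ ((Fintype.card k - 1) * Fintype.card k)) rfl
        rw [evp_homog (fun y hy => Pi.single_eq_of_ne hy _) h2 _
          ((map_ne_zero_iff _ κ2.injective).mpr (rowm_ne ι ω hω g)), ← map_div₀,
          dick_eval x₀ ι κ2 hcard _ (rowm_nonrat ι ω hω g), mul_zero]
      rw [h1, zero_mul]
    · intro h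
      obtain ⟨g, hg, hgf⟩ := exists_dick_mul x₀ ι κ2 ω hω hcard hlam hgap f.2 (by
        intro g
        have := congrFun (congrArg Subtype.val h) g
        exact this)
      exact ⟨⟨g, hg⟩, Subtype.ext hgf⟩
  have hsurj : Function.Surjective (evT (F := F) x₀ ι ω κ2 hlam) := by
    rw [← LinearMap.range_eq_top]
    apply Submodule.eq_top_of_finrank_eq
    have h1 := LinearMap.finrank_range_add_finrank_ker (evT (F := F) x₀ ι ω κ2 hlam)
    rw [← hexact, LinearMap.finrank_range_of_inj hinj, finrank_homog x₀ hlam,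
      finrank_homog x₀ hlam'] at h1
    have h2 : Module.finrank F (Representation.coindV (tor ι ω).subtype
        (charT ι ω κ2 (gap lam x₀))) = m := by
      rw [finrank_coind, Module.finrank_self, mul_one, tor_index hω hcard]
    rw [h2]
    omega
  have hfin := Φ.exact' _ _ _ (W κ lam') (W κ lam)
    (Representation.coind (tor ι ω).subtype (charT ι ω κ2 (gap lam x₀)))
    (multD x₀ (Fintype.card k) hgap) (evT x₀ ι ω κ2 hlam) ?_ ?_ hinj hsurj hexact
  · rw [charT_eq, hx] at hfin
    have e1 : Φ.wval κ lam = Φ.val _ (W κ lam) := rfl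
    have e2 : Φ.wval κ lam' = Φ.val _ (W κ lam') := rfl
    rw [e1, e2, hfin]
    ring
  · intro g f
    apply Subtype.ext
    rw [hW lam (hdet _ 0)]
    show dick F x₀ (Fintype.card k) * ((W κ lam' g f : Homog F (gap lam')) :
      MvPolynomial (Emb × Fin 2) F) = subst κ g (dick F x₀ (Fintype.card k) * f)
    rw [hW lam' (hdet _ 0), map_mul, hs, subst_dick κ x₀ p s hs0 hfr g]
  · intro g f
    apply Subtype.ext
    funext h
    rw [evT_apply, hW lam (hdet _ 0)]
    exact evp_row_subst κ x₀ ι ω κ2 hκ2 h g f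

end unr

section level

variable {R k k2 F Emb : Type} [CommRing R] [IsLocalRing R] [Field k] [Field k2] [Field F]
  [Fintype Emb] [DecidableEq Emb] [Fintype k] [Fintype k2]

/-- The preimage in `GL₂(R)` of the nonsplit torus. -/
noncomputable abbrev torR (π : R →+* k) (ι : k →+* k2) (ω : k2) : Subgroup (GL (Fin 2) R) :=
  (tor ι ω).comap (gp π)

omit [IsLocalRing R] in
instance torR_finiteIndex (π : R →+* k) (ι : k →+* k2) (ω : k2) : (torR π ι ω).FiniteIndex := by
  refine ⟨?_⟩
  rw [Subgroup.index_comap]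
  exact Subgroup.FiniteIndex.index_ne_zero (H := (tor ι ω).subgroupOf (gp π).range)

/-- The character `θ^d` of the preimage of the nonsplit torus. -/
noncomputable def tchar (π : R →+* k) (ι : k →+* k2) (ω : k2) (κ2 : k2 →+* F) (d : ℤ) :
    torR π ι ω →* Fˣ := pullch (gp π) (tor ι ω) (tch ι ω κ2 d)

omit [IsLocalRing R] [Fintype k] [Fintype k2] in
lemma tchar_val (π : R →+* k) (ι : k →+* k2) (ω : k2) (κ2 : k2 →+* F) (d : ℤ)
    (g : torR π ι ω) : ((tchar π ι ω κ2 d g : Fˣ) : F)
      = κ2 (ι (π (g.1 0 0)) + ω * ι (π (g.1 1 0))) ^ d := by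
  unfold tchar
  rw [pullch_val, tch_val]
  rfl

/-- **(U1)** The representation coinduced from a character of the preimage of the nonsplit torus
as a difference of symmetric powers. -/
theorem AddFn.unr_eq (π : R →+* k) (hπ : Function.Surjective π) (Ψ : AddFn F (GL (Fin 2) R))
    (κ : Emb → k →+* F) (x₀ : Emb) (ι : k →+* k2) (ω : k2) (κ2 : k2 →+* F) (hω : ∀ a, ι a ≠ ω)
    (hcard : Fintype.card k2 = Fintype.card k ^ 2) (hκ2 : ∀ a, κ2 (ι a) = κ x₀ a)
    (d : ℕ) (hd : (Fintype.card k - 1) * Fintype.card k ≤ d) :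
    Ψ.val _ (Representation.coind (torR π ι ω).subtype (chRep (tchar π ι ω κ2 (d : ℤ))))
      = Ψ.val _ (Wi (gp π) κ (Pi.single x₀ ((d : ℤ), 0)))
        - Ψ.val _ (Wi (gp π) κ (Pi.single x₀ ((d : ℤ) - ((Fintype.card k - 1) *
          Fintype.card k : ℕ), 0))) := by
  have h1 := (Ψ.infl (gp π)).unr_k κ x₀ ι ω κ2 hω hcard hκ2 d hd
  rw [Ψ.infl_coind (gp π) (gl_surjective π hπ) (tor ι ω) (tch ι ω κ2 (d : ℤ))] at h1
  exact h1

omit [IsLocalRing R] [Fintype k] [Fintype k2] in
/-- The characters only depend on the exponent modulo `q² - 1`. -/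
lemma tchar_congr (π : R →+* k) (ι : k →+* k2) (ω : k2) (κ2 : k2 →+* F) [Fintype k2] (d m : ℤ) :
    tchar π ι ω κ2 (d + m * ((Fintype.card k2 : ℤ) - 1)) = tchar π ι ω κ2 d := by
  ext g
  rw [tchar_val, tchar_val]
  have h1 : ι (π (g.1 0 0)) + ω * ι (π (g.1 1 0)) ≠ 0 := tor_ne ι ω (gp π g.1) g.2
  exact kpow_period κ2 _ h1 d m

/-- the map from the preimage of the torus to `k₂ˣ` -/
noncomputable def torRU (π : R →+* k) (ι : k →+* k2) (ω : k2) : torR π ι ω →* k2ˣ :=
  (torU ι ω).comp ((gp π).subgroupComap (tor ι ω))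

omit [Fintype k] in
lemma torRU_surjective [Fintype k] (π : R →+* k) (hπ : Function.Surjective π) (ι : k →+* k2)
    (ω : k2) (hω : ∀ a, ι a ≠ ω) (hcard : Fintype.card k2 = Fintype.card k ^ 2) :
    Function.Surjective (torRU π ι ω) := by
  classical
  have h1 : Function.Surjective (torU ι ω) := by
    have : Fintype (tor ι ω) := Fintype.ofFinite _
    refine ((Fintype.bijective_iff_injective_and_card _).2 ⟨torU_injective hω, ?_⟩).2
    rw [card_tor ι ω hω hcard, Fintype.card_units, hcard]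
  refine h1.comp ?_
  rintro ⟨x, hx⟩
  obtain ⟨g, rfl⟩ := gl_surjective π hπ x
  exact ⟨⟨g, hx⟩, rfl⟩

/-- **(U2)** A representation of the preimage of the nonsplit torus which is trivial on a
congruence subgroup, in terms of characters. -/
theorem AddFn.tor_expand {p : ℕ} [Fact p.Prime] [CharP F p] [CharP k p] (π : R →+* k)
    (hπ : Function.Surjective π) (ι : k →+* k2) (ω : k2) (κ2 : k2 →+* F) (hω : ∀ a, ι a ≠ ω)
    (hcard : Fintype.card k2 = Fintype.card k ^ 2) (Ψ : AddFn F (GL (Fin 2) R))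
    {V : Type} [AddCommGroup V] [Module F V] [FiniteDimensional F V]
    (N : Representation F (torR π ι ω) V) (I : Ideal R) [Finite (R ⧸ I)]
    (hI : ∀ g : torR π ι ω, (∀ i j, g.1 i j - (1 : Matrix (Fin 2) (Fin 2) R) i j ∈ I) → N g = 1)
    (m : ℕ → ℕ) (hm : ∀ a < Fintype.card k2 - 1,
      RepJHSum (multFn (chRep (tchar π ι ω κ2 (a : ℤ)))) N (m a)) :
    Ψ.val _ (Representation.coind (torR π ι ω).subtype N)
      = ∑ a ∈ Finset.range (Fintype.card k2 - 1), (m a : ℤ) *
        Ψ.val _ (Representation.coind (torR π ι ω).subtype (chRep (tchar π ι ω κ2 (a : ℤ)))) := by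
  classical
  have hkp : ∀ a b : ℕ, a < Fintype.card k2 - 1 → b < Fintype.card k2 - 1 →
      kpow κ2 (a : ℤ) = kpow κ2 (b : ℤ) → a = b := by
    intro a b ha hb hab
    obtain ⟨ζ, hζ⟩ := IsCyclic.exists_generator (α := k2ˣ)
    have h1 : ζ ^ a = ζ ^ b := by
      have h2 := congrArg Units.val (DFunLike.congr_fun hab ζ)
      rw [kpow_val, kpow_val, zpow_natCast, zpow_natCast, ← map_pow, ← map_pow] at h2
      apply Units.ext
      rw [Units.val_pow_eq_pow_val, Units.val_pow_eq_pow_val]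
      exact κ2.injective h2
    have h3 : orderOf ζ = Fintype.card k2 - 1 := by
      rw [orderOf_eq_card_of_forall_mem_zpowers hζ, Nat.card_eq_fintype_card, Fintype.card_units]
    exact pow_injOn_Iio_orderOf (by rw [h3]; exact ha) (by rw [h3]; exact hb) h1
  set X : Finset (k2ˣ →* Fˣ) := (Finset.range (Fintype.card k2 - 1)).image
    (fun a : ℕ => kpow κ2 (a : ℤ)) with hX
  have hinj : Set.InjOn (fun a : ℕ => kpow κ2 (a : ℤ)) (Finset.range (Fintype.card k2 - 1)) := by
    intro a ha b hb hab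
    exact hkp a b (by simpa using ha) (by simpa using hb) hab
  have horth : ∀ t : k2ˣ, ∑ χ ∈ X, ((χ t : Fˣ) : F) = if t = 1 then (-1 : F) else 0 := by
    intro t
    rw [hX, Finset.sum_image hinj]
    simp only [kpow_val, zpow_natCast]
    have h1 := sum_pow_eq κ2 (t : k2) t.ne_zero
    rw [Fin.sum_univ_eq_sum_range (fun s => κ2 (t : k2) ^ s)] at h1
    rw [h1]
    simp only [Units.val_eq_one]
  have hpact : PAct p N (torRU π ι ω).ker := by
    refine pact_sub π hπ _ N I hI _ ?_
    intro g hg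
    refine ⟨0, ?_⟩
    rw [pow_zero, pow_one]
    have h1 : torU ι ω ((gp π).subgroupComap (tor ι ω) g) = 1 := hg
    have h2 : (gp π).subgroupComap (tor ι ω) g = 1 := by
      apply torU_injective hω
      rw [h1, map_one]
    exact congrArg Subtype.val h2
  have hmain := AddFn.expand_chars X (-1 : F) (neg_ne_zero.2 one_ne_zero) horth (torRU π ι ω)
    (torRU_surjective π hπ ι ω hω hcard) (Ψ.coind (torR π ι ω)) N hpact
  rw [AddFn.coind_val] at hmain
  rw [hmain, hX, Finset.sum_image hinj]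
  refine Finset.sum_congr rfl fun a ha => ?_
  have h1 : (kpow κ2 (a : ℤ)).comp (torRU π ι ω) = tchar π ι ω κ2 (a : ℤ) := rfl
  rw [h1, jh_eq (hm a (Finset.mem_range.1 ha)), AddFn.coind_val]

end level

end Pool.Agent.Work.MP_39033f_nt
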