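import Pool.Agent.Work.MP_39033f_nt.TyProd
import Pool.Agent.Work.MP_39033f_nt.TyCond
import Pool.Agent.Work.MP_39033f_nt.TyUnr

set_option autoImplicit false

open MvPolynomial
open scoped MonoidAlgebra TensorProduct

/-!
Assembly: the values of additive functions on `W_λ ⊗ M` for the representations `M` coinduced
from subgroups of `GL₂(R)`.
-/

namespace Pool.Agent.Work.MP_39033f_nt

section same

variable {F Γ U V N : Type} [Field F] [Group Γ] [AddCommGroup V] [Module F V]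
  [AddCommGroup N] [Module F N] [AddCommGroup U] [Module F U]

lemma SameJH.jh_eq [FiniteDimensional F V] [FiniteDimensional F N] {ρ : Representation F Γ V}
    {σ : Representation F Γ N} (h : SameJH ρ σ) (μ : WeightFn F[Γ]) : jh μ ρ = jh μ σ :=
  (Pool.Agent.Work.MP_39033f_nt.jh_eq ((h μ _).1 (jhSum_jh μ ρ))).symm

lemma SumJH.jh_eq [FiniteDimensional F V] [FiniteDimensional F N] [FiniteDimensional F U]
    {ρ : Representation F Γ V} {σ : Representation F Γ N} {τ : Representation F Γ U}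
    (h : SumJH ρ σ τ) (μ : WeightFn F[Γ]) : jh μ ρ + jh μ σ = jh μ τ :=
  h μ _ _ _ (jhSum_jh μ ρ) (jhSum_jh μ σ) (jhSum_jh μ τ)

end same

section triv

variable {R F : Type} [CommRing R] [Field F]

/-- `g ≡ 1 mod I` -/
def CongOne (I : Ideal R) (g : GL (Fin 2) R) : Prop :=
  ∀ i j, g i j - (1 : Matrix (Fin 2) (Fin 2) R) i j ∈ I

lemma CongOne.conj {I : Ideal R} {g : GL (Fin 2) R} (h : CongOne I g) (x : GL (Fin 2) R) :
    CongOne I (x * g * x⁻¹) := by
  have h1 : EntIn I ((g : Matrix (Fin 2) (Fin 2) R) - 1) := h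
  have h2 : ((x * g * x⁻¹ : GL (Fin 2) R) : Matrix (Fin 2) (Fin 2) R) - 1
      = (x : Matrix (Fin 2) (Fin 2) R) * (((g : Matrix (Fin 2) (Fin 2) R) - 1) *
        ((x⁻¹ : GL (Fin 2) R) : Matrix (Fin 2) (Fin 2) R)) := by
    rw [sub_mul, mul_sub, one_mul, ← Units.val_mul, ← Units.val_mul, ← Units.val_mul,
      mul_inv_cancel, Units.val_one, mul_assoc]
  intro i j
  change (((x * g * x⁻¹ : GL (Fin 2) R) : Matrix (Fin 2) (Fin 2) R) - 1) i j ∈ I
  rw [h2, Matrix.mul_apply]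
  exact I.sum_mem fun l _ => I.mul_mem_left _ (h1.mul_right _ l j)

lemma coind_triv (H : Subgroup (GL (Fin 2) R)) {V : Type} [AddCommGroup V] [Module F V]
    (ρ : Representation F H V) (I : Ideal R) (hH : ∀ g : GL (Fin 2) R, CongOne I g → g ∈ H)
    (hρ : ∀ g : H, CongOne I g.1 → ρ g = 1) (g : GL (Fin 2) R) (hg : CongOne I g) :
    Representation.coind H.subtype ρ g = 1 := by
  apply LinearMap.ext
  intro f
  apply Subtype.ext
  funext x
  rw [coind_apply]
  have h1 := hg.conj x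
  have h2 := f.2 ⟨x * g * x⁻¹, hH _ h1⟩ x
  rw [hρ ⟨x * g * x⁻¹, hH _ h1⟩ h1] at h2
  have h3 : H.subtype ⟨x * g * x⁻¹, hH _ h1⟩ * x = x * g := by
    change x * g * x⁻¹ * x = x * g
    group
  rw [h3] at h2
  exact h2

lemma chRep_triv {H : Type} [Group H] (χ : H →* Fˣ) (h : H) (hh : χ h = 1) :
    chRep χ h = 1 := by
  apply LinearMap.ext
  intro x
  rw [chRep_apply, hh, Units.val_one, one_mul]
  rfl

variable {k k2 : Type} [Field k] [Field k2] (π : R →+* k) (κ₀ : k →+* F)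

lemma CongOne.map {I : Ideal R} (hI : I ≤ RingHom.ker π) {g : GL (Fin 2) R} (hg : CongOne I g)
    (i j : Fin 2) : π (g i j) = (1 : Matrix (Fin 2) (Fin 2) k) i j := by
  have h1 := hI (hg i j)
  rw [RingHom.mem_ker, map_sub, sub_eq_zero] at h1
  rw [h1, Matrix.one_apply, Matrix.one_apply]
  split_ifs <;> simp

lemma CongOne.gp {I : Ideal R} (hI : I ≤ RingHom.ker π) {g : GL (Fin 2) R} (hg : CongOne I g) :
    gp π g = 1 := by
  ext i j
  exact hg.map π hI i j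

lemma CongOne.mem_gam0 {I : Ideal R} {g : GL (Fin 2) R} (hg : CongOne I g) : g ∈ gam0 I := by
  have h1 := hg 1 0
  rw [Matrix.one_apply_ne (by decide), sub_zero] at h1
  exact h1

lemma CongOne.mem_zu {I : Ideal R} (hI : I ≤ RingHom.ker π) {g : GL (Fin 2) R}
    (hg : CongOne I g) : g ∈ zu π := by
  refine ⟨?_, ?_⟩
  · rw [hg.map π hI, Matrix.one_apply_ne (by decide)]
  · rw [hg.map π hI, hg.map π hI, Matrix.one_apply_eq, Matrix.one_apply_eq]

lemma CongOne.mem_torR {I : Ideal R} (hI : I ≤ RingHom.ker π) (ι : k →+* k2) (ω : k2)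
    {g : GL (Fin 2) R} (hg : CongOne I g) : g ∈ torR π ι ω := by
  change Pool.Agent.Work.MP_39033f_nt.gp π g ∈ tor ι ω
  rw [hg.gp π hI]
  exact (tor ι ω).one_mem

lemma ps_triv {I : Ideal R} (hI : I ≤ RingHom.ker π) (i j : ℤ) (g : GL (Fin 2) R)
    (hg : CongOne I g) :
    Representation.coind (gam0 I).subtype (chRep (pchar π κ₀ I hI i j)) g = 1 := by
  refine coind_triv _ _ I (fun _ hg => hg.mem_gam0) (fun g hg => ?_) g hg
  apply chRep_triv
  apply Units.ext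
  rw [pchar_val, hg.map π hI, hg.map π hI, Matrix.one_apply_eq, Matrix.one_apply_eq, map_one,
    one_zpow, one_zpow, mul_one, Units.val_one]

lemma zu_triv {I : Ideal R} (hI : I ≤ RingHom.ker π) {V : Type} [AddCommGroup V] [Module F V]
    (ρ : Representation F (zu π) V) (hρ : ∀ g : zu π, CongOne I g.1 → ρ g = 1)
    (g : GL (Fin 2) R) (hg : CongOne I g) :
    Representation.coind (zu π).subtype ρ g = 1 :=
  coind_triv _ _ I (fun _ hg => hg.mem_zu π hI) hρ g hg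

lemma zch_triv {I : Ideal R} (hI : I ≤ RingHom.ker π) (a : ℤ) (g : GL (Fin 2) R)
    (hg : CongOne I g) :
    Representation.coind (zu π).subtype (chRep (zchar π (kpow κ₀ a))) g = 1 := by
  refine zu_triv π hI _ (fun g hg => ?_) g hg
  apply chRep_triv
  apply Units.ext
  rw [zchar_val, hg.map π hI, Matrix.one_apply_eq, map_one, one_zpow, Units.val_one]

lemma torR_triv {I : Ideal R} (hI : I ≤ RingHom.ker π) (ι : k →+* k2) (ω : k2) {V : Type}
    [AddCommGroup V] [Module F V] (ρ : Representation F (torR π ι ω) V)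
    (hρ : ∀ g : torR π ι ω, CongOne I g.1 → ρ g = 1) (g : GL (Fin 2) R) (hg : CongOne I g) :
    Representation.coind (torR π ι ω).subtype ρ g = 1 :=
  coind_triv _ _ I (fun _ hg => hg.mem_torR π hI ι ω) hρ g hg

lemma tch_triv {I : Ideal R} (hI : I ≤ RingHom.ker π) (ι : k →+* k2) (ω : k2)
    (κ2 : k2 →+* F) (a : ℤ) (g : GL (Fin 2) R) (hg : CongOne I g) :
    Representation.coind (torR π ι ω).subtype (chRep (tchar π ι ω κ2 a)) g = 1 := by
  refine torR_triv π hI ι ω _ (fun g hg => ?_) g hg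
  apply chRep_triv
  apply Units.ext
  rw [tchar_val, hg.map π hI, hg.map π hI, Matrix.one_apply_eq, Matrix.one_apply_ne (by decide),
    map_one, map_zero, mul_zero, add_zero, map_one, one_zpow, Units.val_one]

lemma Wi_triv {Emb : Type} [Fintype Emb] [DecidableEq Emb] (κ : Emb → k →+* F)
    (lam : Emb → ℤ × ℤ) {I : Ideal R} (hI : I ≤ RingHom.ker π) (g : GL (Fin 2) R)
    (hg : CongOne I g) : Wi (gp π) κ lam g = 1 := by
  change W κ lam (gp π g) = 1
  rw [hg.gp π hI, map_one]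

end triv

section families

variable (p : ℕ) [Fact p.Prime] {R k k2 F Emb : Type} [CommRing R] [IsLocalRing R] [Field k]
  [Fintype k] [CharP k p] [Field k2] [Fintype k2] [Field F] [CharP F p] [Fintype Emb]
  [DecidableEq Emb]
  (π : R →+* k) (hπ : Function.Surjective π) (κ : Emb → k →+* F) (x₀ : Emb)

lemma ssum_congr {e e' : (Emb → ℤ × ℤ) → ℤ} (h : ∀ ν, Dominant ν → e ν = e' ν)
    (lam : Emb → ℤ × ℤ) (x₀ : Emb) (u v : ℤ) :
    ssum (hat e) lam x₀ u v = ssum (hat e') lam x₀ u v := by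
  unfold ssum
  exact Finset.sum_congr rfl fun l _ => hat_congr h _

lemma tterm_congr {e e' : (Emb → ℤ × ℤ) → ℤ} (h : ∀ ν, Dominant ν → e ν = e' ν) (q : ℕ)
    (lam : Emb → ℤ × ℤ) (x₀ : Emb) (a : ℕ) :
    tterm q e lam x₀ a = tterm q e' lam x₀ a := by
  unfold tterm
  rw [ssum_congr h, ssum_congr h]

lemma zterm_congr {e e' : (Emb → ℤ × ℤ) → ℤ} (h : ∀ ν, Dominant ν → e ν = e' ν) (q : ℕ)
    (hq : 1 ≤ q) (lam : Emb → ℤ × ℤ) (hlam : Dominant lam) (x₀ : Emb) (r : ℕ) :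
    zterm q e lam x₀ r = zterm q e' lam x₀ r := by
  have hq' : (1 : ℤ) ≤ (q : ℤ) ^ 2 := by
    have : 1 ≤ q ^ 2 := Nat.one_le_pow _ _ hq
    exact_mod_cast this
  unfold zterm
  rw [h _ (dominant_add lam hlam x₀ _ 0 (by omega)), h _ (dominant_add lam hlam x₀ _ 0 (by omega))]

include p hπ in
/-- Representations coinduced from `zu`. -/
theorem AddFn.fam_ram (Ψ : AddFn F (GL (Fin 2) R)) {V : Type} [AddCommGroup V] [Module F V]
    [FiniteDimensional F V] (N : Representation F (zu π) V) (I : Ideal R) [Finite (R ⧸ I)]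
    (hI : ∀ g : zu π, CongOne I g.1 → N g = 1) (r : ℕ) (hr : CZ π N (kpow (κ x₀) (r : ℤ)))
    (lam : Emb → ℤ × ℤ) (hlam : Dominant lam) :
    (Ψ.tens (Wi (gp π) κ lam)).val _ (Representation.coind (zu π).subtype N)
      = (Module.finrank F V : ℤ) * zterm (Fintype.card k) (Ψ.cval π κ) lam x₀ r := by
  have hpact : PAct p N (zd π).ker := by
    refine pact_sub π hπ _ N I hI _ ?_
    intro g hg
    refine ⟨1, ?_⟩
    rw [pow_one, map_pow]
    have hd : π (g.1 0 0) = 1 := by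
      have := congrArg Units.val (MonoidHom.mem_ker.1 hg)
      rwa [zd_val] at this
    refine unip_pow _ g.2.1 hd ?_
    change π (g.1 1 1) = 1
    rw [← g.2.2, hd]
  rw [Ψ.zu_product (p := p) π κ x₀ hπ N hpact r hr (by omega) lam hlam]
  unfold zterm gap
  have h1 := hlam x₀
  have h2 : (((lam x₀).1 - (lam x₀).2).toNat : ℤ) = (lam x₀).1 - (lam x₀).2 := by omega
  have h3 : (r : ℤ) + ((Fintype.card k : ℤ) ^ 2 - 1) = (r : ℤ) + (Fintype.card k : ℤ) ^ 2 - 1 := by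
    ring
  rw [h2, h3, mul_assoc]

include p hπ in
theorem AddFn.fam_zch (Ψ : AddFn F (GL (Fin 2) R)) (r : ℕ)
    (lam : Emb → ℤ × ℤ) (hlam : Dominant lam) :
    (Ψ.tens (Wi (gp π) κ lam)).val _ (Representation.coind (zu π).subtype
      (chRep (zchar π (kpow (κ x₀) (r : ℤ)))))
      = zterm (Fintype.card k) (Ψ.cval π κ) lam x₀ r := by
  rw [Ψ.zu_product (p := p) π κ x₀ hπ _ (pact_chRep π _) r ?_ (by omega) lam hlam,
    Module.finrank_self]
  · unfold zterm gap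
    have h1 := hlam x₀
    have h2 : (((lam x₀).1 - (lam x₀).2).toNat : ℤ) = (lam x₀).1 - (lam x₀).2 := by omega
    have h3 : (r : ℤ) + ((Fintype.card k : ℤ) ^ 2 - 1)
        = (r : ℤ) + (Fintype.card k : ℤ) ^ 2 - 1 := by
      ring
    rw [h2, h3, Nat.cast_one, one_mul]
  · intro z h hz v
    rw [chRep_apply]
    rfl

include p hπ in
theorem AddFn.fam_ps (Ψ : AddFn F (GL (Fin 2) R)) (I : Ideal R) (hI : I ≤ RingHom.ker π)
    [Finite (R ⧸ I)] (i j : ℕ) (hij : i + Fintype.card k < j)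
    (lam : Emb → ℤ × ℤ) (hlam : Dominant lam) :
    (Ψ.tens (Wi (gp π) κ lam)).val _ (Representation.coind (gam0 I).subtype
      (chRep (pchar π (κ x₀) I hI i j)))
      = ssum (hat (Ψ.cval π κ)) lam x₀ j i
        - ssum (hat (Ψ.cval π κ)) lam x₀ ((j : ℤ) - Fintype.card k) ((i : ℤ) + 1)
        + ((Nat.card (R ⧸ I) / Fintype.card k - 1) / (Fintype.card k - 1) : ℕ) *
          zterm (Fintype.card k) (Ψ.cval π κ) lam x₀ (i + j) := by
  obtain ⟨t, ht, hval⟩ := (Ψ.tens (Wi (gp π) κ lam)).ps_conductor π (κ x₀) hπ _ I hI le_rfl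
  have hq : 2 ≤ Fintype.card k := Fintype.one_lt_card
  have ht' : (Nat.card (R ⧸ I) / Fintype.card k - 1) / (Fintype.card k - 1) = t := by
    rw [ht, Nat.mul_div_cancel_left _ (by omega), Nat.add_sub_cancel,
      Nat.mul_div_cancel_left _ (by omega)]
  have h1 := (Ψ.tens (Wi (gp π) κ lam)).ps_eq π κ x₀ hπ (j : ℤ) (i : ℤ) (by omega)
  rw [if_neg (by omega), Ψ.tens_single π κ x₀ lam hlam _ _ (by omega),
    Ψ.tens_single π κ x₀ lam hlam _ _ (by omega)] at h1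
  have h2 := Ψ.fam_zch p π hπ κ x₀ (i + j) lam hlam
  rw [hval, h1, ht', ← h2]
  push_cast
  rfl

include hπ in
theorem AddFn.fam_tch (Ψ : AddFn F (GL (Fin 2) R)) (ι : k →+* k2) (ω : k2) (κ2 : k2 →+* F)
    (hω : ∀ a, ι a ≠ ω) (hcard : Fintype.card k2 = Fintype.card k ^ 2)
    (hκ2 : ∀ a, κ2 (ι a) = κ x₀ a) (a : ℕ) (lam : Emb → ℤ × ℤ) (hlam : Dominant lam) :
    (Ψ.tens (Wi (gp π) κ lam)).val _ (Representation.coind (torR π ι ω).subtype
      (chRep (tchar π ι ω κ2 (a : ℤ))))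
      = tterm (Fintype.card k) (Ψ.cval π κ) lam x₀ a := by
  have hq : 2 ≤ Fintype.card k := Fintype.one_lt_card
  obtain ⟨q, hqd⟩ : ∃ q, q = Fintype.card k := ⟨_, rfl⟩
  obtain ⟨c, hc⟩ : ∃ c, q = c + 1 := ⟨q - 1, by omega⟩
  have e1 : (a : ℤ) + 1 * ((Fintype.card k2 : ℤ) - 1)
      = ((a + (Fintype.card k2 - 1) : ℕ) : ℤ) := by
    have : 1 ≤ Fintype.card k2 := Fintype.card_pos
    push_cast [Nat.cast_sub this]
    ring
  have h1 := (Ψ.tens (Wi (gp π) κ lam)).unr_eq π hπ κ x₀ ι ω κ2 hω hcard hκ2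
    (a + (Fintype.card k2 - 1)) (by
      rw [hcard, ← hqd, hc, Nat.add_sub_cancel]
      have : (c + 1) ^ 2 - 1 = c * (c + 1) + c := by
        have : (c + 1) ^ 2 = c * (c + 1) + c + 1 := by ring
        omega
      omega)
  rw [← e1, tchar_congr π ι ω κ2] at h1
  have e2 : ((a : ℤ) + 1 * ((Fintype.card k2 : ℤ) - 1)) = (a : ℤ) + (q : ℤ) ^ 2 - 1 := by
    rw [hcard, ← hqd]; push_cast; ring
  have e3 : (a : ℤ) + (q : ℤ) ^ 2 - 1 - ((Fintype.card k - 1) * Fintype.card k : ℕ)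
      = (a : ℤ) + q - 1 := by
    rw [← hqd, hc, Nat.add_sub_cancel]; push_cast; ring
  rw [e2, e3] at h1
  have hq' : (2 : ℤ) ≤ q := by omega
  rw [h1, Ψ.tens_single π κ x₀ lam hlam _ _ (by nlinarith),
    Ψ.tens_single π κ x₀ lam hlam _ _ (by omega), ← hqd]
  rfl

include p hπ in
theorem AddFn.fam_unr (Ψ : AddFn F (GL (Fin 2) R)) (ι : k →+* k2) (ω : k2) (κ2 : k2 →+* F)
    (hω : ∀ a, ι a ≠ ω) (hcard : Fintype.card k2 = Fintype.card k ^ 2)
    (hκ2 : ∀ a, κ2 (ι a) = κ x₀ a) {V : Type} [AddCommGroup V] [Module F V]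
    [FiniteDimensional F V] (N : Representation F (torR π ι ω) V) (I : Ideal R) [Finite (R ⧸ I)]
    (hI : ∀ g : torR π ι ω, CongOne I g.1 → N g = 1) (m : ℕ → ℕ)
    (hm : ∀ a < Fintype.card k2 - 1,
      RepJHSum (multFn (chRep (tchar π ι ω κ2 (a : ℤ)))) N (m a))
    (lam : Emb → ℤ × ℤ) (hlam : Dominant lam) :
    (Ψ.tens (Wi (gp π) κ lam)).val _ (Representation.coind (torR π ι ω).subtype N)
      = ∑ a ∈ Finset.range (Fintype.card k2 - 1), (m a : ℤ) *
        tterm (Fintype.card k) (Ψ.cval π κ) lam x₀ a := by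
  rw [AddFn.tor_expand (p := p) π hπ ι ω κ2 hω hcard (Ψ.tens (Wi (gp π) κ lam)) N I hI m hm]
  refine Finset.sum_congr rfl fun a _ => ?_
  rw [Ψ.fam_tch π hπ κ x₀ ι ω κ2 hω hcard hκ2 a lam hlam]

include hπ in
/-- the virtual representation `coind zu ω_a - coind torR θ_a` -/
theorem AddFn.fam_cusp (Ψ : AddFn F (GL (Fin 2) R)) (ι : k →+* k2) (ω : k2) (κ2 : k2 →+* F)
    (hω : ∀ a, ι a ≠ ω) (hcard : Fintype.card k2 = Fintype.card k ^ 2)
    (hκ2 : ∀ a, κ2 (ι a) = κ x₀ a) (a : ℕ) (lam : Emb → ℤ × ℤ) (hlam : Dominant lam) :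
    (Ψ.tens (Wi (gp π) κ lam)).val _ (Representation.coind (zu π).subtype
        (chRep (zchar π (kpow (κ x₀) (a : ℤ)))))
      - (Ψ.tens (Wi (gp π) κ lam)).val _ (Representation.coind (torR π ι ω).subtype
        (chRep (tchar π ι ω κ2 (a : ℤ))))
      = ssum (hat (Ψ.cval π κ)) lam x₀ ((a : ℤ) + Fintype.card k - 1) 0
        - ssum (hat (Ψ.cval π κ)) lam x₀ (a : ℤ) 0 := by
  have hq : 2 ≤ Fintype.card k := Fintype.one_lt_card
  have hq' : (2 : ℤ) ≤ Fintype.card k := by omega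
  have h1 := (Ψ.tens (Wi (gp π) κ lam)).zu_sym π κ x₀ hπ (a : ℤ) 0 (by omega)
  rw [add_zero, Ψ.tens_single π κ x₀ lam hlam _ _ (by nlinarith),
    Ψ.tens_single π κ x₀ lam hlam _ _ (by omega)] at h1
  rw [Ψ.fam_tch π hπ κ x₀ ι ω κ2 hω hcard hκ2 a lam hlam, h1]
  unfold tterm
  have h2 : (a : ℤ) + ((Fintype.card k : ℤ) ^ 2 - 1) = (a : ℤ) + (Fintype.card k : ℤ) ^ 2 - 1 := by
    ring
  rw [h2]
  ring

end families

section generic

variable {p : ℕ} [Fact p.Prime] {R k F Emb : Type} [CommRing R] [IsLocalRing R] [Field k]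
  [Fintype k] [CharP k p] [Field F] [CharP F p] [Fintype Emb] [DecidableEq Emb]
  (π : R →+* k) (hπ : Function.Surjective π) (κ : Emb → k →+* F) {S : Finset Emb} {x₀ : Emb}
  {t : Emb → ℕ} {f : ℕ}

include hπ in
lemma Setup.val_same (h : Setup p κ S x₀ t f) (Ψ : AddFn F (GL (Fin 2) R)) {V N : Type}
    [AddCommGroup V] [Module F V] [FiniteDimensional F V] [AddCommGroup N] [Module F N]
    [FiniteDimensional F N] (ρ : Representation F (GL (Fin 2) R) V)
    (σ : Representation F (GL (Fin 2) R) N) (hρ : PAct p ρ (gp π).ker) (hσ : PAct p σ (gp π).ker)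
    (hs : SameJH ρ σ) : Ψ.val _ ρ = Ψ.val _ σ := by
  have hfin := restricted_finite (Emb := Emb) p (Fintype.card k) S x₀
  have hR : ∀ ν, ν ∈ hfin.toFinset ↔ Restricted p (Fintype.card k) S x₀ ν :=
    fun ν => by rw [Set.Finite.mem_toFinset]; rfl
  rw [h.expand (gp π) (gl_surjective π hπ) Ψ _ hR ρ hρ,
    h.expand (gp π) (gl_surjective π hπ) Ψ _ hR σ hσ]
  exact Finset.sum_congr rfl fun ν _ => by rw [hs.jh_eq]

include hπ in
lemma Setup.val_sum (h : Setup p κ S x₀ t f) (Ψ : AddFn F (GL (Fin 2) R)) {V N U : Type}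
    [AddCommGroup V] [Module F V] [FiniteDimensional F V] [AddCommGroup N] [Module F N]
    [FiniteDimensional F N] [AddCommGroup U] [Module F U] [FiniteDimensional F U]
    (ρ : Representation F (GL (Fin 2) R) V) (σ : Representation F (GL (Fin 2) R) N)
    (υ : Representation F (GL (Fin 2) R) U) (hρ : PAct p ρ (gp π).ker)
    (hσ : PAct p σ (gp π).ker) (hυ : PAct p υ (gp π).ker)
    (hs : SumJH ρ σ υ) : Ψ.val _ ρ = Ψ.val _ υ - Ψ.val _ σ := by
  have hfin := restricted_finite (Emb := Emb) p (Fintype.card k) S x₀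
  have hR : ∀ ν, ν ∈ hfin.toFinset ↔ Restricted p (Fintype.card k) S x₀ ν :=
    fun ν => by rw [Set.Finite.mem_toFinset]; rfl
  rw [h.expand (gp π) (gl_surjective π hπ) Ψ _ hR ρ hρ,
    h.expand (gp π) (gl_surjective π hπ) Ψ _ hR σ hσ,
    h.expand (gp π) (gl_surjective π hπ) Ψ _ hR υ hυ, ← Finset.sum_sub_distrib]
  refine Finset.sum_congr rfl fun ν _ => ?_
  rw [← hs.jh_eq]
  push_cast
  ring

include hπ in
/-- The generic equivalence. -/
theorem Setup.iff_of_formula (h : Setup p κ S x₀ t f)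
    {T : Type} (N : T → Type) [∀ τ, AddCommGroup (N τ)] [∀ τ, Module F (N τ)]
    [∀ τ, FiniteDimensional F (N τ)] (M : ∀ τ, Representation F (GL (Fin 2) R) (N τ))
    (P : T → ((Emb → ℤ × ℤ) → ℤ) → (Emb → ℤ × ℤ) → ℤ)
    (hP : ∀ τ (Ψ : AddFn F (GL (Fin 2) R)) lam, Dominant lam →
      (Ψ.tens (Wi (gp π) κ lam)).val _ (M τ) = P τ (Ψ.cval π κ) lam)
    (hcongr : ∀ τ e e', (∀ l, Dominant l → e l = e' l) → ∀ lam, Dominant lam →
      P τ e lam = P τ e' lam)
    (e : (Emb → ℤ × ℤ) → ℕ) (e' : T → (Emb → ℤ × ℤ) → ℕ) :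
    (∃ μ : WeightFn F[GL (Fin 2) R],
      (∀ lam, Dominant lam → RepJHSum μ (Wi (gp π) κ lam) (e lam)) ∧
      ∀ τ lam, Dominant lam → RepJHSum μ (twist (gp π) (M τ) (W κ lam)) (e' τ lam)) ↔
    (FrobeniusPeriodic p κ (fun lam => (e lam : ℤ)) ∧
      ∀ τ lam, Dominant lam → (e' τ lam : ℤ) = P τ (fun l => (e l : ℤ)) lam) := by
  have key : ∀ (μ : WeightFn F[GL (Fin 2) R]),
      (∀ lam, Dominant lam → RepJHSum μ (Wi (gp π) κ lam) (e lam)) →
      ∀ τ lam, Dominant lam → (jh μ (twist (gp π) (M τ) (W κ lam)) : ℤ)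
        = P τ (fun l => (e l : ℤ)) lam := by
    intro μ hμ τ lam hlam
    have h1 : (jh μ (twist (gp π) (M τ) (W κ lam)) : ℤ)
        = ((AddFn.ofMu μ).tens (M τ)).val _ (Wi (gp π) κ lam) := rfl
    rw [h1, (AddFn.ofMu μ).tens_comm (M τ) (Wi (gp π) κ lam), hP τ _ lam hlam]
    refine hcongr τ _ _ (fun l hl => ?_) lam hlam
    change (jh μ (Wi (gp π) κ l) : ℤ) = _
    rw [jh_eq (hμ l hl)]
  constructor
  · rintro ⟨μ, h1, h2⟩
    refine ⟨?_, fun τ lam hlam => ?_⟩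
    · refine (((AddFn.ofMu μ).infl (gp π)).frobeniusPeriodic κ).congr (fun ν hν => ?_)
      rw [infl_wval, jh_eq (h1 ν hν)]
    · rw [← key μ h1 τ lam hlam, jh_eq (h2 τ lam hlam)]
  · rintro ⟨h1, h2⟩
    obtain ⟨μ, hμ⟩ := h.crys (gp π) (gl_surjective π hπ) e h1
    refine ⟨μ, hμ, fun τ lam hlam => ?_⟩
    have h3 := key μ hμ τ lam hlam
    rw [← h2 τ lam hlam] at h3
    have h4 : jh μ (twist (gp π) (M τ) (W κ lam)) = e' τ lam := by exact_mod_cast h3
    rw [← h4]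
    exact jhSum_jh μ _

include hπ in
omit [Fintype k] [CharP F p] in
lemma pact_cong (I : Ideal R) [Finite (R ⧸ I)] {V : Type} [AddCommGroup V] [Module F V]
    (ρ : Representation F (GL (Fin 2) R) V) (hρ : ∀ g, CongOne I g → ρ g = 1) :
    PAct p ρ (gp π).ker :=
  pact_of_congruence π hπ ρ I hρ

omit [Fintype k] in
/-- every ideal of finite index contains a proper one -/
lemma exists_shrink (π : R →+* k) (hπ : Function.Surjective π) [Finite k] (I : Ideal R)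
    [Finite (R ⧸ I)] : ∃ J : Ideal R, J ≤ I ∧ J ≤ RingHom.ker π ∧ Finite (R ⧸ J) := by
  by_cases h : I = ⊤
  · refine ⟨RingHom.ker π, h ▸ le_top, le_rfl, ?_⟩
    exact Finite.of_equiv k (RingHom.quotientKerEquivOfSurjective hπ).symm.toEquiv
  · refine ⟨I, le_rfl, ?_, inferInstance⟩
    rw [ker_eq_max π hπ]
    exact IsLocalRing.le_maximalIdeal h

omit [Fintype Emb] in
lemma dominant_rr {lam : Emb → ℤ × ℤ} (hlam : Dominant lam) (x₀ : Emb) (r : ℤ) :
    Dominant (lam + Pi.single x₀ (r, r)) := by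
  intro x
  have h1 := hlam x
  rw [Pi.add_apply]
  by_cases hx : x = x₀
  · subst hx
    rw [Pi.single_eq_same]
    simp only [Prod.fst_add, Prod.snd_add]
    omega
  · rw [Pi.single_eq_of_ne hx, add_zero]
    exact h1

omit [Fintype k] [CharP k p] [CharP F p] [IsLocalRing R] [Fact p.Prime] in
lemma AddFn.fam_det (Ψ : AddFn F (GL (Fin 2) R)) (x₀ : Emb) (r : ℤ)
    (lam : Emb → ℤ × ℤ) (hlam : Dominant lam) :
    (Ψ.tens (Wi (gp π) κ lam)).val _ (Wi (gp π) κ (Pi.single x₀ (r, r)))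
      = Ψ.cval π κ (lam + Pi.single x₀ (r, r)) := by
  rw [Ψ.tens_single π κ x₀ lam hlam r r le_rfl]
  unfold ssum
  rw [sub_self, Int.toNat_zero, zero_add, Finset.sum_range_one, Nat.cast_zero, sub_zero, add_zero,
    hat_of_dominant _ (dominant_rr hlam x₀ r)]

lemma CongOne.mono {R : Type} [CommRing R] {I J : Ideal R} (hIJ : I ≤ J) {g : GL (Fin 2) R}
    (hg : CongOne I g) : CongOne J g := fun i j => hIJ (hg i j)

end generic

end Pool.Agent.Work.MP_39033f_nt
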