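import Pool.Agent.Work.MP_39033f_nt.TyProd

set_option autoImplicit false

open scoped MonoidAlgebra TensorProduct

namespace Pool.Agent.Work.MP_39033f_nt

section poly

variable {F : Type} [Field F]

lemma degree_C_mul_le' (a : F) (P : Polynomial F) : (Polynomial.C a * P).degree ≤ P.degree := by
  rw [← Polynomial.smul_eq_C_mul]
  exact Polynomial.degree_smul_le _ _

lemma coeff_lin_pow (α β : F) (t s : ℕ) (hts : t ≤ s) :
    ((Polynomial.C α * Polynomial.X + Polynomial.C β) ^ t).coeff s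
      = if t = s then α ^ s else 0 := by
  have hdeg : (Polynomial.C α * Polynomial.X + Polynomial.C β).natDegree ≤ 1 :=
    Polynomial.natDegree_linear_le
  split_ifs with h
  · subst h
    have h1 := Polynomial.coeff_pow_of_natDegree_le (m := t) hdeg
    rw [mul_one] at h1
    rw [h1]
    simp
  · apply Polynomial.coeff_eq_zero_of_natDegree_lt
    refine lt_of_le_of_lt (Polynomial.natDegree_pow_le_of_le t hdeg) ?_
    omega

lemma coeff_comp_lin (α β : F) (P : Polynomial F) (s : ℕ) (hP : P.degree < ((s + 1 : ℕ) : WithBot ℕ)) :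
    (P.comp (Polynomial.C α * Polynomial.X + Polynomial.C β)).coeff s = P.coeff s * α ^ s := by
  have h1 : P.natDegree < s + 1 := by
    by_cases h0 : P = 0
    · rw [h0, Polynomial.natDegree_zero]; omega
    · exact (Polynomial.natDegree_lt_iff_degree_lt h0).2 hP
  have h2 : P.comp (Polynomial.C α * Polynomial.X + Polynomial.C β)
      = ∑ t ∈ Finset.range (s + 1), (Polynomial.monomial t (P.coeff t)).comp
        (Polynomial.C α * Polynomial.X + Polynomial.C β) := by
    conv_lhs => rw [Polynomial.as_sum_range' P (s + 1) h1]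
    exact map_sum (Polynomial.compRingHom (Polynomial.C α * Polynomial.X + Polynomial.C β)) _ _
  rw [h2, Polynomial.finsetSum_coeff, Finset.sum_eq_single s]
  · rw [Polynomial.monomial_comp, Polynomial.coeff_C_mul, coeff_lin_pow α β s s le_rfl, if_pos rfl]
  · intro t ht hts
    have ht' := Finset.mem_range.1 ht
    rw [Polynomial.monomial_comp, Polynomial.coeff_C_mul, coeff_lin_pow α β t s (by omega),
      if_neg hts, mul_zero]
  · intro h
    exact absurd (Finset.mem_range.2 (Nat.lt_succ_self s)) h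

lemma degree_comp_lin (α β : F) (P : Polynomial F) (m : ℕ) (hP : P.degree < (m : WithBot ℕ)) :
    (P.comp (Polynomial.C α * Polynomial.X + Polynomial.C β)).degree < (m : WithBot ℕ) := by
  by_cases h0 : P = 0
  · rw [h0, Polynomial.zero_comp]
    rwa [h0] at hP
  · rw [← Polynomial.natDegree_lt_iff_degree_lt h0] at hP
    refine lt_of_le_of_lt Polynomial.degree_le_natDegree ?_
    have h1 : (P.comp (Polynomial.C α * Polynomial.X + Polynomial.C β)).natDegree ≤ P.natDegree := by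
      refine Polynomial.natDegree_comp_le.trans ?_
      have : (Polynomial.C α * Polynomial.X + Polynomial.C β).natDegree ≤ 1 :=
        Polynomial.natDegree_linear_le
      calc P.natDegree * (Polynomial.C α * Polynomial.X + Polynomial.C β).natDegree
          ≤ P.natDegree * 1 := Nat.mul_le_mul_left _ this
        _ = P.natDegree := mul_one _
    exact_mod_cast lt_of_le_of_lt h1 hP

end poly

/-- An identification of `J / I` with the residue field. -/
structure Eps {R k : Type} [CommRing R] [Field k] (π : R →+* k) (I J : Ideal R) where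
  ε : J → k
  add : ∀ x y, ε (x + y) = ε x + ε y
  smul : ∀ (r : R) (x : J), ε (r • x) = π r * ε x
  ker : ∀ x, ε x = 0 ↔ x.1 ∈ I
  surj : Function.Surjective ε

section step

set_option linter.unusedSectionVars false

variable {R k F : Type} [CommRing R] [Field k] [Fintype k] [Field F] (π : R →+* k)
  (κ₀ : k →+* F) {I J : Ideal R} (hIJ : I ≤ J) (hJ : J ≤ RingHom.ker π) (E : Eps π I J)
  (i j : ℤ)

lemma Eps.neg (x : J) : E.ε (-x) = -E.ε x := by
  have := E.smul (-1) x
  rwa [map_neg, map_one, neg_smul, one_smul, neg_mul, one_mul] at this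

lemma Eps.sub (x y : J) : E.ε (x - y) = E.ε x - E.ε y := by
  rw [sub_eq_add_neg, E.add, E.neg, ← sub_eq_add_neg]

/-- the function space -/
noncomputable abbrev PSV (I : Ideal R) (hI : I ≤ RingHom.ker π) (i j : ℤ) : Submodule F (GL (Fin 2) R → F) :=
  Representation.coindV (gam0 I).subtype (chRep (pchar π κ₀ I hI i j))

lemma psv_mul (f : PSV π κ₀ I (hIJ.trans hJ) i j) (h : GL (Fin 2) R) (hh : h ∈ gam0 I)
    (g : GL (Fin 2) R) : f.1 (h * g) = κ₀ (π (h 0 0)) ^ i * κ₀ (π (h 1 1)) ^ j * f.1 g := by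
  have h1 := f.2 ⟨h, hh⟩ g
  rw [chRep_apply, pchar_val] at h1
  exact h1

lemma nlow_mul (x y : R) : nlow x * nlow y = nlow (x + y) := by
  ext a b
  rw [gl_mul_apply]
  fin_cases a <;> fin_cases b <;> simp [nlow_00, nlow_01, nlow_10, nlow_11]

include hJ in
/-- translation by `nlow` of an element of `J` only depends on `ε` -/
lemma psv_nlow (f : PSV π κ₀ I (hIJ.trans hJ) i j) (x y : J) (hxy : E.ε x = E.ε y)
    (g : GL (Fin 2) R) : f.1 (nlow x.1 * g) = f.1 (nlow y.1 * g) := by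
  have h1 : (x - y).1 ∈ I := by
    rw [← E.ker, E.sub, hxy, sub_self]
  have h2 : nlow x.1 = nlow (x - y).1 * nlow y.1 := by
    rw [nlow_mul]
    congr 1
    simp
  rw [h2, mul_assoc, psv_mul π κ₀ hIJ hJ i j f (nlow (x - y).1) h1, nlow_00, nlow_11, map_one,
    map_one, one_zpow, one_zpow, one_mul, one_mul]

/-- the transformation rule -/
lemma psv_trans (f : PSV π κ₀ I (hIJ.trans hJ) i j) (h : GL (Fin 2) R) (hh : h ∈ gam0 J)
    (x y : J) (hxy : π (h 1 1) * E.ε y = π (h 0 0) * E.ε x + E.ε ⟨h 1 0, hh⟩)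
    (g : GL (Fin 2) R) : f.1 (nlow x.1 * (h * g))
      = κ₀ (π (h 0 0)) ^ i * κ₀ (π (h 1 1)) ^ j * f.1 (nlow y.1 * g) := by
  set h' := nlow x.1 * h * nlow (-y.1) with hh'
  have e1 : nlow x.1 * (h * g) = h' * (nlow y.1 * g) := by
    have : nlow (-y.1) * nlow y.1 = 1 := by
      rw [nlow_mul, neg_add_cancel]
      ext a b
      fin_cases a <;> fin_cases b <;> simp [nlow_00, nlow_01, nlow_10, nlow_11]
    calc nlow x.1 * (h * g) = nlow x.1 * h * (nlow (-y.1) * nlow y.1) * g := by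
          rw [this, mul_one, mul_assoc]
      _ = h' * (nlow y.1 * g) := by rw [hh']; simp only [mul_assoc]
  have hx : π x.1 = 0 := hJ x.2
  have hy : π y.1 = 0 := hJ y.2
  have a10 : h' 1 0 = x.1 * h 0 0 + h 1 0 + (x.1 * h 0 1 + h 1 1) * -y.1 := by
    rw [hh', gl_mul_apply, gl_mul_apply, gl_mul_apply]
    simp [nlow_00, nlow_10, nlow_11]
  have a00 : h' 0 0 = h 0 0 + h 0 1 * -y.1 := by
    rw [hh', gl_mul_apply, gl_mul_apply, gl_mul_apply]
    simp [nlow_00, nlow_01, nlow_10]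
  have a11 : h' 1 1 = x.1 * h 0 1 + h 1 1 := by
    rw [hh', gl_mul_apply, gl_mul_apply, gl_mul_apply]
    simp [nlow_01, nlow_10, nlow_11]
  have hmem : h' ∈ gam0 I := by
    rw [mem_gam0]
    have hJ' : h' 1 0 ∈ J := by
      rw [a10]
      exact J.add_mem (J.add_mem (J.mul_mem_right _ x.2) hh) (J.mul_mem_left _ (J.neg_mem y.2))
    have h2 : E.ε ⟨h' 1 0, hJ'⟩ = 0 := by
      have h3 : (⟨h' 1 0, hJ'⟩ : J) = (h 0 0) • x + ⟨h 1 0, hh⟩ - (x.1 * h 0 1 + h 1 1) • y := by
        apply Subtype.ext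
        refine a10.trans ?_
        simp only [Submodule.coe_sub, Submodule.coe_add, Submodule.coe_smul, smul_eq_mul]
        ring
      rw [h3, E.sub, E.add, E.smul, E.smul, map_add, map_mul, hx, zero_mul, zero_add, hxy, sub_self]
    exact (E.ker _).1 h2
  rw [e1, psv_mul π κ₀ hIJ hJ i j f h' hmem, a00, a11]
  simp only [map_add, map_mul, map_neg, hx, hy, neg_zero, mul_zero, add_zero, zero_mul, zero_add]

open Classical in
/-- the interpolation polynomial of `u ↦ f (nlow u g)` -/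
noncomputable def pol (g : GL (Fin 2) R) :
    PSV π κ₀ I (hIJ.trans hJ) i j →ₗ[F] Polynomial F :=
  (Lagrange.interpolate (Finset.univ : Finset k) (fun u => κ₀ u)).comp
    ({ toFun := fun f u => f.1 (nlow ((Function.surjInv E.surj u).1) * g)
       map_add' := fun _ _ => rfl
       map_smul' := fun _ _ => rfl } : PSV π κ₀ I (hIJ.trans hJ) i j →ₗ[F] (k → F))

lemma nodes_inj : Set.InjOn (fun u : k => κ₀ u) (Finset.univ : Finset k) :=
  fun _ _ _ _ h => κ₀.injective h

lemma pol_eval (g : GL (Fin 2) R) (f : PSV π κ₀ I (hIJ.trans hJ) i j) (x : J) :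
    (pol π κ₀ hIJ hJ E i j g f).eval (κ₀ (E.ε x)) = f.1 (nlow x.1 * g) := by
  classical
  unfold pol
  rw [LinearMap.comp_apply,
    Lagrange.eval_interpolate_at_node _ (nodes_inj κ₀) (Finset.mem_univ (E.ε x))]
  exact psv_nlow π κ₀ hIJ hJ E i j f _ x (Function.surjInv_eq E.surj _) g

lemma pol_degree (g : GL (Fin 2) R) (f : PSV π κ₀ I (hIJ.trans hJ) i j) :
    (pol π κ₀ hIJ hJ E i j g f).degree < (Fintype.card k : WithBot ℕ) := by
  classical
  exact Lagrange.degree_interpolate_lt _ (nodes_inj κ₀)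

lemma pol_unique (g : GL (Fin 2) R) (f : PSV π κ₀ I (hIJ.trans hJ) i j) (P : Polynomial F)
    (hP : P.degree < (Fintype.card k : WithBot ℕ))
    (h : ∀ x : J, P.eval (κ₀ (E.ε x)) = f.1 (nlow x.1 * g)) :
    pol π κ₀ hIJ hJ E i j g f = P := by
  classical
  refine Polynomial.eq_of_degrees_lt_of_eval_index_eq (Finset.univ : Finset k) (nodes_inj κ₀)
    (pol_degree π κ₀ hIJ hJ E i j g f) hP ?_
  intro u _
  obtain ⟨x, rfl⟩ := E.surj u
  rw [pol_eval, h]

/-- the transformation rule for the polynomials -/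
lemma pol_trans (f : PSV π κ₀ I (hIJ.trans hJ) i j) (h : GL (Fin 2) R) (hh : h ∈ gam0 J)
    (g : GL (Fin 2) R) : pol π κ₀ hIJ hJ E i j (h * g) f
      = Polynomial.C (κ₀ (π (h 0 0)) ^ i * κ₀ (π (h 1 1)) ^ j) *
        (pol π κ₀ hIJ hJ E i j g f).comp
        (Polynomial.C (κ₀ (π (h 0 0)) / κ₀ (π (h 1 1))) * Polynomial.X
          + Polynomial.C (κ₀ (E.ε ⟨h 1 0, hh⟩) / κ₀ (π (h 1 1)))) := by
  have h11 : π (h 1 1) ≠ 0 := borel_diag_ne π (gam0_mono hJ hh) 1
  apply pol_unique
  · refine lt_of_le_of_lt (degree_C_mul_le' _ _) ?_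
    exact degree_comp_lin _ _ _ _ (pol_degree π κ₀ hIJ hJ E i j g f)
  · intro x
    obtain ⟨y, hy⟩ := E.surj ((π (h 0 0) * E.ε x + E.ε ⟨h 1 0, hh⟩) / π (h 1 1))
    have hxy : π (h 1 1) * E.ε y = π (h 0 0) * E.ε x + E.ε ⟨h 1 0, hh⟩ := by
      rw [hy]; field_simp
    rw [psv_trans π κ₀ hIJ hJ E i j f h hh x y hxy g, Polynomial.eval_mul, Polynomial.eval_C,
      Polynomial.eval_comp, ← pol_eval π κ₀ hIJ hJ E i j g f y, hy]
    congr 2
    simp only [Polynomial.eval_add, Polynomial.eval_mul, Polynomial.eval_C, Polynomial.eval_X,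
      map_div₀, map_add, map_mul]
    ring

/-- functions of degree `< s` -/
noncomputable def Vs (s : ℕ) : Subrepresentation (Representation.coind (gam0 I).subtype
    (chRep (pchar π κ₀ I (hIJ.trans hJ) i j))) where
  toSubmodule :=
    { carrier := {f | ∀ g, (pol π κ₀ hIJ hJ E i j g f).degree < (s : WithBot ℕ)}
      add_mem' := fun {a b} ha hb g => by
        rw [map_add]
        exact lt_of_le_of_lt (Polynomial.degree_add_le _ _) (max_lt (ha g) (hb g))
      zero_mem' := fun g => by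
        rw [map_zero, Polynomial.degree_zero]
        exact WithBot.bot_lt_coe s
      smul_mem' := fun c f hf g => by
        rw [map_smul]
        exact lt_of_le_of_lt (Polynomial.degree_smul_le _ _) (hf g) }
  apply_mem_toSubmodule g f hf := by
    intro g'
    have h1 : pol π κ₀ hIJ hJ E i j g' (Representation.coind (gam0 I).subtype
        (chRep (pchar π κ₀ I (hIJ.trans hJ) i j)) g f) = pol π κ₀ hIJ hJ E i j (g' * g) f := by
      apply pol_unique
      · exact pol_degree π κ₀ hIJ hJ E i j _ f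
      · intro x
        rw [pol_eval, coind_apply, mul_assoc]
    rw [h1]
    exact hf _

lemma mem_Vs {s : ℕ} {f : PSV π κ₀ I (hIJ.trans hJ) i j} :
    f ∈ (Vs π κ₀ hIJ hJ E i j s).toSubmodule ↔
      ∀ g, (pol π κ₀ hIJ hJ E i j g f).degree < (s : WithBot ℕ) := Iff.rfl

lemma pol_coind (g g' : GL (Fin 2) R) (f : PSV π κ₀ I (hIJ.trans hJ) i j) :
    pol π κ₀ hIJ hJ E i j g' (Representation.coind (gam0 I).subtype
        (chRep (pchar π κ₀ I (hIJ.trans hJ) i j)) g f) = pol π κ₀ hIJ hJ E i j (g' * g) f := by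
  apply pol_unique
  · exact pol_degree π κ₀ hIJ hJ E i j _ f
  · intro x
    rw [pol_eval, coind_apply, mul_assoc]

/-- the leading coefficient -/
noncomputable def lcMap (s : ℕ) : (Vs π κ₀ hIJ hJ E i j (s + 1)).toSubmodule →ₗ[F]
    PSV π κ₀ J hJ (i + s) (j - s) where
  toFun f := ⟨fun g => (pol π κ₀ hIJ hJ E i j g f.1).coeff s, by
    intro h g
    rw [chRep_apply, pchar_val]
    change (pol π κ₀ hIJ hJ E i j (h.1 * g) f.1).coeff s = _
    rw [pol_trans π κ₀ hIJ hJ E i j f.1 h.1 h.2 g, Polynomial.coeff_C_mul,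
      coeff_comp_lin _ _ _ s (f.2 g), div_pow]
    have h0 : κ₀ (π (h.1 0 0)) ≠ 0 := by
      rw [map_ne_zero_iff _ κ₀.injective]
      exact borel_diag_ne π (gam0_mono hJ h.2) 0
    have h1 : κ₀ (π (h.1 1 1)) ≠ 0 := by
      rw [map_ne_zero_iff _ κ₀.injective]
      exact borel_diag_ne π (gam0_mono hJ h.2) 1
    rw [zpow_add₀ h0, zpow_sub₀ h1, zpow_natCast, zpow_natCast]
    ring⟩
  map_add' f f' := by
    apply Subtype.ext
    ext1 g
    simp only [Submodule.coe_add, Pi.add_apply, map_add, Polynomial.coeff_add]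
  map_smul' c f := by
    apply Subtype.ext
    ext1 g
    simp only [Submodule.coe_smul, Pi.smul_apply, map_smul, Polynomial.coeff_smul, RingHom.id_apply]

lemma lcMap_apply (s : ℕ) (f : (Vs π κ₀ hIJ hJ E i j (s + 1)).toSubmodule) (g : GL (Fin 2) R) :
    (lcMap π κ₀ hIJ hJ E i j s f).1 g = (pol π κ₀ hIJ hJ E i j g f.1).coeff s := rfl

/-- the function on `Γ₀(J)` given by the `s`-th power of the coordinate -/
noncomputable def basic (s : ℕ) : PSV π κ₀ I (hIJ.trans hJ) i j := by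
  classical
  exact ⟨fun g => if hg : g ∈ gam0 J then κ₀ (π (g 0 0)) ^ i * κ₀ (π (g 1 1)) ^ j *
      (κ₀ (E.ε ⟨g 1 0, hg⟩) / κ₀ (π (g 1 1))) ^ s else 0, by
    intro h g
    rw [chRep_apply, pchar_val]
    dsimp only
    have hhJ : h.1 ∈ gam0 J := gam0_mono hIJ h.2
    by_cases hg : g ∈ gam0 J
    · have h1 : (gam0 I).subtype h * g ∈ gam0 J := (gam0 J).mul_mem hhJ hg
      rw [dif_pos h1, dif_pos hg]
      have g10 : π (g 1 0) = 0 := hJ hg
      have h10 : π (h.1 1 0) = 0 := hJ hhJ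
      have e1 : π (((gam0 I).subtype h * g) 0 0) = π (h.1 0 0) * π (g 0 0) := by
        change π ((h.1 * g) 0 0) = _
        rw [gl_mul_apply, map_add, map_mul, map_mul, g10, mul_zero, add_zero]
      have e2 : π (((gam0 I).subtype h * g) 1 1) = π (h.1 1 1) * π (g 1 1) := by
        change π ((h.1 * g) 1 1) = _
        rw [gl_mul_apply, map_add, map_mul, map_mul, h10, zero_mul, zero_add]
      have e3 : E.ε ⟨((gam0 I).subtype h * g) 1 0, h1⟩ = π (h.1 1 1) * E.ε ⟨g 1 0, hg⟩ := by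
        have h2 : (⟨((gam0 I).subtype h * g) 1 0, h1⟩ : J)
            = ⟨h.1 1 0 * g 0 0, J.mul_mem_right _ hhJ⟩ + (h.1 1 1) • ⟨g 1 0, hg⟩ := by
          apply Subtype.ext
          change (h.1 * g) 1 0 = _
          rw [gl_mul_apply]
          rfl
        rw [h2, E.add, E.smul, (E.ker _).2 (I.mul_mem_right _ h.2), zero_add]
      have hne : κ₀ (π (h.1 1 1)) ≠ 0 := by
        rw [map_ne_zero_iff _ κ₀.injective]
        exact borel_diag_ne π (gam0_mono hJ hhJ) 1
      rw [e1, e2, e3, map_mul, map_mul, map_mul, mul_zpow, mul_zpow, mul_div_mul_left _ _ hne]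
      ring
    · have h1 : (gam0 I).subtype h * g ∉ gam0 J := by
        intro hcon
        exact hg ((Subgroup.mul_mem_cancel_left _ hhJ).1 hcon)
      rw [dif_neg h1, dif_neg hg, mul_zero]⟩

lemma basic_mem (s : ℕ) (g : GL (Fin 2) R) (hg : g ∈ gam0 J) :
    (basic π κ₀ hIJ hJ E i j s).1 g = κ₀ (π (g 0 0)) ^ i * κ₀ (π (g 1 1)) ^ j *
      (κ₀ (E.ε ⟨g 1 0, hg⟩) / κ₀ (π (g 1 1))) ^ s := by
  classical
  unfold basic
  simp only [dif_pos hg]

lemma basic_notMem (s : ℕ) (g : GL (Fin 2) R) (hg : g ∉ gam0 J) :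
    (basic π κ₀ hIJ hJ E i j s).1 g = 0 := by
  classical
  unfold basic
  simp only [dif_neg hg]

lemma pol_basic_one (s : ℕ) (hs : s < Fintype.card k) :
    pol π κ₀ hIJ hJ E i j 1 (basic π κ₀ hIJ hJ E i j s) = Polynomial.X ^ s := by
  apply pol_unique
  · rw [Polynomial.degree_X_pow]
    exact_mod_cast hs
  · intro x
    have hmem : nlow x.1 ∈ gam0 J := x.2
    rw [mul_one, basic_mem π κ₀ hIJ hJ E i j s (nlow x.1) hmem]
    have h1 : (⟨(nlow x.1) 1 0, hmem⟩ : J) = x := rfl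
    rw [h1, nlow_00, nlow_11]
    simp

lemma pol_basic_mem (s : ℕ) (hs : s < Fintype.card k) (g : GL (Fin 2) R) (hg : g ∈ gam0 J) :
    pol π κ₀ hIJ hJ E i j g (basic π κ₀ hIJ hJ E i j s)
      = Polynomial.C (κ₀ (π (g 0 0)) ^ i * κ₀ (π (g 1 1)) ^ j) *
        (Polynomial.X ^ s : Polynomial F).comp
        (Polynomial.C (κ₀ (π (g 0 0)) / κ₀ (π (g 1 1))) * Polynomial.X
          + Polynomial.C (κ₀ (E.ε ⟨g 1 0, hg⟩) / κ₀ (π (g 1 1)))) := by
  have h1 := pol_trans π κ₀ hIJ hJ E i j (basic π κ₀ hIJ hJ E i j s) g hg 1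
  rw [mul_one, pol_basic_one π κ₀ hIJ hJ E i j s hs] at h1
  exact h1

lemma pol_basic_notMem (s : ℕ) (g : GL (Fin 2) R) (hg : g ∉ gam0 J) :
    pol π κ₀ hIJ hJ E i j g (basic π κ₀ hIJ hJ E i j s) = 0 := by
  apply pol_unique
  · rw [Polynomial.degree_zero]
    exact WithBot.bot_lt_coe _
  · intro x
    rw [Polynomial.eval_zero, basic_notMem]
    intro hcon
    exact hg ((Subgroup.mul_mem_cancel_left _ (show nlow x.1 ∈ gam0 J from x.2)).1 hcon)

lemma basic_mem_Vs (s : ℕ) (hs : s < Fintype.card k) :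
    basic π κ₀ hIJ hJ E i j s ∈ (Vs π κ₀ hIJ hJ E i j (s + 1)).toSubmodule := by
  intro g
  by_cases hg : g ∈ gam0 J
  · rw [pol_basic_mem π κ₀ hIJ hJ E i j s hs g hg]
    refine lt_of_le_of_lt (degree_C_mul_le' _ _) ?_
    apply degree_comp_lin
    rw [Polynomial.degree_X_pow]
    exact_mod_cast Nat.lt_succ_self s
  · rw [pol_basic_notMem π κ₀ hIJ hJ E i j s g hg, Polynomial.degree_zero]
    exact WithBot.bot_lt_coe _

lemma lcMap_surjective (s : ℕ) (hs : s < Fintype.card k) [Finite (R ⧸ J)] :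
    Function.Surjective (lcMap π κ₀ hIJ hJ E i j s) := by
  rw [← LinearMap.range_eq_top]
  apply delta_generates
  · rintro g _ ⟨f, rfl⟩
    refine ⟨⟨Representation.coind (gam0 I).subtype (chRep (pchar π κ₀ I (hIJ.trans hJ) i j)) g f.1,
      (Vs π κ₀ hIJ hJ E i j (s + 1)).apply_mem_toSubmodule g f.2⟩, ?_⟩
    apply Subtype.ext
    ext1 x
    rw [lcMap_apply, coind_apply, lcMap_apply]
    change (pol π κ₀ hIJ hJ E i j x (Representation.coind (gam0 I).subtype
      (chRep (pchar π κ₀ I (hIJ.trans hJ) i j)) g f.1)).coeff s = _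
    rw [pol_coind]
  · refine ⟨⟨basic π κ₀ hIJ hJ E i j s, basic_mem_Vs π κ₀ hIJ hJ E i j s hs⟩, ?_⟩
    apply Subtype.ext
    ext1 g
    rw [lcMap_apply]
    by_cases hg : g ∈ gam0 J
    · have h2 := delta_mem (gam0 J) (pchar π κ₀ J hJ (i + s) (j - s)) ⟨g, hg⟩
      rw [h2, pchar_val]
      change (pol π κ₀ hIJ hJ E i j g (basic π κ₀ hIJ hJ E i j s)).coeff s = _
      rw [pol_basic_mem π κ₀ hIJ hJ E i j s hs g hg, Polynomial.coeff_C_mul, Polynomial.X_pow_comp,
        coeff_lin_pow _ _ s s le_rfl, if_pos rfl, div_pow]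
      have h0 : κ₀ (π (g 0 0)) ≠ 0 := by
        rw [map_ne_zero_iff _ κ₀.injective]
        exact borel_diag_ne π (gam0_mono hJ hg) 0
      have h1 : κ₀ (π (g 1 1)) ≠ 0 := by
        rw [map_ne_zero_iff _ κ₀.injective]
        exact borel_diag_ne π (gam0_mono hJ hg) 1
      rw [zpow_add₀ h0, zpow_sub₀ h1, zpow_natCast, zpow_natCast]
      ring
    · rw [delta_notMem _ _ g hg]
      change (pol π κ₀ hIJ hJ E i j g (basic π κ₀ hIJ hJ E i j s)).coeff s = _
      rw [pol_basic_notMem π κ₀ hIJ hJ E i j s g hg, Polynomial.coeff_zero]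

end step

end Pool.Agent.Work.MP_39033f_nt
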