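import Pool.Agent.Work.MP_39033f_nt.TyZu

set_option autoImplicit false

open MvPolynomial
open scoped MonoidAlgebra TensorProduct

namespace Pool.Agent.Work.MP_39033f_nt

section ssum

variable {Emb : Type} [Fintype Emb] [DecidableEq Emb]

lemma gsum_single (G : (Emb → ℤ × ℤ) → ℤ) (lam : Emb → ℤ × ℤ) (x₀ : Emb) (u v : ℤ) :
    gsum G (Pi.single x₀ (u, v)) lam = ssum G lam x₀ u v := by
  unfold gsum ssum
  rw [sum_piFinset_split _ x₀]
  have h1 : Fintype.piFinset (Function.update
      (fun x => Finset.range (gap (Pi.single x₀ ((u, v) : ℤ × ℤ)) x + 1)) x₀ {0})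
      = {(0 : Emb → ℕ)} := by
    ext i
    rw [Fintype.mem_piFinset, Finset.mem_singleton]
    constructor
    · intro h
      ext1 x
      have h2 := h x
      by_cases hx : x = x₀
      · subst hx
        rw [Function.update_self, Finset.mem_singleton] at h2
        exact h2
      · rw [Function.update_of_ne hx, gap_single_ne _ _ _ hx, Finset.mem_range] at h2
        simp only [Pi.zero_apply]
        omega
    · rintro rfl x
      by_cases hx : x = x₀
      · subst hx
        rw [Function.update_self]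
        simp
      · rw [Function.update_of_ne hx]
        simp
  rw [h1, Finset.sum_singleton, gap_single_self]
  refine Finset.sum_congr rfl fun l _ => ?_
  congr 2
  ext1 x
  unfold wt
  by_cases hx : x = x₀
  · subst hx
    rw [Function.update_self, Pi.single_eq_same, Pi.single_eq_same]
  · rw [Function.update_of_ne hx, Pi.single_eq_of_ne hx, Pi.single_eq_of_ne hx]
    simp

omit [Fintype Emb] in
/-- cancellation -/
lemma ssum_cancel {G : (Emb → ℤ × ℤ) → ℤ} (hG : Antisymm G) (lam : Emb → ℤ × ℤ) (x₀ : Emb)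
    (h0 : lam x₀ = 0) (u v : ℤ) (huv : v ≤ u) :
    ssum G lam x₀ u v = G (lam + Pi.single x₀ (u, v)) := by
  unfold ssum
  rw [Finset.sum_range_succ']
  have h1 : ∑ l ∈ Finset.range (u - v).toNat,
      G (lam + Pi.single x₀ (u - ((l + 1 : ℕ) : ℤ), v + ((l + 1 : ℕ) : ℤ))) = 0 := by
    set S := ∑ l ∈ Finset.range (u - v).toNat,
      G (lam + Pi.single x₀ (u - ((l + 1 : ℕ) : ℤ), v + ((l + 1 : ℕ) : ℤ))) with hS
    have h2 : S = -S := by
      conv_lhs => rw [hS, ← Finset.sum_range_reflect]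
      rw [hS, ← Finset.sum_neg_distrib]
      refine Finset.sum_congr rfl fun l hl => ?_
      have hl' := Finset.mem_range.1 hl
      have h3 := hG (lam + Pi.single x₀ (u - ((l + 1 : ℕ) : ℤ), v + ((l + 1 : ℕ) : ℤ))) x₀
      refine Eq.trans ?_ h3
      congr 1
      ext1 x
      by_cases hx : x = x₀
      · subst hx
        rw [Function.update_self, Pi.add_apply, Pi.add_apply, Pi.single_eq_same,
          Pi.single_eq_same, h0]
        unfold refl
        ext
        · simp only [Prod.fst_add, Prod.snd_add, Prod.fst_zero, Prod.snd_zero]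
          omega
        · simp only [Prod.fst_add, Prod.snd_add, Prod.fst_zero, Prod.snd_zero]
          omega
      · rw [Function.update_of_ne hx, Pi.add_apply, Pi.add_apply, Pi.single_eq_of_ne hx,
          Pi.single_eq_of_ne hx]
    omega
  rw [h1, zero_add, Nat.cast_zero, sub_zero, add_zero]

end ssum

section dimfn

variable {F Γ : Type} [Field F] [Group Γ]

/-- The dimension as an additive function. -/
noncomputable def AddFn.dim (F Γ : Type) [Field F] [Group Γ] : AddFn F Γ where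
  val V _ _ _ := (Module.finrank F V : ℤ)
  exact' := by
    intro U V W _ _ _ _ _ _ _ _ _ ρU ρV ρW i π hi hπ hinj hsurj hex
    have h1 := LinearMap.finrank_range_add_finrank_ker π
    rw [← hex, LinearMap.finrank_range_of_inj hinj, LinearMap.range_eq_top.2 hsurj,
      finrank_top] at h1
    rw [← h1]
    push_cast
    ring

end dimfn

section wi

variable {R k F Emb : Type} [CommRing R] [Field k] [Field F] [Fintype Emb] [DecidableEq Emb]
  (π : R →+* k) (κ : Emb → k →+* F) (x₀ : Emb)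

/-- The values of an additive function on the inflated `W_λ`. -/
noncomputable def AddFn.cval (Ψ : AddFn F (GL (Fin 2) R)) (lam : Emb → ℤ × ℤ) : ℤ :=
  Ψ.val _ (Wi (gp π) κ lam)

lemma AddFn.tens_Wi (Ψ : AddFn F (GL (Fin 2) R)) (lam ν : Emb → ℤ × ℤ) (hlam : Dominant lam)
    (hν : Dominant ν) : (Ψ.tens (Wi (gp π) κ lam)).val _ (Wi (gp π) κ ν)
      = gsum (hat (Ψ.cval π κ)) ν lam := by
  rw [Ψ.tens_comm (Wi (gp π) κ lam) (Wi (gp π) κ ν)]
  have h2 : (Ψ.tens (Wi (gp π) κ ν)).val _ (Wi (gp π) κ lam)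
      = ((Ψ.infl (gp π)).tens (W κ ν)).wval κ lam := rfl
  rw [h2, (Ψ.infl (gp π)).tens_wval κ _ lam ν hlam hν rfl]
  rfl

omit [Fintype Emb] in
lemma dominant_single (u v : ℤ) (huv : v ≤ u) : Dominant (Pi.single x₀ ((u, v) : ℤ × ℤ)) := by
  intro x
  by_cases hx : x = x₀
  · subst hx
    rw [Pi.single_eq_same]
    exact huv
  · rw [Pi.single_eq_of_ne hx]
    exact le_rfl

lemma AddFn.tens_single (Ψ : AddFn F (GL (Fin 2) R)) (lam : Emb → ℤ × ℤ) (hlam : Dominant lam)
    (u v : ℤ) (huv : v ≤ u) :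
    (Ψ.tens (Wi (gp π) κ lam)).val _ (Wi (gp π) κ (Pi.single x₀ (u, v)))
      = ssum (hat (Ψ.cval π κ)) lam x₀ u v := by
  rw [Ψ.tens_Wi π κ lam _ hlam (dominant_single x₀ u v huv), gsum_single]

/-- The weight with the component at `x₀` removed. -/
def offW (lam : Emb → ℤ × ℤ) : Emb → ℤ × ℤ := Function.update lam x₀ 0

omit [Fintype Emb] in
lemma dominant_offW {lam : Emb → ℤ × ℤ} (hlam : Dominant lam) : Dominant (offW x₀ lam) := by
  intro x
  unfold offW
  by_cases hx : x = x₀
  · subst hx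
    rw [Function.update_self]
    exact le_rfl
  · rw [Function.update_of_ne hx]
    exact hlam x

omit [Fintype Emb] in
lemma offW_add (lam : Emb → ℤ × ℤ) (c : ℤ) :
    offW x₀ lam + Pi.single x₀ ((lam x₀).1 + c, (lam x₀).2) = lam + Pi.single x₀ (c, 0) := by
  ext1 x
  unfold offW
  by_cases hx : x = x₀
  · subst hx
    rw [Pi.add_apply, Pi.add_apply, Function.update_self, Pi.single_eq_same, Pi.single_eq_same,
      zero_add]
    ext
    · rfl
    · simp
  · rw [Pi.add_apply, Pi.add_apply, Function.update_of_ne hx, Pi.single_eq_of_ne hx,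
      Pi.single_eq_of_ne hx]

lemma AddFn.tens_off (Ψ : AddFn F (GL (Fin 2) R)) (lam : Emb → ℤ × ℤ) (hlam : Dominant lam)
    (c : ℤ) (hc : 0 ≤ c) :
    (Ψ.tens (Wi (gp π) κ (offW x₀ lam))).val _
        (Wi (gp π) κ (Pi.single x₀ ((lam x₀).1 + c, (lam x₀).2)))
      = Ψ.cval π κ (lam + Pi.single x₀ (c, 0)) := by
  have h1 : (lam x₀).2 ≤ (lam x₀).1 + c := by
    have := hlam x₀
    omega
  rw [Ψ.tens_single π κ x₀ _ (dominant_offW x₀ hlam) _ _ h1,
    ssum_cancel (hat_antisymm _) _ _ (by unfold offW; rw [Function.update_self]) _ _ h1,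
    offW_add, hat_of_dominant]
  exact dominant_add lam hlam x₀ c 0 hc

lemma finrank_off (lam : Emb → ℤ × ℤ) (hlam : Dominant lam) :
    Module.finrank F (Homog F (gap lam))
      = (gap lam x₀ + 1) * Module.finrank F (Homog F (gap (offW x₀ lam))) := by
  have h1 := (AddFn.dim F (GL (Fin 2) F)).tens_off (RingHom.id F) (fun _ => RingHom.id F) x₀ lam
    hlam 0 le_rfl
  have h2 : (lam + Pi.single x₀ ((0 : ℤ), (0 : ℤ))) = lam := by
    have : ((0 : ℤ), (0 : ℤ)) = (0 : ℤ × ℤ) := rfl
    rw [this, Pi.single_zero, add_zero]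
  rw [h2] at h1
  have h3 : (Module.finrank F (Homog F (gap (Pi.single x₀ ((lam x₀).1 + 0, (lam x₀).2))) ⊗[F]
      Homog F (gap (offW x₀ lam))) : ℤ) = (Module.finrank F (Homog F (gap lam)) : ℤ) := h1
  rw [Module.finrank_tensorProduct, finrank_homog x₀ (gap_single_ne x₀ _), gap_single_self,
    add_zero] at h3
  have h4 : gap lam x₀ = ((lam x₀).1 - (lam x₀).2).toNat := rfl
  rw [h4]
  exact_mod_cast h3.symm

end wi

section central

variable {R k F Emb : Type} [CommRing R] [Field k] [Field F] [Fintype Emb] [DecidableEq Emb]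
  (π : R →+* k) (κ : Emb → k →+* F) (x₀ : Emb)

/-- The central character of `W_λ`. -/
noncomputable def wchar (lam : Emb → ℤ × ℤ) : kˣ →* Fˣ :=
  ∏ x, kpow (κ x) ((lam x).1 + (lam x).2)

omit [DecidableEq Emb] in
lemma wchar_val (lam : Emb → ℤ × ℤ) (c : kˣ) :
    ((wchar κ lam c : Fˣ) : F) = ∏ x, κ x (c : k) ^ ((lam x).1 + (lam x).2) := by
  unfold wchar
  rw [MonoidHom.finsetProd_apply, Units.coe_prod]
  exact Finset.prod_congr rfl fun x _ => kpow_val (κ x) _ c

omit [DecidableEq Emb] in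
lemma subst_scalar {n : Emb → ℕ} [DecidableEq Emb] {P : MvPolynomial (Emb × Fin 2) F}
    (hP : P ∈ Homog F n) (g : GL (Fin 2) k) (c : k) (h01 : g 0 1 = 0) (h10 : g 1 0 = 0)
    (h00 : g 0 0 = c) (h11 : g 1 1 = c) : subst κ g P = (∏ x, κ x c ^ n x) • P := by
  have hX : ∀ v : Emb × Fin 2, subst κ g (X v) = C (κ v.1 c) * X v := by
    rintro ⟨x, j⟩
    rw [subst_X, Fin.sum_univ_two]
    fin_cases j
    · simp [h10, h00]
    · simp [h01, h11]
  conv_lhs => rw [P.as_sum]
  conv_rhs => rw [P.as_sum]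
  rw [map_sum, Finset.smul_sum]
  refine Finset.sum_congr rfl fun m hm => ?_
  have h1 := (mem_Homog_iff n P).1 hP m (mem_support_iff.1 hm)
  rw [monomial_eq, map_mul, algHom_C, algebraMap_eq, Finsupp.prod, map_prod]
  simp only [map_pow, hX, mul_pow, Finset.prod_mul_distrib]
  rw [MvPolynomial.smul_eq_C_mul]
  have h2 : ∏ v ∈ m.support, (C (κ v.1 c) : MvPolynomial (Emb × Fin 2) F) ^ m v
      = C (∏ x, κ x c ^ n x) := by
    rw [map_prod]
    have h3 : ∏ v ∈ m.support, (C (κ v.1 c) : MvPolynomial (Emb × Fin 2) F) ^ m v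
        = ∏ v : Emb × Fin 2, (C (κ v.1 c) : MvPolynomial (Emb × Fin 2) F) ^ m v := by
      refine Finset.prod_subset (Finset.subset_univ _) fun v _ hv => ?_
      rw [Finsupp.notMem_support_iff.1 hv, pow_zero]
    rw [h3, Fintype.prod_prod_type]
    refine Finset.prod_congr rfl fun x _ => ?_
    rw [Fin.prod_univ_two, ← pow_add, h1 x, map_pow]
  rw [h2]
  ring

lemma Wi_scalar (lam : Emb → ℤ × ℤ) (hlam : Dominant lam) (z : Rˣ) (c : kˣ)
    (hc : (c : k) = π (z : R)) (P : Homog F (gap lam)) :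
    Wi (gp π) κ lam (Matrix.GeneralLinearGroup.scalar (Fin 2) z) P
      = ((wchar κ lam c : Fˣ) : F) • P := by
  apply Subtype.ext
  change (W κ lam (gp π (Matrix.GeneralLinearGroup.scalar (Fin 2) z)) P).1 = _ • P.1
  set g := gp π (Matrix.GeneralLinearGroup.scalar (Fin 2) z) with hg
  have h00 : g 0 0 = (c : k) := by
    change π ((Matrix.GeneralLinearGroup.scalar (Fin 2) z : GL (Fin 2) R) 0 0) = _
    rw [scalar_apply_eq, hc]
  have h11 : g 1 1 = (c : k) := by
    change π ((Matrix.GeneralLinearGroup.scalar (Fin 2) z : GL (Fin 2) R) 1 1) = _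
    rw [scalar_apply_eq, hc]
  have h01 : g 0 1 = 0 := by
    change π ((Matrix.GeneralLinearGroup.scalar (Fin 2) z : GL (Fin 2) R) 0 1) = _
    rw [scalar_apply_ne z 0 1 (by decide), map_zero]
  have h10 : g 1 0 = 0 := by
    change π ((Matrix.GeneralLinearGroup.scalar (Fin 2) z : GL (Fin 2) R) 1 0) = _
    rw [scalar_apply_ne z 1 0 (by decide), map_zero]
  rw [W_coe, subst_scalar κ P.2 g c h01 h10 h00 h11, smul_smul, wchar_val,
    ← Finset.prod_mul_distrib]
  congr 1
  refine Finset.prod_congr rfl fun x _ => ?_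
  have h1 : κ x (c : k) ≠ 0 := by
    rw [map_ne_zero_iff _ (κ x).injective]
    exact c.ne_zero
  have h2 := hlam x
  have h3 : (g.det : k) = (c : k) * (c : k) := by
    rw [gl_det, h00, h11, h01, h10]
    ring
  rw [h3, map_mul, mul_zpow, ← zpow_natCast, ← zpow_add₀ h1, ← zpow_add₀ h1]
  congr 1
  unfold gap
  omega

lemma wchar_off (lam : Emb → ℤ × ℤ) :
    wchar κ lam = kpow (κ x₀) ((lam x₀).1 + (lam x₀).2) * wchar κ (offW x₀ lam) := by
  apply MonoidHom.ext
  intro c
  apply Units.ext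
  rw [MonoidHom.mul_apply, Units.val_mul, wchar_val, wchar_val, kpow_val]
  rw [← Finset.mul_prod_erase Finset.univ _ (Finset.mem_univ x₀),
    ← Finset.mul_prod_erase Finset.univ (fun x => κ x (c : k) ^
      ((offW x₀ lam x).1 + (offW x₀ lam x).2)) (Finset.mem_univ x₀)]
  have h1 : κ x₀ (c : k) ^ ((offW x₀ lam x₀).1 + (offW x₀ lam x₀).2) = 1 := by
    unfold offW
    rw [Function.update_self]
    simp
  rw [h1, one_mul]
  congr 1
  refine Finset.prod_congr rfl fun x hx => ?_
  unfold offW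
  rw [Function.update_of_ne (Finset.ne_of_mem_erase hx)]

end central

section product

variable {p : ℕ} [Fact p.Prime] {R k F Emb : Type} [CommRing R] [IsLocalRing R] [Field k]
  [Fintype k] [CharP k p] [Field F] [CharP F p] [Fintype Emb] [DecidableEq Emb]
  (π : R →+* k) (κ : Emb → k →+* F) (x₀ : Emb)

omit [Fact p.Prime] [IsLocalRing R] [Fintype k] [CharP k p] [CharP F p] in
lemma pact_chRep (ω : kˣ →* Fˣ) : PAct p (chRep (zchar π ω)) (zd π).ker := by
  have h1 : ∀ g ∈ (zd π).ker, chRep (zchar π ω) g = 1 := by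
    intro g hg
    apply LinearMap.ext
    intro x
    rw [chRep_apply]
    have h2 : zchar π ω g = 1 := by
      change ω (zd π g) = 1
      rw [MonoidHom.mem_ker.1 hg, map_one]
    rw [h2, Units.val_one, one_mul]
    rfl
  refine ⟨Set.Finite.subset (Set.finite_singleton 1) ?_, fun g hg => ⟨0, ?_⟩⟩
  · rintro _ ⟨g, hg, rfl⟩
    exact h1 g hg
  · rw [h1 g hg, one_pow]

omit [Fact p.Prime] [Fintype k] in
lemma unip_pow (g : GL (Fin 2) k) (h10 : g 1 0 = 0) (h00 : g 0 0 = 1) (h11 : g 1 1 = 1) :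
    g ^ p = 1 := by
  have h1 : ∀ n : ℕ, (g ^ n) 1 0 = 0 ∧ (g ^ n) 0 0 = 1 ∧ (g ^ n) 1 1 = 1 ∧
      (g ^ n) 0 1 = n * g 0 1 := by
    intro n
    induction n with
    | zero =>
      rw [pow_zero]
      refine ⟨?_, ?_, ?_, ?_⟩ <;> simp
    | succ n ih =>
      obtain ⟨i1, i2, i3, i4⟩ := ih
      rw [pow_succ]
      refine ⟨?_, ?_, ?_, ?_⟩
      · rw [gl_mul_apply, i1, i3, h10]; ring
      · rw [gl_mul_apply, i2, i4, h00, h10]; ring
      · rw [gl_mul_apply, i1, i3, h11]; ring
      · rw [gl_mul_apply, i2, i4, h11]; push_cast; ring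
  obtain ⟨i1, i2, i3, i4⟩ := h1 p
  ext i j
  fin_cases i <;> fin_cases j
  · exact i2
  · change (g ^ p) 0 1 = (1 : GL (Fin 2) k) 0 1
    rw [i4, CharP.cast_eq_zero, zero_mul]
    simp
  · change (g ^ p) 1 0 = (1 : GL (Fin 2) k) 1 0
    rw [i1]
    simp
  · exact i3

omit [Fact p.Prime] [IsLocalRing R] [CharP F p] in
lemma pact_Wi (lam : Emb → ℤ × ℤ) :
    PAct p ((Wi (gp π) κ lam).comp (zu π).subtype) (zd π).ker := by
  constructor
  · refine Set.Finite.subset (Set.finite_range (W κ lam)) ?_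
    rintro _ ⟨g, _, rfl⟩
    exact ⟨gp π g.1, rfl⟩
  · intro g hg
    refine ⟨1, ?_⟩
    rw [pow_one, ← map_pow]
    have hd : π (g.1 0 0) = 1 := by
      have := congrArg Units.val (MonoidHom.mem_ker.1 hg)
      rwa [zd_val] at this
    have h1 : (gp π g.1) ^ p = 1 := by
      refine unip_pow _ g.2.1 hd ?_
      change π (g.1 1 1) = 1
      rw [← g.2.2, hd]
    change W κ lam (gp π ((g ^ p : zu π) : GL (Fin 2) R)) = 1
    rw [Subgroup.coe_pow, map_pow, h1, map_one]

/-- **Product law** for representations coinduced from `zu`. -/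
theorem AddFn.zu_product (hπ : Function.Surjective π) (Ψ : AddFn F (GL (Fin 2) R))
    {N : Type} [AddCommGroup N] [Module F N] [FiniteDimensional F N]
    (M : Representation F (zu π) N) (hM : PAct p M (zd π).ker) (r : ℤ)
    (hr : CZ π M (kpow (κ x₀) r)) (hr0 : 0 ≤ r) (lam : Emb → ℤ × ℤ) (hlam : Dominant lam) :
    (Ψ.tens (Wi (gp π) κ lam)).val _ (Representation.coind (zu π).subtype M)
      = (Module.finrank F N : ℤ) * ((gap lam x₀ : ℤ) + 1) *
        (Ψ.cval π κ (lam + Pi.single x₀ (r + ((Fintype.card k : ℤ) ^ 2 - 1), 0))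
          - Ψ.cval π κ (lam + Pi.single x₀ (r, 0))) := by
  have hq : (2 : ℤ) ≤ Fintype.card k := by
    have : 1 < Fintype.card k := Fintype.one_lt_card
    omega
  set lam' := offW x₀ lam with hlam'
  have hd' : Dominant lam' := dominant_offW x₀ hlam
  set ω₁ : kˣ →* Fˣ := kpow (κ x₀) r * wchar κ lam with hω₁
  -- the left hand side
  have e1 : (Ψ.tens (Wi (gp π) κ lam)).val _ (Representation.coind (zu π).subtype M)
      = (Module.finrank F N * Module.finrank F (Homog F (gap lam)) : ℕ) *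
        (Ψ.coind (zu π)).val F (chRep (zchar π ω₁)) := by
    rw [Ψ.coind_tens (zu π) M (Wi (gp π) κ lam)]
    refine AddFn.zu_dim (p := p) π hπ (Ψ.coind (zu π)) ω₁ _ _ _ (hM.tprod (pact_Wi π κ lam)) ?_
      (Module.finrank_tensorProduct ..)
    intro z h hz v
    have hc : ((zd π h : kˣ) : k) = π (z : R) := by
      rw [zd_val, hz, scalar_apply_eq]
    induction v using TensorProduct.induction_on with
    | zero => rw [map_zero, smul_zero]
    | tmul a b =>
      rw [Representation.tprod_apply, TensorProduct.map_tmul, hr z h hz]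
      change _ ⊗ₜ[F] (Wi (gp π) κ lam h.1 b) = _
      rw [hz, Wi_scalar π κ lam hlam z (zd π h) hc, TensorProduct.smul_tmul_smul, hω₁,
        MonoidHom.mul_apply, Units.val_mul]
    | add x y hx hy => rw [map_add, hx, hy, smul_add]
  -- the right hand side
  set s : ℤ := (lam x₀).1 + r + (lam x₀).2 with hs
  have e2 : (Ψ.tens (Wi (gp π) κ lam')).val _
      (Representation.coind (zu π).subtype (chRep (zchar π (kpow (κ x₀) s))))
      = (Module.finrank F F * Module.finrank F (Homog F (gap lam')) : ℕ) *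
        (Ψ.coind (zu π)).val F (chRep (zchar π ω₁)) := by
    rw [Ψ.coind_tens (zu π) _ (Wi (gp π) κ lam')]
    refine AddFn.zu_dim (p := p) π hπ (Ψ.coind (zu π)) ω₁ _ _ _
      ((pact_chRep π _).tprod (pact_Wi π κ lam')) ?_ (Module.finrank_tensorProduct ..)
    intro z h hz v
    have hc : ((zd π h : kˣ) : k) = π (z : R) := by
      rw [zd_val, hz, scalar_apply_eq]
    have hω : kpow (κ x₀) s * wchar κ lam' = ω₁ := by
      rw [hω₁, wchar_off κ x₀ lam]
      apply MonoidHom.ext
      intro c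
      apply Units.ext
      have hc0 : κ x₀ (c : k) ≠ 0 := by
        rw [map_ne_zero_iff _ (κ x₀).injective]
        exact c.ne_zero
      rw [MonoidHom.mul_apply, MonoidHom.mul_apply, MonoidHom.mul_apply, Units.val_mul,
        Units.val_mul, Units.val_mul, kpow_val, kpow_val, kpow_val, ← mul_assoc,
        ← zpow_add₀ hc0, hs, ← hlam']
      congr 2
      ring
    induction v using TensorProduct.induction_on with
    | zero => rw [map_zero, smul_zero]
    | tmul a b =>
      rw [Representation.tprod_apply, TensorProduct.map_tmul, chRep_apply]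
      change _ ⊗ₜ[F] (Wi (gp π) κ lam' h.1 b) = _
      rw [hz, Wi_scalar π κ lam' hd' z (zd π h) hc, ← smul_eq_mul, TensorProduct.smul_tmul_smul,
        ← hω, MonoidHom.mul_apply, Units.val_mul]
      rfl
    | add x y hx hy => rw [map_add, hx, hy, smul_add]
  have hab : (lam x₀).2 ≤ (lam x₀).1 + r := by
    have := hlam x₀
    omega
  have e3 := (Ψ.tens (Wi (gp π) κ lam')).zu_sym π κ x₀ hπ ((lam x₀).1 + r) (lam x₀).2 hab
  rw [← hs, e2] at e3
  have e4 : (Ψ.tens (Wi (gp π) κ lam')).val _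
      (Wi (gp π) κ (Pi.single x₀ ((lam x₀).1 + r, (lam x₀).2)))
      = Ψ.cval π κ (lam + Pi.single x₀ (r, 0)) := Ψ.tens_off π κ x₀ lam hlam r hr0
  have e5 : (Ψ.tens (Wi (gp π) κ lam')).val _ (Wi (gp π) κ (Pi.single x₀
      ((lam x₀).1 + r + ((Fintype.card k : ℤ) ^ 2 - 1), (lam x₀).2)))
      = Ψ.cval π κ (lam + Pi.single x₀ (r + ((Fintype.card k : ℤ) ^ 2 - 1), 0)) := by
    have h1 : (lam x₀).1 + r + ((Fintype.card k : ℤ) ^ 2 - 1)
        = (lam x₀).1 + (r + ((Fintype.card k : ℤ) ^ 2 - 1)) := by ring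
    rw [h1]
    exact Ψ.tens_off π κ x₀ lam hlam _ (by nlinarith)
  rw [e4, e5] at e3
  rw [e1, ← e3, finrank_off x₀ lam hlam, Module.finrank_self, ← hlam']
  push_cast
  ring

end product

end Pool.Agent.Work.MP_39033f_nt
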