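import Pool.Agent.Work.MP_39033f_nt.TyMain
import Pool.Agent.Work.MP_39033f_nt.TyLev

set_option autoImplicit false

open MvPolynomial
open scoped MonoidAlgebra TensorProduct

/-!
Coinduction in stages, and the values of additive functions on representations coinduced from
subgroups of `zu` and from `J_I`.
-/

namespace Pool.Agent.Work.MP_39033f_nt

section stages

variable {F Γ V : Type} [Field F] [Group Γ] [AddCommGroup V] [Module F V]
  (H K : Subgroup Γ) (hHK : H ≤ K) (ρ : Representation F H V)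

/-- The representation of `H` as a subgroup of `K`. -/
noncomputable def subRep : Representation F (H.subgroupOf K) V :=
  ρ.comp (Subgroup.subgroupOfEquivOfLe hHK).toMonoidHom

lemma subRep_apply (h : H.subgroupOf K) (v : V) :
    subRep H K hHK ρ h v = ρ ⟨h.1.1, h.2⟩ v := rfl

/-- Evaluation at one. -/
noncomputable def stageMap : Representation.coindV K.subtype
      (Representation.coind (H.subgroupOf K).subtype (subRep H K hHK ρ)) →ₗ[F]
    Representation.coindV H.subtype ρ where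
  toFun f := ⟨fun g => (f.1 g).1 1, by
    intro h g
    have h1 := f.2 ⟨h.1, hHK h.2⟩ g
    have h2 : (f.1 (h.1 * g)).1 1 = (f.1 g).1 ⟨h.1, hHK h.2⟩ := by
      have h3 := congrArg (fun φ : Representation.coindV (H.subgroupOf K).subtype
        (subRep H K hHK ρ) => φ.1 1) h1
      change (f.1 (h.1 * g)).1 1 = (f.1 g).1 (1 * ⟨h.1, hHK h.2⟩) at h3
      rw [one_mul] at h3
      exact h3
    change (f.1 (h.1 * g)).1 1 = _
    rw [h2]
    have h4 := (f.1 g).2 (⟨⟨h.1, hHK h.2⟩, h.2⟩ : H.subgroupOf K) 1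
    change (f.1 g).1 (⟨h.1, hHK h.2⟩ * 1) = _ at h4
    rw [mul_one] at h4
    rw [h4]
    rfl⟩
  map_add' f f' := by
    apply Subtype.ext
    ext1 g
    rfl
  map_smul' c f := by
    apply Subtype.ext
    ext1 g
    rfl

lemma stageMap_bijective : Function.Bijective (stageMap H K hHK ρ) := by
  constructor
  · rw [injective_iff_map_eq_zero]
    intro f hf
    apply Subtype.ext
    funext g
    apply Subtype.ext
    funext z
    have h1 := congrArg (fun φ : Representation.coindV H.subtype ρ => φ.1 (z.1 * g)) hf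
    change (f.1 (z.1 * g)).1 1 = 0 at h1
    have h2 := congrArg (fun φ : Representation.coindV (H.subgroupOf K).subtype
        (subRep H K hHK ρ) => φ.1 1) (f.2 z g)
    change (f.1 (z.1 * g)).1 1 = (f.1 g).1 (1 * z) at h2
    rw [one_mul, h1] at h2
    exact h2.symm
  · intro f
    refine ⟨⟨fun g => ⟨fun z => f.1 (z.1 * g), ?_⟩, ?_⟩, ?_⟩
    · intro h z
      have h1 := f.2 ⟨h.1.1, h.2⟩ (z.1 * g)
      change f.1 (h.1.1 * z.1 * g) = _
      rw [mul_assoc]
      exact h1
    · intro z g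
      apply Subtype.ext
      funext x
      change f.1 (x.1 * (z.1 * g)) = f.1 (x.1 * z.1 * g)
      rw [mul_assoc]
    · apply Subtype.ext
      funext g
      change f.1 ((1 : K).1 * g) = f.1 g
      rw [Subgroup.coe_one, one_mul]

/-- Coinduction in stages. -/
theorem AddFn.coind_stages [FiniteDimensional F V] [H.FiniteIndex] [K.FiniteIndex]
    (Ψ : AddFn F Γ) :
    Ψ.val _ (Representation.coind H.subtype ρ)
      = (Ψ.coind K).val _
        (Representation.coind (H.subgroupOf K).subtype (subRep H K hHK ρ)) :=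
  (Ψ.iso _ _ (LinearEquiv.ofBijective (stageMap H K hHK ρ) (stageMap_bijective H K hHK ρ))
    (fun g f => by
      apply Subtype.ext
      funext x
      rfl)).symm

end stages

section families2

variable (p : ℕ) [Fact p.Prime] {R k k2 F Emb : Type} [CommRing R] [IsLocalRing R] [Field k]
  [Fintype k] [CharP k p] [Field k2] [Fintype k2] [Field F] [CharP F p] [Fintype Emb]
  [DecidableEq Emb]
  (π : R →+* k) (hπ : Function.Surjective π) (κ : Emb → k →+* F) (x₀ : Emb)

omit [IsLocalRing R] in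
lemma finiteIndex_of_cong (H : Subgroup (GL (Fin 2) R)) (I : Ideal R) [Finite (R ⧸ I)]
    (hIH : ∀ g : GL (Fin 2) R, CongOne I g → g ∈ H) : H.FiniteIndex := by
  have h1 : ((Matrix.GeneralLinearGroup.map (n := Fin 2) (Ideal.Quotient.mk I)).ker).FiniteIndex :=
    inferInstance
  refine Subgroup.finiteIndex_of_le (H := (Matrix.GeneralLinearGroup.map (n := Fin 2)
    (Ideal.Quotient.mk I)).ker) ?_
  intro g hg
  refine hIH g fun i j => ?_
  have h2 : Ideal.Quotient.mk I (g i j) = (1 : GL (Fin 2) (R ⧸ I)) i j := by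
    rw [← MonoidHom.mem_ker.1 hg]
    rfl
  rw [← Ideal.Quotient.eq_zero_iff_mem, map_sub, h2]
  change (1 : Matrix (Fin 2) (Fin 2) (R ⧸ I)) i j - _ = 0
  rw [Matrix.one_apply, Matrix.one_apply]
  split_ifs <;> simp

include p hπ in
/-- Representations coinduced from subgroups of `zu`. -/
theorem AddFn.fam_sub (Ψ : AddFn F (GL (Fin 2) R)) (H : Subgroup (GL (Fin 2) R))
    [H.FiniteIndex] (hH : H ≤ zu π) {V : Type} [AddCommGroup V] [Module F V]
    [FiniteDimensional F V] (N : Representation F H V) (I : Ideal R) [Finite (R ⧸ I)]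
    (hIH : ∀ g : GL (Fin 2) R, CongOne I g → g ∈ H)
    (hI : ∀ g : H, CongOne I g.1 → N g = 1) (r : ℕ)
    (hz : ∀ z : Rˣ, Matrix.GeneralLinearGroup.scalar (Fin 2) z ∈ H)
    (hr : ∀ (z : Rˣ) (g : H), g.1 = Matrix.GeneralLinearGroup.scalar (Fin 2) z →
      ∀ v, N g v = κ x₀ (π z) ^ r • v)
    (lam : Emb → ℤ × ℤ) (hlam : Dominant lam) :
    (Ψ.tens (Wi (gp π) κ lam)).val _ (Representation.coind H.subtype N)
      = ((H.relIndex (zu π) * Module.finrank F V : ℕ) : ℤ) *
        zterm (Fintype.card k) (Ψ.cval π κ) lam x₀ r := by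
  have h0 : Module.finrank F (Representation.coindV (H.subgroupOf (zu π)).subtype
      (subRep H (zu π) hH N)) = H.relIndex (zu π) * Module.finrank F V :=
    finrank_coind (H.subgroupOf (zu π)) (subRep H (zu π) hH N)
  have h1 := Ψ.fam_ram p π hπ κ x₀ (Representation.coind (H.subgroupOf (zu π)).subtype
      (subRep H (zu π) hH N)) I ?_ r ?_ lam hlam
  · rw [h0] at h1
    exact ((Ψ.tens (Wi (gp π) κ lam)).coind_stages H (zu π) hH N).trans h1
  · intro g hg
    apply LinearMap.ext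
    intro f
    apply Subtype.ext
    funext x
    rw [coind_apply]
    have h2 := hg.conj x.1
    have h3 := f.2 ⟨x * g * x⁻¹, hIH _ h2⟩ x
    have h4 : subRep H (zu π) hH N ⟨x * g * x⁻¹, hIH _ h2⟩ = 1 := hI ⟨_, hIH _ h2⟩ h2
    rw [h4] at h3
    have h5 : (H.subgroupOf (zu π)).subtype ⟨x * g * x⁻¹, hIH _ h2⟩ * x = x * g := by
      change x * g * x⁻¹ * x = x * g
      group
    rw [h5] at h3
    exact h3
  · intro z h hzh f
    apply Subtype.ext
    funext x
    rw [coind_apply]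
    have hmem : h.1 ∈ H := by rw [hzh]; exact hz z
    have h3 := f.2 ⟨h, hmem⟩ x
    have h4 : subRep H (zu π) hH N ⟨h, hmem⟩ (f.1 x) = κ x₀ (π z) ^ r • f.1 x :=
      hr z ⟨h.1, hmem⟩ hzh (f.1 x)
    rw [h4] at h3
    have h5 : (H.subgroupOf (zu π)).subtype ⟨h, hmem⟩ * x = x * h := by
      apply Subtype.ext
      change h.1 * x.1 = x.1 * h.1
      rw [hzh]
      apply Units.ext
      change (Matrix.scalar (Fin 2) (z : R)) * (x.1 : Matrix (Fin 2) (Fin 2) R)
        = (x.1 : Matrix (Fin 2) (Fin 2) R) * (Matrix.scalar (Fin 2) (z : R))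
      exact (Matrix.scalar_commute (z : R) (fun _ => mul_comm _ _) _).eq
    rw [h5] at h3
    rw [h3]
    have h6 : ((kpow (κ x₀) (r : ℤ) (zd π h) : Fˣ) : F) = κ x₀ (π z) ^ r := by
      rw [kpow_val, zpow_natCast, zd_val, hzh, scalar_apply_eq]
    rw [h6]
    rfl

/-- The number `t` with `|R/I|² = q²((q² - 1)t + 1)`. -/
lemma lev_t {c q t : ℕ} (hq : 2 ≤ q) (h : c ^ 2 = q ^ 2 * ((q ^ 2 - 1) * t + 1)) :
    ((c / q) ^ 2 - 1) / (q ^ 2 - 1) = t := by
  have h1 : q ∣ c := (Nat.pow_dvd_pow_iff (by norm_num)).1 ⟨_, h⟩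
  obtain ⟨d, rfl⟩ := h1
  have h2 : d ^ 2 = (q ^ 2 - 1) * t + 1 := by
    rw [mul_pow] at h
    exact Nat.eq_of_mul_eq_mul_left (by positivity) h
  have h3 : 4 ≤ q ^ 2 := by nlinarith
  rw [Nat.mul_div_cancel_left _ (by omega), h2, Nat.add_sub_cancel,
    Nat.mul_div_cancel_left _ (by omega)]

include p hπ in
/-- Representations coinduced from `J_I`. -/
theorem AddFn.fam_jt (Ψ : AddFn F (GL (Fin 2) R)) (ι : k →+* k2) (ω : k2) (κ2 : k2 →+* F)
    (hω : ∀ a, ι a ≠ ω) (hcard : Fintype.card k2 = Fintype.card k ^ 2)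
    (hκ2 : ∀ a, κ2 (ι a) = κ x₀ a) (T N : R) (hTN : ω ^ 2 = ι (π T) * ω - ι (π N))
    (I : Ideal R) (hI : I ≤ RingHom.ker π) [Finite (R ⧸ I)]
    {V : Type} [AddCommGroup V] [Module F V]
    [FiniteDimensional F V] (L : Representation F (JT T N I) V) (I' : Ideal R) [Finite (R ⧸ I')]
    (hI' : ∀ g : JT T N I, CongOne I' g.1 → L g = 1) (m : ℕ → ℕ)
    (hm : ∀ a < Fintype.card k2 - 1,
      RepJHSum (multFn (chRep (jchar π ι ω T N hω hTN κ2 I hI (a : ℤ)))) L (m a))
    (lam : Emb → ℤ × ℤ) (hlam : Dominant lam) :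
    (Ψ.tens (Wi (gp π) κ lam)).val _ (Representation.coind (JT T N I).subtype L)
      = ∑ a ∈ Finset.range (Fintype.card k2 - 1), (m a : ℤ) *
        (tterm (Fintype.card k) (Ψ.cval π κ) lam x₀ a +
          ((((Nat.card (R ⧸ I) / Fintype.card k) ^ 2 - 1) / (Fintype.card k ^ 2 - 1) : ℕ) : ℤ) *
            (((Fintype.card k : ℤ) - 1) * Fintype.card k) *
            zterm (Fintype.card k) (Ψ.cval π κ) lam x₀ a) := by
  have hq : 2 ≤ Fintype.card k := Fintype.one_lt_card
  obtain ⟨t, ht, -⟩ := (Ψ.tens (Wi (gp π) κ lam)).lev_conductor (π := π) hπ κ x₀ ι ω κ2 T N hω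
    hTN hcard hκ2 _ I hI le_rfl
  rw [AddFn.lev_expand (p := p) π hπ ι ω κ2 T N hω hTN hcard I hI _ L I' hI' m hm, lev_t hq ht]
  refine Finset.sum_congr rfl fun a _ => ?_
  rw [AddFn.lev_eq π hπ κ x₀ ι ω κ2 T N hω hTN hcard hκ2 I hI t ht _ (a : ℤ),
    Ψ.fam_tch π hπ κ x₀ ι ω κ2 hω hcard hκ2 a lam hlam, Ψ.fam_zch p π hπ κ x₀ a lam hlam]

/-- A finite intersection of ideals of finite index has finite index. -/
lemma finite_inf {R : Type} [CommRing R] (I J : Ideal R) [Finite (R ⧸ I)] [Finite (R ⧸ J)] :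
    Finite (R ⧸ (I ⊓ J)) := by
  have h : ∀ a ∈ I ⊓ J, ((Ideal.Quotient.mk I).prod (Ideal.Quotient.mk J)) a = 0 := by
    rintro a ⟨h1, h2⟩
    exact Prod.ext (Ideal.Quotient.eq_zero_iff_mem.2 h1) (Ideal.Quotient.eq_zero_iff_mem.2 h2)
  refine Finite.of_injective (Ideal.Quotient.lift (I ⊓ J)
    ((Ideal.Quotient.mk I).prod (Ideal.Quotient.mk J)) h) ?_
  refine RingHom.lift_injective_of_ker_le_ideal _ _ ?_
  intro a ha
  rw [RingHom.mem_ker] at ha
  exact ⟨Ideal.Quotient.eq_zero_iff_mem.1 (congrArg Prod.fst ha),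
    Ideal.Quotient.eq_zero_iff_mem.1 (congrArg Prod.snd ha)⟩

omit [IsLocalRing R] in
lemma CongOne.mem_JT {I : Ideal R} (T N : R) {g : GL (Fin 2) R} (hg : CongOne I g) :
    g ∈ JT T N I := by
  have h00 := hg 0 0
  have h01 := hg 0 1
  have h10 := hg 1 0
  have h11 := hg 1 1
  rw [Matrix.one_apply_eq] at h00 h11
  rw [Matrix.one_apply_ne (by decide), sub_zero] at h01 h10
  refine ⟨I.add_mem h01 (I.mul_mem_left _ h10), ?_⟩
  have h : g 1 1 - g 0 0 - T * g 1 0 = (g 1 1 - 1) - (g 0 0 - 1) - T * g 1 0 := by ring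
  rw [h]
  exact I.sub_mem (I.sub_mem h11 h00) (I.mul_mem_left _ h10)

end families2

end Pool.Agent.Work.MP_39033f_nt
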