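import Pool.Agent.Work.MP_39033f_nt.TyEval

set_option autoImplicit false

open MvPolynomial
open scoped MonoidAlgebra TensorProduct

namespace Pool.Agent.Work.MP_39033f_nt

section orth

variable {k F : Type} [Field k] [Fintype k] [Field F] (κ₀ : k →+* F)

include κ₀ in
lemma card_cast_F : ((Fintype.card k : ℕ) : F) = 0 := by
  rw [← map_natCast κ₀, FiniteField.cast_card_eq_zero, map_zero]

/-- orthogonality: the sum of all powers -/
lemma sum_pow_eq (t : k) (ht : t ≠ 0) [DecidableEq k] :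
    ∑ s : Fin (Fintype.card k - 1), κ₀ t ^ (s : ℕ) = if t = 1 then -1 else 0 := by
  have hq : 1 < Fintype.card k := Fintype.one_lt_card
  rw [Fin.sum_univ_eq_sum_range (fun s => κ₀ t ^ s)]
  split_ifs with h
  · rw [h, map_one]
    simp only [one_pow, Finset.sum_const, Finset.card_range, nsmul_eq_mul, mul_one]
    rw [Nat.cast_sub hq.le, card_cast_F κ₀, Nat.cast_one, zero_sub]
  · have h1 : κ₀ t - 1 ≠ 0 := by
      rw [sub_ne_zero, ← map_one κ₀]
      exact fun h2 => h (κ₀.injective h2)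
    have h2 := geom_sum_mul (κ₀ t) (Fintype.card k - 1)
    rw [← map_pow, FiniteField.pow_card_sub_one_eq_one t ht, map_one, sub_self] at h2
    exact (mul_eq_zero.1 h2).resolve_right h1

/-- functions `a ↦ ∑ f_s κ(a)^s` vanish only if all `f_s` vanish -/
lemma vander (f : Fin (Fintype.card k - 1) → F)
    (h : ∀ a : kˣ, ∑ s, f s * κ₀ (a : k) ^ (s : ℕ) = 0) : f = 0 := by
  classical
  let P : Polynomial F := ∑ s : Fin (Fintype.card k - 1), Polynomial.monomial (s : ℕ) (f s)
  have hP : ∀ a : kˣ, P.eval (κ₀ (a : k)) = 0 := by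
    intro a
    simp only [P, Polynomial.eval_finsetSum, Polynomial.eval_monomial]
    exact h a
  have hdeg : P.degree < (Fintype.card k - 1 : ℕ) := by
    refine (Polynomial.degree_sum_le _ _).trans_lt ?_
    rw [Finset.sup_lt_iff (WithBot.bot_lt_coe _)]
    intro s _
    refine (Polynomial.degree_monomial_le _ _).trans_lt ?_
    exact_mod_cast s.2
  have h0 : P = 0 := by
    refine Polynomial.eq_zero_of_degree_lt_of_eval_finset_eq_zero
      (Finset.univ.image fun a : kˣ => κ₀ (a : k)) ?_ ?_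
    · rw [Finset.card_image_of_injective _ (fun a b hab => Units.ext (κ₀.injective hab)),
        Finset.card_univ, Fintype.card_units]
      exact hdeg
    · intro x hx
      obtain ⟨a, _, rfl⟩ := Finset.mem_image.1 hx
      exact hP a
  funext s
  have h1 : P.coeff (s : ℕ) = f s := by
    simp only [P, Polynomial.finsetSum_coeff, Polynomial.coeff_monomial]
    rw [Finset.sum_eq_single s]
    · rw [if_pos rfl]
    · intro t _ hts
      rw [if_neg]
      exact fun h2 => hts (Fin.ext h2)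
    · intro h2
      exact absurd (Finset.mem_univ s) h2
  rw [← h1, h0, Polynomial.coeff_zero, Pi.zero_apply]

end orth

section sum

variable {R k F : Type} [CommRing R] [Field k] [Fintype k] [Field F] (π : R →+* k)
  (κ₀ : k →+* F)

/-- A function on `GL₂(R)` in the coinduced module of a character of the Borel subgroup lies in
the coinduced module of its restriction to `zu`. -/
noncomputable def incl (r : ℤ) (s : ℤ) :
    Representation.coindV (gam0 (RingHom.ker π)).subtype (chRep (bchar π κ₀ s (r - s))) →ₗ[F]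
      Representation.coindV (zu π).subtype (chRep (zchar π (kpow κ₀ r))) where
  toFun f := ⟨f.1, by
    intro h g
    have h1 := f.2 ⟨h.1, zu_le π h.2⟩ g
    rw [chRep_apply] at h1 ⊢
    change f.1 (h.1 * g) = _
    refine h1.trans ?_
    congr 1
    rw [bchar_val, zchar_val]
    have h2 : π (h.1 0 0) = π (h.1 1 1) := h.2.2
    have h3 : κ₀ (π (h.1 1 1)) ≠ 0 := by
      rw [map_ne_zero_iff _ κ₀.injective]
      exact borel_diag_ne π (zu_le π h.2) 1
    change κ₀ (π (h.1 0 0)) ^ s * κ₀ (π (h.1 1 1)) ^ (r - s) = _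
    rw [h2, ← zpow_add₀ h3]
    congr 1
    ring⟩
  map_add' _ _ := rfl
  map_smul' _ _ := rfl

/-- The sum of the inclusions. -/
noncomputable def sumMap (r : ℤ) :
    (∀ s : Fin (Fintype.card k - 1), Representation.coindV (gam0 (RingHom.ker π)).subtype
      (chRep (bchar π κ₀ (s : ℕ) (r - (s : ℕ))))) →ₗ[F]
      Representation.coindV (zu π).subtype (chRep (zchar π (kpow κ₀ r))) :=
  ∑ s : Fin (Fintype.card k - 1), (incl π κ₀ r (s : ℕ)).comp (LinearMap.proj s)

lemma sumMap_apply (r : ℤ) (f : ∀ s : Fin (Fintype.card k - 1), Representation.coindV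
    (gam0 (RingHom.ker π)).subtype (chRep (bchar π κ₀ (s : ℕ) (r - (s : ℕ))))) (g : GL (Fin 2) R) :
    (sumMap π κ₀ r f).1 g = ∑ s, (f s).1 g := by
  unfold sumMap
  rw [LinearMap.sum_apply, AddSubmonoidClass.coe_finsetSum, Finset.sum_apply]
  rfl

/-- the matrix `diag(a, 1)` -/
def dgl (a : Rˣ) : GL (Fin 2) R :=
  ⟨!![(a : R), 0; 0, 1], !![((a⁻¹ : Rˣ) : R), 0; 0, 1],
    by ext i j; fin_cases i <;> fin_cases j <;> simp [Matrix.mul_apply],
    by ext i j; fin_cases i <;> fin_cases j <;> simp [Matrix.mul_apply]⟩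

omit [Fintype k] in
/-- the reduction of units is surjective for a local ring -/
lemma units_surjective [IsLocalRing R] (hπ : Function.Surjective π) (a : kˣ) :
    ∃ b : Rˣ, π (b : R) = a := by
  obtain ⟨b, hb⟩ := hπ a
  have hu : IsUnit b := by
    by_contra hcon
    have h1 : b ∈ IsLocalRing.maximalIdeal R := (IsLocalRing.mem_maximalIdeal _).2 hcon
    rw [← ker_eq_max π hπ, RingHom.mem_ker, hb] at h1
    exact a.ne_zero h1
  exact ⟨hu.unit, hb⟩

lemma sumMap_injective [IsLocalRing R] (hπ : Function.Surjective π) (r : ℤ) :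
    Function.Injective (sumMap π κ₀ r) := by
  rw [← LinearMap.ker_eq_bot, LinearMap.ker_eq_bot']
  intro f hf
  have h1 : ∀ g : GL (Fin 2) R, (fun s => (f s).1 g) = 0 := by
    intro g
    apply vander κ₀
    intro a
    obtain ⟨b, hb⟩ := units_surjective π hπ a
    have h2 : (sumMap π κ₀ r f).1 (dgl b * g) = 0 := by
      rw [hf]; rfl
    rw [sumMap_apply] at h2
    rw [← h2]
    refine Finset.sum_congr rfl fun s _ => ?_
    have hmem : dgl b ∈ gam0 (RingHom.ker π) := (RingHom.ker π).zero_mem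
    have h3 := (f s).2 ⟨dgl b, hmem⟩ g
    rw [chRep_apply, bchar_val] at h3
    have h4 : π ((dgl b) 0 0) = a := hb
    have h5 : π ((dgl b) 1 1) = 1 := map_one π
    change (f s).1 (dgl b * g) = κ₀ (π ((dgl b) 0 0)) ^ _ * κ₀ (π ((dgl b) 1 1)) ^ _ * _ at h3
    rw [h3, h4, h5, map_one, one_zpow, mul_one, zpow_natCast, mul_comm]
  funext s
  apply Subtype.ext
  ext1 g
  exact congrFun (h1 g) s

lemma sumMap_surjective (r : ℤ) : Function.Surjective (sumMap π κ₀ r) := by
  classical
  rw [← LinearMap.range_eq_top]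
  apply delta_generates
  · rintro g _ ⟨f, rfl⟩
    refine ⟨fun s => Representation.coind _ _ g (f s), ?_⟩
    apply Subtype.ext
    ext1 x
    rw [sumMap_apply, coind_apply, sumMap_apply]
    rfl
  · refine ⟨fun s => (-1 : F) • delta (gam0 (RingHom.ker π)) (bchar π κ₀ (s : ℕ) (r - (s : ℕ))), ?_⟩
    apply Subtype.ext
    ext1 g
    rw [sumMap_apply]
    by_cases hg : g ∈ gam0 (RingHom.ker π)
    · have h3 : κ₀ (π (g 1 1)) ≠ 0 := by
        rw [map_ne_zero_iff _ κ₀.injective]
        exact borel_diag_ne π hg 1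
      have h3' := borel_diag_ne π hg 1
      have h4 : π (g 0 0) / π (g 1 1) ≠ 0 := div_ne_zero (borel_diag_ne π hg 0) h3'
      have h5 : ∀ s : Fin (Fintype.card k - 1), ((-1 : F) • delta (gam0 (RingHom.ker π))
          (bchar π κ₀ (s : ℕ) (r - (s : ℕ)))).1 g
          = -κ₀ (π (g 1 1)) ^ r * κ₀ (π (g 0 0) / π (g 1 1)) ^ (s : ℕ) := by
        intro s
        have h6 := delta_mem (gam0 (RingHom.ker π)) (bchar π κ₀ (s : ℕ) (r - (s : ℕ))) ⟨g, hg⟩
        change (-1 : F) * (delta (gam0 (RingHom.ker π)) (bchar π κ₀ (s : ℕ) (r - (s : ℕ)))).1 g = _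
        rw [h6, bchar_val]
        change (-1 : F) * (κ₀ (π (g 0 0)) ^ ((s : ℕ) : ℤ) * κ₀ (π (g 1 1)) ^ (r - (s : ℕ))) = _
        rw [zpow_sub₀ h3, map_div₀, div_pow, zpow_natCast, zpow_natCast]
        ring
      rw [Finset.sum_congr rfl fun s _ => h5 s, ← Finset.mul_sum, sum_pow_eq κ₀ _ h4]
      by_cases hz : π (g 0 0) = π (g 1 1)
      · rw [if_pos (by rw [hz]; exact div_self h3'), mul_neg, mul_one, neg_neg]
        have hmem : g ∈ zu π := ⟨borel_lower π hg, hz⟩
        have h7 := delta_mem (zu π) (zchar π (kpow κ₀ r)) ⟨g, hmem⟩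
        rw [h7, zchar_val]
        change _ = κ₀ (π (g 0 0)) ^ r
        rw [hz]
      · rw [if_neg (by rw [div_eq_one_iff_eq h3']; exact hz), mul_zero]
        exact (delta_notMem (zu π) _ g (fun hmem => hz hmem.2)).symm
    · rw [Finset.sum_eq_zero, delta_notMem _ _ g (fun hmem => hg (zu_le π hmem))]
      intro s _
      change (-1 : F) * (delta (gam0 (RingHom.ker π)) (bchar π κ₀ (s : ℕ) (r - (s : ℕ)))).1 g = 0
      rw [delta_notMem _ _ g hg, mul_zero]

/-- **(S1)** The representation coinduced from `zu` is the sum of all principal series with the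
same central character. -/
theorem AddFn.zu_eq [IsLocalRing R] (hπ : Function.Surjective π) (Ψ : AddFn F (GL (Fin 2) R))
    (r : ℤ) :
    Ψ.val _ (Representation.coind (zu π).subtype (chRep (zchar π (kpow κ₀ r))))
      = ∑ s ∈ Finset.range (Fintype.card k - 1), Ψ.val _ (Representation.coind
        (gam0 (RingHom.ker π)).subtype (chRep (bchar π κ₀ (s : ℕ) (r - (s : ℕ))))) := by
  rw [← Fin.sum_univ_eq_sum_range (fun s => Ψ.val _ (Representation.coind
        (gam0 (RingHom.ker π)).subtype (chRep (bchar π κ₀ (s : ℕ) (r - (s : ℕ))))))]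
  rw [← Ψ.pi (Fintype.card k - 1) _ (fun s : Fin (Fintype.card k - 1) => Representation.coind
        (gam0 (RingHom.ker π)).subtype (chRep (bchar π κ₀ ((s : ℕ) : ℤ) (r - ((s : ℕ) : ℤ)))))]
  symm
  refine Ψ.iso _ _ (LinearEquiv.ofBijective (sumMap π κ₀ r)
    ⟨sumMap_injective π κ₀ hπ r, sumMap_surjective π κ₀ r⟩) ?_
  intro g f
  apply Subtype.ext
  ext1 x
  change (sumMap π κ₀ r _).1 x = (sumMap π κ₀ r f).1 (x * g)
  rw [sumMap_apply, sumMap_apply]
  rfl

/-- The characters only depend on the exponents modulo `q - 1`. -/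
lemma AddFn.bchar_congr (Ψ : AddFn F (GL (Fin 2) R)) (i j i' j' : ℤ)
    (hi : ∀ a : k, a ≠ 0 → κ₀ a ^ i = κ₀ a ^ i') (hj : ∀ a : k, a ≠ 0 → κ₀ a ^ j = κ₀ a ^ j') :
    Ψ.val _ (Representation.coind (gam0 (RingHom.ker π)).subtype (chRep (bchar π κ₀ i j)))
      = Ψ.val _ (Representation.coind (gam0 (RingHom.ker π)).subtype
        (chRep (bchar π κ₀ i' j'))) := by
  refine Ψ.coind_congr _ _ rfl fun g hg hg' => ?_
  apply Units.ext
  rw [bchar_val, bchar_val]
  rw [hi _ (borel_diag_ne π hg 0), hj _ (borel_diag_ne π hg 1)]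

lemma kpow_period (a : k) (ha : a ≠ 0) (i m : ℤ) :
    κ₀ a ^ (i + m * ((Fintype.card k : ℤ) - 1)) = κ₀ a ^ i := by
  have h1 : κ₀ a ≠ 0 := by rwa [map_ne_zero_iff _ κ₀.injective]
  have hq : 1 < Fintype.card k := Fintype.one_lt_card
  have h2 : ((Fintype.card k : ℤ) - 1) = ((Fintype.card k - 1 : ℕ) : ℤ) := by omega
  rw [zpow_add₀ h1, mul_comm m, h2, zpow_mul, zpow_natCast, ← map_pow,
    FiniteField.pow_card_sub_one_eq_one a ha, map_one, one_zpow, mul_one]

end sum

section periodic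

lemma sum_shift (G : ℤ → ℤ) (m : ℕ) (hG : ∀ t, G (t + m) = G t) (b : ℤ) :
    ∑ s ∈ Finset.range m, G (b + s) = ∑ s ∈ Finset.range m, G s := by
  have h1 : ∀ c : ℤ, ∑ s ∈ Finset.range m, G (c + 1 + s) = ∑ s ∈ Finset.range m, G (c + s) := by
    intro c
    have e1 := Finset.sum_range_succ (fun s : ℕ => G (c + s)) m
    have e2 := Finset.sum_range_succ' (fun s : ℕ => G (c + s)) m
    have e3 : ∀ s : ℕ, G (c + ((s + 1 : ℕ) : ℤ)) = G (c + 1 + s) := by
      intro s
      congr 1
      push_cast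
      ring
    simp only [e3] at e2
    rw [e1, hG c] at e2
    simp only [Nat.cast_zero, add_zero] at e2
    linarith
  have h2 : ∀ c : ℤ, ∑ s ∈ Finset.range m, G (c + s) = ∑ s ∈ Finset.range m, G (0 + s) := by
    intro c
    induction c using Int.induction_on with
    | zero => rfl
    | succ n ih => rw [h1, ih]
    | pred n ih =>
      have h3 := h1 (-(n : ℤ) - 1)
      rw [sub_add_cancel] at h3
      rw [← h3, ih]
  rw [h2]
  simp only [zero_add]

end periodic

section telescope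

variable {R k F Emb : Type} [CommRing R] [IsLocalRing R] [Field k] [Fintype k]
  [Field F] [Fintype Emb] [DecidableEq Emb]
  (π : R →+* k) (κ : Emb → k →+* F) (x₀ : Emb)

omit [IsLocalRing R] in
/-- twisting by `det^{q-1}` does nothing -/
lemma AddFn.det_period (Ψ : AddFn F (GL (Fin 2) R)) (a b : ℤ) :
    Ψ.val _ (Wi (gp π) κ (Pi.single x₀ (a + ((Fintype.card k : ℤ) - 1),
        b + ((Fintype.card k : ℤ) - 1))))
      = Ψ.val _ (Wi (gp π) κ (Pi.single x₀ (a, b))) := by
  have hg : gap (Pi.single x₀ (a + ((Fintype.card k : ℤ) - 1), b + ((Fintype.card k : ℤ) - 1)))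
      = gap (Pi.single x₀ (a, b)) := by
    ext1 x
    by_cases hx : x = x₀
    · subst hx
      rw [gap_single_self, gap_single_self]
      simp only
      congr 1
      ring
    · rw [gap_single_ne _ _ _ hx, gap_single_ne _ _ _ hx]
  have hle : Homog F (gap (Pi.single x₀ (a + ((Fintype.card k : ℤ) - 1),
      b + ((Fintype.card k : ℤ) - 1)))) = Homog F (gap (Pi.single x₀ (a, b))) := by rw [hg]
  refine Ψ.iso _ _ (LinearEquiv.ofEq _ _ hle) ?_
  intro g u
  apply Subtype.ext
  change (W κ _ (gp π g) u).1 = (W κ _ (gp π g) _).1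
  rw [W_single_coe, W_single_coe]
  have h1 : ((gp π g).det : k) ≠ 0 := (gp π g).det.ne_zero
  have h2 := kpow_period (κ x₀) ((gp π g).det : k) h1 b 1
  rw [one_mul] at h2
  rw [h2]
  rfl

/-- **(S)** The representation coinduced from `zu` is the difference of two symmetric powers. -/
theorem AddFn.zu_sym (hπ : Function.Surjective π) (Ψ : AddFn F (GL (Fin 2) R)) (a b : ℤ)
    (hab : b ≤ a) :
    Ψ.val _ (Representation.coind (zu π).subtype (chRep (zchar π (kpow (κ x₀) (a + b)))))
      = Ψ.val _ (Wi (gp π) κ (Pi.single x₀ (a + ((Fintype.card k : ℤ) ^ 2 - 1), b)))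
        - Ψ.val _ (Wi (gp π) κ (Pi.single x₀ (a, b))) := by
  have hq : 2 ≤ Fintype.card k := Fintype.one_lt_card
  set q : ℤ := (Fintype.card k : ℤ) with hqdef
  have hq' : 2 ≤ q := by omega
  set G : ℤ → ℤ := fun t => Ψ.val _ (Representation.coind
        (gam0 (RingHom.ker π)).subtype (chRep (bchar π (κ x₀) t (a + b - t)))) with hG
  set T : ℕ → ℤ := fun s => Ψ.val _ (Wi (gp π) κ
    (Pi.single x₀ (a + (q ^ 2 - 1) - q * s, b + s))) with hT
  have hm : ((Fintype.card k - 1 : ℕ) : ℤ) = q - 1 := by omega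
  rw [Ψ.zu_eq π (κ x₀) hπ (a + b)]
  have h1 : ∑ s ∈ Finset.range (Fintype.card k - 1), G s
      = ∑ s ∈ Finset.range (Fintype.card k - 1), G (b + s) := by
    symm
    apply sum_shift
    intro t
    rw [hm]
    refine Ψ.bchar_congr π (κ x₀) _ _ _ _ (fun c hc => ?_) (fun c hc => ?_)
    · have := kpow_period (κ x₀) c hc t 1
      rwa [one_mul] at this
    · have := kpow_period (κ x₀) c hc (a + b - t) (-1)
      rw [← this]
      congr 1
      rw [← hqdef]
      ring
  have h2 : ∀ s ∈ Finset.range (Fintype.card k - 1), G (b + s) = T s - T (s + 1) := by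
    intro s hs
    have hs' : (s : ℤ) ≤ q - 2 := by
      have := Finset.mem_range.1 hs
      omega
    have hs0 : (0 : ℤ) ≤ s := Int.natCast_nonneg s
    have hlt : b + s + q < a + (q ^ 2 - 1) - q * s := by nlinarith
    have h3 := Ψ.ps_eq π κ x₀ hπ (a + (q ^ 2 - 1) - q * s) (b + s) hlt.le
    rw [if_neg hlt.ne] at h3
    have h4 : T (s + 1) = Ψ.val _ (Wi (gp π) κ
        (Pi.single x₀ (a + (q ^ 2 - 1) - q * s - (Fintype.card k : ℤ), b + s + 1))) := by
      simp only [hT]
      have e1 : a + (q ^ 2 - 1) - q * ((s + 1 : ℕ) : ℤ)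
          = a + (q ^ 2 - 1) - q * s - (Fintype.card k : ℤ) := by
        rw [← hqdef]; push_cast; ring
      have e2 : b + ((s + 1 : ℕ) : ℤ) = b + s + 1 := by push_cast; ring
      rw [e1, e2]
    rw [h4]
    rw [← h3]
    refine Ψ.bchar_congr π (κ x₀) _ _ _ _ (fun c hc => rfl) (fun c hc => ?_)
    have h5 := kpow_period (κ x₀) c hc (a + b - (b + s)) (q + 1 - s)
    rw [← h5]
    congr 1
    rw [← hqdef]
    ring
  change ∑ s ∈ Finset.range (Fintype.card k - 1), G s = _
  rw [h1, Finset.sum_congr rfl h2, Finset.sum_range_sub']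
  have h6 : T 0 = Ψ.val _ (Wi (gp π) κ (Pi.single x₀ (a + (q ^ 2 - 1), b))) := by
    simp only [hT]
    have e1 : a + (q ^ 2 - 1) - q * ((0 : ℕ) : ℤ) = a + (q ^ 2 - 1) := by
      rw [Nat.cast_zero]; ring
    have e2 : b + ((0 : ℕ) : ℤ) = b := by rw [Nat.cast_zero, add_zero]
    rw [e1, e2]
  have h7 : T (Fintype.card k - 1) = Ψ.val _ (Wi (gp π) κ (Pi.single x₀ (a, b))) := by
    rw [← Ψ.det_period π κ x₀ a b]
    simp only [hT]
    have e1 : a + (q ^ 2 - 1) - q * ((Fintype.card k - 1 : ℕ) : ℤ)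
        = a + ((Fintype.card k : ℤ) - 1) := by
      rw [hm, ← hqdef]; ring
    have e2 : b + ((Fintype.card k - 1 : ℕ) : ℤ) = b + ((Fintype.card k : ℤ) - 1) := by
      rw [hm, ← hqdef]
    rw [e1, e2]
  rw [h6, h7]

end telescope

end Pool.Agent.Work.MP_39033f_nt
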