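import Pool.Agent.Work.MP_39033f_nt.TySum

set_option autoImplicit false

open MvPolynomial
open scoped MonoidAlgebra TensorProduct

namespace Pool.Agent.Work.MP_39033f_nt

section isoinj

variable {F Γ : Type} [Field F] [Group Γ]

lemma AddFn.iso_inj (Φ : AddFn F Γ) {U V : Type} [AddCommGroup U] [Module F U] [AddCommGroup V]
    [Module F V] [FiniteDimensional F U] [FiniteDimensional F V] (ρ : Representation F Γ U)
    (σ : Representation F Γ V) (i : U →ₗ[F] V) (hi : ∀ x, i x = 0 → x = 0)
    (hd : Module.finrank F U = Module.finrank F V)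
    (he : ∀ g u, i (ρ g u) = σ g (i u)) :
    Φ.val U ρ = Φ.val V σ := by
  have h1 : Function.Injective i := (injective_iff_map_eq_zero i).2 hi
  exact Φ.iso ρ σ (LinearEquiv.ofBijective i ⟨h1,
    (LinearMap.injective_iff_surjective_of_finrank_eq_finrank hd).1 h1⟩) he

end isoinj

section coindtens

variable {F Γ : Type} [Field F] [Group Γ] (H : Subgroup Γ) [H.FiniteIndex]

variable {V N : Type} [AddCommGroup V] [Module F V] [FiniteDimensional F V] [AddCommGroup N]
  [Module F N] [FiniteDimensional F N]

/-- `f ⊗ w ↦ (g ↦ f(g) ⊗ g w)` -/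
noncomputable def projMap (ρ : Representation F H N) (σ : Representation F Γ V) :
    Representation.coindV H.subtype ρ ⊗[F] V →ₗ[F]
      Representation.coindV H.subtype (Representation.tprod ρ (σ.comp H.subtype)) :=
  TensorProduct.lift (LinearMap.mk₂ F
    (fun f w => ⟨fun g => f.1 g ⊗ₜ[F] σ g w, by
      intro h g
      dsimp only
      rw [f.2 h g, map_mul]
      rfl⟩)
    (fun f f' w => by
      apply Subtype.ext
      ext1 g
      exact TensorProduct.add_tmul _ _ _)
    (fun c f w => by
      apply Subtype.ext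
      ext1 g
      exact TensorProduct.smul_tmul' _ _ _)
    (fun f w w' => by
      apply Subtype.ext
      ext1 g
      change f.1 g ⊗ₜ[F] σ g (w + w') = f.1 g ⊗ₜ[F] σ g w + f.1 g ⊗ₜ[F] σ g w'
      rw [map_add, TensorProduct.tmul_add])
    (fun c f w => by
      apply Subtype.ext
      ext1 g
      change f.1 g ⊗ₜ[F] σ g (c • w) = c • f.1 g ⊗ₜ[F] σ g w
      rw [map_smul, TensorProduct.tmul_smul]))

omit [H.FiniteIndex] [FiniteDimensional F V] [FiniteDimensional F N] in
lemma projMap_tmul (ρ : Representation F H N) (σ : Representation F Γ V)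
    (f : Representation.coindV H.subtype ρ) (w : V) (g : Γ) :
    (projMap H ρ σ (f ⊗ₜ w)).1 g = f.1 g ⊗ₜ[F] σ g w := rfl

omit [H.FiniteIndex] [FiniteDimensional F N] in
lemma projMap_injective (ρ : Representation F H N) (σ : Representation F Γ V) :
    ∀ t, projMap H ρ σ t = 0 → t = 0 := by
  intro t ht
  let b := Module.finBasis F V
  obtain ⟨c, rfl⟩ := TensorProduct.eq_repr_basis_right b t
  have h1 : ∀ (g : Γ) i, (c i).1 g = 0 := by
    intro g i
    have h2 : (projMap H ρ σ (c.sum fun i m => m ⊗ₜ[F] b i)).1 g = 0 := by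
      rw [ht]; rfl
    -- the basis `σ g (b i)`
    let b' : Module.Basis _ F V := b.map (LinearEquiv.ofBijective (σ g) ⟨by
      intro x y hxy
      have := congrArg (σ g⁻¹) hxy
      rwa [← Module.End.mul_apply, ← Module.End.mul_apply, ← map_mul, inv_mul_cancel, map_one] at this,
      fun x => ⟨σ g⁻¹ x, by rw [← Module.End.mul_apply, ← map_mul, mul_inv_cancel, map_one]; rfl⟩⟩)
    have h3 : (projMap H ρ σ (c.sum fun i m => m ⊗ₜ[F] b i)).1 g
        = (c.mapRange (fun f : Representation.coindV H.subtype ρ => f.1 g) rfl).sum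
          fun i m => m ⊗ₜ[F] b' i := by
      rw [Finsupp.sum_mapRange_index (by intro i; exact TensorProduct.zero_tmul _ _)]
      unfold Finsupp.sum
      rw [map_sum, AddSubmonoidClass.coe_finsetSum, Finset.sum_apply]
      rfl
    rw [h3] at h2
    have h4 := TensorProduct.sum_tmul_basis_right_eq_zero b' _ h2
    exact DFunLike.congr_fun h4 i
  have h2 : c = 0 := by
    ext i g
    exact h1 g i
  rw [h2, Finsupp.sum_zero_index]

/-- **Projection formula.** -/
theorem AddFn.coind_tens (Ψ : AddFn F Γ) (ρ : Representation F H N) (σ : Representation F Γ V) :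
    (Ψ.tens σ).val _ (Representation.coind H.subtype ρ)
      = (Ψ.coind H).val _ (Representation.tprod ρ (σ.comp H.subtype)) := by
  have h1 : Module.finrank F (Representation.coindV H.subtype ρ ⊗[F] V)
      = Module.finrank F (Representation.coindV H.subtype
        (Representation.tprod ρ (σ.comp H.subtype))) := by
    rw [Module.finrank_tensorProduct, finrank_coind, finrank_coind, Module.finrank_tensorProduct]
    ring
  refine Ψ.iso_inj _ _ (projMap H ρ σ) (projMap_injective H ρ σ) h1 ?_
  intro g u
  change projMap H ρ σ _ = Representation.coind H.subtype _ g (projMap H ρ σ u)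
  induction u using TensorProduct.induction_on with
  | zero => simp only [map_zero]
  | tmul f w =>
    apply Subtype.ext
    ext1 x
    rw [coind_apply, projMap_tmul]
    change (Representation.coind H.subtype ρ g f).1 x ⊗ₜ[F] σ x (σ g w) = _
    rw [coind_apply, map_mul]
    rfl
  | add x y hx hy => simp only [map_add, hx, hy]

end coindtens

section pact

variable {p : ℕ} {F Γ V N : Type} [Field F] [Group Γ] [AddCommGroup V] [Module F V]
  [AddCommGroup N] [Module F N]

lemma PAct.tprod {ρ : Representation F Γ V} {σ : Representation F Γ N} {K : Subgroup Γ}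
    (h : PAct p ρ K) (h' : PAct p σ K) : PAct p (Representation.tprod ρ σ) K := by
  constructor
  · refine Set.Finite.subset (Set.Finite.image2 (fun a b => TensorProduct.map a b) h.1 h'.1) ?_
    rintro _ ⟨g, hg, rfl⟩
    exact ⟨ρ g, ⟨g, hg, rfl⟩, σ g, ⟨g, hg, rfl⟩, rfl⟩
  · intro g hg
    obtain ⟨n, hn⟩ := h.2 g hg
    obtain ⟨m, hm⟩ := h'.2 g hg
    refine ⟨n + m, ?_⟩
    have e1 : ρ g ^ p ^ (n + m) = 1 := by rw [pow_add, pow_mul, hn, one_pow]
    have e2 : σ g ^ p ^ (n + m) = 1 := by rw [add_comm n m, pow_add, pow_mul, hm, one_pow]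
    have e3 : ∀ m : ℕ, (TensorProduct.map (ρ g) (σ g)) ^ m
        = TensorProduct.map (ρ g ^ m) (σ g ^ m) := by
      intro m
      induction m with
      | zero => rw [pow_zero, pow_zero, pow_zero, TensorProduct.map_one]
      | succ m ih => rw [pow_succ, pow_succ, pow_succ, ih, TensorProduct.map_mul]
    rw [Representation.tprod_apply, e3, e1, e2, TensorProduct.map_one]

lemma PAct.comp {G : Type} [Group G] {σ : Representation F G V} {K : Subgroup G} (h : PAct p σ K)
    (φ : Γ →* G) : PAct p (σ.comp φ : Representation F Γ V) (K.comap φ) := by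
  constructor
  · refine Set.Finite.subset h.1 ?_
    rintro _ ⟨g, hg, rfl⟩
    exact ⟨φ g, hg, rfl⟩
  · intro g hg
    exact h.2 (φ g) hg

lemma PAct.mono {ρ : Representation F Γ V} {K K' : Subgroup Γ} (h : PAct p ρ K) (hK : K' ≤ K) :
    PAct p ρ K' :=
  ⟨h.1.subset (Set.image_mono hK), fun g hg => h.2 g (hK hg)⟩

end pact

section rdim

variable {p : ℕ} [Fact p.Prime] {R k F : Type} [CommRing R] [IsLocalRing R] [Field k]
  [Field F] [CharP F p] (π : R →+* k)

/-- The common diagonal entry of the reduction. -/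
noncomputable def zd : zu π →* kˣ := (dg π 0).comp (Subgroup.inclusion (zu_le π))

omit [IsLocalRing R] in
lemma zd_val (h : zu π) : ((zd π h : kˣ) : k) = π (h.1 0 0) := rfl

/-- The scalar matrices act through the character `ω`. -/
def CZ {V : Type} [AddCommGroup V] [Module F V] (ρ : Representation F (zu π) V)
    (ω : kˣ →* Fˣ) : Prop :=
  ∀ (z : Rˣ) (h : zu π), h.1 = Matrix.GeneralLinearGroup.scalar (Fin 2) z →
    ∀ v, ρ h v = ((ω (zd π h) : Fˣ) : F) • v

omit [IsLocalRing R] in
lemma scalar_apply_eq (z : Rˣ) (i : Fin 2) :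
    (Matrix.GeneralLinearGroup.scalar (Fin 2) z : GL (Fin 2) R) i i = z := by
  change (Matrix.scalar (Fin 2) (z : R)) i i = z
  simp

omit [IsLocalRing R] in
lemma scalar_apply_ne (z : Rˣ) (i j : Fin 2) (hij : i ≠ j) :
    (Matrix.GeneralLinearGroup.scalar (Fin 2) z : GL (Fin 2) R) i j = 0 := by
  change (Matrix.scalar (Fin 2) (z : R)) i j = 0
  simp [hij]

omit [IsLocalRing R] in
lemma scalar_mem_zu (z : Rˣ) : Matrix.GeneralLinearGroup.scalar (Fin 2) z ∈ zu π :=
  ⟨by rw [scalar_apply_ne z 1 0 (by decide), map_zero],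
    by rw [scalar_apply_eq, scalar_apply_eq]⟩

lemma zu_decomp (hπ : Function.Surjective π) (h : zu π) :
    ∃ (z : Rˣ) (s u : zu π), s.1 = Matrix.GeneralLinearGroup.scalar (Fin 2) z ∧
      u ∈ (zd π).ker ∧ h = s * u ∧ zd π s = zd π h := by
  have hu : IsUnit (h.1 0 0) := by
    by_contra hcon
    have h1 : h.1 0 0 ∈ IsLocalRing.maximalIdeal R := (IsLocalRing.mem_maximalIdeal _).2 hcon
    rw [← ker_eq_max π hπ, RingHom.mem_ker] at h1
    exact borel_diag_ne π (zu_le π h.2) 0 h1
  obtain ⟨z, hz⟩ := hu
  set s : zu π := ⟨Matrix.GeneralLinearGroup.scalar (Fin 2) z, scalar_mem_zu π z⟩ with hs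
  have h1 : zd π s = zd π h := by
    apply Units.ext
    rw [zd_val, zd_val, ← hz]
    change π ((Matrix.GeneralLinearGroup.scalar (Fin 2) z : GL (Fin 2) R) 0 0) = _
    rw [scalar_apply_eq]
  refine ⟨z, s, s⁻¹ * h, rfl, ?_, by group, h1⟩
  rw [MonoidHom.mem_ker, map_mul, map_inv, h1, inv_mul_cancel]

lemma CZ.line (hπ : Function.Surjective π) {V : Type} [AddCommGroup V] [Module F V]
    {ρ : Representation F (zu π) V} {ω : kˣ →* Fˣ} (hρ : CZ π ρ ω) (w : V)
    (hw : ∀ g ∈ (zd π).ker, ρ g w = w) (h : zu π) :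
    ρ h w = ((ω (zd π h) : Fˣ) : F) • w := by
  obtain ⟨z, s, u, hs, hu, rfl, hsd⟩ := zu_decomp π hπ h
  rw [map_mul, Module.End.mul_apply, hw u hu, hρ z s hs, hsd]

/-- **(R)** On representations of `zu` on which the scalars act through `ω`, an additive function
is a multiple of the dimension. -/
theorem AddFn.zu_dim (hπ : Function.Surjective π) (Φ : AddFn F (zu π)) (ω : kˣ →* Fˣ) :
    ∀ (n : ℕ) (V : Type) [AddCommGroup V] [Module F V] [FiniteDimensional F V]
      (ρ : Representation F (zu π) V), PAct p ρ (zd π).ker → CZ π ρ ω →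
      Module.finrank F V = n → Φ.val V ρ = n * Φ.val F (chRep (zchar π ω)) := by
  intro n
  induction n with
  | zero =>
    intro V _ _ _ ρ _ _ hn
    have hV : Subsingleton V := Module.finrank_zero_iff.1 hn
    have e : V ≃ₗ[F] PUnit :=
      { toFun := fun _ => PUnit.unit
        map_add' := fun _ _ => rfl
        map_smul' := fun _ _ => rfl
        invFun := fun _ => 0
        left_inv := fun _ => Subsingleton.elim _ _
        right_inv := fun _ => rfl }
    rw [Φ.iso ρ (1 : Representation F (zu π) PUnit) e (fun _ _ => Subsingleton.elim _ _),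
      Φ.val_punit]
    simp
  | succ n ih =>
    intro V _ _ _ ρ hρ hω hn
    have hnt : Nontrivial V := by
      apply Module.nontrivial_of_finrank_pos (R := F)
      omega
    obtain ⟨v, hv⟩ := exists_ne (0 : V)
    obtain ⟨w, _, hw0, hwf⟩ := fixed_vector ρ (zd π).ker hρ v hv
    have hline := hω.line π hπ w hwf
    let i : F →ₗ[F] V := LinearMap.toSpanSingleton F V w
    have hi : ∀ x, i x = x • w := fun x => rfl
    have hinj : Function.Injective i := by
      rw [injective_iff_map_eq_zero]
      intro x hx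
      rw [hi] at hx
      exact (smul_eq_zero.1 hx).resolve_right hw0
    have hU : ∀ g, LinearMap.range i ≤ (LinearMap.range i).comap (ρ g) := by
      rintro g _ ⟨x, rfl⟩
      refine ⟨x * ((ω (zd π g) : Fˣ) : F), ?_⟩
      rw [hi, hi, map_smul, hline, smul_smul]
    have hex := Φ.exact' F V (V ⧸ LinearMap.range i) (chRep (zchar π ω)) ρ
      (ρ.quotient (LinearMap.range i) hU) i (LinearMap.range i).mkQ ?_ (fun _ _ => rfl)
      hinj (Submodule.mkQ_surjective _) (by rw [Submodule.ker_mkQ])
    · have hfr : Module.finrank F (V ⧸ LinearMap.range i) = n := by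
        have h1 := Submodule.finrank_quotient_add_finrank (LinearMap.range i)
        rw [LinearMap.finrank_range_of_inj hinj, Module.finrank_self] at h1
        omega
      rw [hex, ih (V ⧸ LinearMap.range i) (ρ.quotient (LinearMap.range i) hU) (hρ.quot _ hU) ?_ hfr]
      · push_cast
        ring
      · intro z h hz v
        obtain ⟨v, rfl⟩ := Submodule.mkQ_surjective _ v
        change (LinearMap.range i).mkQ (ρ h v) = _
        rw [hω z h hz v, map_smul]
    · intro g x
      rw [hi, hi, chRep_apply, map_smul, hline, smul_smul, mul_comm]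
      rfl

end rdim

end Pool.Agent.Work.MP_39033f_nt
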