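import Pool.Agent.Work.MP_39033f_nt.UnrTorus
import Pool.Agent.Work.MP_39033f_nt.FieldEmb
import Pool.Agent.Work.MP_39033f_nt.Koszul2

set_option autoImplicit false

open MvPolynomial
open scoped MonoidAlgebra TensorProduct

/-!
Evaluation of homogeneous polynomials at the nonrational points of the projective line over `k₂`.
-/

namespace Pool.Agent.Work.MP_39033f_nt

section unr

variable {k k2 F Emb : Type} [Field k] [Field k2] [Field F] [Fintype Emb] [DecidableEq Emb]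

/-- the character `θ^d` of the nonsplit torus -/
noncomputable def charT (ι : k →+* k2) (ω : k2) (κ2 : k2 →+* F) (d : ℕ) :
    Representation F (tor ι ω) F where
  toFun h := (κ2 (torv ι ω h)) ^ d • LinearMap.id
  map_one' := by
    rw [map_one, map_one, one_pow, one_smul]
    rfl
  map_mul' := by
    intro g h
    ext
    simp only [map_mul, mul_pow, LinearMap.smul_apply, LinearMap.id_apply, smul_eq_mul,
      Module.End.mul_apply]
    ring

lemma charT_apply (ι : k →+* k2) (ω : k2) (κ2 : k2 →+* F) (d : ℕ) (h : tor ι ω) (a : F) :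
    charT ι ω κ2 d h a = (κ2 (torv ι ω h)) ^ d * a := rfl

/-- evaluation at the points `(1, ω) g` -/
noncomputable def evT (x₀ : Emb) (ι : k →+* k2) (ω : k2) (κ2 : k2 →+* F)
    {n : Emb → ℕ} (hn : ∀ y, y ≠ x₀ → n y = 0) :
    Homog F n →ₗ[F] Representation.coindV (tor ι ω).subtype (charT ι ω κ2 (n x₀)) where
  toFun f := ⟨fun g => evp x₀ (fun j => κ2 (rowm ι ω g j)) f, by
    rw [Representation.mem_coindV]
    intro h g
    rw [charT_apply]
    show evp x₀ (fun j => κ2 (rowm ι ω (h * g) j)) f = _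
    have h1 : (fun j => κ2 (rowm ι ω (h * g) j))
        = fun j => κ2 (torv ι ω h) * κ2 (rowm ι ω g j) := by
      funext j
      rw [rowm_tor_mul, map_mul]
    rw [h1]
    exact evp_smul hn f.2 _ _⟩
  map_add' := by
    intro f f'
    apply Subtype.ext
    funext g
    simp
  map_smul' := by
    intro c f
    apply Subtype.ext
    funext g
    simp

lemma evT_apply (x₀ : Emb) (ι : k →+* k2) (ω : k2) (κ2 : k2 →+* F)
    {n : Emb → ℕ} (hn : ∀ y, y ≠ x₀ → n y = 0) (f : Homog F n) (g : GL (Fin 2) k) :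
    (evT x₀ ι ω κ2 hn f : GL (Fin 2) k → F) g = evp x₀ (fun j => κ2 (rowm ι ω g j)) f := rfl

omit [Fintype Emb] in
lemma evp_row_subst (κ : Emb → k →+* F) (x₀ : Emb) (ι : k →+* k2) (ω : k2) (κ2 : k2 →+* F)
    (hκ2 : ∀ a, κ2 (ι a) = κ x₀ a) (g h : GL (Fin 2) k) (f : MvPolynomial (Emb × Fin 2) F) :
    evp x₀ (fun j => κ2 (rowm ι ω g j)) (subst κ h f)
      = evp x₀ (fun j => κ2 (rowm ι ω (g * h) j)) f := by
  rw [evp_subst]
  congr 2
  funext j
  rw [rowm_mul, map_sum]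
  simp only [map_mul, hκ2]

/-- the polynomial which is nonzero exactly on one nonrational line -/
noncomputable def dpol (x₀ : Emb) (Q d : ℕ) (a b : F) : MvPolynomial (Emb × Fin 2) F :=
  (C a⁻¹ * X (x₀, 0)) ^ d
    - (C b * X (x₀, 0) - C a * X (x₀, 1)) ^ (Q - 1) * (C a⁻¹ * X (x₀, 0)) ^ (d - Q + 1)

omit [Fintype Emb] in
lemma dpol_mem (x₀ : Emb) (Q d : ℕ) (hQ : 1 ≤ Q) (hd : Q ≤ d) (a b : F) :
    dpol x₀ Q d a b ∈ Homog F (Pi.single x₀ d) := by
  rw [mem_weightedHomogeneousSubmodule]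
  have hX : ∀ j : Fin 2, IsWeightedHomogeneous (fun v : Emb × Fin 2 => (Pi.single v.1 1 : Emb → ℕ))
      (X (x₀, j) : MvPolynomial (Emb × Fin 2) F) (Pi.single x₀ 1) := fun j =>
    isWeightedHomogeneous_X F (fun v : Emb × Fin 2 => (Pi.single v.1 1 : Emb → ℕ)) (x₀, j)
  have h1 : IsWeightedHomogeneous (fun v : Emb × Fin 2 => (Pi.single v.1 1 : Emb → ℕ))
      (C a⁻¹ * X (x₀, 0) : MvPolynomial (Emb × Fin 2) F) (Pi.single x₀ 1) := (hX 0).C_mul _
  have h2 : IsWeightedHomogeneous (fun v : Emb × Fin 2 => (Pi.single v.1 1 : Emb → ℕ))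
      (C b * X (x₀, 0) - C a * X (x₀, 1) : MvPolynomial (Emb × Fin 2) F) (Pi.single x₀ 1) :=
    ((hX 0).C_mul _).sub ((hX 1).C_mul _)
  have hsm : ∀ r : ℕ, r • (Pi.single x₀ 1 : Emb → ℕ) = Pi.single x₀ r := by
    intro r
    rw [← Pi.single_smul, smul_eq_mul, mul_one]
  unfold dpol
  refine IsWeightedHomogeneous.sub ?_ ?_
  · have := h1.pow d
    rwa [hsm] at this
  · have := (h2.pow (Q - 1)).mul (h1.pow (d - Q + 1))
    rw [hsm, hsm, ← Pi.single_add] at this
    have h3 : Q - 1 + (d - Q + 1) = d := by omega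
    rwa [h3] at this

variable [Fintype k] [Fintype k2]

omit [Fintype Emb] [Fintype k] in
lemma evp_dpol [DecidableEq k2] (x₀ : Emb) (κ2 : k2 →+* F) (d : ℕ) (hd : Fintype.card k2 ≤ d) (a b : k2)
    (ha : a ≠ 0) (v : Fin 2 → k2) (hv : v 0 ≠ 0) :
    evp x₀ (fun j => κ2 (v j)) (dpol x₀ (Fintype.card k2) d (κ2 a) (κ2 b))
      = if b * v 0 = a * v 1 then (κ2 (v 0 / a)) ^ d else 0 := by
  classical
  have h1 : evp x₀ (fun j => κ2 (v j)) (dpol x₀ (Fintype.card k2) d (κ2 a) (κ2 b))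
      = κ2 ((a⁻¹ * v 0) ^ d - (b * v 0 - a * v 1) ^ (Fintype.card k2 - 1) *
        (a⁻¹ * v 0) ^ (d - Fintype.card k2 + 1)) := by
    simp [dpol, evp]
  rw [h1]
  split_ifs with h
  · have hc : 1 < Fintype.card k2 := Fintype.one_lt_card
    have h2 : b * v 0 - a * v 1 = 0 := sub_eq_zero.mpr h
    rw [h2, zero_pow (by omega), zero_mul, sub_zero, map_pow]
    congr 2
    field_simp
  · have h2 : b * v 0 - a * v 1 ≠ 0 := sub_ne_zero.mpr h
    rw [FiniteField.pow_card_sub_one_eq_one _ h2, one_mul]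
    have h3 : a⁻¹ * v 0 ≠ 0 := mul_ne_zero (inv_ne_zero ha) hv
    have h4 : (a⁻¹ * v 0) ^ d = (a⁻¹ * v 0) ^ (d - Fintype.card k2 + 1) := by
      have hc : 1 ≤ Fintype.card k2 := Fintype.card_pos
      have h5 : d = (d - Fintype.card k2 + 1) + (Fintype.card k2 - 1) := by omega
      conv_lhs => rw [h5, pow_add, FiniteField.pow_card_sub_one_eq_one _ h3, mul_one]
    rw [h4, sub_self, map_zero]

variable (x₀ : Emb) (ι : k →+* k2) (ω : k2) (κ2 : k2 →+* F)

omit [Fintype Emb] in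
lemma surj_aux (hω : ∀ a, ι a ≠ ω) (hcard : Fintype.card k2 = Fintype.card k ^ 2)
    {d : ℕ} (hd : Fintype.card k2 ≤ d) [Fintype (GL (Fin 2) k)] (φ : GL (Fin 2) k → F)
    (hφ : ∀ (h : tor ι ω) (g : GL (Fin 2) k), φ (h * g) = κ2 (torv ι ω h) ^ d * φ g)
    (g : GL (Fin 2) k) :
    -∑ g' : GL (Fin 2) k, φ g' * evp x₀ (fun j => κ2 (rowm ι ω g j))
      (dpol x₀ (Fintype.card k2) d (κ2 (rowm ι ω g' 0)) (κ2 (rowm ι ω g' 1))) = φ g := by
  classical
  have h1 : ∀ g' : GL (Fin 2) k, φ g' *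
      evp x₀ (fun j => κ2 (rowm ι ω g j)) (dpol x₀ (Fintype.card k2) d (κ2 (rowm ι ω g' 0))
      (κ2 (rowm ι ω g' 1))) = if g' * g⁻¹ ∈ tor ι ω then φ g else 0 := by
    intro g'
    rw [evp_dpol x₀ κ2 d hd _ _ (rowm_ne ι ω hω g') _ (rowm_ne ι ω hω g)]
    have hiff : (rowm ι ω g' 1 * rowm ι ω g 0 = rowm ι ω g' 0 * rowm ι ω g 1)
        ↔ g' * g⁻¹ ∈ tor ι ω := by
      constructor
      · intro h
        rw [mem_tor]
        have h0 : rowm ι ω g 0 ≠ 0 := rowm_ne ι ω hω g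
        have h2 : ∀ j, rowm ι ω g' j = (rowm ι ω g' 0 / rowm ι ω g 0) * rowm ι ω g j := by
          intro j
          fin_cases j
          · simp only [Fin.zero_eta]
            field_simp
          · simp only [Fin.mk_one]
            rw [div_mul_eq_mul_div, eq_div_iff h0]
            exact h
        have h3 : ∀ j, rowm ι ω (g' * g⁻¹) j
            = (rowm ι ω g' 0 / rowm ι ω g 0) * rowm ι ω 1 j := by
          intro j
          rw [rowm_mul, ← mul_inv_cancel g, rowm_mul, Finset.mul_sum]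
          refine Finset.sum_congr rfl fun i _ => ?_
          rw [h2 i]
          ring
        rw [h3, h3, rowm_one]
        simp only [Matrix.cons_val_zero, Matrix.cons_val_one]
        ring
      · intro h
        have h2 : ∀ j, rowm ι ω g' j = torv ι ω ⟨_, h⟩ * rowm ι ω g j := by
          intro j
          rw [← rowm_tor_mul]
          congr 1
          simp
        rw [h2 1, h2 0]
        ring
    by_cases hm : g' * g⁻¹ ∈ tor ι ω
    · rw [if_pos (hiff.mpr hm), if_pos hm]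
      have h2 : g' = ((⟨_, hm⟩ : tor ι ω) : GL (Fin 2) k) * g := by simp
      have h3 : rowm ι ω g' 0 = torv ι ω ⟨_, hm⟩ * rowm ι ω g 0 := by
        rw [← rowm_tor_mul]
        congr 1
      have h4 : φ g' = κ2 (torv ι ω ⟨_, hm⟩) ^ d *
          φ g := by
        rw [← hφ]
        congr 1
      rw [h4, h3]
      have h5 : torv ι ω ⟨_, hm⟩ ≠ 0 := torv_ne ι ω _
      have h6 : rowm ι ω g 0 ≠ 0 := rowm_ne ι ω hω g
      have h7 : rowm ι ω g 0 / (torv ι ω ⟨_, hm⟩ * rowm ι ω g 0) = (torv ι ω ⟨_, hm⟩)⁻¹ := by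
        field_simp
      rw [h7, map_inv₀, inv_pow]
      have h8 : κ2 (torv ι ω ⟨_, hm⟩) ^ d ≠ 0 :=
        pow_ne_zero _ ((map_ne_zero_iff _ κ2.injective).mpr h5)
      field_simp
    · rw [if_neg (fun h => hm (hiff.mp h)), if_neg hm, mul_zero]
  rw [Finset.sum_congr rfl fun g' _ => h1 g', Finset.sum_ite, Finset.sum_const_zero, add_zero,
    Finset.sum_const]
  have hcf : (Finset.univ.filter (fun g' : GL (Fin 2) k => g' * g⁻¹ ∈ tor ι ω)).card
      = Fintype.card k ^ 2 - 1 := by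
    rw [← card_tor ι ω hω hcard, ← Finset.card_univ]
    symm
    refine Finset.card_bij (fun h _ => (h : GL (Fin 2) k) * g) ?_ ?_ ?_
    · intro h _
      simp
    · intro h _ h' _ heq
      exact Subtype.ext (mul_right_cancel heq)
    · intro g' hg'
      rw [Finset.mem_filter] at hg'
      exact ⟨⟨_, hg'.2⟩, Finset.mem_univ _, by simp⟩
  rw [hcf, nsmul_eq_mul]
  have hq : ((Fintype.card k ^ 2 - 1 : ℕ) : F) = -1 := by
    have hpos : 1 ≤ Fintype.card k ^ 2 := Nat.one_le_pow _ _ Fintype.card_pos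
    rw [Nat.cast_sub hpos, Nat.cast_pow]
    have h0 : (Fintype.card k : F) = 0 := by
      have := congrArg (κ2.comp ι) (FiniteField.cast_card_eq_zero k)
      rwa [map_natCast, map_zero] at this
    rw [h0]
    simp
  rw [hq]
  ring

lemma evT_surjective (hω : ∀ a, ι a ≠ ω) (hcard : Fintype.card k2 = Fintype.card k ^ 2)
    {n : Emb → ℕ} (hn : ∀ y, y ≠ x₀ → n y = 0) (hd : Fintype.card k2 ≤ n x₀) :
    Function.Surjective (evT x₀ ι ω κ2 hn) := by
  classical
  intro φ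
  have hφ : ∀ (h : tor ι ω) (g : GL (Fin 2) k),
      (φ : GL (Fin 2) k → F) (h * g) = κ2 (torv ι ω h) ^ n x₀ * (φ : GL (Fin 2) k → F) g := by
    intro h g
    exact (Representation.mem_coindV _ _ _).mp φ.2 h g
  have hns : n = Pi.single x₀ (n x₀) := by
    funext y
    by_cases hy : y = x₀
    · subst hy; rw [Pi.single_eq_same]
    · rw [Pi.single_eq_of_ne hy, hn y hy]
  have hmem : ∀ g : GL (Fin 2) k, dpol x₀ (Fintype.card k2) (n x₀) (κ2 (rowm ι ω g 0))
      (κ2 (rowm ι ω g 1)) ∈ Homog F n := by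
    intro g
    have h1 : 1 ≤ Fintype.card k2 := Fintype.card_pos
    have h2 := dpol_mem x₀ (Fintype.card k2) (n x₀) h1 hd (κ2 (rowm ι ω g 0)) (κ2 (rowm ι ω g 1))
    rwa [← hns] at h2
  obtain ⟨f, hf⟩ : ∃ f : Homog F n, (f : MvPolynomial (Emb × Fin 2) F)
      = -∑ g : GL (Fin 2) k, (φ : GL (Fin 2) k → F) g •
        dpol x₀ (Fintype.card k2) (n x₀) (κ2 (rowm ι ω g 0)) (κ2 (rowm ι ω g 1)) :=
    ⟨⟨_, Submodule.neg_mem _ (Submodule.sum_mem _ fun g _ => Submodule.smul_mem _ _ (hmem g))⟩,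
      rfl⟩
  have key : ∀ g, (evT x₀ ι ω κ2 hn f : GL (Fin 2) k → F) g = (φ : GL (Fin 2) k → F) g := by
    intro g
    rw [evT_apply, hf, map_neg, map_sum]
    simp only [map_smul, smul_eq_mul]
    exact surj_aux x₀ ι ω κ2 hω hcard hd _ hφ g
  exact ⟨f, Subtype.ext (funext key)⟩

end unr

end Pool.Agent.Work.MP_39033f_nt
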