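import Pool.Agent.Work.MP_39033f_nt.UnrEval
import Pool.Agent.Work.MP_39033f_nt.Recur

set_option autoImplicit false

open MvPolynomial
open scoped MonoidAlgebra TensorProduct

/-!
The kernel of evaluation at the nonrational points: multiples of the Dickson form; the resulting
relation between the values of an additive function.
-/

namespace Pool.Agent.Work.MP_39033f_nt

section ker

variable {k k2 F Emb : Type} [Field k] [Field k2] [Field F] [Fintype Emb] [DecidableEq Emb]
  [Fintype k] [Fintype k2]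

omit [Fintype k] [Fintype k2] in
lemma dh_dick (x₀ : Emb) (q : ℕ) : dh (dick F x₀ q)
    = ∑ i ∈ Finset.range (q + 1), (Polynomial.X ^ (q - 1)) ^ i := by
  unfold dick
  rw [map_sum]
  refine Finset.sum_congr rfl fun i _ => ?_
  rw [map_mul, map_pow, map_pow, map_pow, map_pow, dh_X0, dh_X1, one_pow, one_pow, mul_one]

omit [Fintype k] [Fintype k2] in
lemma dh_dick_monic (x₀ : Emb) (q : ℕ) (hq : 2 ≤ q) : (dh (dick F x₀ q)).Monic ∧
    (dh (dick F x₀ q)).natDegree = (q - 1) * q := by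
  rw [dh_dick, Finset.sum_range_succ, add_comm, ← pow_mul]
  have hdeg : (∑ i ∈ Finset.range q, (Polynomial.X ^ (q - 1) : Polynomial F) ^ i).degree
      < (((q - 1) * q : ℕ) : WithBot ℕ) := by
    rw [← Polynomial.mem_degreeLT]
    apply Submodule.sum_mem
    intro i hi
    rw [Finset.mem_range] at hi
    rw [Polynomial.mem_degreeLT, ← pow_mul]
    refine lt_of_le_of_lt (Polynomial.degree_X_pow_le _) ?_
    exact_mod_cast Nat.mul_lt_mul_of_pos_left hi (by omega)
  refine ⟨Polynomial.monic_X_pow_add hdeg, ?_⟩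
  rw [Polynomial.natDegree_add_eq_left_of_degree_lt, Polynomial.natDegree_X_pow]
  rwa [Polynomial.degree_X_pow]

open Classical in
/-- the nonrational elements -/
noncomputable def nonrat (ι : k →+* k2) : Finset k2 :=
  Finset.univ.filter (fun τ => ∀ a, ι a ≠ τ)

lemma mem_nonrat (ι : k →+* k2) (τ : k2) : τ ∈ nonrat ι ↔ ∀ a, ι a ≠ τ := by
  classical
  simp [nonrat]

lemma card_nonrat (ι : k →+* k2) (hcard : Fintype.card k2 = Fintype.card k ^ 2) :
    (nonrat ι).card = (Fintype.card k - 1) * Fintype.card k := by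
  classical
  have h1 : nonrat ι = Finset.univ \ (Finset.univ.image ι) := by
    ext τ
    rw [mem_nonrat]
    simp
  rw [h1, Finset.card_sdiff_of_subset (Finset.subset_univ _), Finset.card_univ,
    Finset.card_image_of_injective _ ι.injective, Finset.card_univ, hcard, Nat.sub_mul, one_mul,
    pow_two]

/-- the product over the nonrational elements -/
noncomputable def npol (ι : k →+* k2) (κ2 : k2 →+* F) : Polynomial F :=
  ∏ τ ∈ nonrat ι, (Polynomial.X - Polynomial.C (κ2 τ))

lemma npol_monic (ι : k →+* k2) (κ2 : k2 →+* F) : (npol ι κ2).Monic :=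
  Polynomial.monic_prod_of_monic _ _ fun _ _ => Polynomial.monic_X_sub_C _

lemma npol_natDegree (ι : k →+* k2) (κ2 : k2 →+* F)
    (hcard : Fintype.card k2 = Fintype.card k ^ 2) :
    (npol ι κ2).natDegree = (Fintype.card k - 1) * Fintype.card k := by
  unfold npol
  rw [Polynomial.natDegree_prod_of_monic _ _ fun _ _ => Polynomial.monic_X_sub_C _]
  simp [card_nonrat ι hcard]

lemma npol_dvd (ι : k →+* k2) (κ2 : k2 →+* F) (P : Polynomial F)
    (h : ∀ τ, (∀ a, ι a ≠ τ) → P.eval (κ2 τ) = 0) : npol ι κ2 ∣ P := by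
  classical
  unfold npol
  apply Finset.prod_dvd_of_coprime
  · intro τ _ τ' _ hne
    exact Polynomial.pairwise_coprime_X_sub_C κ2.injective hne
  · intro τ hτ
    rw [Polynomial.dvd_iff_isRoot]
    exact h τ ((mem_nonrat ι τ).mp hτ)

variable (x₀ : Emb) (ι : k →+* k2) (κ2 : k2 →+* F)

lemma dick_eval (hcard : Fintype.card k2 = Fintype.card k ^ 2) (τ : k2) (hτ : ∀ a, ι a ≠ τ) :
    (dh (dick F x₀ (Fintype.card k))).eval (κ2 τ) = 0 := by
  have hq : 1 ≤ Fintype.card k := Fintype.card_pos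
  have h := congrArg (fun P => Polynomial.eval (κ2 τ) (dh P))
    (lform_mul_dick (F := F) x₀ (Fintype.card k) hq)
  simp only [map_mul, Polynomial.eval_mul] at h
  have e : ∀ m, Polynomial.eval (κ2 τ) (dh (lform F x₀ m)) = κ2 (τ ^ m - τ) := by
    intro m
    unfold lform
    rw [map_sub, map_mul, map_mul, map_pow, map_pow, dh_X0, dh_X1, one_pow, one_mul, one_mul,
      Polynomial.eval_sub, Polynomial.eval_pow, Polynomial.eval_X, map_sub, map_pow]
  rw [e, e, ← hcard, FiniteField.pow_card, sub_self, map_zero] at h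
  rcases mul_eq_zero.mp h with h1 | h1
  · exact h1
  · exfalso
    rw [map_eq_zero, sub_eq_zero] at h1
    obtain ⟨a, ha⟩ := range_eq_of_pow ι τ h1
    exact hτ a ha

lemma dh_dick_eq (hcard : Fintype.card k2 = Fintype.card k ^ 2) :
    dh (dick F x₀ (Fintype.card k)) = npol ι κ2 := by
  have hq : 2 ≤ Fintype.card k := Fintype.one_lt_card
  obtain ⟨hm, hd⟩ := dh_dick_monic (F := F) x₀ (Fintype.card k) hq
  have h1 := npol_dvd ι κ2 _ (fun τ hτ => dick_eval x₀ ι κ2 hcard τ hτ)
  refine Polynomial.eq_of_monic_of_dvd_of_natDegree_le (npol_monic ι κ2) hm h1 ?_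
  rw [hd, npol_natDegree ι κ2 hcard]

/-- the kernel of evaluation -/
lemma exists_dick_mul (ω : k2) (hω : ∀ a, ι a ≠ ω) (hcard : Fintype.card k2 = Fintype.card k ^ 2)
    {n n' : Emb → ℕ} (hn : ∀ y, y ≠ x₀ → n y = 0)
    (hnn : n = n' + Pi.single x₀ ((Fintype.card k - 1) * Fintype.card k))
    {f : MvPolynomial (Emb × Fin 2) F} (hf : f ∈ Homog F n)
    (h0 : ∀ g : GL (Fin 2) k, evp x₀ (fun j => κ2 (rowm ι ω g j)) f = 0) :
    ∃ g ∈ Homog F n', dick F x₀ (Fintype.card k) * g = f := by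
  have hn' : ∀ y, y ≠ x₀ → n' y = 0 := by
    intro y hy
    have := hn y hy
    rw [hnn, Pi.add_apply] at this
    omega
  have hnx : n x₀ = n' x₀ + (Fintype.card k - 1) * Fintype.card k := by
    rw [hnn, Pi.add_apply, Pi.single_eq_same]
  have hroot : ∀ τ, (∀ a, ι a ≠ τ) → (dh f).eval (κ2 τ) = 0 := by
    intro τ hτ
    obtain ⟨g, hg⟩ := exists_rowm ι ω hω hcard τ hτ
    have h1 := h0 g
    rw [hg] at h1
    rw [evp_homog hn hf _ (by simp)] at h1
    simpa using h1
  obtain ⟨H, hH⟩ := npol_dvd ι κ2 (dh f) hroot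
  have hHdeg : H ∈ Polynomial.degreeLT F (n' x₀ + 1) := by
    rw [Polynomial.mem_degreeLT]
    by_cases hH0 : H = 0
    · rw [hH0, Polynomial.degree_zero]
      exact WithBot.bot_lt_coe _
    have h1 : dh f ≠ 0 := by
      rw [hH]
      exact mul_ne_zero (npol_monic ι κ2).ne_zero hH0
    have h2 := dh_mem hn hf
    rw [Polynomial.mem_degreeLT, ← Polynomial.natDegree_lt_iff_degree_lt h1, hH,
      (npol_monic ι κ2).natDegree_mul' hH0, npol_natDegree ι κ2 hcard, hnx] at h2
    rw [← Polynomial.natDegree_lt_iff_degree_lt hH0]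
    omega
  obtain ⟨g, hg, hgH⟩ := dh_surjective x₀ n' H hHdeg
  refine ⟨g, hg, ?_⟩
  have hmem : dick F x₀ (Fintype.card k) * g ∈ Homog F n := by
    have h1 := dick_mem (F := F) x₀ (Fintype.card k) (n := Pi.single x₀ ((Fintype.card k - 1) *
      Fintype.card k)) rfl
    rw [mem_weightedHomogeneousSubmodule] at h1 hg ⊢
    have h2 := h1.mul hg
    rw [hnn, add_comm]
    exact h2
  have hsub : dick F x₀ (Fintype.card k) * g - f = 0 := by
    apply dh_injective hn (Submodule.sub_mem _ hmem hf)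
    rw [map_sub, map_mul, hgH, dh_dick_eq x₀ ι κ2 hcard, ← hH, sub_self]
  exact sub_eq_zero.mp hsub

end ker

section addfn

variable {k k2 F Emb : Type} [Field k] [Field k2] [Field F] [Fintype Emb] [DecidableEq Emb]
  [Fintype k] [Fintype k2]

/-- multiplication by the Dickson form -/
noncomputable def multD (x₀ : Emb) (q : ℕ) {n n' : Emb → ℕ}
    (hnn : n = n' + Pi.single x₀ ((q - 1) * q)) : Homog F n' →ₗ[F] Homog F n where
  toFun f := ⟨dick F x₀ q * f, by
    have h1 := dick_mem (F := F) x₀ q (n := Pi.single x₀ ((q - 1) * q)) rfl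
    have h2 := f.2
    rw [mem_weightedHomogeneousSubmodule] at h1 h2 ⊢
    have h3 := h1.mul h2
    rw [hnn, add_comm]
    exact h3⟩
  map_add' := by
    intro f g
    apply Subtype.ext
    show dick F x₀ q * (f + g : MvPolynomial (Emb × Fin 2) F) = _
    rw [mul_add]
    rfl
  map_smul' := by
    intro c f
    apply Subtype.ext
    show dick F x₀ q * (c • (f : MvPolynomial (Emb × Fin 2) F)) = _
    rw [mul_smul_comm]
    rfl

omit [Fintype k] [Fintype k2] in
lemma dick_ne (x₀ : Emb) (q : ℕ) (hq : 2 ≤ q) : dick F x₀ q ≠ 0 := by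
  intro h
  have := (dh_dick_monic (F := F) x₀ q hq).1
  rw [h, map_zero] at this
  exact Polynomial.not_monic_zero this

/-- **Unramified relation.** `[Sym^d] = [Sym^(d-q^2+q)] + [Ind_T θ^d]`. -/
theorem AddFn.unr (Φ : AddFn F (GL (Fin 2) k)) (κ : Emb → k →+* F) (x₀ : Emb) (ι : k →+* k2)
    (ω : k2) (κ2 : k2 →+* F) (hω : ∀ a, ι a ≠ ω)
    (hcard : Fintype.card k2 = Fintype.card k ^ 2) (hκ2 : ∀ a, κ2 (ι a) = κ x₀ a)
    (lam lam' : Emb → ℤ × ℤ) (hlam : ∀ y, y ≠ x₀ → gap lam y = 0)
    (hdet : ∀ a : k, a ≠ 0 → ∏ x, κ x a ^ (lam x).2 = 1)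
    (hdet' : ∀ a : k, a ≠ 0 → ∏ x, κ x a ^ (lam' x).2 = 1)
    (hgap : gap lam = gap lam' + Pi.single x₀ ((Fintype.card k - 1) * Fintype.card k))
    (hd : Fintype.card k2 ≤ gap lam x₀) :
    Φ.wval κ lam = Φ.wval κ lam' + Φ.val _ (Representation.coind (tor ι ω).subtype
      (charT ι ω κ2 (gap lam x₀))) := by
  obtain ⟨p, hp⟩ := CharP.exists k
  have hpF : Fact p.Prime := ⟨(CharP.char_is_prime_or_zero k p).resolve_right (by
    intro h; subst h
    exact CharP.char_ne_zero_of_finite k 0 rfl)⟩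
  have : CharP F p := (RingHom.charP_iff _ (κ x₀).injective p).mp hp
  obtain ⟨s, hs0, hs⟩ := card_eq_pow (k := k) p
  have hq : 2 ≤ Fintype.card k := Fintype.one_lt_card
  have hfr : ∀ a : k, a ^ (p ^ s) = a := by
    intro a
    rw [← hs]
    exact FiniteField.pow_card a
  have hW : ∀ (l : Emb → ℤ × ℤ) (_ : ∀ a : k, a ≠ 0 → ∏ x, κ x a ^ (l x).2 = 1)
      (g : GL (Fin 2) k) (f : Homog F (gap l)), ((W κ l g f : Homog F (gap l)) :
      MvPolynomial (Emb × Fin 2) F) = subst κ g f := by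
    intro l hl g f
    rw [W_coe, hl _ g.det.ne_zero, one_smul]
  refine Φ.exact' _ _ _ _ _ _ (multD x₀ (Fintype.card k) hgap)
    (evT x₀ ι ω κ2 hlam) ?_ ?_ ?_ ?_ ?_
  · intro g f
    apply Subtype.ext
    rw [hW lam hdet]
    show dick F x₀ (Fintype.card k) * ((W κ lam' g f : Homog F (gap lam')) :
      MvPolynomial (Emb × Fin 2) F) = subst κ g (dick F x₀ (Fintype.card k) * f)
    rw [hW lam' hdet', map_mul, hs, subst_dick κ x₀ p s hs0 hfr g]
  · intro g f
    apply Subtype.ext
    funext h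
    rw [evT_apply, hW lam hdet]
    exact evp_row_subst κ x₀ ι ω κ2 hκ2 h g f
  · intro f f' h
    have h1 := congrArg Subtype.val h
    apply Subtype.ext
    exact mul_left_cancel₀ (dick_ne x₀ _ hq) h1
  · exact evT_surjective x₀ ι ω κ2 hω hcard hlam hd
  · ext f
    rw [LinearMap.mem_range, LinearMap.mem_ker]
    constructor
    · rintro ⟨f', rfl⟩
      apply Subtype.ext
      funext g
      rw [evT_apply]
      show evp x₀ (fun j => κ2 (rowm ι ω g j)) (dick F x₀ (Fintype.card k) * f') = 0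
      rw [map_mul]
      have h1 : evp x₀ (fun j => κ2 (rowm ι ω g j)) (dick F x₀ (Fintype.card k)) = 0 := by
        have h2 := dick_mem (F := F) x₀ (Fintype.card k)
          (n := Pi.single x₀ ((Fintype.card k - 1) * Fintype.card k)) rfl
        rw [evp_homog (fun y hy => Pi.single_eq_of_ne hy _) h2 _
          ((map_ne_zero_iff _ κ2.injective).mpr (rowm_ne ι ω hω g)), ← map_div₀,
          dick_eval x₀ ι κ2 hcard _ (rowm_nonrat ι ω hω g), mul_zero]
      rw [h1, zero_mul]
    · intro h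
      obtain ⟨g, hg, hgf⟩ := exists_dick_mul x₀ ι κ2 ω hω hcard hlam hgap f.2 (by
        intro g
        have := congrFun (congrArg Subtype.val h) g
        exact this)
      exact ⟨⟨g, hg⟩, Subtype.ext hgf⟩

end addfn

end Pool.Agent.Work.MP_39033f_nt
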