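import Pool.Agent.Work.MP_39033f_nt.Irred3

set_option autoImplicit false

open MvPolynomial
open scoped MonoidAlgebra TensorProduct

/-!
Two-variable homogeneous polynomials: dehomogenisation, evaluation at points, the Dickson form.
-/

namespace Pool.Agent.Work.MP_39033f_nt

section dehom

variable {F Emb : Type} [Field F] [Fintype Emb] [DecidableEq Emb]

/-- dehomogenisation `X_(x,0) ↦ 1`, `X_(x,1) ↦ X` -/
noncomputable def dh : MvPolynomial (Emb × Fin 2) F →ₐ[F] Polynomial F := Dm 1 (fun _ => 0)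

omit [DecidableEq Emb] in
lemma dh_monomial (m : (Emb × Fin 2) →₀ ℕ) (c : F) :
    dh (monomial m c) = Polynomial.C c * Polynomial.X ^ (∑ x, m (x, 1)) := by
  unfold dh
  rw [Dm_monomial]
  simp [EE]

omit [DecidableEq Emb] in
lemma dh_X0 (x : Emb) : dh (X (x, 0) : MvPolynomial (Emb × Fin 2) F) = 1 := by
  simp [dh, Dm]

omit [DecidableEq Emb] in
lemma dh_X1 (x : Emb) : dh (X (x, 1) : MvPolynomial (Emb × Fin 2) F) = Polynomial.X := by
  simp [dh, Dm]

omit [DecidableEq Emb] in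
lemma sum_single {x₀ : Emb} {n : Emb → ℕ} (hn : ∀ y, y ≠ x₀ → n y = 0) {m : (Emb × Fin 2) →₀ ℕ}
    (hm : ∀ x, m (x, 0) + m (x, 1) = n x) : ∑ x, m (x, 1) = m (x₀, 1) := by
  classical
  apply Finset.sum_eq_single x₀
  · intro y _ hy
    have := hm y
    rw [hn y hy] at this
    omega
  · intro h; exact absurd (Finset.mem_univ _) h

omit [Fintype Emb] [DecidableEq Emb] in
lemma exp_ext {x₀ : Emb} {n : Emb → ℕ} (hn : ∀ y, y ≠ x₀ → n y = 0) {m m' : (Emb × Fin 2) →₀ ℕ}
    (hm : ∀ x, m (x, 0) + m (x, 1) = n x) (hm' : ∀ x, m' (x, 0) + m' (x, 1) = n x)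
    (h : m (x₀, 1) = m' (x₀, 1)) : m = m' := by
  ext ⟨x, i⟩
  have h3 := hm x
  have h4 := hm' x
  by_cases hx : x = x₀
  · subst hx
    fin_cases i
    · change m (x, 0) = m' (x, 0)
      omega
    · exact h
  · have h5 := hn x hx
    fin_cases i
    · change m (x, 0) = m' (x, 0)
      omega
    · change m (x, 1) = m' (x, 1)
      omega

lemma coeff_dh {x₀ : Emb} {n : Emb → ℕ} (hn : ∀ y, y ≠ x₀ → n y = 0)
    {g : MvPolynomial (Emb × Fin 2) F} (hg : g ∈ Homog F n) {m : (Emb × Fin 2) →₀ ℕ}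
    (hm : ∀ x, m (x, 0) + m (x, 1) = n x) : (dh g).coeff (m (x₀, 1)) = coeff m g := by
  conv_lhs => rw [g.as_sum, map_sum]
  rw [Polynomial.finsetSum_coeff]
  simp only [dh_monomial, Polynomial.coeff_C_mul, Polynomial.coeff_X_pow]
  by_cases hmg : m ∈ g.support
  · rw [Finset.sum_eq_single m]
    · rw [sum_single hn hm, if_pos rfl, mul_one]
    · intro m' hm' hne
      rw [if_neg, mul_zero]
      intro h
      rw [sum_single hn (fun x => mem_support_props hg hm' x)] at h
      exact hne (exp_ext hn (fun x => mem_support_props hg hm' x) hm h.symm)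
    · intro h; exact absurd hmg h
  · rw [notMem_support_iff.1 hmg]
    apply Finset.sum_eq_zero
    intro m' hm'
    rw [if_neg, mul_zero]
    intro h
    rw [sum_single hn (fun x => mem_support_props hg hm' x)] at h
    have := exp_ext hn (fun x => mem_support_props hg hm' x) hm h.symm
    exact hmg (this ▸ hm')

lemma dh_injective {x₀ : Emb} {n : Emb → ℕ} (hn : ∀ y, y ≠ x₀ → n y = 0)
    {g : MvPolynomial (Emb × Fin 2) F} (hg : g ∈ Homog F n) (h : dh g = 0) : g = 0 := by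
  ext m
  rw [coeff_zero]
  by_contra hne
  have hm := (mem_Homog_iff n g).1 hg m hne
  have := coeff_dh hn hg (m := m) (fun x => hm x)
  rw [h, Polynomial.coeff_zero] at this
  exact hne this.symm

lemma dh_mem {x₀ : Emb} {n : Emb → ℕ} (hn : ∀ y, y ≠ x₀ → n y = 0)
    {g : MvPolynomial (Emb × Fin 2) F} (hg : g ∈ Homog F n) :
    dh g ∈ Polynomial.degreeLT F (n x₀ + 1) := by
  rw [g.as_sum, map_sum]
  apply Submodule.sum_mem
  intro m hm
  rw [dh_monomial, ← Polynomial.smul_eq_C_mul]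
  apply Submodule.smul_mem
  rw [Polynomial.mem_degreeLT]
  refine lt_of_le_of_lt (Polynomial.degree_X_pow_le _) ?_
  rw [sum_single hn (fun x => mem_support_props hg hm x)]
  have := mem_support_props hg hm x₀
  exact_mod_cast (by omega : m (x₀, 1) < n x₀ + 1)

lemma dh_surjective (x₀ : Emb) (n : Emb → ℕ) (P : Polynomial F)
    (hP : P ∈ Polynomial.degreeLT F (n x₀ + 1)) : ∃ g ∈ Homog F n, dh g = P := by
  refine ⟨∑ i ∈ Finset.range (n x₀ + 1), monomial (mexp n (Pi.single x₀ i)) (P.coeff i), ?_, ?_⟩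
  · apply Submodule.sum_mem
    intro i hi
    apply mexp_mem
    intro x
    rw [Finset.mem_range] at hi
    by_cases hx : x = x₀
    · subst hx
      rw [Pi.single_eq_same]
      omega
    · rw [Pi.single_eq_of_ne hx]
      exact Nat.zero_le _
  · rw [map_sum]
    conv_rhs => rw [P.as_sum_range_C_mul_X_pow' (n := n x₀ + 1) (by
      rw [Polynomial.mem_degreeLT] at hP
      by_cases h0 : P = 0
      · rw [h0, Polynomial.natDegree_zero]; omega
      · exact (Polynomial.natDegree_lt_iff_degree_lt h0).mpr hP)]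
    refine Finset.sum_congr rfl fun i _ => ?_
    rw [dh_monomial]
    congr 2
    simp only [mexp_one]
    rw [Finset.sum_pi_single']
    simp

/-- evaluation at a vector, in the variables attached to `x₀` -/
noncomputable def evp (x₀ : Emb) (v : Fin 2 → F) : MvPolynomial (Emb × Fin 2) F →ₐ[F] F :=
  aeval (fun w => if w.1 = x₀ then v w.2 else 0)

omit [Fintype Emb] in
lemma evp_subst {k : Type} [Field k] (κ : Emb → k →+* F) (x₀ : Emb) (v : Fin 2 → F)
    (g : GL (Fin 2) k) (f : MvPolynomial (Emb × Fin 2) F) :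
    evp x₀ v (subst κ g f) = evp x₀ (fun j => ∑ i, v i * κ x₀ (g i j)) f := by
  have h : (evp x₀ v).comp (subst κ g) = evp x₀ (fun j => ∑ i, v i * κ x₀ (g i j)) := by
    apply MvPolynomial.algHom_ext
    rintro ⟨x, j⟩
    rw [AlgHom.comp_apply, subst_X, map_sum]
    by_cases hx : x = x₀
    · subst hx
      simp [evp, mul_comm]
    · simp [evp, hx]
  rw [← h]
  rfl

lemma evp_homog {x₀ : Emb} {n : Emb → ℕ} (hn : ∀ y, y ≠ x₀ → n y = 0)
    {g : MvPolynomial (Emb × Fin 2) F} (hg : g ∈ Homog F n) (v : Fin 2 → F) (hv : v 0 ≠ 0) :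
    evp x₀ v g = v 0 ^ n x₀ * (dh g).eval (v 1 / v 0) := by
  conv_lhs => rw [g.as_sum, map_sum]
  conv_rhs => rw [g.as_sum, map_sum]
  rw [Polynomial.eval_finsetSum, Finset.mul_sum]
  refine Finset.sum_congr rfl fun m hm => ?_
  have hm' := fun x => mem_support_props hg hm x
  rw [dh_monomial, sum_single hn hm', Polynomial.eval_mul, Polynomial.eval_C, Polynomial.eval_pow,
    Polynomial.eval_X]
  unfold evp
  rw [aeval_monomial, Finsupp.prod_fintype _ _ (fun i => pow_zero _), Fintype.prod_prod_type,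
    Finset.prod_eq_single x₀]
  · rw [Fin.prod_univ_two]
    simp only [if_true]
    have h1 := hm' x₀
    rw [← h1, pow_add, div_pow]
    have h2 : v 0 ^ m (x₀, 1) ≠ 0 := pow_ne_zero _ hv
    simp only [Algebra.algebraMap_self, RingHom.id_apply]
    field_simp
  · intro y _ hy
    have h1 := hm' y
    rw [hn y hy] at h1
    have h2 : m (y, 0) = 0 := by omega
    have h3 : m (y, 1) = 0 := by omega
    rw [Fin.prod_univ_two]
    simp [hy, h2, h3]
  · intro h; exact absurd (Finset.mem_univ _) h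

lemma evp_smul {x₀ : Emb} {n : Emb → ℕ} (hn : ∀ y, y ≠ x₀ → n y = 0)
    {g : MvPolynomial (Emb × Fin 2) F} (hg : g ∈ Homog F n) (v : Fin 2 → F) (c : F) :
    evp x₀ (fun j => c * v j) g = c ^ n x₀ * evp x₀ v g := by
  conv_lhs => rw [g.as_sum, map_sum]
  conv_rhs => rw [g.as_sum, map_sum]
  rw [Finset.mul_sum]
  refine Finset.sum_congr rfl fun m hm => ?_
  have hm' := fun x => mem_support_props hg hm x
  unfold evp
  rw [aeval_monomial, Finsupp.prod_fintype _ _ (fun i => pow_zero _), Fintype.prod_prod_type,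
    aeval_monomial, Finsupp.prod_fintype _ _ (fun i => pow_zero _), Fintype.prod_prod_type,
    Finset.prod_eq_single x₀, Finset.prod_eq_single x₀]
  · rw [Fin.prod_univ_two, Fin.prod_univ_two]
    simp only [if_true, mul_pow]
    rw [← hm' x₀, pow_add]
    ring
  · intro y _ hy
    have h1 := hm' y
    rw [hn y hy] at h1
    have h2 : m (y, 0) = 0 := by omega
    have h3 : m (y, 1) = 0 := by omega
    rw [Fin.prod_univ_two]
    simp [h2, h3]
  · intro h; exact absurd (Finset.mem_univ _) h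
  · intro y _ hy
    have h1 := hm' y
    rw [hn y hy] at h1
    have h2 : m (y, 0) = 0 := by omega
    have h3 : m (y, 1) = 0 := by omega
    rw [Fin.prod_univ_two]
    simp [h2, h3]
  · intro h; exact absurd (Finset.mem_univ _) h

end dehom

section dickson

variable {F Emb : Type} [Field F] [Fintype Emb] [DecidableEq Emb]

/-- the Dickson form `∑ X₀^((q-1)(q-i)) X₁^((q-1)i)` -/
noncomputable def dick (F : Type) [Field F] {Emb : Type} (x₀ : Emb) (q : ℕ) :
    MvPolynomial (Emb × Fin 2) F :=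
  ∑ i ∈ Finset.range (q + 1), (X (x₀, 1) ^ (q - 1)) ^ i * (X (x₀, 0) ^ (q - 1)) ^ (q - i)

/-- the form `X₀ X₁^m - X₀^m X₁` -/
noncomputable def lform (F : Type) [Field F] {Emb : Type} (x₀ : Emb) (m : ℕ) :
    MvPolynomial (Emb × Fin 2) F :=
  X (x₀, 0) * X (x₀, 1) ^ m - X (x₀, 0) ^ m * X (x₀, 1)

omit [Fintype Emb] [DecidableEq Emb] in
lemma lform_mul_dick (x₀ : Emb) (q : ℕ) (hq : 1 ≤ q) :
    dick F x₀ q * lform F x₀ q = lform F x₀ (q ^ 2) := by
  have h := Commute.geom_sum₂_mul (Commute.all (X (x₀, 1) ^ (q - 1) : MvPolynomial (Emb × Fin 2) F)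
    (X (x₀, 0) ^ (q - 1))) (q + 1)
  have h1 : dick F x₀ q = ∑ i ∈ Finset.range (q + 1), (X (x₀, 1) ^ (q - 1)) ^ i *
      (X (x₀, 0) ^ (q - 1)) ^ (q + 1 - 1 - i) := by
    unfold dick
    rw [Nat.add_sub_cancel]
  rw [← h1] at h
  have e1 : (X (x₀, 1) : MvPolynomial (Emb × Fin 2) F) ^ q
      = X (x₀, 1) ^ (q - 1) * X (x₀, 1) := by
    rw [← pow_succ]; congr 1; omega
  have e0 : (X (x₀, 0) : MvPolynomial (Emb × Fin 2) F) ^ q
      = X (x₀, 0) ^ (q - 1) * X (x₀, 0) := by
    rw [← pow_succ]; congr 1; omega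
  have e2 : ∀ i : Fin 2, (X (x₀, i) : MvPolynomial (Emb × Fin 2) F) ^ (q ^ 2)
      = (X (x₀, i) ^ (q - 1)) ^ (q + 1) * X (x₀, i) := by
    intro i
    rw [← pow_mul, ← pow_succ]
    congr 1
    obtain ⟨r, rfl⟩ : ∃ r, q = r + 1 := ⟨q - 1, by omega⟩
    simp only [Nat.add_sub_cancel]
    ring
  unfold lform
  rw [e1, e0, e2, e2]
  linear_combination (X (x₀, 0) * X (x₀, 1)) * h

omit [Fintype Emb] [DecidableEq Emb] in
lemma lform_ne (x₀ : Emb) (m : ℕ) (hm : 1 < m) : lform F x₀ m ≠ 0 := by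
  classical
  intro h
  have h1 := congrArg (aeval (fun w : Emb × Fin 2 => if w.2 = 0 then (1 : Polynomial F)
    else Polynomial.X)) h
  simp only [lform, map_sub, map_mul, map_pow, aeval_X, if_true, one_pow, one_mul, map_zero,
    one_ne_zero, if_false] at h1
  have h2 := congrArg (fun P => Polynomial.coeff P 1) h1
  simp only [Polynomial.coeff_sub, Polynomial.coeff_X_pow, Polynomial.coeff_X_one,
    Polynomial.coeff_zero] at h2
  rw [if_neg (by omega)] at h2
  simp at h2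

/-- `lform` is a semi-invariant of `GL₂(k)` -/
lemma subst_lform {k : Type} [Field k] (κ : Emb → k →+* F) (x₀ : Emb) (p : ℕ) [Fact p.Prime]
    [CharP F p] (s : ℕ) (hs : ∀ a : k, a ^ (p ^ s) = a) (g : GL (Fin 2) k) :
    subst κ g (lform F x₀ (p ^ s)) = C (κ x₀ (g.det : k)) * lform F x₀ (p ^ s) := by
  have hpow : ∀ j : Fin 2, (subst κ g (X (x₀, j))) ^ (p ^ s)
      = ∑ i : Fin 2, C (κ x₀ (g i j)) * X (x₀, i) ^ (p ^ s) := by
    intro j
    rw [subst_X, Fin.sum_univ_two, Fin.sum_univ_two, add_pow_char_pow, mul_pow, mul_pow, ← C_pow,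
      ← C_pow, ← map_pow, ← map_pow, hs, hs]
  unfold lform
  rw [map_sub, map_mul, map_mul, map_pow, map_pow, hpow, hpow, subst_X, subst_X]
  have hdet : (g.det : k) = g 0 0 * g 1 1 - g 0 1 * g 1 0 := by
    show Matrix.det (g : Matrix (Fin 2) (Fin 2) k) = _
    rw [Matrix.det_fin_two]
  rw [hdet]
  simp only [Fin.sum_univ_two, map_sub, map_mul]
  ring

lemma subst_dick {k : Type} [Field k] (κ : Emb → k →+* F) (x₀ : Emb) (p : ℕ) [Fact p.Prime]
    [CharP F p] (s : ℕ) (hs0 : 0 < s) (hs : ∀ a : k, a ^ (p ^ s) = a) (g : GL (Fin 2) k) :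
    subst κ g (dick F x₀ (p ^ s)) = dick F x₀ (p ^ s) := by
  have hp : 1 < p := (Fact.out : p.Prime).one_lt
  have hq : 1 < p ^ s := Nat.one_lt_pow hs0.ne' hp
  have h1 := lform_mul_dick (F := F) x₀ (p ^ s) hq.le
  have h2 := congrArg (subst κ g) h1
  rw [map_mul, subst_lform κ x₀ p s hs g] at h2
  have h3 : (p ^ s) ^ 2 = p ^ (s * 2) := by rw [← pow_mul]
  rw [h3, subst_lform κ x₀ p (s * 2) (fun a => by rw [pow_mul, pow_two, pow_mul, hs, hs]) g, ← h3,
    ← h1] at h2
  have h4 : C (κ x₀ (g.det : k)) * lform F x₀ (p ^ s) ≠ 0 := by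
    apply mul_ne_zero _ (lform_ne x₀ _ hq)
    rw [Ne, C_eq_zero, map_eq_zero]
    exact g.det.ne_zero
  apply mul_right_cancel₀ h4
  rw [h2]
  ring

lemma dick_mem (x₀ : Emb) (q : ℕ) {n : Emb → ℕ} (hn : n = Pi.single x₀ ((q - 1) * q)) :
    dick F x₀ q ∈ Homog F n := by
  unfold dick
  apply Submodule.sum_mem
  intro i hi
  rw [Finset.mem_range] at hi
  rw [← pow_mul, ← pow_mul]
  have h0 : (1 : MvPolynomial (Emb × Fin 2) F) ∈ Homog F (0 : Emb → ℕ) := by
    rw [mem_weightedHomogeneousSubmodule]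
    exact isWeightedHomogeneous_one _ _
  have h1 := X_pow_mul_mem x₀ 0 ((q - 1) * (q - i)) (n := 0)
    (n' := Pi.single x₀ ((q - 1) * (q - i))) (by simp) h0
  rw [mul_one] at h1
  refine X_pow_mul_mem x₀ 1 ((q - 1) * i) (n := Pi.single x₀ ((q - 1) * (q - i))) ?_ h1
  rw [hn, ← Pi.single_add, ← mul_add]
  congr 2
  omega

end dickson

end Pool.Agent.Work.MP_39033f_nt
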