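import Pool.Agent.Work.MP_39033f_nt.UnrPoly

set_option autoImplicit false

open MvPolynomial
open scoped MonoidAlgebra TensorProduct

/-!
The nonsplit torus of `GL₂(k)`, its characters, and evaluation of homogeneous polynomials at the
points of the projective line over `k₂` which are not defined over `k`.
-/

namespace Pool.Agent.Work.MP_39033f_nt

section torus

variable {k k2 : Type} [Field k] [Field k2]

/-- the row vector `(1, ω) g` -/
def rowm (ι : k →+* k2) (ω : k2) (g : GL (Fin 2) k) : Fin 2 → k2 :=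
  fun j => ι (g 0 j) + ω * ι (g 1 j)

lemma rowm_one (ι : k →+* k2) (ω : k2) : rowm ι ω 1 = ![1, ω] := by
  ext j
  fin_cases j <;> simp [rowm]

lemma rowm_mul (ι : k →+* k2) (ω : k2) (g h : GL (Fin 2) k) (j : Fin 2) :
    rowm ι ω (g * h) j = ∑ i, rowm ι ω g i * ι (h i j) := by
  simp only [rowm, Units.val_mul, Matrix.mul_apply, Fin.sum_univ_two, map_add, map_mul]
  ring

lemma rowm_mul_of (ι : k →+* k2) (ω : k2) (g h : GL (Fin 2) k)
    (hg : rowm ι ω g 1 = ω * rowm ι ω g 0) (j : Fin 2) :
    rowm ι ω (g * h) j = rowm ι ω g 0 * rowm ι ω h j := by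
  rw [rowm_mul, Fin.sum_univ_two, hg]
  simp only [rowm]
  ring

/-- the nonsplit torus: the stabiliser of the line of `(1, ω)` -/
def tor (ι : k →+* k2) (ω : k2) : Subgroup (GL (Fin 2) k) where
  carrier := {g | rowm ι ω g 1 = ω * rowm ι ω g 0}
  one_mem' := by
    show rowm ι ω 1 1 = ω * rowm ι ω 1 0
    rw [rowm_one]
    simp
  mul_mem' := by
    intro g h hg hh
    show rowm ι ω (g * h) 1 = ω * rowm ι ω (g * h) 0
    rw [rowm_mul_of ι ω g h hg, rowm_mul_of ι ω g h hg, hh]
    ring
  inv_mem' := by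
    intro g hg
    have h0 := rowm_mul_of ι ω g g⁻¹ hg 0
    have h1 := rowm_mul_of ι ω g g⁻¹ hg 1
    rw [mul_inv_cancel, rowm_one] at h0 h1
    simp only [Matrix.cons_val_zero, Matrix.cons_val_one] at h0 h1
    show rowm ι ω g⁻¹ 1 = ω * rowm ι ω g⁻¹ 0
    have hne : rowm ι ω g 0 ≠ 0 := by
      intro h; rw [h, zero_mul] at h0; exact one_ne_zero h0
    apply mul_left_cancel₀ hne
    rw [← h1]
    linear_combination ω * h0

lemma mem_tor (ι : k →+* k2) (ω : k2) (g : GL (Fin 2) k) :
    g ∈ tor ι ω ↔ rowm ι ω g 1 = ω * rowm ι ω g 0 := Iff.rfl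

lemma tor_ne (ι : k →+* k2) (ω : k2) (g : GL (Fin 2) k) (hg : g ∈ tor ι ω) :
    rowm ι ω g 0 ≠ 0 := by
  have h0 := rowm_mul_of ι ω g g⁻¹ hg 0
  rw [mul_inv_cancel, rowm_one] at h0
  simp only [Matrix.cons_val_zero] at h0
  intro h; rw [h, zero_mul] at h0; exact one_ne_zero h0

/-- the identification of the torus with `k₂ˣ`, as a multiplicative map to `k₂` -/
def torv (ι : k →+* k2) (ω : k2) : tor ι ω →* k2 where
  toFun g := rowm ι ω g 0
  map_one' := by
    show rowm ι ω 1 0 = 1
    rw [rowm_one]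
    simp
  map_mul' := by
    intro g h
    exact rowm_mul_of ι ω g h g.2 0

lemma rowm_tor_mul (ι : k →+* k2) (ω : k2) (h : tor ι ω) (g : GL (Fin 2) k) (j : Fin 2) :
    rowm ι ω (h * g) j = torv ι ω h * rowm ι ω g j :=
  rowm_mul_of ι ω h g h.2 j

lemma torv_ne (ι : k →+* k2) (ω : k2) (h : tor ι ω) : torv ι ω h ≠ 0 := tor_ne ι ω h h.2

variable (ι : k →+* k2) (ω : k2) (hω : ∀ a, ι a ≠ ω)

include hω

lemma indep {a b : k} (h : ι a + ω * ι b = 0) : a = 0 ∧ b = 0 := by
  by_cases hb : b = 0
  · subst hb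
    rw [map_zero, mul_zero, add_zero, map_eq_zero] at h
    exact ⟨h, rfl⟩
  · exfalso
    apply hω (-a / b)
    have hb' : ι b ≠ 0 := by rwa [Ne, map_eq_zero]
    rw [map_div₀, map_neg]
    field_simp
    linear_combination -h

lemma rowm_ne (g : GL (Fin 2) k) : rowm ι ω g 0 ≠ 0 := by
  intro h
  obtain ⟨h0, h1⟩ := indep ι ω hω h
  have hdet : (g.det : k) = g 0 0 * g 1 1 - g 0 1 * g 1 0 := by
    show Matrix.det (g : Matrix (Fin 2) (Fin 2) k) = _
    rw [Matrix.det_fin_two]
  apply g.det.ne_zero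
  rw [hdet, h0, h1]
  ring

lemma rowm_nonrat (g : GL (Fin 2) k) (a : k) : ι a ≠ rowm ι ω g 1 / rowm ι ω g 0 := by
  intro h
  rw [eq_div_iff (rowm_ne ι ω hω g)] at h
  unfold rowm at h
  have h2 : ι (g 0 1 - a * g 0 0) + ω * ι (g 1 1 - a * g 1 0) = 0 := by
    simp only [map_sub, map_mul]
    linear_combination -h
  obtain ⟨h0, h1⟩ := indep ι ω hω h2
  have hdet : (g.det : k) = g 0 0 * g 1 1 - g 0 1 * g 1 0 := by
    show Matrix.det (g : Matrix (Fin 2) (Fin 2) k) = _
    rw [Matrix.det_fin_two]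
  apply g.det.ne_zero
  rw [hdet]
  linear_combination (g 0 0) * h1 - (g 1 0) * h0

variable [Fintype k] [Fintype k2] (hcard : Fintype.card k2 = Fintype.card k ^ 2)

include hcard

lemma span_all (τ : k2) : ∃ a b : k, ι a + ω * ι b = τ := by
  have hinj : Function.Injective (fun ab : k × k => ι ab.1 + ω * ι ab.2) := by
    rintro ⟨a, b⟩ ⟨a', b'⟩ h
    simp only at h
    have h2 : ι (a - a') + ω * ι (b - b') = 0 := by
      simp only [map_sub]
      linear_combination h
    obtain ⟨h0, h1⟩ := indep ι ω hω h2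
    rw [sub_eq_zero] at h0 h1
    rw [h0, h1]
  have hbij := (Fintype.bijective_iff_injective_and_card _).mpr ⟨hinj, by
    rw [Fintype.card_prod, hcard, pow_two]⟩
  obtain ⟨⟨a, b⟩, h⟩ := hbij.2 τ
  exact ⟨a, b, h⟩

/-- every nonrational point of the line is hit -/
lemma exists_rowm (τ : k2) (hτ : ∀ a, ι a ≠ τ) : ∃ g : GL (Fin 2) k, rowm ι ω g = ![1, τ] := by
  obtain ⟨a, b, hab⟩ := span_all ι ω hω hcard τ
  have hb : b ≠ 0 := by
    intro h
    rw [h, map_zero, mul_zero, add_zero] at hab
    exact hτ a hab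
  refine ⟨Matrix.GeneralLinearGroup.mkOfDetNeZero !![1, a; 0, b] (by simp [hb]), ?_⟩
  ext j
  fin_cases j
  · simp [rowm, Matrix.GeneralLinearGroup.mkOfDetNeZero]
  · simp [rowm, Matrix.GeneralLinearGroup.mkOfDetNeZero, hab]

/-- the order of the torus -/
lemma card_tor [Fintype (tor ι ω)] : Fintype.card (tor ι ω) = Fintype.card k ^ 2 - 1 := by
  classical
  let e : tor ι ω → k2ˣ := fun g => Units.mk0 (torv ι ω g) (torv_ne ι ω g)
  have he : Function.Bijective e := by
    constructor
    · intro g g' h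
      have h1 : rowm ι ω (g : GL (Fin 2) k) 0 = rowm ι ω (g' : GL (Fin 2) k) 0 :=
        congrArg Units.val h
      have h2 : rowm ι ω (g : GL (Fin 2) k) 1 = rowm ι ω (g' : GL (Fin 2) k) 1 := by
        rw [g.2, g'.2, h1]
      apply Subtype.ext
      apply Units.ext
      have key : ∀ j : Fin 2, rowm ι ω (g : GL (Fin 2) k) j = rowm ι ω (g' : GL (Fin 2) k) j →
          (g : GL (Fin 2) k) 0 j = (g' : GL (Fin 2) k) 0 j ∧
          (g : GL (Fin 2) k) 1 j = (g' : GL (Fin 2) k) 1 j := by
        intro j hj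
        unfold rowm at hj
        have h3 : ι ((g : GL (Fin 2) k) 0 j - (g' : GL (Fin 2) k) 0 j)
            + ω * ι ((g : GL (Fin 2) k) 1 j - (g' : GL (Fin 2) k) 1 j) = 0 := by
          simp only [map_sub]
          linear_combination hj
        obtain ⟨h4, h5⟩ := indep ι ω hω h3
        exact ⟨sub_eq_zero.mp h4, sub_eq_zero.mp h5⟩
      ext i j
      fin_cases i <;> fin_cases j
      · exact (key 0 h1).1
      · exact (key 1 h2).1
      · exact (key 0 h1).2
      · exact (key 1 h2).2
    · intro c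
      obtain ⟨a, b, hab⟩ := span_all ι ω hω hcard (c : k2)
      obtain ⟨a', b', hab'⟩ := span_all ι ω hω hcard (ω * (c : k2))
      have hdet : a * b' - a' * b ≠ 0 := by
        intro h
        -- the two rows would be proportional over `k`
        have h1 : ι (a * b' - a' * b) = 0 := by rw [h, map_zero]
        simp only [map_sub, map_mul] at h1
        by_cases hb : b = 0
        · subst hb
          rw [map_zero, mul_zero, add_zero] at hab
          rw [map_zero, mul_zero, sub_zero] at h1
          rcases mul_eq_zero.mp h1 with h2 | h2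
          · rw [h2] at hab
            exact c.ne_zero hab.symm
          · rw [h2, mul_zero, add_zero] at hab'
            have ha : ι a ≠ 0 := by rw [hab]; exact c.ne_zero
            apply hω (a' / a)
            rw [map_div₀, div_eq_iff ha, hab', hab]
        · have hb' : ι b ≠ 0 := by rwa [Ne, map_eq_zero]
          apply hω (b' / b)
          rw [map_div₀, div_eq_iff hb']
          have h3 : ι b' * (ι a + ω * ι b) = ι b * (ι a' + ω * ι b') := by
            linear_combination h1
          rw [hab, hab'] at h3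
          have h4 : (c : k2) * (ι b' - ω * ι b) = 0 := by linear_combination h3
          have h5 := (mul_eq_zero.mp h4).resolve_left c.ne_zero
          linear_combination h5
      let g : GL (Fin 2) k := Matrix.GeneralLinearGroup.mkOfDetNeZero !![a, a'; b, b'] (by
        rw [Matrix.det_fin_two_of]
        exact hdet)
      have hg : g ∈ tor ι ω := by
        rw [mem_tor]
        show ι a' + ω * ι b' = ω * (ι a + ω * ι b)
        rw [hab, hab']
      refine ⟨⟨g, hg⟩, ?_⟩
      apply Units.ext
      show ι a + ω * ι b = c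
      exact hab
  rw [Fintype.card_of_bijective he, Fintype.card_units, hcard]

end torus

end Pool.Agent.Work.MP_39033f_nt
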